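import Mathlib

/-!
# LEAF Tc: Hadamard's three circles theorem

PROOF.  `F w = g (c + exp w)` on the strip `log r₁ ≤ Re w ≤ log r₃`: bounded, continuous, differentiable inside; the three lines theorem
(`Complex.HadamardThreeLines.norm_le_interp_of_mem_verticalClosedStrip'` in `Mathlib/Analysis/Complex/Hadamard.lean`).
`g` is differentiable on the larger ball `ball c R`, `r₃ < R`.
-/

set_option autoImplicit false

namespace Pool.Agent.Lib.MP_d713a4_nt

open Complex Metric

private lemma Tc_interp {A B s t : ℝ} (hA : 0 < A) (hAB : A ≤ B) (hst : s ≤ t) :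
    A ^ (1 - s) * B ^ s ≤ A ^ (1 - t) * B ^ t := by
  have hB : 0 < B := hA.trans_le hAB
  have key : ∀ x : ℝ, A ^ (1 - x) * B ^ x = A * (B / A) ^ x := by
    intro x
    rw [Real.rpow_sub hA, Real.rpow_one, Real.div_rpow hB.le hA.le]
    ring
  rw [key s, key t]
  have h1 : 1 ≤ B / A := by rwa [le_div_iff₀ hA, one_mul]
  exact mul_le_mul_of_nonneg_left (Real.rpow_le_rpow_of_exponent_le h1 hst) hA.le

theorem three_circles (r₁ r₂ r₃ R : ℝ) (h0 : 0 < r₁) (h1 : r₁ < r₂) (h2 : r₂ < r₃) (h3 : r₃ < R) :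
    ∃ θ : ℝ, 0 < θ ∧ θ < 1 ∧ ∀ (g : ℂ → ℂ) (c : ℂ) (A B : ℝ), 0 < A → A ≤ B → DifferentiableOn ℂ g (ball c R) →
      (∀ z ∈ closedBall c r₁, ‖g z‖ ≤ A) → (∀ z ∈ closedBall c r₃, ‖g z‖ ≤ B) →
      ∀ z ∈ closedBall c r₂, ‖g z‖ ≤ A ^ (1 - θ) * B ^ θ := by
  have hr2 : 0 < r₂ := h0.trans h1
  have hr3 : 0 < r₃ := hr2.trans h2
  have hR : 0 < R := hr3.trans h3
  have l12 : Real.log r₁ < Real.log r₂ := Real.log_lt_log h0 h1
  have l23 : Real.log r₂ < Real.log r₃ := Real.log_lt_log hr2 h2
  have l3R : Real.log r₃ < Real.log R := Real.log_lt_log hr3 h3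
  have l13 : Real.log r₁ < Real.log r₃ := l12.trans l23
  have hd : 0 < Real.log r₃ - Real.log r₁ := sub_pos.mpr l13
  refine ⟨(Real.log r₂ - Real.log r₁) / (Real.log r₃ - Real.log r₁), div_pos (sub_pos.mpr l12) hd, ?_, ?_⟩
  · rw [div_lt_one hd]
    linarith
  intro g c A B hA hAB hg hgA hgB z hz
  have hz2 : ‖z - c‖ ≤ r₂ := by rwa [mem_closedBall, dist_eq_norm] at hz
  rcases le_or_gt ‖z - c‖ r₁ with hs | hs
  · have h5 : ‖g z‖ ≤ A := hgA z (by rwa [mem_closedBall, dist_eq_norm])
    have h6 := Tc_interp hA hAB (div_pos (sub_pos.mpr l12) hd).le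
    rw [sub_zero, Real.rpow_one, Real.rpow_zero, mul_one] at h6
    exact h5.trans h6
  · have hzc : z - c ≠ 0 := by
      intro h
      rw [h, norm_zero] at hs
      linarith
    have hρ : 0 < ‖z - c‖ := norm_pos_iff.mpr hzc
    set F : ℂ → ℂ := fun w => g (c + exp w) with hF
    have hdF : DifferentiableOn ℂ F {w | w.re < Real.log R} := by
      have h7 : DifferentiableOn ℂ (fun w : ℂ => c + exp w) {w | w.re < Real.log R} :=
        ((differentiable_const c).add differentiable_exp).differentiableOn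
      refine hg.comp h7 ?_
      intro w hw
      have hw' : w.re < Real.log R := hw
      show c + exp w ∈ ball c R
      rw [mem_ball, dist_eq_norm, add_sub_cancel_left, norm_exp]
      calc Real.exp w.re < Real.exp (Real.log R) := Real.exp_lt_exp.mpr hw'
        _ = R := Real.exp_log hR
    have hsub : HadamardThreeLines.verticalClosedStrip (Real.log r₁) (Real.log r₃) ⊆ {w | w.re < Real.log R} := by
      intro w hw
      have hw' : w.re ∈ Set.Icc (Real.log r₁) (Real.log r₃) := hw
      exact hw'.2.trans_lt l3R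
    have hcl : closure (HadamardThreeLines.verticalStrip (Real.log r₁) (Real.log r₃)) ⊆
        HadamardThreeLines.verticalClosedStrip (Real.log r₁) (Real.log r₃) := by
      refine closure_minimal (fun w hw => ?_) (isClosed_Icc.preimage continuous_re)
      have hw' : w.re ∈ Set.Ioo (Real.log r₁) (Real.log r₃) := hw
      exact ⟨hw'.1.le, hw'.2.le⟩
    have hD : DiffContOnCl ℂ F (HadamardThreeLines.verticalStrip (Real.log r₁) (Real.log r₃)) :=
      (hdF.mono (hcl.trans hsub)).diffContOnCl
    have hball : ∀ w ∈ HadamardThreeLines.verticalClosedStrip (Real.log r₁) (Real.log r₃), ‖F w‖ ≤ B := by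
      intro w hw
      have hw' : w.re ∈ Set.Icc (Real.log r₁) (Real.log r₃) := hw
      refine hgB _ ?_
      rw [mem_closedBall, dist_eq_norm, add_sub_cancel_left, norm_exp]
      calc Real.exp w.re ≤ Real.exp (Real.log r₃) := Real.exp_le_exp.mpr hw'.2
        _ = r₃ := Real.exp_log hr3
    have hbd : BddAbove ((norm ∘ F) '' HadamardThreeLines.verticalClosedStrip (Real.log r₁) (Real.log r₃)) := by
      refine ⟨B, ?_⟩
      rintro _ ⟨w, hw, rfl⟩
      exact hball w hw
    have hre : (log (z - c)).re = Real.log ‖z - c‖ := log_re _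
    have hmem : log (z - c) ∈ HadamardThreeLines.verticalClosedStrip (Real.log r₁) (Real.log r₃) := by
      show (log (z - c)).re ∈ Set.Icc (Real.log r₁) (Real.log r₃)
      rw [hre]
      exact ⟨(Real.log_lt_log h0 hs).le, (Real.log_le_log hρ hz2).trans l23.le⟩
    have key := HadamardThreeLines.norm_le_interp_of_mem_verticalClosedStrip' l13 hmem hD hbd
      (a := A) (b := B) ?_ ?_
    · have e1 : F (log (z - c)) = g z := by
        show g (c + exp (log (z - c))) = g z
        rw [exp_log hzc]
        congr 1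
        ring
      rw [e1, hre] at key
      refine key.trans (Tc_interp hA hAB ?_)
      have h8 : Real.log ‖z - c‖ ≤ Real.log r₂ := Real.log_le_log hρ hz2
      gcongr
    · intro w hw
      have hw' : w.re = Real.log r₁ := hw
      refine hgA _ ?_
      rw [mem_closedBall, dist_eq_norm, add_sub_cancel_left, norm_exp, hw', Real.exp_log h0]
    · intro w hw
      have hw' : w.re = Real.log r₃ := hw
      refine hgB _ ?_
      rw [mem_closedBall, dist_eq_norm, add_sub_cancel_left, norm_exp, hw', Real.exp_log hr3]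

end Pool.Agent.Lib.MP_d713a4_nt
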