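import Pool.Agent.Lib.MP_d713a4_nt.Lg
import Pool.Agent.Lib.MP_d713a4_nt.Tc

/-!
# LEAF Bc: bounds for functions without zeros

PROOF.  `dlog_le`: `log_le` with the radii `3/2 - 3 h/4`, `3/2 - h/2`; `f'/f = g'`, Cauchy's estimate for `g'` with the radius `h/8`
(`Complex.norm_deriv_le_of_forall_mem_sphere_norm_le`).
`lind`: on `closedBall c (1 - h)` `‖g‖ ≤ A₁ (1 + 2 log K)` (`log_le` with the radii `1 - h`, `1 - h/2` and `M = K`; the two logarithms of `f`
differ by a constant `2 π i k`; simplest: use the normalisation at `c`, or apply the three circles theorem to `g - g c`, the difference of the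
two logarithms being constant, so that `g - g c` is the same function); on `closedBall c (3/2 - 3h/4)` `‖g‖ ≤ A₂ (1 + log M + log K)`; the three
circles theorem with `r₁ = 1 - h`, `r₂ = 3/2 - h`, `r₃ = 3/2 - 3h/4` gives `‖g z‖ ≤ A₃ (1 + log M)^θ ≤ A₄ + η log M`, `θ < 1`.
Then `‖f z‖ = exp (Re g) ` and `‖f z‖⁻¹ = exp (- Re g)`.
-/

set_option autoImplicit false

namespace Pool.Agent.Lib.MP_d713a4_nt

open Complex Metric

/-- The derivative of a logarithm is the logarithmic derivative. -/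
private theorem Bc_deriv {f g : ℂ → ℂ} {c : ℂ} {R : ℝ} (hg : DifferentiableOn ℂ g (ball c R))
    (he : ∀ z ∈ ball c R, cexp (g z) = f z) {z : ℂ} (hz : z ∈ ball c R) : deriv f z / f z = deriv g z := by
  have h1 : DifferentiableAt ℂ g z := hg.differentiableAt (isOpen_ball.mem_nhds hz)
  have h2 : f =ᶠ[nhds z] fun w => cexp (g w) := by
    filter_upwards [isOpen_ball.mem_nhds hz] with w hw
    exact (he w hw).symm
  have h3 : HasDerivAt (fun w => cexp (g w)) (cexp (g z) * deriv g z) z := h1.hasDerivAt.cexp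
  rw [h2.deriv_eq, h3.deriv, ← he z hz, mul_div_cancel_left₀ _ (Complex.exp_ne_zero _)]

/-- Two logarithms of the same function in a ball differ by a constant. -/
private theorem Bc_const {f g g₁ : ℂ → ℂ} {c : ℂ} {R : ℝ} (hR : 0 < R) (hg : DifferentiableOn ℂ g (ball c R))
    (he : ∀ z ∈ ball c R, cexp (g z) = f z) (hg₁ : DifferentiableOn ℂ g₁ (ball c R))
    (he₁ : ∀ z ∈ ball c R, cexp (g₁ z) = f z) {z : ℂ} (hz : z ∈ ball c R) : g z - g c = g₁ z - g₁ c := by
  have h1 : Set.EqOn (deriv fun w => g w - g₁ w) 0 (ball c R) := by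
    intro w hw
    have h2 : DifferentiableAt ℂ g w := hg.differentiableAt (isOpen_ball.mem_nhds hw)
    have h3 : DifferentiableAt ℂ g₁ w := hg₁.differentiableAt (isOpen_ball.mem_nhds hw)
    have h4 : deriv (fun w => g w - g₁ w) w = deriv g w - deriv g₁ w := deriv_fun_sub h2 h3
    rw [h4, ← Bc_deriv hg he hw, ← Bc_deriv hg₁ he₁ hw, sub_self, Pi.zero_apply]
  have h5 : (fun w => g w - g₁ w) z = (fun w => g w - g₁ w) c :=
    isOpen_ball.is_const_of_deriv_eq_zero (convex_ball c R).isPreconnected (hg.sub hg₁) h1 hz (mem_ball_self hR)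
  have h6 : g z - g₁ z = g c - g₁ c := h5
  linear_combination h6

/-- The inequality of Young with a small coefficient. -/
private theorem Bc_young (θ B a b η : ℝ) (h0 : 0 < θ) (h1 : θ < 1) (hB : 0 < B) (ha : 0 < a) (hb : 0 < b)
    (hη : 0 < η) : ∃ C : ℝ, ∀ L : ℝ, 0 ≤ L → B ^ (1 - θ) * (a + b * L) ^ θ ≤ C + η * L := by
  have hl : 0 < η / b := div_pos hη hb
  have h1' : 0 < 1 - θ := by linarith
  set x : ℝ := (B ^ (1 - θ) * ((η / b) ^ θ)⁻¹) ^ (1 - θ)⁻¹ with hx
  have hy0 : 0 < B ^ (1 - θ) * ((η / b) ^ θ)⁻¹ := by positivity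
  have hx0 : 0 < x := by rw [hx]; positivity
  refine ⟨(1 - θ) * x + θ * (η / b * a), fun L hL => ?_⟩
  have h2 : 0 < a + b * L := by positivity
  have h3 := Real.geom_mean_le_arith_mean2_weighted h1'.le h0.le hx0.le (mul_pos hl h2).le (by ring)
  have h4 : x ^ (1 - θ) = B ^ (1 - θ) * ((η / b) ^ θ)⁻¹ := by
    rw [hx, ← Real.rpow_mul hy0.le, inv_mul_cancel₀ h1'.ne', Real.rpow_one]
  have h5 : (η / b * (a + b * L)) ^ θ = (η / b) ^ θ * (a + b * L) ^ θ := Real.mul_rpow hl.le h2.le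
  have h6 : (η / b) ^ θ ≠ 0 := (Real.rpow_pos_of_pos hl θ).ne'
  have h7 : B ^ (1 - θ) * ((η / b) ^ θ)⁻¹ * ((η / b) ^ θ * (a + b * L) ^ θ) = B ^ (1 - θ) * (a + b * L) ^ θ := by
    field_simp
  rw [h4, h5, h7] at h3
  have h8 : η / b * (a + b * L) = η / b * a + η * L := by
    field_simp
  rw [h8] at h3
  have h9 : θ * (η * L) ≤ η * L := by
    have h10 : 0 ≤ η * L := by positivity
    nlinarith
  linarith

theorem dlog_le (h : ℝ) (h0 : 0 < h) (h1 : h < 1 / 2) : ∃ A : ℝ, 0 < A ∧ ∀ (f : ℂ → ℂ) (c : ℂ) (M K : ℝ), 1 ≤ M →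
    1 ≤ K → DifferentiableOn ℂ f (ball c (3 / 2 - h / 2)) → (∀ z ∈ ball c (3 / 2 - h / 2), f z ≠ 0) →
    (∀ z ∈ ball c (3 / 2 - h / 2), ‖f z‖ ≤ M) → K⁻¹ ≤ ‖f c‖ → ‖f c‖ ≤ K →
    ∀ z ∈ closedBall c (3 / 2 - h), ‖deriv f z / f z‖ ≤ A * (1 + Real.log M + Real.log K) := by
  obtain ⟨A, hA, hlog⟩ := log_le (3 / 2 - 3 * h / 4) (3 / 2 - h / 2) (by linarith) (by linarith)
  refine ⟨A / (h / 8), by positivity, ?_⟩
  intro f c M K hM hK hf hf0 hfM hc1 hc2 z hz
  obtain ⟨g, hg, he, hgb⟩ := hlog f c M K hM hK hf hf0 hfM hc1 hc2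
  rw [mem_closedBall] at hz
  have h2 : z ∈ ball c (3 / 2 - h / 2) := by
    rw [mem_ball]
    linarith
  rw [Bc_deriv hg he h2]
  have h3 : closedBall z (h / 8) ⊆ closedBall c (3 / 2 - 3 * h / 4) := by
    intro w hw
    rw [mem_closedBall] at hw ⊢
    have h4 := dist_triangle w z c
    linarith
  have h4 : closedBall z (h / 8) ⊆ ball c (3 / 2 - h / 2) := by
    intro w hw
    have h5 := h3 hw
    rw [mem_closedBall] at h5
    rw [mem_ball]
    linarith
  have h5 : ‖deriv g z‖ ≤ A * (1 + Real.log M + Real.log K) / (h / 8) := by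
    refine norm_deriv_le_of_forall_mem_sphere_norm_le (by positivity) (hg.diffContOnCl_ball h4) ?_
    intro w hw
    exact hgb w (h3 (sphere_subset_closedBall hw))
  refine h5.trans (le_of_eq ?_)
  ring

theorem lind (h η K : ℝ) (h0 : 0 < h) (h1 : h < 1 / 2) (hη : 0 < η) (hK : 1 ≤ K) : ∃ A : ℝ, 0 < A ∧
    ∀ (f : ℂ → ℂ) (c : ℂ) (M : ℝ), 1 ≤ M → DifferentiableOn ℂ f (ball c (3 / 2 - h / 2)) →
    (∀ z ∈ ball c (3 / 2 - h / 2), f z ≠ 0) → (∀ z ∈ ball c (3 / 2 - h / 2), ‖f z‖ ≤ M) →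
    (∀ z ∈ ball c (1 - h / 2), K⁻¹ ≤ ‖f z‖ ∧ ‖f z‖ ≤ K) →
    ∀ z ∈ closedBall c (3 / 2 - h), ‖f z‖ ≤ A * M ^ η ∧ ‖f z‖⁻¹ ≤ A * M ^ η := by
  obtain ⟨A₁, hA₁, hlog₁⟩ := log_le (1 - h) (1 - h / 2) (by linarith) (by linarith)
  obtain ⟨A₂, hA₂, hlog₂⟩ := log_le (3 / 2 - 3 * h / 4) (3 / 2 - h / 2) (by linarith) (by linarith)
  obtain ⟨θ, hθ0, hθ1, h3c⟩ := three_circles (1 - h) (3 / 2 - h) (3 / 2 - 3 * h / 4) (3 / 2 - h / 2)
    (by linarith) (by linarith) (by linarith) (by linarith)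
  have hlK : 0 ≤ Real.log K := Real.log_nonneg hK
  have hK0 : 0 < K := by linarith
  have hB : 0 < 2 * (A₁ * (1 + Real.log K + Real.log K)) := by positivity
  obtain ⟨C, hC⟩ := Bc_young θ (2 * (A₁ * (1 + Real.log K + Real.log K)))
    (2 * (A₁ * (1 + Real.log K + Real.log K)) + 2 * (A₂ * (1 + Real.log K))) (2 * A₂) η hθ0 hθ1 hB
    (by positivity) (by positivity) hη
  refine ⟨Real.exp (Real.log K + C), Real.exp_pos _, ?_⟩
  intro f c M hM hf hf0 hfM hfK z hz
  have hlM : 0 ≤ Real.log M := Real.log_nonneg hM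
  have hM0 : 0 < M := by linarith
  have hsub : ball c (1 - h / 2) ⊆ ball c (3 / 2 - h / 2) := ball_subset_ball (by linarith)
  have hc : c ∈ ball c (1 - h / 2) := mem_ball_self (by linarith)
  obtain ⟨g₁, hg₁, he₁, hb₁⟩ := hlog₁ f c K K hK hK (hf.mono hsub) (fun z hz => hf0 z (hsub hz))
    (fun z hz => (hfK z hz).2) (hfK c hc).1 (hfK c hc).2
  obtain ⟨g, hg, he, hb⟩ := hlog₂ f c M K hM hK hf hf0 hfM (hfK c hc).1 (hfK c hc).2
  have hG : ∀ z ∈ closedBall c (3 / 2 - h), ‖g z - g c‖ ≤ C + η * Real.log M := by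
    intro z hz
    have h2 := h3c (fun z => g z - g c) c (2 * (A₁ * (1 + Real.log K + Real.log K)))
      (2 * (A₁ * (1 + Real.log K + Real.log K)) + 2 * (A₂ * (1 + Real.log K)) + 2 * A₂ * Real.log M) hB ?_ ?_ ?_ ?_ z hz
    · exact h2.trans (hC _ hlM)
    · have h4 : 0 ≤ 2 * (A₂ * (1 + Real.log K)) + 2 * A₂ * Real.log M := by positivity
      linarith
    · exact hg.sub_const (g c)
    · intro w hw
      have hw' : w ∈ ball c (1 - h / 2) := by
        rw [mem_closedBall] at hw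
        rw [mem_ball]
        linarith
      have h4 : g w - g c = g₁ w - g₁ c :=
        Bc_const (by linarith) (hg.mono hsub) (fun z hz => he z (hsub hz)) hg₁ he₁ hw'
      show ‖g w - g c‖ ≤ _
      rw [h4]
      have h5 := hb₁ w hw
      have h6 := hb₁ c (mem_closedBall_self (by linarith))
      have h7 := norm_sub_le (g₁ w) (g₁ c)
      linarith
    · intro w hw
      have h5 := hb w hw
      have h6 := hb c (mem_closedBall_self (by linarith))
      have h7 := norm_sub_le (g w) (g c)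
      show ‖g w - g c‖ ≤ _
      have h8 : A₂ * (1 + Real.log M + Real.log K) = A₂ * (1 + Real.log K) + A₂ * Real.log M := by ring
      rw [h8] at h5 h6
      linarith
  have hre : |(g c).re| ≤ Real.log K := by
    have h2 : (g c).re = Real.log ‖f c‖ := by
      rw [← he c (hsub hc), Complex.norm_exp, Real.log_exp]
    have h3 : 0 < ‖f c‖ := norm_pos_iff.2 (hf0 c (hsub hc))
    rw [h2, abs_le]
    refine ⟨?_, Real.log_le_log h3 (hfK c hc).2⟩
    rw [← Real.log_inv]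
    exact Real.log_le_log (inv_pos.2 hK0) (hfK c hc).1
  have hzb : z ∈ ball c (3 / 2 - h / 2) := by
    rw [mem_closedBall] at hz
    rw [mem_ball]
    linarith
  have hrez : |(g z).re| ≤ Real.log K + C + η * Real.log M := by
    have h2 := hG z hz
    have h3 : |(g z - g c).re| ≤ ‖g z - g c‖ := Complex.abs_re_le_norm _
    rw [Complex.sub_re] at h3
    have h4 : |(g z).re| ≤ |(g z).re - (g c).re| + |(g c).re| := by
      have h5 := abs_add_le ((g z).re - (g c).re) (g c).re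
      rwa [sub_add_cancel] at h5
    linarith
  have hexp : Real.exp (Real.log K + C + η * Real.log M) = Real.exp (Real.log K + C) * M ^ η := by
    rw [Real.exp_add, Real.rpow_def_of_pos hM0, mul_comm η]
  have hn : ‖f z‖ = Real.exp (g z).re := by rw [← he z hzb, Complex.norm_exp]
  rw [← hexp, hn, ← Real.exp_neg]
  exact ⟨Real.exp_le_exp.2 ((le_abs_self _).trans hrez), Real.exp_le_exp.2 ((neg_le_abs _).trans hrez)⟩

end Pool.Agent.Lib.MP_d713a4_nt
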