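import Pool.Agent.Lib.MP_d713a4_nt.Xg

/-!
# LEAF Be: Bessel's inequality

PROOF.  Put `x_p = p^(-σ) ext σ T₀ T p E = (1/2π) ∫ E p^(it) gau`.  `∑ |x_p|² = ∑ conj x_p x_p = (1/2π) ∫ E(t) (∑_p conj x_p p^(it)) gau dt
≤ (1/2π) (∫ ‖E‖² wg)^(1/2) (∫ ‖∑_p conj x_p p^(it)‖² wg)^(1/2)`, and
`∫ ‖∑ conj x_p p^(it)‖² wg = ∑_(p,q) conj x_p x_q ∫ (p/q)^(it) wg ≤ ∑_(p,q) (|x_p|² + |x_q|²)/2 |∫ (p/q)^(it) wg| ≤
(∑ |x_p|²) T √π exp(σ²/T²) (1 + P exp(-T²/(16 P²)))` by `wg_four`: `|log (p/q)| ≥ 1/(2P)` for `p ≠ q` in `[P, 2P)`; the last factor is at most `2`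
by `hT2`, `√π exp(σ²/T²) ≤ 2 · 3`.
-/

set_option autoImplicit false

namespace Pool.Agent.Lib.MP_d713a4_nt

open Complex MeasureTheory

/-- the oscillating factor -/
private noncomputable def Be_e (p : ℕ) (t : ℝ) : ℂ := cexp (((Real.log p * t : ℝ) : ℂ) * I)

private theorem Be_norm_e (p : ℕ) (t : ℝ) : ‖Be_e p t‖ = 1 := Complex.norm_exp_ofReal_mul_I _

private theorem Be_cont_e (p : ℕ) : Continuous (Be_e p) := by
  unfold Be_e
  fun_prop

private theorem Be_pow (σ : ℝ) {p : ℕ} (hp : 0 < p) (t : ℝ) :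
    (((p : ℝ) ^ (-σ) : ℝ) : ℂ) * (p : ℂ) ^ (σ + t * I : ℂ) = Be_e p t := by
  have hp0 : (0 : ℝ) < p := by exact_mod_cast hp
  have hpc : (p : ℂ) ≠ 0 := by exact_mod_cast hp.ne'
  rw [Complex.ofReal_cpow hp0.le, Complex.ofReal_natCast, ← Complex.cpow_add _ _ hpc,
    Complex.cpow_def_of_ne_zero hpc, ← Complex.natCast_log]
  unfold Be_e
  congr 1
  push_cast
  ring

private theorem Be_log {P p q : ℕ} (hP : 1 ≤ P) (hp : P ≤ p) (hp2 : p < 2 * P) (hq : P ≤ q) (hq2 : q < 2 * P)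
    (hpq : p < q) : 1 / (2 * (P : ℝ)) ≤ Real.log q - Real.log p := by
  have hp0 : (0 : ℝ) < p := by exact_mod_cast (by omega : 0 < p)
  have hq0 : (0 : ℝ) < q := by exact_mod_cast (by omega : 0 < q)
  have hP0 : (0 : ℝ) < P := by exact_mod_cast (by omega : 0 < P)
  have h1 := Real.log_le_sub_one_of_pos (div_pos hp0 hq0)
  rw [Real.log_div hp0.ne' hq0.ne'] at h1
  have h2 : (p : ℝ) + 1 ≤ q := by exact_mod_cast hpq
  have h3 : (q : ℝ) ≤ 2 * P := by exact_mod_cast hq2.le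
  have h4 : 1 / (2 * (P : ℝ)) ≤ 1 - p / q := by
    have e : 1 - (p : ℝ) / q = (q - p) / q := by field_simp
    rw [e, div_le_div_iff₀ (by positivity) hq0]
    nlinarith
  linarith

private theorem Be_gap {P p q : ℕ} (hP : 1 ≤ P) (hp : P ≤ p) (hp2 : p < 2 * P) (hq : P ≤ q) (hq2 : q < 2 * P)
    (hpq : p ≠ q) : (1 / (2 * (P : ℝ))) ^ 2 ≤ (Real.log p - Real.log q) ^ 2 := by
  have hP0 : (0 : ℝ) < P := by exact_mod_cast (by omega : 0 < P)
  have h0 : (0 : ℝ) ≤ 1 / (2 * (P : ℝ)) := by positivity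
  rcases lt_or_gt_of_ne hpq with h | h
  · have h1 := Be_log hP hp hp2 hq hq2 h
    nlinarith
  · have h1 := Be_log hP hq hq2 hp hp2 h
    nlinarith

/-- the second moment of the Dirichlet polynomial -/
private theorem Be_mom (σ T₀ T : ℝ) (P : ℕ) (hP : 1 ≤ P) (hT : 0 < T)
    (hT2 : P * Real.exp (-(T ^ 2 / (16 * P ^ 2))) ≤ 1) (x : ℕ → ℂ) :
    Integrable (fun t => ‖∑ p ∈ PP P, (starRingEnd ℂ) (x p) * Be_e p t‖ ^ 2 * wg σ T₀ T t) ∧
    ∫ t : ℝ, ‖∑ p ∈ PP P, (starRingEnd ℂ) (x p) * Be_e p t‖ ^ 2 * wg σ T₀ T t ≤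
      2 * (T * Real.sqrt Real.pi * Real.exp (σ ^ 2 / T ^ 2)) * ∑ p ∈ PP P, ‖x p‖ ^ 2 := by
  have hwi := (wg_int σ T₀ T hT).1
  have hW0 : 0 ≤ T * Real.sqrt Real.pi * Real.exp (σ ^ 2 / T ^ 2) := by positivity
  have hmem : ∀ p ∈ PP P, P ≤ p ∧ p < 2 * P := fun p hp => by
    have := Finset.mem_Ico.1 (Finset.mem_filter.1 hp).1
    exact this
  have hcard : ((PP P).card : ℝ) ≤ P := by
    have h1 : (PP P).card ≤ (Finset.Ico P (2 * P)).card := Finset.card_filter_le _ _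
    rw [Nat.card_Ico] at h1
    have h2 : (PP P).card ≤ P := by omega
    exact_mod_cast h2
  -- the pair integrals
  have hint : ∀ p q : ℕ, Integrable fun t : ℝ => cexp (((Real.log p - Real.log q : ℝ) : ℂ) * t * I) *
      ((wg σ T₀ T t : ℝ) : ℂ) := by
    intro p q
    refine hwi.ofReal.bdd_mul (c := 1) (by fun_prop) (Filter.Eventually.of_forall fun t => ?_)
    have e : (((Real.log p - Real.log q : ℝ) : ℂ) * t * I) = (((Real.log p - Real.log q) * t : ℝ) : ℂ) * I := by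
      push_cast
      ring
    rw [e, Complex.norm_exp_ofReal_mul_I]
  have hpt : ∀ t : ℝ, (((‖∑ p ∈ PP P, (starRingEnd ℂ) (x p) * Be_e p t‖ ^ 2 * wg σ T₀ T t : ℝ)) : ℂ) =
      ∑ p ∈ PP P, ∑ q ∈ PP P, (starRingEnd ℂ) (x p) * x q *
        (cexp (((Real.log p - Real.log q : ℝ) : ℂ) * t * I) * ((wg σ T₀ T t : ℝ) : ℂ)) := by
    intro t
    have h1 : ((‖∑ p ∈ PP P, (starRingEnd ℂ) (x p) * Be_e p t‖ ^ 2 : ℝ) : ℂ) =
        (∑ p ∈ PP P, (starRingEnd ℂ) (x p) * Be_e p t) *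
          (starRingEnd ℂ) (∑ q ∈ PP P, (starRingEnd ℂ) (x q) * Be_e q t) := by
      rw [Complex.mul_conj, Complex.normSq_eq_norm_sq]
    rw [Complex.ofReal_mul, h1, map_sum, Finset.sum_mul_sum, Finset.sum_mul]
    refine Finset.sum_congr rfl fun p _ => ?_
    rw [Finset.sum_mul]
    refine Finset.sum_congr rfl fun q _ => ?_
    have h2 : Be_e p t * (starRingEnd ℂ) (Be_e q t) = cexp (((Real.log p - Real.log q : ℝ) : ℂ) * t * I) := by
      unfold Be_e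
      rw [← Complex.exp_conj, ← Complex.exp_add]
      congr 1
      rw [map_mul, Complex.conj_ofReal, Complex.conj_I]
      push_cast
      ring
    rw [map_mul, Complex.conj_conj, ← h2]
    ring
  have hintC : Integrable fun t : ℝ =>
      (((‖∑ p ∈ PP P, (starRingEnd ℂ) (x p) * Be_e p t‖ ^ 2 * wg σ T₀ T t : ℝ)) : ℂ) := by
    simp only [hpt]
    exact integrable_finsetSum _ fun p _ => integrable_finsetSum _ fun q _ => (hint p q).const_mul _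
  have hintR : Integrable (fun t => ‖∑ p ∈ PP P, (starRingEnd ℂ) (x p) * Be_e p t‖ ^ 2 * wg σ T₀ T t) := by
    have := hintC.re
    simpa only [RCLike.re_to_complex, Complex.ofReal_re] using this
  refine ⟨hintR, ?_⟩
  have h1 : (((∫ t : ℝ, ‖∑ p ∈ PP P, (starRingEnd ℂ) (x p) * Be_e p t‖ ^ 2 * wg σ T₀ T t) : ℝ) : ℂ) =
      ∑ p ∈ PP P, ∑ q ∈ PP P, (starRingEnd ℂ) (x p) * x q *
        ∫ t : ℝ, (cexp (((Real.log p - Real.log q : ℝ) : ℂ) * t * I) * ((wg σ T₀ T t : ℝ) : ℂ)) := by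
    rw [← integral_complex_ofReal]
    simp only [hpt]
    rw [integral_finsetSum _ fun p _ => integrable_finsetSum _ fun q _ => (hint p q).const_mul _]
    refine Finset.sum_congr rfl fun p _ => ?_
    rw [integral_finsetSum _ fun q _ => (hint p q).const_mul _]
    refine Finset.sum_congr rfl fun q _ => ?_
    exact integral_const_mul _ _
  have h0 : 0 ≤ ∫ t : ℝ, ‖∑ p ∈ PP P, (starRingEnd ℂ) (x p) * Be_e p t‖ ^ 2 * wg σ T₀ T t :=
    integral_nonneg fun t => mul_nonneg (sq_nonneg _) (Real.exp_pos _).le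
  have h2 : ∫ t : ℝ, ‖∑ p ∈ PP P, (starRingEnd ℂ) (x p) * Be_e p t‖ ^ 2 * wg σ T₀ T t =
      ‖∑ p ∈ PP P, ∑ q ∈ PP P, (starRingEnd ℂ) (x p) * x q *
        ∫ t : ℝ, (cexp (((Real.log p - Real.log q : ℝ) : ℂ) * t * I) * ((wg σ T₀ T t : ℝ) : ℂ))‖ := by
    rw [← h1, Complex.norm_of_nonneg h0]
  rw [h2]
  -- termwise bound
  set W := T * Real.sqrt Real.pi * Real.exp (σ ^ 2 / T ^ 2) with hW
  set η := Real.exp (-(T ^ 2 / (16 * (P : ℝ) ^ 2))) with hη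
  have hη0 : 0 ≤ η := (Real.exp_pos _).le
  have h3 : ∀ p ∈ PP P, ∀ q ∈ PP P, ‖(starRingEnd ℂ) (x p) * x q *
      ∫ t : ℝ, (cexp (((Real.log p - Real.log q : ℝ) : ℂ) * t * I) * ((wg σ T₀ T t : ℝ) : ℂ))‖ ≤
      (‖x p‖ ^ 2 + ‖x q‖ ^ 2) / 2 * (W * ((if p = q then 1 else 0) + η)) := by
    intro p hp q hq
    rw [norm_mul, norm_mul, RCLike.norm_conj, wg_four σ T₀ T _ hT, ← hW]
    have h4 : ‖x p‖ * ‖x q‖ ≤ (‖x p‖ ^ 2 + ‖x q‖ ^ 2) / 2 := by nlinarith [sq_nonneg (‖x p‖ - ‖x q‖)]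
    have h5 : Real.exp (-(T ^ 2 * (Real.log p - Real.log q) ^ 2 / 4)) ≤ (if p = q then 1 else 0) + η := by
      split_ifs with h
      · have : Real.exp (-(T ^ 2 * (Real.log p - Real.log q) ^ 2 / 4)) ≤ 1 :=
          Real.exp_le_one_iff.2 (by
            have : 0 ≤ T ^ 2 * (Real.log p - Real.log q) ^ 2 / 4 := by positivity
            linarith)
        linarith
      · rw [zero_add]
        refine Real.exp_le_exp.2 (neg_le_neg ?_)
        have h6 := Be_gap hP (hmem p hp).1 (hmem p hp).2 (hmem q hq).1 (hmem q hq).2 h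
        have h7 : T ^ 2 / (16 * (P : ℝ) ^ 2) = T ^ 2 * (1 / (2 * (P : ℝ))) ^ 2 / 4 := by
          have hP0 : (P : ℝ) ≠ 0 := by
            have : 0 < P := by omega
            exact_mod_cast this.ne'
          field_simp
          norm_num
        rw [h7]
        have := mul_le_mul_of_nonneg_left h6 (sq_nonneg T)
        linarith
    exact mul_le_mul h4 (mul_le_mul_of_nonneg_left h5 hW0) (by positivity) (by positivity)
  refine (norm_sum_le _ _).trans ((Finset.sum_le_sum fun p hp => (norm_sum_le _ _).trans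
    (Finset.sum_le_sum fun q hq => h3 p hp q hq)).trans ?_)
  -- the double sum
  have h8 : ∑ p ∈ PP P, ∑ q ∈ PP P, (‖x p‖ ^ 2 + ‖x q‖ ^ 2) / 2 * (W * ((if p = q then 1 else 0) + η)) =
      W * (∑ p ∈ PP P, ‖x p‖ ^ 2) + W * η * ((PP P).card * ∑ p ∈ PP P, ‖x p‖ ^ 2) := by
    have e1 : ∀ p ∈ PP P, ∑ q ∈ PP P, (‖x p‖ ^ 2 + ‖x q‖ ^ 2) / 2 * (W * ((if p = q then 1 else 0) + η)) =
        W * ‖x p‖ ^ 2 + W * η * (((PP P).card * ‖x p‖ ^ 2 + ∑ q ∈ PP P, ‖x q‖ ^ 2) / 2) := by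
      intro p hp
      have e2 : ∀ q ∈ PP P, (‖x p‖ ^ 2 + ‖x q‖ ^ 2) / 2 * (W * ((if p = q then 1 else 0) + η)) =
          (if p = q then W * ‖x q‖ ^ 2 else 0) + W * η / 2 * (‖x p‖ ^ 2 + ‖x q‖ ^ 2) := by
        intro q _
        split_ifs with h
        · subst h
          ring
        · ring
      rw [Finset.sum_congr rfl e2, Finset.sum_add_distrib, Finset.sum_ite_eq, if_pos hp, ← Finset.mul_sum,
        Finset.sum_add_distrib, Finset.sum_const, nsmul_eq_mul]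
      ring
    rw [Finset.sum_congr rfl e1, Finset.sum_add_distrib, ← Finset.mul_sum, ← Finset.mul_sum, ← Finset.sum_div,
      Finset.sum_add_distrib, ← Finset.mul_sum, Finset.sum_const, nsmul_eq_mul]
    ring
  rw [h8]
  have hS0 : 0 ≤ ∑ p ∈ PP P, ‖x p‖ ^ 2 := Finset.sum_nonneg fun p _ => sq_nonneg _
  have h9 : η * (PP P).card ≤ 1 := by
    calc η * (PP P).card ≤ η * P := mul_le_mul_of_nonneg_left hcard hη0
      _ = P * η := mul_comm _ _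
      _ ≤ 1 := hT2
  have h10 : W * η * ((PP P).card * ∑ p ∈ PP P, ‖x p‖ ^ 2) ≤ W * ∑ p ∈ PP P, ‖x p‖ ^ 2 := by
    have e : W * η * ((PP P).card * ∑ p ∈ PP P, ‖x p‖ ^ 2) = (η * (PP P).card) * (W * ∑ p ∈ PP P, ‖x p‖ ^ 2) := by
      ring
    rw [e]
    have h11 : 0 ≤ W * ∑ p ∈ PP P, ‖x p‖ ^ 2 := mul_nonneg hW0 hS0
    calc (η * (PP P).card) * (W * ∑ p ∈ PP P, ‖x p‖ ^ 2) ≤ 1 * (W * ∑ p ∈ PP P, ‖x p‖ ^ 2) :=
          mul_le_mul_of_nonneg_right h9 h11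
      _ = _ := one_mul _
  linarith

theorem bessel (σ T₀ T : ℝ) (h0 : 0 < σ) (h1 : σ < 1) (P : ℕ) (hP : 1 ≤ P) (hT : 1 ≤ T)
    (hT2 : P * Real.exp (-(T ^ 2 / (16 * P ^ 2))) ≤ 1) (E : ℝ → ℂ) (hE : Measurable E)
    (hE2 : Integrable fun t => ‖E t‖ ^ 2 * wg σ T₀ T t) :
    ∑ p ∈ PP P, (p : ℝ) ^ (-(2 * σ)) * ‖ext σ T₀ T p E‖ ^ 2 ≤ T * ∫ t : ℝ, ‖E t‖ ^ 2 * wg σ T₀ T t := by
  have hT0 : 0 < T := by linarith
  have hwi := (wg_int σ T₀ T hT0).1
  have hwp : ∀ t, 0 < wg σ T₀ T t := fun t => Real.exp_pos _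
  have hmem : ∀ p ∈ PP P, 0 < p := fun p hp => by
    have := Finset.mem_Ico.1 (Finset.mem_filter.1 hp).1
    omega
  let x : ℕ → ℂ := fun p => (((p : ℝ) ^ (-σ) : ℝ) : ℂ) * ext σ T₀ T p E
  -- the integrands
  have hgm : Continuous fun t : ℝ => gau T₀ T (σ + t * I) := by
    unfold gau
    fun_prop
  have hF : ∀ p, Integrable fun t : ℝ => E t * Be_e p t * gau T₀ T (σ + t * I) := by
    intro p
    have hb : Integrable fun t : ℝ => (‖E t‖ ^ 2 * wg σ T₀ T t + wg σ T₀ T t) := hE2.add hwi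
    refine hb.mono' ?_ (Filter.Eventually.of_forall fun t => ?_)
    · exact ((hE.aestronglyMeasurable).mul (Be_cont_e p).aestronglyMeasurable).mul hgm.aestronglyMeasurable
    · rw [norm_mul, norm_mul, Be_norm_e, mul_one, norm_gau]
      have := hwp t
      nlinarith [sq_nonneg (‖E t‖ - 1), norm_nonneg (E t), sq_nonneg (‖E t‖)]
  have hx : ∀ p ∈ PP P, x p = ((1 / (2 * Real.pi) : ℝ) : ℂ) * ∫ t : ℝ, E t * Be_e p t * gau T₀ T (σ + t * I) := by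
    intro p hp
    show (((p : ℝ) ^ (-σ) : ℝ) : ℂ) * ext σ T₀ T p E = _
    unfold ext
    rw [← mul_assoc, mul_comm (((p : ℝ) ^ (-σ) : ℝ) : ℂ), mul_assoc, ← integral_const_mul]
    congr 2
    funext t
    rw [← Be_pow σ (hmem p hp) t]
    ring
  have hS : ∑ p ∈ PP P, (p : ℝ) ^ (-(2 * σ)) * ‖ext σ T₀ T p E‖ ^ 2 = ∑ p ∈ PP P, ‖x p‖ ^ 2 := by
    refine Finset.sum_congr rfl fun p hp => ?_
    have hp0 : (0 : ℝ) < p := by exact_mod_cast hmem p hp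
    show _ = ‖(((p : ℝ) ^ (-σ) : ℝ) : ℂ) * ext σ T₀ T p E‖ ^ 2
    rw [norm_mul, mul_pow, Complex.norm_real, Real.norm_of_nonneg (Real.rpow_nonneg hp0.le _),
      ← Real.rpow_natCast ((p : ℝ) ^ (-σ)) 2, ← Real.rpow_mul hp0.le]
    congr 2
    push_cast
    ring
  rw [hS]
  set S := ∑ p ∈ PP P, ‖x p‖ ^ 2 with hSdef
  have hS0 : 0 ≤ S := Finset.sum_nonneg fun p _ => sq_nonneg _
  set B := ∫ t : ℝ, ‖E t‖ ^ 2 * wg σ T₀ T t with hB
  have hB0 : 0 ≤ B := integral_nonneg fun t => mul_nonneg (sq_nonneg _) (hwp t).le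
  obtain ⟨hDi, hDm⟩ := Be_mom σ T₀ T P hP hT0 hT2 x
  set W := T * Real.sqrt Real.pi * Real.exp (σ ^ 2 / T ^ 2) with hW
  have hW0 : 0 < W := by positivity
  have hpi := Real.pi_pos
  set c : ℝ := W / Real.pi with hc
  have hc0 : 0 < c := by positivity
  have h2 : ((S : ℝ) : ℂ) = ((1 / (2 * Real.pi) : ℝ) : ℂ) * ∫ t : ℝ,
      E t * (∑ p ∈ PP P, (starRingEnd ℂ) (x p) * Be_e p t) * gau T₀ T (σ + t * I) := by
    have e1 : (fun t : ℝ => E t * (∑ p ∈ PP P, (starRingEnd ℂ) (x p) * Be_e p t) * gau T₀ T (σ + t * I)) =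
        fun t : ℝ => ∑ p ∈ PP P, (starRingEnd ℂ) (x p) * (E t * Be_e p t * gau T₀ T (σ + t * I)) := by
      funext t
      rw [Finset.mul_sum, Finset.sum_mul]
      exact Finset.sum_congr rfl fun p _ => by ring
    rw [e1, integral_finsetSum _ fun p _ => (hF p).const_mul _, Finset.mul_sum, hSdef, Complex.ofReal_sum]
    refine Finset.sum_congr rfl fun p hp => ?_
    rw [integral_const_mul, mul_left_comm, ← hx p hp, mul_comm, Complex.mul_conj, Complex.normSq_eq_norm_sq]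
  have h3 : S ≤ 1 / (2 * Real.pi) * ∫ t : ℝ, (c / 2 * (‖E t‖ ^ 2 * wg σ T₀ T t) +
      1 / (2 * c) * (‖∑ p ∈ PP P, (starRingEnd ℂ) (x p) * Be_e p t‖ ^ 2 * wg σ T₀ T t)) := by
    have e2 : S = ‖((S : ℝ) : ℂ)‖ := by rw [Complex.norm_of_nonneg hS0]
    rw [e2, h2, norm_mul, Complex.norm_of_nonneg (by positivity)]
    refine mul_le_mul_of_nonneg_left ?_ (by positivity)
    refine norm_integral_le_of_norm_le ((hE2.const_mul _).add (hDi.const_mul _))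
      (Filter.Eventually.of_forall fun t => ?_)
    rw [norm_mul, norm_mul, norm_gau]
    have h4 : ‖E t‖ * ‖∑ p ∈ PP P, (starRingEnd ℂ) (x p) * Be_e p t‖ ≤
        c / 2 * ‖E t‖ ^ 2 + 1 / (2 * c) * ‖∑ p ∈ PP P, (starRingEnd ℂ) (x p) * Be_e p t‖ ^ 2 := by
      have e3 : c / 2 * ‖E t‖ ^ 2 + 1 / (2 * c) * ‖∑ p ∈ PP P, (starRingEnd ℂ) (x p) * Be_e p t‖ ^ 2 -
          ‖E t‖ * ‖∑ p ∈ PP P, (starRingEnd ℂ) (x p) * Be_e p t‖ =
          1 / (2 * c) * (c * ‖E t‖ - ‖∑ p ∈ PP P, (starRingEnd ℂ) (x p) * Be_e p t‖) ^ 2 := by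
        field_simp
        ring
      have e4 : 0 ≤ 1 / (2 * c) * (c * ‖E t‖ - ‖∑ p ∈ PP P, (starRingEnd ℂ) (x p) * Be_e p t‖) ^ 2 := by positivity
      linarith
    have h5 := mul_le_mul_of_nonneg_right h4 (hwp t).le
    have e5 : (c / 2 * ‖E t‖ ^ 2 + 1 / (2 * c) * ‖∑ p ∈ PP P, (starRingEnd ℂ) (x p) * Be_e p t‖ ^ 2) *
        wg σ T₀ T t = c / 2 * (‖E t‖ ^ 2 * wg σ T₀ T t) +
      1 / (2 * c) * (‖∑ p ∈ PP P, (starRingEnd ℂ) (x p) * Be_e p t‖ ^ 2 * wg σ T₀ T t) := by ring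
    rw [e5] at h5
    exact h5
  rw [integral_add (hE2.const_mul _) (hDi.const_mul _), integral_const_mul, integral_const_mul, ← hB] at h3
  have h6 : 1 / (2 * c) * ∫ t : ℝ, ‖∑ p ∈ PP P, (starRingEnd ℂ) (x p) * Be_e p t‖ ^ 2 * wg σ T₀ T t ≤
      1 / (2 * c) * (2 * W * S) := mul_le_mul_of_nonneg_left hDm (by positivity)
  have h7 : 1 / (2 * c) * (2 * W * S) = Real.pi * S := by
    rw [hc]
    field_simp
  rw [h7] at h6
  have h8 : S ≤ 1 / (2 * Real.pi) * (c / 2 * B + Real.pi * S) :=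
    h3.trans (mul_le_mul_of_nonneg_left (by linarith) (by positivity))
  have h9 : 1 / (2 * Real.pi) * (c / 2 * B + Real.pi * S) = c * B / (4 * Real.pi) + S / 2 := by
    field_simp
    ring
  rw [h9] at h8
  have h10 : S ≤ c * B / (2 * Real.pi) := by
    have e : c * B / (2 * Real.pi) = 2 * (c * B / (4 * Real.pi)) := by
      field_simp
      ring
    rw [e]
    linarith
  have hpi3 := Real.pi_gt_three
  have h11 : W ≤ T * 6 := by
    have a1 : Real.sqrt Real.pi ≤ 2 := by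
      rw [Real.sqrt_le_left (by norm_num)]
      linarith [Real.pi_lt_four]
    have a2 : Real.exp (σ ^ 2 / T ^ 2) ≤ 3 := by
      have a3 : σ ^ 2 / T ^ 2 ≤ 1 := by
        rw [div_le_one (by positivity)]
        nlinarith
      have a4 := Real.exp_one_lt_d9
      have a5 := Real.exp_le_exp.2 a3
      linarith
    have a6 : Real.sqrt Real.pi * Real.exp (σ ^ 2 / T ^ 2) ≤ 2 * 3 :=
      mul_le_mul a1 a2 (Real.exp_pos _).le (by norm_num)
    rw [hW, mul_assoc]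
    exact mul_le_mul_of_nonneg_left (by linarith) hT0.le
  have h12 : c * B / (2 * Real.pi) ≤ T * B := by
    rw [div_le_iff₀ (by positivity), hc]
    have b1 : W / Real.pi ≤ T * 2 := by
      rw [div_le_iff₀ hpi]
      nlinarith
    have b2 : W / Real.pi * B ≤ T * 2 * B := mul_le_mul_of_nonneg_right b1 hB0
    have b3 : 0 ≤ T * B := mul_nonneg hT0.le hB0
    nlinarith
  exact h10.trans h12

end Pool.Agent.Lib.MP_d713a4_nt
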