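import Pool.Agent.Lib.MP_d713a4_nt.Defs

/-!
# LEAF Ch: the characters

PROOF.  `chi_apply`: `ZMod.val_natCast`, `jacobiSym.mod_left`.  `norm_chi_le`: `jacobiSym` is `0`, `1` or `-1` (`jacobiSym.trichotomy`).
`chi_ne_one`: take a prime `q ∣ n` (odd), `n = q m`, `m` prime to `q` (squarefree); a nonresidue `b` modulo `q` and, by the Chinese remainder
theorem, `c ≡ b` modulo `q`, `c ≡ 1` modulo `m`; `J(c | n) = J(c | q) J(c | m) = -1`, and `c` is a unit modulo `n`.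
`recip`: `jacobiSym.quadratic_reciprocity_one_mod_four`.  `ch_two`: `ZMod.exists_sq_eq_two_iff` / `jacobiSym.at_two`.
`LJ_one`: `DirichletCharacter.LFunction_modOne_eq`.
-/

set_option autoImplicit false

namespace Pool.Agent.Lib.MP_d713a4_nt

open Complex

private theorem Ch_norm (a : ℤ) (b : ℕ) : ‖((jacobiSym a b : ℤ) : ℂ)‖ ≤ 1 := by
  rcases jacobiSym.trichotomy a b with h | h | h
  · rw [h]; simp
  · rw [h]; simp
  · rw [h]; simp

theorem chi_apply (n : ℕ) [NeZero n] (m : ℕ) : chi n (m : ZMod n) = ((jacobiSym (m : ℤ) n : ℤ) : ℂ) := by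
  change ((jacobiSym (((m : ZMod n).val : ℕ) : ℤ) n : ℤ) : ℂ) = _
  rw [ZMod.val_natCast, Int.natCast_mod, ← jacobiSym.mod_left]

theorem norm_chi_le (n : ℕ) [NeZero n] (m : ZMod n) : ‖chi n m‖ ≤ 1 := Ch_norm _ _

theorem LJ_eq (n : ℕ) [NeZero n] : LJ n = DirichletCharacter.LFunction (chi n) := by
  funext s
  rw [LJ, dif_neg (NeZero.ne n)]

theorem LJ_one : LJ 1 = riemannZeta := by
  rw [LJ_eq]
  exact DirichletCharacter.LFunction_modOne_eq

theorem chi_ne_one (n : ℕ) [NeZero n] (hn : 1 < n) (ho : Odd n) (hs : Squarefree n) : chi n ≠ 1 := by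
  intro h1
  obtain ⟨q, hq, m, hm⟩ := Nat.exists_prime_and_dvd (n := n) (by omega)
  have : Fact q.Prime := ⟨hq⟩
  have hm0 : m ≠ 0 := by
    rintro rfl
    omega
  have : NeZero m := ⟨hm0⟩
  have hqo : Odd q := by
    rw [hm] at ho
    exact (Nat.odd_mul.1 ho).1
  have hq2 : ringChar (ZMod q) ≠ 2 := by
    rw [ZMod.ringChar_zmod_n]
    rintro rfl
    exact absurd hqo (by decide)
  have hco : Nat.Coprime q m := by
    rw [hm] at hs
    exact Nat.coprime_of_squarefree_mul hs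
  obtain ⟨x, hx⟩ := quadraticChar_exists_neg_one hq2
  obtain ⟨k, hk1, hk2⟩ := Nat.chineseRemainder hco x.val 1
  have hkq : ((k : ℤ) : ZMod q) = x := by
    have h2 := (ZMod.natCast_eq_natCast_iff k x.val q).2 hk1
    rw [ZMod.natCast_zmod_val] at h2
    rw [Int.cast_natCast, h2]
  have hJ1 : jacobiSym (k : ℤ) q = -1 := by
    rw [← jacobiSym.legendreSym.to_jacobiSym, legendreSym, hkq, hx]
  have hJ2 : jacobiSym (k : ℤ) m = 1 := by
    have h2 : ((k : ℤ)) % m = 1 % m := by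
      have h3 : k % m = 1 % m := hk2
      exact_mod_cast h3
    rw [jacobiSym.mod_left' h2, jacobiSym.one_left]
  have hJ : jacobiSym (k : ℤ) n = -1 := by
    rw [hm, jacobiSym.mul_right, hJ1, hJ2, mul_one]
  have h3 := chi_apply n k
  rw [hJ, h1] at h3
  by_cases hu : IsUnit ((k : ℕ) : ZMod n)
  · rw [MulChar.one_apply hu] at h3
    norm_num at h3
  · rw [MulChar.map_nonunit _ hu] at h3
    norm_num at h3

theorem recip (p n : ℕ) (h8 : p % 8 = 1) (hn : Odd n) : jacobiSym (p : ℤ) n = jacobiSym (n : ℤ) p :=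
  jacobiSym.quadratic_reciprocity_one_mod_four (by omega) hn

theorem norm_ch_le (p n : ℕ) : ‖ch p n‖ ≤ 1 := Ch_norm _ _

private theorem Ch_gcd {p n : ℕ} (hp : p.Prime) (hn : ¬ p ∣ n) : Int.gcd (n : ℤ) (p : ℤ) = 1 := by
  rw [Int.gcd_natCast_natCast]
  exact ((Nat.Prime.coprime_iff_not_dvd hp).2 hn).symm

theorem norm_ch (p n : ℕ) (hp : p.Prime) (hn : ¬ p ∣ n) : ‖ch p n‖ = 1 := by
  rw [ch]
  rcases jacobiSym.eq_one_or_neg_one (Ch_gcd hp hn) with h | h
  · rw [h]; simp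
  · rw [h]; simp

theorem ch_mul (p m n : ℕ) : ch p (m * n) = ch p m * ch p n := by
  rw [ch, ch, ch, Nat.cast_mul, jacobiSym.mul_left, Int.cast_mul]

theorem ch_sq (p n : ℕ) (hp : p.Prime) (hn : ¬ p ∣ n) : ch p (n ^ 2) = 1 := by
  rw [ch, Nat.cast_pow, jacobiSym.sq_one' (Ch_gcd hp hn), Int.cast_one]

theorem ch_two (p : ℕ) (hp : p.Prime) (h8 : p % 8 = 1) : ch p 2 = 1 := by
  have ho : Odd p := Nat.odd_iff.2 (by omega)
  have h1 : ((p : ℕ) : ZMod 8) = 1 := by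
    rw [← ZMod.natCast_mod p 8, h8, Nat.cast_one]
  have h2 : jacobiSym ((2 : ℕ) : ℤ) p = 1 := by
    have h3 := jacobiSym.at_two ho
    rw [h1, map_one] at h3
    exact_mod_cast h3
  rw [ch, h2, Int.cast_one]

end Pool.Agent.Lib.MP_d713a4_nt
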