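import Pool.Agent.Lib.MP_d713a4_nt.Cs

/-!
# LEAF Cp: shifting a vertical line across a simple pole

PROOF.  `H z / z = (H z - H 0 exp(z²))/z + H 0 exp(z²)/z`.  The first function extends to a differentiable one in the strip (removable singularity: `dslope`), and is `≤ C' / (1 + Im²)`:
`vline`.  For the second: `∫ exp((b + i t)²)/(b + i t) dt - ∫ exp((a + i t)²)/(a + i t) dt = 2 π`: for instance `F(b) = ∫ exp((b + i t)²)/(b + i t) dt` is constant for `b > 0` and constant for `b < 0`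
(`vline`), `F(-b) = -F(b)` (substitute `t → -t`), and `F(b) = π`, because `F(b) = ∫ exp((b+it)²) ∫_0^∞ exp(-x (b + i t)) dx dt = ∫_0^∞ √π exp(-x²/4) dx = π`.
(Or the Cauchy integral formula for a rectangle with a small circle removed.)
-/

set_option autoImplicit false

namespace Pool.Agent.Lib.MP_d713a4_nt

open Complex

private theorem Cp_gauss (b x : ℝ) :
    ∫ t : ℝ, cexp ((b + t * I) ^ 2 - x * (b + t * I)) =
      ((Real.sqrt Real.pi * Real.exp (-(1 / 4) * x ^ 2) : ℝ) : ℂ) := by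
  have h1 : ∀ t : ℝ, cexp ((b + t * I) ^ 2 - x * (b + t * I)) =
      cexp (-(1 : ℂ) * (t + ((x / 2 - b : ℝ) : ℂ) * I) ^ 2) * cexp ((-(1 / 4) * x ^ 2 : ℝ) : ℂ) := by
    intro t
    rw [← Complex.exp_add]
    congr 1
    push_cast
    linear_combination ((t : ℂ) ^ 2 + ((x : ℂ) / 2 - b) ^ 2) * I_sq
  simp_rw [h1]
  rw [MeasureTheory.integral_mul_const, GaussianFourier.integral_cexp_neg_mul_sq_add_real_mul_I (by norm_num)]
  have h2 : ((Real.pi : ℂ) / 1) ^ (1 / 2 : ℂ) = ((Real.sqrt Real.pi : ℝ) : ℂ) := by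
    rw [div_one, Real.sqrt_eq_rpow, Complex.ofReal_cpow Real.pi_pos.le]
    norm_num
  rw [h2, ← Complex.ofReal_exp, ← Complex.ofReal_mul]

private theorem Cp_re (b x t : ℝ) : ((b + t * I : ℂ) ^ 2 - x * (b + t * I)).re = b ^ 2 - t ^ 2 - x * b := by
  have h : (b + t * I : ℂ) ^ 2 - x * (b + t * I) =
      ((b ^ 2 - t ^ 2 - x * b : ℝ) : ℂ) + ((2 * b * t - x * t : ℝ) : ℂ) * I := by
    push_cast
    linear_combination ((t : ℂ) ^ 2) * I_sq
  rw [h, Complex.add_re, Complex.ofReal_re, Complex.re_ofReal_mul, I_re, mul_zero, add_zero]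

private theorem Cp_pos {b : ℝ} (hb : 0 < b) : ∫ t : ℝ, cexp ((b + t * I) ^ 2) / (b + t * I) = Real.pi := by
  have h1 : ∀ t : ℝ, cexp ((b + t * I) ^ 2) / (b + t * I) =
      ∫ x in Set.Ioi (0 : ℝ), cexp ((b + t * I) ^ 2 - x * (b + t * I)) := by
    intro t
    have hre : (-(b + t * I : ℂ)).re < 0 := by
      rw [Complex.neg_re, Complex.add_re, Complex.ofReal_re, Complex.re_ofReal_mul, I_re, mul_zero, add_zero]
      linarith
    have h2 := integral_exp_mul_complex_Ioi hre 0
    have h3 : ∀ x : ℝ, cexp ((b + t * I) ^ 2 - x * (b + t * I)) =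
        cexp ((b + t * I) ^ 2) * cexp (-(b + t * I) * x) := by
      intro x
      rw [← Complex.exp_add]
      congr 1
      ring
    simp_rw [h3]
    rw [MeasureTheory.integral_const_mul, h2, Complex.ofReal_zero, mul_zero, Complex.exp_zero, neg_div_neg_eq, one_div,
      div_eq_mul_inv]
  simp_rw [h1]
  rw [MeasureTheory.integral_integral_swap]
  · simp_rw [Cp_gauss]
    rw [integral_complex_ofReal, MeasureTheory.integral_const_mul, integral_gaussian_Ioi]
    congr 1
    have h4 : Real.pi / (1 / 4) = 2 ^ 2 * Real.pi := by ring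
    rw [h4, Real.sqrt_mul (by norm_num), Real.sqrt_sq (by norm_num)]
    have h5 := Real.mul_self_sqrt Real.pi_pos.le
    linear_combination h5
  · have hg : MeasureTheory.Integrable (fun t : ℝ => Real.exp (b ^ 2) * Real.exp (-1 * t ^ 2)) :=
      (integrable_exp_neg_mul_sq one_pos).const_mul _
    have hh : MeasureTheory.Integrable (fun x : ℝ => Real.exp (-b * x))
        (MeasureTheory.volume.restrict (Set.Ioi (0 : ℝ))) := exp_neg_integrableOn_Ioi 0 hb
    refine (hg.mul_prod hh).mono' ?_ ?_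
    · refine Continuous.aestronglyMeasurable ?_
      unfold Function.uncurry
      fun_prop
    · refine Filter.Eventually.of_forall fun z => ?_
      obtain ⟨t, x⟩ := z
      show ‖cexp ((b + t * I) ^ 2 - x * (b + t * I))‖ ≤ Real.exp (b ^ 2) * Real.exp (-1 * t ^ 2) * Real.exp (-b * x)
      rw [Complex.norm_exp, Cp_re, ← Real.exp_add, ← Real.exp_add]
      refine le_of_eq (congrArg Real.exp ?_)
      ring

private theorem Cp_neg {a : ℝ} (ha : a < 0) : ∫ t : ℝ, cexp ((a + t * I) ^ 2) / (a + t * I) = -Real.pi := by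
  rw [← MeasureTheory.integral_neg_eq_self (fun t : ℝ => cexp ((a + t * I) ^ 2) / (a + t * I)) MeasureTheory.volume,
    ← Cp_pos (neg_pos.2 ha), ← MeasureTheory.integral_neg]
  refine MeasureTheory.integral_congr_ae (Filter.Eventually.of_forall fun t => ?_)
  show cexp ((a + ((-t : ℝ) : ℂ) * I) ^ 2) / (a + ((-t : ℝ) : ℂ) * I) =
    -(cexp ((((-a : ℝ) : ℂ) + t * I) ^ 2) / (((-a : ℝ) : ℂ) + t * I))
  have h1 : (a + ((-t : ℝ) : ℂ) * I : ℂ) = -(((-a : ℝ) : ℂ) + t * I) := by
    push_cast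
    ring
  rw [h1, neg_sq, div_neg]

theorem vline_pole (H : ℂ → ℂ) (a b C : ℝ) (ha : a < 0) (h0 : 0 < b)
    (hd : ∀ z : ℂ, a ≤ z.re → z.re ≤ b → DifferentiableAt ℂ H z)
    (hb : ∀ z : ℂ, a ≤ z.re → z.re ≤ b → ‖H z‖ ≤ C / (1 + z.im ^ 2)) :
    ∫ t : ℝ, H (b + t * I) / (b + t * I) = (∫ t : ℝ, H (a + t * I) / (a + t * I)) + 2 * Real.pi * H 0 := by
  set f : ℂ → ℂ := fun z => H z - H 0 * cexp (z ^ 2) with hf
  set K : ℂ → ℂ := dslope f 0 with hKdef
  have hf0 : f 0 = 0 := by
    show H 0 - H 0 * cexp (0 ^ 2) = 0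
    rw [zero_pow two_ne_zero, Complex.exp_zero, mul_one, sub_self]
  have hKne : ∀ z : ℂ, z ≠ 0 → K z = f z / z := by
    intro z hz
    rw [hKdef, dslope_of_ne f hz, slope_def_field, hf0, sub_zero, sub_zero]
  have hdf : ∀ z : ℂ, a ≤ z.re → z.re ≤ b → DifferentiableAt ℂ f z := by
    intro z h1 h2
    exact (hd z h1 h2).sub ((differentiableAt_const _).mul (by fun_prop))
  have hdK : ∀ z : ℂ, a ≤ z.re → z.re ≤ b → DifferentiableAt ℂ K z := by
    intro z h1 h2
    by_cases hz : z = 0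
    · rw [hz]
      have hU : IsOpen {w : ℂ | a < w.re ∧ w.re < b} :=
        (isOpen_lt continuous_const Complex.continuous_re).inter (isOpen_lt Complex.continuous_re continuous_const)
      have h0U : (0 : ℂ) ∈ {w : ℂ | a < w.re ∧ w.re < b} := ⟨ha, h0⟩
      have h3 : DifferentiableOn ℂ K {w : ℂ | a < w.re ∧ w.re < b} :=
        (Complex.differentiableOn_dslope (hU.mem_nhds h0U)).2 fun w hw =>
          (hdf w hw.1.le hw.2.le).differentiableWithinAt
      exact h3.differentiableAt (hU.mem_nhds h0U)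
    · exact (differentiableAt_dslope_of_ne hz).2 (hdf z h1 h2)
  have hC : 0 ≤ C := by
    have h1 := hb 0 ha.le h0.le
    have h2 : C / (1 + (0 : ℂ).im ^ 2) = C := by simp
    rw [h2] at h1
    exact (norm_nonneg _).trans h1
  obtain ⟨B, hB⟩ := IsCompact.exists_bound_of_continuousOn
    ((isCompact_Icc (a := a) (b := b)).reProdIm (isCompact_Icc (a := (-1 : ℝ)) (b := 1)))
    (f := K) fun z hz => (hdK z hz.1.1 hz.1.2).continuousAt.continuousWithinAt
  have hB0 : 0 ≤ B := (norm_nonneg _).trans (hB 0 ⟨⟨ha.le, h0.le⟩, ⟨by norm_num, by norm_num⟩⟩)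
  have hbK : ∀ z : ℂ, a ≤ z.re → z.re ≤ b →
      ‖K z‖ ≤ (2 * B + C + ‖H 0‖ * Real.exp (a ^ 2 + b ^ 2)) / (1 + z.im ^ 2) := by
    intro z h1 h2
    have hpos : (0 : ℝ) < 1 + z.im ^ 2 := by positivity
    rw [le_div_iff₀ hpos]
    have hE : 0 ≤ ‖H 0‖ * Real.exp (a ^ 2 + b ^ 2) := by positivity
    by_cases hi : |z.im| ≤ 1
    · have h3 := hB z ⟨⟨h1, h2⟩, abs_le.1 hi⟩
      have h4 : z.im ^ 2 ≤ 1 := by
        rw [← sq_abs]
        exact pow_le_one₀ (abs_nonneg _) hi
      calc ‖K z‖ * (1 + z.im ^ 2) ≤ B * 2 :=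
            mul_le_mul h3 (by linarith) hpos.le hB0
        _ ≤ 2 * B + C + ‖H 0‖ * Real.exp (a ^ 2 + b ^ 2) := by linarith
    · have hi' : 1 < |z.im| := not_le.1 hi
      have hz : z ≠ 0 := by
        intro h
        rw [h, Complex.zero_im, abs_zero] at hi'
        linarith
      have hnz : 1 ≤ ‖z‖ := hi'.le.trans (Complex.abs_im_le_norm z)
      have h5 : ‖K z‖ ≤ ‖f z‖ := by
        rw [hKne z hz, norm_div]
        exact div_le_self (norm_nonneg _) hnz
      have h6 : ‖f z‖ ≤ C / (1 + z.im ^ 2) + ‖H 0‖ * Real.exp (z.re ^ 2 - z.im ^ 2) := by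
        refine (norm_sub_le _ _).trans (add_le_add (hb z h1 h2) ?_)
        rw [norm_mul, Complex.norm_exp]
        refine le_of_eq ?_
        congr 2
        rw [sq, Complex.mul_re]
        ring
      have h7 : z.re ^ 2 ≤ a ^ 2 + b ^ 2 := by
        rcases le_total 0 z.re with h | h
        · nlinarith [sq_nonneg a]
        · nlinarith [sq_nonneg b]
      have h8 : Real.exp (z.re ^ 2 - z.im ^ 2) * (1 + z.im ^ 2) ≤ Real.exp (a ^ 2 + b ^ 2) := by
        have h9 : 1 + z.im ^ 2 ≤ Real.exp (z.im ^ 2) := by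
          have := Real.add_one_le_exp (z.im ^ 2)
          linarith
        calc Real.exp (z.re ^ 2 - z.im ^ 2) * (1 + z.im ^ 2)
            ≤ Real.exp (z.re ^ 2 - z.im ^ 2) * Real.exp (z.im ^ 2) :=
              mul_le_mul_of_nonneg_left h9 (Real.exp_pos _).le
          _ = Real.exp (z.re ^ 2) := by
              rw [← Real.exp_add, sub_add_cancel]
          _ ≤ Real.exp (a ^ 2 + b ^ 2) := Real.exp_le_exp.2 h7
      calc ‖K z‖ * (1 + z.im ^ 2)
          ≤ (C / (1 + z.im ^ 2) + ‖H 0‖ * Real.exp (z.re ^ 2 - z.im ^ 2)) * (1 + z.im ^ 2) :=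
            mul_le_mul_of_nonneg_right (h5.trans h6) hpos.le
        _ = C + ‖H 0‖ * (Real.exp (z.re ^ 2 - z.im ^ 2) * (1 + z.im ^ 2)) := by
            rw [add_mul, div_mul_cancel₀ _ hpos.ne', mul_assoc]
        _ ≤ C + ‖H 0‖ * Real.exp (a ^ 2 + b ^ 2) := by
            have := mul_le_mul_of_nonneg_left h8 (norm_nonneg (H 0))
            linarith
        _ ≤ 2 * B + C + ‖H 0‖ * Real.exp (a ^ 2 + b ^ 2) := by linarith
  have hre : ∀ x t : ℝ, (x + t * I : ℂ).re = x := by
    intro x t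
    rw [Complex.add_re, Complex.ofReal_re, Complex.re_ofReal_mul, I_re, mul_zero, add_zero]
  have him : ∀ x t : ℝ, (x + t * I : ℂ).im = t := by
    intro x t
    rw [Complex.add_im, Complex.ofReal_im, Complex.im_ofReal_mul, I_im, mul_one, zero_add]
  have key : ∀ x : ℝ, a ≤ x → x ≤ b → x ≠ 0 → ∫ t : ℝ, H (x + t * I) / (x + t * I) =
      (∫ t : ℝ, K (x + t * I)) + H 0 * ∫ t : ℝ, cexp ((x + t * I) ^ 2) / (x + t * I) := by
    intro x hx1 hx2 hx0
    have hne : ∀ t : ℝ, (x + t * I : ℂ) ≠ 0 := by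
      intro t h
      apply hx0
      rw [← hre x t, h, Complex.zero_re]
    have hline : ∀ t : ℝ, ContinuousAt (fun t : ℝ => (x + t * I : ℂ)) t := fun t => by fun_prop
    have i1 : MeasureTheory.Integrable (fun t : ℝ => K (x + t * I)) := by
      refine (integrable_inv_one_add_sq.const_mul
        (2 * B + C + ‖H 0‖ * Real.exp (a ^ 2 + b ^ 2))).mono' ?_ ?_
      · refine Continuous.aestronglyMeasurable (continuous_iff_continuousAt.2 fun t => ?_)
        exact ContinuousAt.comp (f := fun t : ℝ => (x + t * I : ℂ)) (g := K)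
          (hdK (x + t * I) (by rw [hre]; exact hx1) (by rw [hre]; exact hx2)).continuousAt (hline t)
      · refine Filter.Eventually.of_forall fun t => ?_
        have h3 := hbK (x + t * I) (by rw [hre]; exact hx1) (by rw [hre]; exact hx2)
        rw [him] at h3
        rw [← div_eq_mul_inv]
        exact h3
    have i2 : MeasureTheory.Integrable (fun t : ℝ => cexp ((x + t * I) ^ 2) / (x + t * I)) := by
      refine ((integrable_exp_neg_mul_sq one_pos).const_mul (Real.exp (x ^ 2) / |x|)).mono' ?_ ?_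
      · refine Continuous.aestronglyMeasurable (continuous_iff_continuousAt.2 fun t => ?_)
        exact ContinuousAt.div (by fun_prop) (hline t) (hne t)
      · refine Filter.Eventually.of_forall fun t => ?_
        rw [norm_div, Complex.norm_exp]
        have h3 : ((x + t * I : ℂ) ^ 2).re = x ^ 2 + -1 * t ^ 2 := by
          have h4 := Cp_re x 0 t
          rw [Complex.ofReal_zero, zero_mul, sub_zero, zero_mul, sub_zero] at h4
          rw [h4]
          ring
        rw [h3, Real.exp_add, div_mul_eq_mul_div]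
        have h5 : |x| ≤ ‖(x + t * I : ℂ)‖ := by
          have h6 := Complex.abs_re_le_norm (x + t * I : ℂ)
          rwa [hre] at h6
        exact div_le_div_of_nonneg_left (by positivity) (abs_pos.2 hx0) h5
    rw [← MeasureTheory.integral_const_mul, ← MeasureTheory.integral_add i1 (i2.const_mul _)]
    refine MeasureTheory.integral_congr_ae (Filter.Eventually.of_forall fun t => ?_)
    show H (x + t * I) / (x + t * I) = K (x + t * I) + H 0 * (cexp ((x + t * I) ^ 2) / (x + t * I))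
    rw [hKne _ (hne t), ← mul_div_assoc, ← add_div]
    congr 1
    show H (x + t * I) = H (x + t * I) - H 0 * cexp ((x + t * I) ^ 2) + H 0 * cexp ((x + t * I) ^ 2)
    rw [sub_add_cancel]
  rw [key b (ha.le.trans h0.le) le_rfl h0.ne', key a le_rfl (ha.le.trans h0.le) ha.ne, Cp_pos h0, Cp_neg ha,
    ← vline K a b _ (ha.le.trans h0.le) hdK hbK]
  ring

end Pool.Agent.Lib.MP_d713a4_nt
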