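import Mathlib

/-!
# LEAF Cs: shifting vertical lines of integration

PROOF.  Cauchy's theorem for the rectangle `[a, b] × [-R, R]` (`Complex.integral_boundary_rect_eq_zero_of_differentiableOn`), `R → ∞`;
the horizontal sides are at most `(b - a) C / (1 + R²)`.
-/

set_option autoImplicit false

namespace Pool.Agent.Lib.MP_d713a4_nt

open Complex

private theorem Cs_int (H : ℂ → ℂ) (x C : ℝ) (hd : ∀ t : ℝ, ContinuousAt H (x + t * I))
    (hb : ∀ t : ℝ, ‖H (x + t * I)‖ ≤ C / (1 + t ^ 2)) :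
    MeasureTheory.Integrable (fun t : ℝ => H (x + t * I)) := by
  have hc : Continuous (fun t : ℝ => H (x + t * I)) := by
    rw [continuous_iff_continuousAt]
    intro t
    have h1 : ContinuousAt (fun t : ℝ => ((x : ℂ) + t * I)) t := by fun_prop
    exact ContinuousAt.comp (f := fun t : ℝ => ((x : ℂ) + t * I)) (hd t) h1
  refine MeasureTheory.Integrable.mono' ((integrable_inv_one_add_sq).const_mul C)
    hc.aestronglyMeasurable (Filter.Eventually.of_forall fun t => ?_)
  simpa [div_eq_mul_inv] using hb t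

theorem vline (H : ℂ → ℂ) (a b C : ℝ) (hab : a ≤ b) (hd : ∀ z : ℂ, a ≤ z.re → z.re ≤ b → DifferentiableAt ℂ H z)
    (hb : ∀ z : ℂ, a ≤ z.re → z.re ≤ b → ‖H z‖ ≤ C / (1 + z.im ^ 2)) :
    ∫ t : ℝ, H (a + t * I) = ∫ t : ℝ, H (b + t * I) := by
  have hre : ∀ x t : ℝ, ((x : ℂ) + t * I).re = x := fun x t => by simp
  have him : ∀ x t : ℝ, ((x : ℂ) + t * I).im = t := fun x t => by simp
  have hbd : ∀ x t : ℝ, a ≤ x → x ≤ b → ‖H (x + t * I)‖ ≤ C / (1 + t ^ 2) := by
    intro x t h1 h2
    have := hb (x + t * I) (by rw [hre]; exact h1) (by rw [hre]; exact h2)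
    rwa [him] at this
  have hdd : ∀ x t : ℝ, a ≤ x → x ≤ b → DifferentiableAt ℂ H (x + t * I) := fun x t h1 h2 =>
    hd _ (by rw [hre]; exact h1) (by rw [hre]; exact h2)
  have ia := Cs_int H a C (fun t => (hdd a t le_rfl hab).continuousAt) (fun t => hbd a t le_rfl hab)
  have ib := Cs_int H b C (fun t => (hdd b t hab le_rfl).continuousAt) (fun t => hbd b t hab le_rfl)
  have ta := MeasureTheory.intervalIntegral_tendsto_integral ia Filter.tendsto_neg_atTop_atBot
    (Filter.tendsto_id (α := ℝ))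
  have tb := MeasureTheory.intervalIntegral_tendsto_integral ib Filter.tendsto_neg_atTop_atBot
    (Filter.tendsto_id (α := ℝ))
  simp only [id_eq] at ta tb
  have key : ∀ R : ℝ, ‖(∫ t in (-R)..R, H (b + t * I)) - (∫ t in (-R)..R, H (a + t * I))‖ ≤
      2 * (C * (b - a)) / (1 + R ^ 2) := by
    intro R
    have h0 := Complex.integral_boundary_rect_eq_zero_of_differentiableOn H
      ((a : ℂ) + ((-R : ℝ) : ℂ) * I) ((b : ℂ) + (R : ℂ) * I) (by
        intro z hz
        rw [Complex.mem_reProdIm, hre, hre, Set.uIcc_of_le hab] at hz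
        exact (hd z hz.1.1 hz.1.2).differentiableWithinAt)
    rw [hre, hre, him, him] at h0
    have h1 : ∀ r : ℝ, r ^ 2 = R ^ 2 → ‖∫ x in a..b, H (x + r * I)‖ ≤ C / (1 + R ^ 2) * (b - a) := by
      intro r hr
      have := intervalIntegral.norm_integral_le_of_norm_le_const (a := a) (b := b)
        (C := C / (1 + R ^ 2)) (f := fun x : ℝ => H (x + r * I)) (fun x hx => by
          rw [Set.uIoc_of_le hab] at hx
          have := hbd x r hx.1.le hx.2
          rwa [hr] at this)
      rwa [abs_of_nonneg (by linarith : 0 ≤ b - a)] at this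
    have h2 := h1 (-R) (by ring)
    have h3 := h1 R rfl
    have h4 : I * ((∫ t in (-R)..R, H (b + t * I)) - (∫ t in (-R)..R, H (a + t * I))) =
        (∫ x in a..b, H (x + R * I)) - (∫ x in a..b, H (x + ((-R : ℝ) : ℂ) * I)) := by
      simp only [smul_eq_mul] at h0
      linear_combination h0
    have h5 := congrArg norm h4
    rw [norm_mul, Complex.norm_I, one_mul] at h5
    rw [h5]
    calc ‖(∫ x in a..b, H (x + R * I)) - (∫ x in a..b, H (x + ((-R : ℝ) : ℂ) * I))‖
        ≤ ‖∫ x in a..b, H (x + R * I)‖ + ‖∫ x in a..b, H (x + ((-R : ℝ) : ℂ) * I)‖ := norm_sub_le _ _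
      _ ≤ C / (1 + R ^ 2) * (b - a) + C / (1 + R ^ 2) * (b - a) := add_le_add h3 h2
      _ = 2 * (C * (b - a)) / (1 + R ^ 2) := by ring
  have lim0 : Filter.Tendsto (fun R : ℝ => 2 * (C * (b - a)) / (1 + R ^ 2)) Filter.atTop (nhds 0) := by
    refine Filter.Tendsto.div_atTop tendsto_const_nhds ?_
    exact Filter.tendsto_atTop_add_const_left _ _ (Filter.tendsto_pow_atTop (by norm_num))
  have lim1 := squeeze_zero_norm key lim0
  have lim2 := tb.sub ta
  have := tendsto_nhds_unique lim2 lim1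
  exact (sub_eq_zero.1 this).symm

end Pool.Agent.Lib.MP_d713a4_nt
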