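import Mathlib

/-!
# Logarithmic derivatives of quadratic L-functions, sharp cutoff: definitions
-/

set_option autoImplicit false

namespace Pool.Agent.Lib.MP_d713a4_nt

open Complex MeasureTheory

open scoped NumberTheorySymbols

/-- the Jacobi symbol `(· / n)` as a Dirichlet character modulo `n` -/
noncomputable def chi (n : ℕ) [NeZero n] : DirichletCharacter ℂ n where
  toFun a := ((jacobiSym (a.val : ℤ) n : ℤ) : ℂ)
  map_one' := by
    rw [ZMod.val_one_eq_one_mod, Int.natCast_mod, ← jacobiSym.mod_left]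
    simp
  map_mul' a b := by
    rw [ZMod.val_mul, Int.natCast_mod, ← jacobiSym.mod_left, Nat.cast_mul, jacobiSym.mul_left]
    push_cast
    rfl
  map_nonunit' a ha := by
    have h1 : ¬ IsUnit ((a.val : ℕ) : ZMod n) := by rwa [ZMod.natCast_zmod_val]
    rw [ZMod.isUnit_iff_coprime] at h1
    rw [(jacobiSym.eq_zero_iff_not_coprime (a := (a.val : ℤ)) (b := n)).2 (by rwa [Int.gcd_natCast_natCast])]
    simp

/-- the function `L(s, χ_n)` -/
noncomputable def LJ (n : ℕ) (s : ℂ) : ℂ :=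
  if h : n = 0 then 0 else
    haveI : NeZero n := ⟨h⟩
    DirichletCharacter.LFunction (chi n) s

/-- the Riemann hypothesis for all `L(s, χ_n)`, `n` odd squarefree -/
def GRH : Prop := ∀ n : ℕ, Odd n → Squarefree n → ∀ s : ℂ, 1 / 2 < s.re → s ≠ 1 → LJ n s ≠ 0

/-- the logarithmic derivative of `L(s, χ_n)` -/
noncomputable def dl (n : ℕ) (s : ℂ) : ℂ := deriv (LJ n) s / LJ n s

open Classical in
/-- the odd squarefree numbers up to `x` -/
noncomputable def OS (x : ℝ) : Finset ℕ := (Finset.Icc 1 ⌊x⌋₊).filter fun n => Odd n ∧ Squarefree n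

/-- the sum of the logarithmic derivatives `L'/L(1/2 + r, χ_n)` over the odd squarefree `n ≤ x` -/
noncomputable def FF (x : ℝ) (r : ℂ) : ℂ := ∑ n ∈ OS x, dl n (1 / 2 + r)

/-- the error term on the line `Re r = σ`, with main terms `x a + x^(1-r) b` -/
noncomputable def EE (σ : ℝ) (a b : ℝ → ℂ) (x t : ℝ) : ℂ :=
  FF x (σ + t * I) - x * a t - (x : ℂ) ^ (1 - (σ + t * I)) * b t

/-- the error term is at most `C x^θ` for `|t| ≤ x^(1-ε)`, `x ≥ X₀` -/
def Bd (σ ε θ C X₀ : ℝ) (a b : ℝ → ℂ) : Prop :=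
  ∀ x : ℝ, X₀ ≤ x → ∀ t : ℝ, |t| ≤ x ^ (1 - ε) → ‖EE σ a b x t‖ ≤ C * x ^ θ

/-- the Gaussian `exp ((r - i T₀)² / T²)` -/
noncomputable def gau (T₀ T : ℝ) (r : ℂ) : ℂ := cexp ((r - T₀ * I) ^ 2 / T ^ 2)

/-- its absolute value on the line `Re r = σ` -/
noncomputable def wg (σ T₀ T t : ℝ) : ℝ := Real.exp ((σ ^ 2 - (t - T₀) ^ 2) / T ^ 2)

/-- the extraction of the coefficient at `p` of the function `E` on the line `Re r = σ` -/
noncomputable def ext (σ T₀ T : ℝ) (p : ℕ) (E : ℝ → ℂ) : ℂ :=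
  (1 / (2 * Real.pi) : ℝ) * ∫ t : ℝ, E t * (p : ℂ) ^ (σ + t * I : ℂ) * gau T₀ T (σ + t * I)

/-- `1 + 6 π i λ` -/
noncomputable def zz (lam : ℝ) : ℂ := 1 + 6 * Real.pi * lam * I

/-- `u^κ exp (-z u)` for `u > 0` -/
noncomputable def Tf (κ lam u : ℝ) : ℂ := if 0 < u then (u ^ κ : ℝ) * cexp (-zz lam * u) else 0

/-- minus the derivative of `Tf` -/
noncomputable def ff (κ lam u : ℝ) : ℂ := (zz lam * (u ^ κ : ℝ) - κ * (u ^ (κ - 1) : ℝ)) * cexp (-zz lam * u)

/-- a bound of `ff` -/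
noncomputable def om (κ u : ℝ) : ℝ := (u ^ κ + u ^ (κ - 1)) * Real.exp (-u)

/-- the coefficient at the frequency `3 / p` of the error term, extracted at `p`; `λ = X / p` -/
noncomputable def JJ (σ T₀ T κ X : ℝ) (a b : ℝ → ℂ) (p : ℕ) : ℂ :=
  ∫ u in Set.Ioi (0 : ℝ), ff κ (X / p) u * ext σ T₀ T p (EE σ a b (X * u))

/-- the primes `p ≡ 1` modulo `8` in `[P, 2P)` -/
noncomputable def PP (P : ℕ) : Finset ℕ := (Finset.Ico P (2 * P)).filter fun p => p.Prime ∧ p % 8 = 1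

open Classical in
/-- the indicator function of the odd squarefree numbers -/
noncomputable def os (n : ℕ) : ℂ := if Odd n ∧ Squarefree n then 1 else 0

/-- the quadratic character modulo `p` -/
noncomputable def ch (p : ℕ) (n : ℕ) : ℂ := ((jacobiSym (n : ℤ) p : ℤ) : ℂ)

/-- the sum of `μ²(n) (n/p) Tf(n / X)` over odd `n` -/
noncomputable def St (κ X : ℝ) (p : ℕ) : ℂ := ∑' n : ℕ, os n * ch p n * Tf κ (X / p) (n / X)

end Pool.Agent.Lib.MP_d713a4_nt
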