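import Pool.Agent.Lib.MP_d713a4_nt.Ch

/-!
# LEAF Gf: the region of absolute convergence

PROOF.  For `Re s ≥ 1 + h`: `‖L‖ ≤ ∑ m^(-1-h)`, `L · ∑ μ(m) χ(m) m^(-s) = 1` (`DirichletCharacter.LSeries_mul_mu_eq_one` or so), so `‖L‖⁻¹ ≤ ∑ m^(-1-h)`, and
`dl n s = - ∑ Λ(m) χ(m) m^(-s)` (`DirichletCharacter.LSeries_twist_vonMangoldt_eq`, `LFunction_eq_LSeries`, `deriv` of `LFunction` = `deriv` of `LSeries` on the open half plane),
`‖dl n s‖ ≤ ∑ Λ(m) m^(-1-h)`.  The modulus `n` does not enter (also `n = 1`).  `dl_series` is the formula.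
-/

set_option autoImplicit false

namespace Pool.Agent.Lib.MP_d713a4_nt

open Complex ArithmeticFunction

private theorem Gf_dl (n : ℕ) [NeZero n] (s : ℂ) (h : 1 < s.re) :
    dl n s = -LSeries ((fun m : ℕ => chi n (m : ZMod n)) * fun m : ℕ => (vonMangoldt m : ℂ)) s := by
  have h1 := DirichletCharacter.LSeries_twist_vonMangoldt_eq (chi n) h
  rw [h1]
  unfold dl
  rw [LJ_eq, DirichletCharacter.deriv_LFunction_eq_deriv_LSeries _ h,
    DirichletCharacter.LFunction_eq_LSeries _ h, neg_div, neg_neg]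

private theorem Gf_bound (f g : ℕ → ℂ) (hfg : ∀ m, ‖f m‖ ≤ ‖g m‖) (x : ℝ)
    (hg : LSeriesSummable g (x : ℂ)) (s : ℂ) (hs : x ≤ s.re) :
    ‖LSeries f s‖ ≤ ∑' m, ‖LSeries.term g (x : ℂ) m‖ := by
  refine tsum_of_norm_bounded hg.norm.hasSum fun m => ?_
  refine (LSeries.norm_term_le s (hfg m)).trans (LSeries.norm_term_le_of_re_le_re g ?_ m)
  rw [Complex.ofReal_re]
  exact hs

theorem dl_series (n : ℕ) (ho : Odd n) (s : ℂ) (h : 1 < s.re) :
    dl n s = -∑' m : ℕ, (vonMangoldt m : ℂ) * ((jacobiSym (m : ℤ) n : ℤ) : ℂ) * (m : ℂ) ^ (-s) := by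
  have : NeZero n := ⟨ho.pos.ne'⟩
  rw [Gf_dl n s h, LSeries_def₀ (by simp)]
  congr 1
  refine tsum_congr fun m => ?_
  rw [Pi.mul_apply, chi_apply, cpow_neg]
  ring

theorem far (h : ℝ) (h0 : 0 < h) : ∃ A : ℝ, 1 ≤ A ∧ ∀ n : ℕ, Odd n → ∀ s : ℂ, 1 + h ≤ s.re →
    A⁻¹ ≤ ‖LJ n s‖ ∧ ‖LJ n s‖ ≤ A ∧ ‖dl n s‖ ≤ A := by
  set S1 : ℝ := ∑' m, ‖LSeries.term 1 ((1 + h : ℝ) : ℂ) m‖ with hS1
  set S2 : ℝ := ∑' m, ‖LSeries.term (fun m : ℕ => (vonMangoldt m : ℂ)) ((1 + h : ℝ) : ℂ) m‖ with hS2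
  have h1 : LSeriesSummable 1 ((1 + h : ℝ) : ℂ) := by
    rw [LSeriesSummable_one_iff, Complex.ofReal_re]
    linarith
  have h2 : LSeriesSummable (fun m : ℕ => (vonMangoldt m : ℂ)) ((1 + h : ℝ) : ℂ) := by
    refine LSeriesSummable_vonMangoldt ?_
    rw [Complex.ofReal_re]
    linarith
  refine ⟨max 1 (max S1 S2), le_max_left _ _, fun n ho s hs => ?_⟩
  have : NeZero n := ⟨ho.pos.ne'⟩
  have hs1 : 1 < s.re := by linarith
  have h3 : LJ n s = LSeries (fun m : ℕ => chi n (m : ZMod n)) s := by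
    rw [LJ_eq, DirichletCharacter.LFunction_eq_LSeries _ hs1]
  have h4 : ‖LJ n s‖ ≤ S1 := by
    rw [h3]
    refine Gf_bound _ 1 (fun m => ?_) (1 + h) h1 s hs
    rw [Pi.one_apply, norm_one]
    exact norm_chi_le n _
  have h5 : LJ n s * LSeries ((fun m : ℕ => chi n (m : ZMod n)) * fun m : ℕ => ((moebius m : ℤ) : ℂ)) s = 1 := by
    rw [h3]
    exact DirichletCharacter.LSeries.mul_mu_eq_one (chi n) hs1
  have h6 : ‖LSeries ((fun m : ℕ => chi n (m : ZMod n)) * fun m : ℕ => ((moebius m : ℤ) : ℂ)) s‖ ≤ S1 := by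
    refine Gf_bound _ 1 (fun m => ?_) (1 + h) h1 s hs
    rw [Pi.one_apply, norm_one, Pi.mul_apply, norm_mul]
    refine mul_le_one₀ (norm_chi_le n _) (norm_nonneg _) ?_
    rw [Complex.norm_intCast]
    exact_mod_cast (abs_moebius_le_one (n := m))
  have h7 : ‖dl n s‖ ≤ S2 := by
    rw [Gf_dl n s hs1, norm_neg]
    refine Gf_bound _ _ (fun m => ?_) (1 + h) h2 s hs
    rw [Pi.mul_apply, norm_mul]
    exact mul_le_of_le_one_left (norm_nonneg _) (norm_chi_le n _)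
  have h8 : S1 ≤ max 1 (max S1 S2) := (le_max_left _ _).trans (le_max_right _ _)
  have h9 : S2 ≤ max 1 (max S1 S2) := (le_max_right _ _).trans (le_max_right _ _)
  have h10 : (0 : ℝ) < max 1 (max S1 S2) := lt_of_lt_of_le one_pos (le_max_left _ _)
  refine ⟨?_, h4.trans h8, h7.trans h9⟩
  have h11 := congrArg norm h5
  rw [norm_mul, norm_one] at h11
  rw [inv_le_iff_one_le_mul₀ h10]
  have h12 := mul_le_mul_of_nonneg_left (h6.trans h8) (norm_nonneg (LJ n s))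
  rwa [h11] at h12

end Pool.Agent.Lib.MP_d713a4_nt
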