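import Mathlib

/-!
# LEAF Gz: growth of the zeta function

PROOF.  See `Pool/Agent/Lib/MP_ec260d_ntA/Growth.lean` on main (copy the idea), or `ζ(s) = s/(s-1) - s ∫_1^∞ {u} u^(-s-1) du` (`Re s > 0`, `s ≠ 1`), so
`‖ζ(s)‖ ≤ |s|/|s-1| + |s|/Re s`, `|s - 1| ≥ |Im s| ≥ 1/2`.
-/

set_option autoImplicit false

namespace Pool.Agent.Lib.MP_d713a4_nt

section

open Finset



/-- `b_n(s) = n^(-s) - ∫_n^{n+1} x^(-s) dx` -/
private noncomputable def Gz_bz (n : ℕ) (s : ℂ) : ℂ :=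
  (n : ℂ) ^ (-s) - ∫ x in (n : ℝ)..((n : ℝ) + 1), (x : ℂ) ^ (-s)

private theorem Gz_AZb_pos {n : ℕ} (hn : 1 ≤ n) {x : ℝ}
    (hx : x ∈ Set.uIcc (n : ℝ) ((n : ℝ) + 1)) : (n : ℝ) ≤ x ∧ x ≤ n + 1 ∧ 0 < x := by
  rw [Set.uIcc_of_le (by linarith)] at hx
  have h1 : (1 : ℝ) ≤ n := by exact_mod_cast hn
  exact ⟨hx.1, hx.2, by linarith [hx.1]⟩

private theorem Gz_AZb_cont {n : ℕ} (hn : 1 ≤ n) (s : ℂ) :
    ContinuousOn (fun x : ℝ => (x : ℂ) ^ s) (Set.uIcc (n : ℝ) ((n : ℝ) + 1)) := by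
  intro x hx
  have h := Gz_AZb_pos hn hx
  exact (Complex.continuousAt_ofReal_cpow_const x s (Or.inr h.2.2.ne')).continuousWithinAt

private theorem Gz_AZb_int {n : ℕ} (hn : 1 ≤ n) (s : ℂ) :
    IntervalIntegrable (fun x : ℝ => (x : ℂ) ^ s) MeasureTheory.volume (n : ℝ) ((n : ℝ) + 1) :=
  (Gz_AZb_cont hn s).intervalIntegrable

private theorem Gz_bz_diff (n : ℕ) (hn : 1 ≤ n) : Differentiable ℂ (Gz_bz n) := by
  intro s₀
  have hn1 : (1 : ℝ) ≤ n := by exact_mod_cast hn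
  have hn0 : (n : ℂ) ≠ 0 := by
    have : n ≠ 0 := by omega
    exact_mod_cast this
  have h1 : DifferentiableAt ℂ (fun s : ℂ => (n : ℂ) ^ (-s)) s₀ :=
    (differentiable_id.neg s₀).const_cpow (Or.inl hn0)
  set F' : ℂ → ℝ → ℂ := fun s x => (x : ℂ) ^ (-s) * Complex.log (x : ℂ) * (-1) with hF'
  have hsub : Set.uIoc (n : ℝ) ((n : ℝ) + 1) ⊆ Set.uIcc (n : ℝ) ((n : ℝ) + 1) :=
    Set.uIoc_subset_uIcc
  have h2 := intervalIntegral.hasDerivAt_integral_of_dominated_loc_of_deriv_le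
    (μ := MeasureTheory.volume) (a := (n : ℝ)) (b := (n : ℝ) + 1)
    (F := fun (s : ℂ) (x : ℝ) => (x : ℂ) ^ (-s)) (F' := F') (x₀ := s₀) (s := Metric.ball s₀ 1)
    (bound := fun _ => ((n : ℝ) + 1) ^ (‖s₀‖ + 1) * Real.log ((n : ℝ) + 1))
    (Metric.ball_mem_nhds s₀ one_pos)
    (Filter.Eventually.of_forall fun s =>
      ((Gz_AZb_cont hn (-s)).mono hsub).aestronglyMeasurable measurableSet_uIoc)
    (Gz_AZb_int hn (-s₀))
    (by
      refine ContinuousOn.aestronglyMeasurable ?_ measurableSet_uIoc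
      refine ContinuousOn.mul (ContinuousOn.mul ((Gz_AZb_cont hn (-s₀)).mono hsub) ?_)
        continuousOn_const
      intro x hx
      have h := Gz_AZb_pos hn (hsub hx)
      refine ContinuousAt.continuousWithinAt ?_
      refine ContinuousAt.clog Complex.continuous_ofReal.continuousAt ?_
      exact Complex.ofReal_mem_slitPlane.2 h.2.2)
    (Filter.Eventually.of_forall fun x hx s hs => by
      have h := Gz_AZb_pos hn (hsub hx)
      rw [hF']
      dsimp only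
      rw [norm_mul, norm_mul, norm_neg, norm_one, mul_one,
        Complex.norm_cpow_eq_rpow_re_of_pos h.2.2, ← Complex.ofReal_log h.2.2.le,
        Complex.norm_real]
      have hx1 : 1 ≤ x := hn1.trans h.1
      have hlog : ‖Real.log x‖ ≤ Real.log ((n : ℝ) + 1) := by
        rw [Real.norm_of_nonneg (Real.log_nonneg hx1)]
        exact Real.log_le_log h.2.2 h.2.1
      have hre : (-s).re ≤ ‖s₀‖ + 1 := by
        have h3 : (-s).re ≤ ‖-s‖ := Complex.re_le_norm _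
        rw [norm_neg] at h3
        have h4 : ‖s‖ ≤ ‖s₀‖ + ‖s - s₀‖ := by
          have := norm_add_le s₀ (s - s₀)
          rwa [add_sub_cancel] at this
        have h5 : ‖s - s₀‖ < 1 := by
          rw [← dist_eq_norm]
          exact hs
        linarith
      have hpow : x ^ (-s).re ≤ ((n : ℝ) + 1) ^ (‖s₀‖ + 1) := by
        calc x ^ (-s).re ≤ x ^ (‖s₀‖ + 1) := Real.rpow_le_rpow_of_exponent_le hx1 hre
          _ ≤ ((n : ℝ) + 1) ^ (‖s₀‖ + 1) :=
            Real.rpow_le_rpow h.2.2.le h.2.1 (by positivity)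
      exact mul_le_mul hpow hlog (norm_nonneg _) (by positivity))
    intervalIntegrable_const
    (Filter.Eventually.of_forall fun x hx s _ => by
      have h := Gz_AZb_pos hn (hsub hx)
      have hx0 : (x : ℂ) ≠ 0 := by exact_mod_cast h.2.2.ne'
      exact HasDerivAt.const_cpow (hasDerivAt_neg s) (Or.inl hx0))
  exact h1.sub h2.2.differentiableAt

private theorem Gz_bz_norm1 (n : ℕ) (hn : 1 ≤ n) (s : ℂ) (hs : 0 < s.re) :
    ‖Gz_bz n s‖ ≤ 2 * (n : ℝ) ^ (-s.re) := by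
  have hn0 : 0 < n := hn
  have hn1 : (1 : ℝ) ≤ n := by exact_mod_cast hn
  have h1 : ‖(n : ℂ) ^ (-s)‖ = (n : ℝ) ^ (-s.re) := by
    rw [Complex.norm_natCast_cpow_of_pos hn0, Complex.neg_re]
  have h2 : ‖∫ x in (n : ℝ)..((n : ℝ) + 1), (x : ℂ) ^ (-s)‖ ≤
      (n : ℝ) ^ (-s.re) * |((n : ℝ) + 1) - n| := by
    apply intervalIntegral.norm_integral_le_of_norm_le_const
    intro x hx
    have h := Gz_AZb_pos hn (Set.uIoc_subset_uIcc hx)
    rw [Complex.norm_cpow_eq_rpow_re_of_pos h.2.2, Complex.neg_re]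
    exact Real.rpow_le_rpow_of_nonpos (by linarith) h.1 (by linarith)
  have h3 : |((n : ℝ) + 1) - n| = 1 := by
    rw [add_sub_cancel_left, abs_one]
  rw [h3, mul_one] at h2
  unfold Gz_bz
  refine (norm_sub_le _ _).trans ?_
  rw [h1]
  linarith

private theorem Gz_bz_norm2 (n : ℕ) (hn : 1 ≤ n) (s : ℂ) (hs : 0 < s.re) :
    ‖Gz_bz n s‖ ≤ ‖s‖ * (n : ℝ) ^ (-s.re - 1) := by
  have hn1 : (1 : ℝ) ≤ n := by exact_mod_cast hn
  have hs0 : -s ≠ 0 := by
    intro h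
    have h' : s = 0 := neg_eq_zero.1 h
    rw [h'] at hs
    exact lt_irrefl _ hs
  -- the difference of the values
  have hdiff : ∀ x ∈ Set.uIoc (n : ℝ) ((n : ℝ) + 1),
      ‖((n : ℝ) : ℂ) ^ (-s) - (x : ℂ) ^ (-s)‖ ≤ ‖s‖ * (n : ℝ) ^ (-s.re - 1) := by
    intro x hx
    have h := Gz_AZb_pos hn (Set.uIoc_subset_uIcc hx)
    have hmv := Convex.norm_image_sub_le_of_norm_hasDerivWithin_le
      (f := fun u : ℝ => (u : ℂ) ^ (-s)) (f' := fun u : ℝ => (-s) * (u : ℂ) ^ (-s - 1))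
      (C := ‖s‖ * (n : ℝ) ^ (-s.re - 1)) (s := Set.Icc (n : ℝ) ((n : ℝ) + 1)) (x := x)
      (y := (n : ℝ))
      (fun u hu => by
        have hu0 : u ≠ 0 := by
          have := hu.1
          intro h0
          rw [h0] at this
          linarith
        exact (hasDerivAt_ofReal_cpow_const hu0 hs0).hasDerivWithinAt)
      (fun u hu => by
        have hu0 : 0 < u := by linarith [hu.1]
        rw [norm_mul, norm_neg, Complex.norm_cpow_eq_rpow_re_of_pos hu0]
        apply mul_le_mul_of_nonneg_left _ (norm_nonneg _)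
        have e : (-s - 1).re = -s.re - 1 := by simp
        rw [e]
        exact Real.rpow_le_rpow_of_nonpos (by linarith) hu.1 (by linarith))
      (convex_Icc _ _) ⟨h.1, h.2.1⟩ ⟨le_rfl, by linarith⟩
    refine hmv.trans ?_
    have h4 : ‖(n : ℝ) - x‖ ≤ 1 := by
      rw [Real.norm_eq_abs, abs_le]
      constructor <;> linarith [h.1, h.2.1]
    calc ‖s‖ * (n : ℝ) ^ (-s.re - 1) * ‖(n : ℝ) - x‖
        ≤ ‖s‖ * (n : ℝ) ^ (-s.re - 1) * 1 := by
          apply mul_le_mul_of_nonneg_left h4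
          positivity
      _ = ‖s‖ * (n : ℝ) ^ (-s.re - 1) := mul_one _
  have hb : Gz_bz n s = ∫ x in (n : ℝ)..((n : ℝ) + 1), (((n : ℝ) : ℂ) ^ (-s) - (x : ℂ) ^ (-s)) := by
    rw [intervalIntegral.integral_sub intervalIntegrable_const (Gz_AZb_int hn (-s)),
      intervalIntegral.integral_const]
    unfold Gz_bz
    rw [add_sub_cancel_left, one_smul, Complex.ofReal_natCast]
  rw [hb]
  have h5 := intervalIntegral.norm_integral_le_of_norm_le_const hdiff
  have h3 : |((n : ℝ) + 1) - n| = 1 := by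
    rw [add_sub_cancel_left, abs_one]
  rwa [h3, mul_one] at h5



private theorem Gz_AZser_summable_rpow (σ : ℝ) (hσ : 0 < σ) :
    Summable (fun n : ℕ => (((n + 1 : ℕ)) : ℝ) ^ (-σ - 1)) := by
  have h1 : Summable (fun n : ℕ => ((n : ℝ)) ^ (-σ - 1)) := Real.summable_nat_rpow.2 (by linarith)
  exact (summable_nat_add_iff 1).2 h1

private theorem Gz_AZser_summable (s : ℂ) (hs : 0 < s.re) : Summable (fun n : ℕ => ‖Gz_bz (n + 1) s‖) := by
  refine Summable.of_nonneg_of_le (fun _ => norm_nonneg _)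
    (fun n => Gz_bz_norm2 (n + 1) (by omega) s hs) ((Gz_AZser_summable_rpow s.re hs).mul_left _)

private theorem Gz_AZser_diff :
    DifferentiableOn ℂ (fun s => ∑' n : ℕ, Gz_bz (n + 1) s) {s : ℂ | 0 < s.re} := by
  intro s0 hs0
  have hs0' : 0 < s0.re := hs0
  set δ : ℝ := s0.re / 2 with hδ
  set R : ℝ := ‖s0‖ + 1 with hR
  set U : Set ℂ := {z : ℂ | δ < z.re} ∩ Metric.ball 0 R with hU
  have hUo : IsOpen U := by
    refine IsOpen.inter ?_ Metric.isOpen_ball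
    exact isOpen_lt continuous_const Complex.continuous_re
  have hmem : s0 ∈ U := by
    refine ⟨?_, ?_⟩
    · show δ < s0.re
      rw [hδ]; linarith
    · rw [mem_ball_zero_iff, hR]; linarith
  have hd : DifferentiableOn ℂ (fun s => ∑' n : ℕ, Gz_bz (n + 1) s) U := by
    refine Complex.differentiableOn_tsum_of_summable_norm
      (u := fun n : ℕ => R * (((n + 1 : ℕ)) : ℝ) ^ (-δ - 1)) ?_ ?_ hUo ?_
    · exact (Gz_AZser_summable_rpow δ (by rw [hδ]; linarith)).mul_left _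
    · intro n
      exact (Gz_bz_diff (n + 1) (by omega)).differentiableOn
    · intro n z hz
      obtain ⟨hz1, hz2⟩ := hz
      have hz1' : δ < z.re := hz1
      have hz2' : ‖z‖ < R := mem_ball_zero_iff.1 hz2
      refine le_trans (Gz_bz_norm2 (n + 1) (by omega) z (by linarith)) ?_
      apply mul_le_mul hz2'.le _ (by positivity) (by rw [hR]; positivity)
      apply Real.rpow_le_rpow_of_exponent_le
      · push_cast
        linarith [(Nat.cast_nonneg n : (0 : ℝ) ≤ n)]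
      · linarith
  exact ((hd.differentiableAt (hUo.mem_nhds hmem))).differentiableWithinAt

private theorem Gz_AZser_gt (s : ℂ) (hs : 1 < s.re) :
    ∑' n : ℕ, Gz_bz (n + 1) s = riemannZeta₀ s := by
  have hs0 : 0 < s.re := by linarith
  have hs1 : s ≠ 1 := by
    rintro rfl
    simp at hs
  have hne : -s + 1 ≠ 0 := by
    intro h
    apply hs1
    linear_combination -h
  have h1 := ((Gz_AZser_summable s hs0).of_norm.hasSum).tendsto_sum_nat
  -- the finite sums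
  have h2 : ∀ K : ℕ, ∑ i ∈ range K, Gz_bz (i + 1) s =
      ∑ i ∈ range K, 1 / ((i : ℂ) + 1) ^ s - (((K : ℝ) + 1 : ℝ) : ℂ) ^ (-s + 1) / (-s + 1) + 1 / (-s + 1) := by
    intro K
    have h3 : ∑ k ∈ range K, ∫ x in ((k : ℝ) + 1)..(((k + 1 : ℕ) : ℝ) + 1), (x : ℂ) ^ (-s) =
        ∫ x in (((0 : ℕ) : ℝ) + 1)..((K : ℝ) + 1), (x : ℂ) ^ (-s) := by
      refine intervalIntegral.sum_integral_adjacent_intervals (a := fun k : ℕ => (k : ℝ) + 1) ?_
      intro k _
      apply intervalIntegral.intervalIntegrable_cpow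
      right
      rw [Set.mem_uIcc]
      push_cast
      intro h
      rcases h with h | h <;> linarith [(Nat.cast_nonneg k : (0 : ℝ) ≤ k)]
    have h4 : ∫ x in (((0 : ℕ) : ℝ) + 1)..((K : ℝ) + 1), (x : ℂ) ^ (-s) =
        ((((K : ℝ) + 1 : ℝ) : ℂ) ^ (-s + 1) - (((((0 : ℕ) : ℝ) + 1 : ℝ)) : ℂ) ^ (-s + 1)) / (-s + 1) := by
      apply integral_cpow
      right
      refine ⟨?_, ?_⟩
      · intro h
        apply hs1
        linear_combination -h
      · rw [Set.mem_uIcc]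
        push_cast
        intro h
        rcases h with h | h <;> linarith [(Nat.cast_nonneg K : (0 : ℝ) ≤ K)]
    have h5 : (((((0 : ℕ) : ℝ) + 1 : ℝ)) : ℂ) ^ (-s + 1) = 1 := by
      push_cast
      rw [zero_add, Complex.one_cpow]
    rw [h5] at h4
    have h6 : ∑ i ∈ range K, Gz_bz (i + 1) s = ∑ i ∈ range K, 1 / ((i : ℂ) + 1) ^ s -
        ∑ k ∈ range K, ∫ x in ((k : ℝ) + 1)..(((k + 1 : ℕ) : ℝ) + 1), (x : ℂ) ^ (-s) := by
      rw [← Finset.sum_sub_distrib]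
      refine Finset.sum_congr rfl fun i _ => ?_
      unfold Gz_bz
      congr 1
      · rw [Complex.cpow_neg, one_div]
        push_cast
        rfl
      · push_cast
        rfl
    rw [h6, h3, h4]
    field_simp
    ring
  have h3 : Filter.Tendsto (fun K : ℕ => ∑ i ∈ range K, 1 / ((i : ℂ) + 1) ^ s) Filter.atTop
      (nhds (riemannZeta s)) := by
    rw [zeta_eq_tsum_one_div_nat_add_one_cpow hs]
    have h4 : Summable (fun n : ℕ => 1 / ((n : ℂ) + 1) ^ s) := by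
      have := (summable_nat_add_iff 1).2 (Complex.summable_one_div_nat_cpow.2 hs)
      refine this.congr fun n => ?_
      push_cast
      rfl
    exact h4.hasSum.tendsto_sum_nat
  have h4 : Filter.Tendsto (fun K : ℕ => (((K : ℝ) + 1 : ℝ) : ℂ) ^ (-s + 1)) Filter.atTop (nhds 0) := by
    rw [tendsto_zero_iff_norm_tendsto_zero]
    have h5 : ∀ K : ℕ, ‖(((K : ℝ) + 1 : ℝ) : ℂ) ^ (-s + 1)‖ = ((K : ℝ) + 1) ^ (-(s.re - 1)) := by
      intro K
      rw [Complex.norm_cpow_eq_rpow_re_of_pos (by positivity)]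
      congr 1
      simp
      ring
    simp_rw [h5]
    have h6 : Filter.Tendsto (fun K : ℕ => (K : ℝ) + 1) Filter.atTop Filter.atTop :=
      Filter.tendsto_atTop_add_const_right _ _ tendsto_natCast_atTop_atTop
    exact (tendsto_rpow_neg_atTop (by linarith : 0 < s.re - 1)).comp h6
  have h5 : Filter.Tendsto (fun K : ℕ => ∑ i ∈ range K, Gz_bz (i + 1) s) Filter.atTop
      (nhds (riemannZeta s - 0 / (-s + 1) + 1 / (-s + 1))) := by
    simp_rw [h2]
    exact (h3.sub (h4.div_const _)).add_const _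
  have h6 := tendsto_nhds_unique h1 h5
  rw [h6, riemannZeta_eq_inv_sub_add hs1]
  have hne2 : s - 1 ≠ 0 := sub_ne_zero.2 hs1
  have : (-s + 1) = -(s - 1) := by ring
  rw [this]
  field_simp
  ring

private theorem Gz_zeta0_eq (s : ℂ) (hs : 0 < s.re) :
    HasSum (fun n : ℕ => Gz_bz (n + 1) s) (riemannZeta₀ s) := by
  have hopen : IsOpen {s : ℂ | 0 < s.re} := isOpen_lt continuous_const Complex.continuous_re
  have hB := Gz_AZser_diff.analyticOnNhd hopen
  have hZ : AnalyticOnNhd ℂ riemannZeta₀ {s : ℂ | 0 < s.re} :=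
    differentiable_riemannZeta₀.differentiableOn.analyticOnNhd hopen
  have hconn : IsPreconnected {s : ℂ | 0 < s.re} := (convex_halfSpace_re_gt 0).isPreconnected
  have h2 : (2 : ℂ) ∈ {s : ℂ | 0 < s.re} := by
    show (0 : ℝ) < (2 : ℂ).re
    norm_num
  have hev : (fun s => ∑' n : ℕ, Gz_bz (n + 1) s) =ᶠ[nhds (2 : ℂ)] riemannZeta₀ := by
    have h3 : {z : ℂ | 1 < z.re} ∈ nhds (2 : ℂ) := by
      apply (isOpen_lt continuous_const Complex.continuous_re).mem_nhds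
      show (1 : ℝ) < (2 : ℂ).re
      norm_num
    filter_upwards [h3] with z hz
    exact Gz_AZser_gt z hz
  have heq := hB.eqOn_of_preconnected_of_eventuallyEq hZ hconn h2 hev
  have h4 : ∑' n : ℕ, Gz_bz (n + 1) s = riemannZeta₀ s := heq hs
  rw [← h4]
  exact (Gz_AZser_summable s hs).of_norm.hasSum

private theorem Gz_AZser_step (σ : ℝ) (hσ : 0 < σ) (k : ℕ) (hk : 1 ≤ k) :
    (((k + 1 : ℕ)) : ℝ) ^ (-σ - 1) ≤ (1 / σ) * ((k : ℝ) ^ (-σ) - (((k + 1 : ℕ)) : ℝ) ^ (-σ)) := by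
  have hk0 : (0 : ℝ) < k := by exact_mod_cast hk
  have hk1 : (0 : ℝ) < ((k + 1 : ℕ) : ℝ) := by positivity
  set x : ℝ := ((k + 1 : ℕ) : ℝ) with hx
  have hxk : (k : ℝ) = x - 1 := by rw [hx]; push_cast; ring
  have h1 : (k : ℝ) ^ (-σ) = x ^ (-σ) * (k / x : ℝ) ^ (-σ) := by
    rw [← Real.mul_rpow hk1.le (by positivity)]
    congr 1
    field_simp
  have h2 : 1 + σ / x ≤ (k / x : ℝ) ^ (-σ) := by
    rw [Real.rpow_def_of_pos (by positivity)]
    have h3 : Real.log (k / x) ≤ k / x - 1 := Real.log_le_sub_one_of_pos (by positivity)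
    have h4 : (k : ℝ) / x - 1 = -(1 / x) := by
      rw [hxk]; field_simp; ring
    rw [h4] at h3
    have h5 := Real.add_one_le_exp (Real.log (k / x) * -σ)
    have h6 : σ / x ≤ Real.log (k / x) * -σ := by
      have : (1 / x) * σ ≤ -Real.log (k / x) * σ := mul_le_mul_of_nonneg_right (by linarith) hσ.le
      calc σ / x = (1 / x) * σ := by ring
        _ ≤ -Real.log (k / x) * σ := this
        _ = _ := by ring
    linarith
  have h7 : x ^ (-σ - 1) = x ^ (-σ) / x := by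
    rw [Real.rpow_sub hk1, Real.rpow_one]
  have h8 : 0 < x ^ (-σ) := Real.rpow_pos_of_pos hk1 _
  rw [h1, h7]
  have h9 : x ^ (-σ) * (1 + σ / x) ≤ x ^ (-σ) * (k / x : ℝ) ^ (-σ) := mul_le_mul_of_nonneg_left h2 h8.le
  have h10 : x ^ (-σ) * (1 + σ / x) - x ^ (-σ) = σ * (x ^ (-σ) / x) := by ring
  calc x ^ (-σ) / x = (1 / σ) * (σ * (x ^ (-σ) / x)) := by field_simp
    _ ≤ (1 / σ) * (x ^ (-σ) * (k / x : ℝ) ^ (-σ) - x ^ (-σ)) := by
        apply mul_le_mul_of_nonneg_left _ (by positivity)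
        linarith

private theorem Gz_AZser_Ioc (f : ℕ → ℝ) (M : ℕ) :
    ∑ k ∈ Finset.Ioc 0 M, f k = ∑ i ∈ range M, f (i + 1) := by
  induction M with
  | zero => simp
  | succ M ih => rw [Finset.sum_Ioc_succ_top (Nat.zero_le _), ih, sum_range_succ]

private theorem Gz_zeta0_le (s : ℂ) (hs : 0 < s.re) (M : ℕ) (hM : 1 ≤ M) :
    ‖riemannZeta₀ s‖ ≤ 2 * ∑ k ∈ Finset.Ioc 0 M, (k : ℝ) ^ (-s.re) +
      (‖s‖ / s.re) * (M : ℝ) ^ (-s.re) := by
  have hsum := Gz_AZser_summable s hs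
  rw [← (Gz_zeta0_eq s hs).tsum_eq]
  refine le_trans (norm_tsum_le_tsum_norm hsum) ?_
  rw [← hsum.sum_add_tsum_nat_add M]
  apply add_le_add
  · rw [Gz_AZser_Ioc, Finset.mul_sum]
    refine Finset.sum_le_sum fun i _ => ?_
    exact Gz_bz_norm1 (i + 1) (by omega) s hs
  · apply Real.tsum_le_of_sum_range_le (fun _ => norm_nonneg _)
    intro N
    have h1 : ∀ i ∈ range N, ‖Gz_bz (i + M + 1) s‖ ≤
        (‖s‖ / s.re) * (((i + M : ℕ) : ℝ) ^ (-s.re) - ((i + 1 + M : ℕ) : ℝ) ^ (-s.re)) := by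
      intro i _
      have h2 := Gz_bz_norm2 (i + M + 1) (by omega) s hs
      have h3 := Gz_AZser_step s.re hs (i + M) (by omega)
      have h4 : i + 1 + M = i + M + 1 := by ring
      rw [h4]
      refine le_trans h2 (le_trans (mul_le_mul_of_nonneg_left h3 (norm_nonneg s)) (le_of_eq ?_))
      ring
    refine le_trans (Finset.sum_le_sum h1) ?_
    rw [← Finset.mul_sum]
    have h5 : ∑ i ∈ range N, (((i + M : ℕ) : ℝ) ^ (-s.re) - ((i + 1 + M : ℕ) : ℝ) ^ (-s.re)) =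
        ((0 + M : ℕ) : ℝ) ^ (-s.re) - ((N + M : ℕ) : ℝ) ^ (-s.re) :=
      Finset.sum_range_sub' (fun i : ℕ => ((i + M : ℕ) : ℝ) ^ (-s.re)) N
    rw [h5, zero_add]
    apply mul_le_mul_of_nonneg_left _ (by positivity)
    have : (0 : ℝ) ≤ ((N + M : ℕ) : ℝ) ^ (-s.re) := Real.rpow_nonneg (Nat.cast_nonneg _) _
    linarith


end

open Complex

theorem norm_zeta_le : ∃ A : ℝ, 1 ≤ A ∧ ∀ s : ℂ, 1 / 2 ≤ s.re → 1 / 2 ≤ |s.im| → ‖riemannZeta s‖ ≤ A * (|s.im| + 2) := by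
  refine ⟨3, by norm_num, fun s hs ht => ?_⟩
  have hpos : 0 < s.re := by linarith
  have hs1 : s ≠ 1 := by
    rintro rfl
    norm_num at ht
  have h0 := Gz_zeta0_le s hpos 1 le_rfl
  have e1 : ∑ k ∈ Finset.Ioc (0 : ℕ) 1, (k : ℝ) ^ (-s.re) = 1 := by simp
  rw [e1, Nat.cast_one, Real.one_rpow, mul_one, mul_one] at h0
  have h1 : ‖s‖ / s.re ≤ 1 + 2 * |s.im| := by
    rw [div_le_iff₀ hpos]
    have h2 := Complex.norm_le_abs_re_add_abs_im s
    rw [abs_of_pos hpos] at h2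
    nlinarith [abs_nonneg s.im]
  have h3 : 1 / 2 ≤ ‖s - 1‖ := by
    refine ht.trans ?_
    have := Complex.abs_im_le_norm (s - 1)
    simpa using this
  have h4 : ‖(s - 1)⁻¹‖ ≤ 2 := by
    rw [norm_inv]
    calc ‖s - 1‖⁻¹ ≤ (1 / 2 : ℝ)⁻¹ := inv_anti₀ (by norm_num) h3
      _ = 2 := by norm_num
  rw [riemannZeta_eq_inv_sub_add hs1]
  refine (norm_add_le _ _).trans ?_
  linarith

end Pool.Agent.Lib.MP_d713a4_nt
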