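import Pool.Agent.Lib.MP_d713a4_nt.Gr
import Pool.Agent.Lib.MP_d713a4_nt.Gz
import Pool.Agent.Lib.MP_d713a4_nt.Gf
import Pool.Agent.Lib.MP_d713a4_nt.Bc

/-!
# LEAF Dl: the logarithmic derivatives under GRH

PROOF.  `n > 1`: `f = LJ n` is entire, without zeros in `Re s > 1/2` (`LJ_ne`).  For `s` with `Re s ≤ 7/2 - σ`: `dlog_le` with `h = σ`,
`c = 2 + i Im s`, the ball of radius `3/2 - σ/2` lies in `Re > 1/2 + σ/2`, `M = 4 n (|t| + 4)`, `K` of `far 1`.  For larger `Re s` `far 1`.
`n = 1`: `LJ 1 = ζ`; for `|t| ≥ 3` the same with `norm_zeta_le` (the ball does not contain `1`, its points have `|Im| ≥ 3/2`); for `|t| ≤ 3`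
`t ↦ dl 1 (1/2 + σ + i t)` is continuous (`dl_cont`), so bounded on a compact set.
`dl_cont`: `LJ n` is differentiable near the line (`1/2 + σ < 1`) and not zero on it.
-/

set_option autoImplicit false

namespace Pool.Agent.Lib.MP_d713a4_nt

open Complex

private theorem Dl_an (n : ℕ) (ho : Odd n) (hs : Squarefree n) (z : ℂ) (hz : z ≠ 1) : AnalyticAt ℂ (LJ n) z := by
  rcases Nat.lt_or_ge 1 n with h | h
  · exact (diff_LJ n h ho hs).analyticAt z
  · have h1 : n = 1 := by
      have := ho.pos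
      omega
    subst h1
    rw [LJ_one]
    exact DifferentiableOn.analyticAt (s := {1}ᶜ)
      (fun w hw => (differentiableAt_riemannZeta hw).differentiableWithinAt)
      (isOpen_compl_singleton.mem_nhds hz)

theorem dl_cont (g : GRH) (σ : ℝ) (h0 : 0 < σ) (h1 : σ < 1 / 2) (n : ℕ) (ho : Odd n) (hs : Squarefree n) :
    Continuous fun t : ℝ => dl n (1 / 2 + (σ + t * I)) := by
  rw [continuous_iff_continuousAt]
  intro t
  have hre : ((1 / 2 + (σ + t * I) : ℂ)).re = 1 / 2 + σ := by
    simp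
  have hz : (1 / 2 + (σ + t * I) : ℂ) ≠ 1 := by
    intro h
    have h2 := congrArg Complex.re h
    rw [hre, Complex.one_re] at h2
    linarith
  have hne : LJ n (1 / 2 + (σ + t * I)) ≠ 0 := g n ho hs _ (by rw [hre]; linarith) hz
  have han := Dl_an n ho hs _ hz
  have h3 : ContinuousAt (dl n) (1 / 2 + (σ + t * I)) := by
    unfold dl
    exact han.deriv.continuousAt.div han.continuousAt hne
  have h4 : ContinuousAt (fun t : ℝ => (1 / 2 + (σ + t * I) : ℂ)) t := by
    fun_prop
  exact ContinuousAt.comp (g := dl n) (f := fun t : ℝ => (1 / 2 + (σ + t * I) : ℂ)) h3 h4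

private theorem Dl_ball {σ : ℝ} {z : ℂ} {t : ℝ} (h : z ∈ Metric.ball ((2 : ℂ) + t * I) (3 / 2 - σ / 2)) :
    1 / 2 + σ / 2 < z.re ∧ |z.im - t| < 3 / 2 - σ / 2 := by
  rw [Metric.mem_ball, dist_eq_norm] at h
  have h1 := (Complex.abs_re_le_norm (z - (2 + t * I))).trans_lt h
  have h2 := (Complex.abs_im_le_norm (z - (2 + t * I))).trans_lt h
  have h3 : (z - (2 + t * I)).re = z.re - 2 := by simp
  have h4 : (z - (2 + t * I)).im = z.im - t := by simp
  rw [h3] at h1
  rw [h4] at h2
  refine ⟨?_, h2⟩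
  have := (abs_lt.1 h1).1
  linarith

private theorem Dl_mem {σ : ℝ} {s : ℂ} (h : 1 / 2 + σ ≤ s.re) (h' : s.re ≤ 7 / 2 - σ) :
    s ∈ Metric.closedBall ((2 : ℂ) + s.im * I) (3 / 2 - σ) := by
  rw [Metric.mem_closedBall, dist_eq_norm]
  have h1 : s - (2 + s.im * I) = ((s.re - 2 : ℝ) : ℂ) := by
    apply Complex.ext
    · simp
    · simp
  rw [h1, Complex.norm_real, Real.norm_eq_abs, abs_le]
  constructor <;> linarith

theorem dl_le (g : GRH) (σ : ℝ) (h0 : 0 < σ) (h1 : σ < 1 / 2) : ∃ A : ℝ, 0 < A ∧ ∀ n : ℕ, Odd n → Squarefree n →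
    (1 < n → ∀ s : ℂ, 1 / 2 + σ ≤ s.re → ‖dl n s‖ ≤ A * Real.log (n * (|s.im| + 2))) ∧
    ∀ t : ℝ, ‖dl n (1 / 2 + (σ + t * I))‖ ≤ A * Real.log (n * (|t| + 2)) := by
  obtain ⟨A0, hA0, hd⟩ := dlog_le σ h0 h1
  obtain ⟨K, hK, hf⟩ := far 1 one_pos
  obtain ⟨A2, hA2, hz⟩ := norm_zeta_le
  have hK0 : 0 ≤ Real.log K := Real.log_nonneg hK
  -- the bound for a function on the ball
  have key : ∀ (n : ℕ), Odd n → ∀ (s : ℂ) (B : ℝ), 1 ≤ B → 1 / 2 + σ ≤ s.re → s.re ≤ 7 / 2 - σ →
      DifferentiableOn ℂ (LJ n) (Metric.ball ((2 : ℂ) + s.im * I) (3 / 2 - σ / 2)) →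
      (∀ z ∈ Metric.ball ((2 : ℂ) + s.im * I) (3 / 2 - σ / 2), LJ n z ≠ 0) →
      (∀ z ∈ Metric.ball ((2 : ℂ) + s.im * I) (3 / 2 - σ / 2), ‖LJ n z‖ ≤ B * (|z.im| + 2)) →
      ‖dl n s‖ ≤ A0 * (1 + Real.log (4 * B) + Real.log K + Real.log (|s.im| + 2)) := by
    intro n ho s B hB hs1 hs2 hdiff hne hb
    have hc : ((2 : ℂ) + s.im * I).re = 2 := by simp
    obtain ⟨hc1, hc2, -⟩ := hf n ho ((2 : ℂ) + s.im * I) (by rw [hc]; norm_num)
    have ha := abs_nonneg s.im
    have hM : (1 : ℝ) ≤ 4 * B * (|s.im| + 2) := by nlinarith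
    have h3 := hd (LJ n) ((2 : ℂ) + s.im * I) (4 * B * (|s.im| + 2)) K hM hK hdiff hne ?_ hc1 hc2 s
      (Dl_mem hs1 hs2)
    · have h4 : Real.log (4 * B * (|s.im| + 2)) = Real.log (4 * B) + Real.log (|s.im| + 2) := by
        rw [Real.log_mul (by positivity) (by positivity)]
      rw [h4] at h3
      unfold dl
      refine h3.trans (le_of_eq ?_)
      ring
    · intro z hz'
      refine (hb z hz').trans ?_
      have h5 := (Dl_ball hz').2
      have h6 : |z.im| ≤ |s.im| + 2 := by
        have h7 : |z.im| ≤ |z.im - s.im| + |s.im| := by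
          have := abs_add_le (z.im - s.im) s.im
          rwa [sub_add_cancel] at this
        linarith
      nlinarith
  -- the part `n > 1`
  have big : ∀ n : ℕ, 1 < n → Odd n → Squarefree n → ∀ s : ℂ, 1 / 2 + σ ≤ s.re →
      ‖dl n s‖ ≤ (A0 * (1 + Real.log 16 + Real.log K + 1) + K) * Real.log (n * (|s.im| + 2)) := by
    intro n hn ho hsq s hs
    have ha := abs_nonneg s.im
    have hn2 : (2 : ℝ) ≤ n := by exact_mod_cast hn
    have hlog1 : 1 ≤ Real.log (n * (|s.im| + 2)) := by
      rw [Real.le_log_iff_exp_le (by positivity)]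
      have := Real.exp_one_lt_d9
      nlinarith
    have h16 : 0 ≤ Real.log 16 := Real.log_nonneg (by norm_num)
    rcases le_total s.re (7 / 2 - σ) with h2 | h2
    · have h3 := key n ho s (4 * n) (by linarith) hs h2 (diff_LJ n hn ho hsq).differentiableOn
        (fun z hz' => LJ_ne g n hn ho hsq z (by have := (Dl_ball hz').1; linarith))
        (fun z hz' => norm_L_le n hn ho hsq z (by have := (Dl_ball hz').1; linarith))
      have h4 : Real.log (4 * (4 * n)) + Real.log (|s.im| + 2) = Real.log 16 + Real.log (n * (|s.im| + 2)) := by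
        rw [← Real.log_mul (by positivity) (by positivity), ← Real.log_mul (by positivity) (by positivity)]
        congr 1
        ring
      have h5 : 1 + Real.log (4 * (4 * n)) + Real.log K + Real.log (|s.im| + 2) ≤
          (1 + Real.log 16 + Real.log K + 1) * Real.log (n * (|s.im| + 2)) := by
        nlinarith
      refine h3.trans ((mul_le_mul_of_nonneg_left h5 hA0.le).trans ?_)
      nlinarith
    · have h3 := (hf n ho s (by linarith)).2.2
      have h5 : 0 ≤ A0 * (1 + Real.log 16 + Real.log K + 1) := by positivity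
      nlinarith
  -- the part `n = 1`
  obtain ⟨B, hB⟩ := (isCompact_Icc (a := (-3 : ℝ)) (b := 3)).exists_bound_of_continuousOn
    (dl_cont g σ h0 h1 1 odd_one squarefree_one).continuousOn
  have hl2 : 0 < Real.log 2 := Real.log_pos (by norm_num)
  have small : ∀ t : ℝ, ‖dl 1 (1 / 2 + (σ + t * I))‖ ≤
      (A0 * (1 + Real.log (4 * A2) + Real.log K + 1) + |B| / Real.log 2) * Real.log (|t| + 2) := by
    intro t
    have ha := abs_nonneg t
    have hlA : 0 ≤ Real.log (4 * A2) := Real.log_nonneg (by linarith)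
    have h5 : 0 ≤ A0 * (1 + Real.log (4 * A2) + Real.log K + 1) := by positivity
    have hl : Real.log 2 ≤ Real.log (|t| + 2) := Real.log_le_log (by norm_num) (by linarith)
    have hB0 : 0 ≤ |B| / Real.log 2 := by positivity
    rcases le_total |t| 3 with h2 | h2
    · have h3 := hB t (abs_le.1 h2)
      have h4 : |B| ≤ |B| / Real.log 2 * Real.log (|t| + 2) := by
        rw [div_mul_eq_mul_div, le_div_iff₀ hl2]
        exact mul_le_mul_of_nonneg_left hl (abs_nonneg B)
      have h6 : 0 ≤ A0 * (1 + Real.log (4 * A2) + Real.log K + 1) * Real.log (|t| + 2) :=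
        mul_nonneg h5 (by linarith)
      have h7 := le_abs_self B
      rw [add_mul]
      linarith
    · have hlog1 : 1 ≤ Real.log (|t| + 2) := by
        rw [Real.le_log_iff_exp_le (by positivity)]
        have := Real.exp_one_lt_d9
        linarith
      have hre : ((1 / 2 + (σ + t * I) : ℂ)).re = 1 / 2 + σ := by simp
      have him : ((1 / 2 + (σ + t * I) : ℂ)).im = t := by simp
      have hball : ∀ z ∈ Metric.ball ((2 : ℂ) + t * I) (3 / 2 - σ / 2), 1 / 2 < z.re ∧ 1 / 2 ≤ |z.im| := by
        intro z hz'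
        obtain ⟨h8, h9⟩ := Dl_ball hz'
        refine ⟨by linarith, ?_⟩
        have h10 : |t| ≤ |z.im - t| + |z.im| := by
          have := abs_add_le (t - z.im) z.im
          rw [sub_add_cancel, abs_sub_comm] at this
          exact this
        linarith
      have hne1 : ∀ z ∈ Metric.ball ((2 : ℂ) + t * I) (3 / 2 - σ / 2), z ≠ 1 := by
        intro z hz' h
        have h8 := (hball z hz').2
        rw [h, Complex.one_im, abs_zero] at h8
        linarith
      have h3 := key 1 odd_one (1 / 2 + (σ + t * I)) A2 hA2 (by rw [hre]) (by rw [hre]; linarith)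
        (by
          rw [him]
          exact fun z hz' => (Dl_an 1 odd_one squarefree_one z (hne1 z hz')).differentiableAt.differentiableWithinAt)
        (by
          rw [him]
          exact fun z hz' => g 1 odd_one squarefree_one z (hball z hz').1 (hne1 z hz'))
        (by
          rw [him]
          intro z hz'
          rw [LJ_one]
          exact hz z (hball z hz').1.le (hball z hz').2)
      rw [him] at h3
      have h6 : 1 + Real.log (4 * A2) + Real.log K + Real.log (|t| + 2) ≤
          (1 + Real.log (4 * A2) + Real.log K + 1) * Real.log (|t| + 2) := by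
        nlinarith
      refine h3.trans ((mul_le_mul_of_nonneg_left h6 hA0.le).trans ?_)
      have h7 : 0 ≤ |B| / Real.log 2 * Real.log (|t| + 2) := by positivity
      rw [add_mul]
      linarith
  have hp1 : 0 < A0 * (1 + Real.log 16 + Real.log K + 1) + K := by
    have : 0 ≤ Real.log 16 := Real.log_nonneg (by norm_num)
    positivity
  have hp2 : 0 < A0 * (1 + Real.log (4 * A2) + Real.log K + 1) + |B| / Real.log 2 := by
    have : 0 ≤ Real.log (4 * A2) := Real.log_nonneg (by linarith)
    positivity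
  refine ⟨(A0 * (1 + Real.log 16 + Real.log K + 1) + K) +
    (A0 * (1 + Real.log (4 * A2) + Real.log K + 1) + |B| / Real.log 2), by positivity, fun n ho hsq => ?_⟩
  have hA : 1 < n → ∀ s : ℂ, 1 / 2 + σ ≤ s.re → ‖dl n s‖ ≤
      ((A0 * (1 + Real.log 16 + Real.log K + 1) + K) +
        (A0 * (1 + Real.log (4 * A2) + Real.log K + 1) + |B| / Real.log 2)) *
        Real.log (n * (|s.im| + 2)) := by
    intro hn s hs
    refine (big n hn ho hsq s hs).trans (mul_le_mul_of_nonneg_right (by linarith) ?_)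
    have hn2 : (2 : ℝ) ≤ n := by exact_mod_cast hn
    have ha := abs_nonneg s.im
    exact Real.log_nonneg (by nlinarith)
  refine ⟨hA, fun t => ?_⟩
  rcases Nat.lt_or_ge 1 n with h | h
  · have h2 := hA h (1 / 2 + (σ + t * I)) (by simp)
    have him : ((1 / 2 + (σ + t * I) : ℂ)).im = t := by simp
    rwa [him] at h2
  · have hn1 : n = 1 := by
      have := ho.pos
      omega
    subst hn1
    have ha := abs_nonneg t
    rw [Nat.cast_one, one_mul]
    exact (small t).trans (mul_le_mul_of_nonneg_right (by linarith) (Real.log_nonneg (by linarith)))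

end Pool.Agent.Lib.MP_d713a4_nt
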