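import Pool.Agent.Lib.MP_d713a4_nt.Ma

/-!
# LEAF Ee: measurability and growth of the error term

PROOF.  `EE_meas`: `FF x (σ + i t) = ∑_(n ≥ 1) 1_(n ≤ x) os n dl n (1/2 + σ + i t)` is the pointwise limit of finite sums of products of an indicator function of `x` and a
continuous function of `t` (`dl_cont`); `(x : ℂ)^(1 - (σ + i t))` is measurable in `(x, t)` (`Measurable.pow` / `cpow` is measurable).
`EE_le`: `FF_le`; `‖x^(1-r)‖ = x^(1-σ) ≤ 1 + x` for `x > 0` (`x = 0`: `0^(1-r) = 0`).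
-/

set_option autoImplicit false

namespace Pool.Agent.Lib.MP_d713a4_nt

open Complex

private theorem Ee_floor (x : ℝ) (r : ℂ) : FF x r = FF (⌊x⌋₊ : ℝ) r := by
  unfold FF OS
  rw [Nat.floor_natCast]

private theorem Ee_gen (F : ℝ → ℝ → ℂ) (hF : ∀ x t, F x t = F (⌊x⌋₊ : ℝ) t) (hc : ∀ N : ℕ, Continuous (F N)) :
    Measurable fun z : ℝ × ℝ => F z.1 z.2 := by
  have h : Measurable fun w : ℕ × ℝ => F (w.1 : ℝ) w.2 := by
    apply measurable_from_prod_countable_right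
    intro N
    exact (hc N).measurable
  have h2 : Measurable fun z : ℝ × ℝ => ((⌊z.1⌋₊, z.2) : ℕ × ℝ) :=
    (Nat.measurable_floor.comp measurable_fst).prodMk measurable_snd
  have h3 := h.comp h2
  have h4 : (fun z : ℝ × ℝ => F z.1 z.2)
      = (fun w : ℕ × ℝ => F (w.1 : ℝ) w.2) ∘ (fun z : ℝ × ℝ => ((⌊z.1⌋₊, z.2) : ℕ × ℝ)) := by
    funext z
    exact hF z.1 z.2
  rw [h4]
  exact h3

private theorem Ee_meas (g : GRH) (σ : ℝ) (h0 : 0 < σ) (h1 : σ < 1 / 2) :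
    Measurable fun z : ℝ × ℝ => FF z.1 (σ + z.2 * I) :=
  Ee_gen (fun x t => FF x (σ + t * I)) (fun x t => Ee_floor x _) (fun N => FF_cont g σ h0 h1 N)

theorem EE_meas (g : GRH) (σ : ℝ) (h0 : 0 < σ) (h1 : σ < 1 / 2) (a b : ℝ → ℂ) (ha : Measurable a) (hb : Measurable b) :
    Measurable fun z : ℝ × ℝ => EE σ a b z.1 z.2 := by
  unfold EE
  have hx : Measurable fun z : ℝ × ℝ => (z.1 : ℂ) := Complex.measurable_ofReal.comp measurable_fst
  have ht : Measurable fun z : ℝ × ℝ => (z.2 : ℂ) := Complex.measurable_ofReal.comp measurable_snd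
  have hr : Measurable fun z : ℝ × ℝ => (1 - ((σ : ℂ) + z.2 * I)) := by fun_prop
  exact ((Ee_meas g σ h0 h1).sub (hx.mul (ha.comp measurable_snd))).sub
    ((hx.pow hr).mul (hb.comp measurable_snd))

theorem EE_le (g : GRH) (σ : ℝ) (h0 : 0 < σ) (h1 : σ < 1 / 2) (a b : ℝ → ℂ) (k : ℕ) (B : ℝ)
    (hab : ∀ t, ‖a t‖ ≤ B * (1 + |t|) ^ k ∧ ‖b t‖ ≤ B * (1 + |t|) ^ k) : ∃ A : ℝ, 0 < A ∧ ∀ x t : ℝ, 0 ≤ x →
    ‖EE σ a b x t‖ ≤ A * (1 + x) ^ 2 * (1 + |t|) ^ (k + 1) := by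
  obtain ⟨A, hA, hF⟩ := FF_le g σ h0 h1
  have hB : 0 ≤ B := by
    have h := (hab 0).1
    simp only [abs_zero, add_zero, one_pow, mul_one] at h
    exact (norm_nonneg _).trans h
  refine ⟨A + 2 * B, by positivity, fun x t hx => ?_⟩
  have e1 : (1 : ℝ) ≤ 1 + |t| := by linarith [abs_nonneg t]
  have e2 : (1 : ℝ) ≤ (1 + |t|) ^ k := one_le_pow₀ e1
  have e3 : (1 + |t|) ≤ (1 + |t|) ^ (k + 1) := by
    rw [pow_succ]
    nlinarith
  have e4 : (1 + |t|) ^ k ≤ (1 + |t|) ^ (k + 1) := pow_le_pow_right₀ e1 (Nat.le_succ k)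
  have e5 : (1 + x) ≤ (1 + x) ^ 2 := by nlinarith
  have e0 : 0 ≤ (1 + |t|) ^ (k + 1) := by positivity
  have hp : ‖(x : ℂ) ^ (1 - ((σ : ℂ) + t * I))‖ ≤ 1 + x := by
    rcases hx.eq_or_lt with rfl | hx'
    · rw [Complex.ofReal_zero, Complex.zero_cpow, norm_zero]
      · norm_num
      · intro h
        have h3 := congrArg Complex.re h
        simp at h3
        linarith
    · rw [Complex.norm_cpow_eq_rpow_re_of_pos hx']
      have : (1 - ((σ : ℂ) + t * I)).re = 1 - σ := by simp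
      rw [this]
      calc x ^ (1 - σ) ≤ (1 + x) ^ (1 - σ) :=
            Real.rpow_le_rpow hx (by linarith) (by linarith)
        _ ≤ (1 + x) ^ (1 : ℝ) := Real.rpow_le_rpow_of_exponent_le (by linarith) (by linarith)
        _ = 1 + x := Real.rpow_one _
  have f1 : ‖FF x (σ + t * I)‖ ≤ A * (1 + x) ^ 2 * (1 + |t|) ^ (k + 1) :=
    (hF x t hx).trans (mul_le_mul_of_nonneg_left e3 (by positivity))
  have f2 : ‖(x : ℂ) * a t‖ ≤ B * (1 + x) ^ 2 * (1 + |t|) ^ (k + 1) := by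
    rw [norm_mul, Complex.norm_real, Real.norm_of_nonneg hx]
    calc x * ‖a t‖ ≤ (1 + x) ^ 2 * (B * (1 + |t|) ^ (k + 1)) := by
          apply mul_le_mul (by linarith) ((hab t).1.trans (mul_le_mul_of_nonneg_left e4 hB)) (norm_nonneg _)
            (by positivity)
      _ = B * (1 + x) ^ 2 * (1 + |t|) ^ (k + 1) := by ring
  have f3 : ‖(x : ℂ) ^ (1 - ((σ : ℂ) + t * I)) * b t‖ ≤ B * (1 + x) ^ 2 * (1 + |t|) ^ (k + 1) := by
    rw [norm_mul]
    calc _ ≤ (1 + x) ^ 2 * (B * (1 + |t|) ^ (k + 1)) := by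
          apply mul_le_mul (hp.trans e5) ((hab t).2.trans (mul_le_mul_of_nonneg_left e4 hB)) (norm_nonneg _)
            (by positivity)
      _ = B * (1 + x) ^ 2 * (1 + |t|) ^ (k + 1) := by ring
  unfold EE
  have g1 := norm_sub_le (FF x (σ + t * I) - x * a t) ((x : ℂ) ^ (1 - ((σ : ℂ) + t * I)) * b t)
  have g2 := norm_sub_le (FF x (σ + t * I)) (x * a t)
  have : (A + 2 * B) * (1 + x) ^ 2 * (1 + |t|) ^ (k + 1) = A * (1 + x) ^ 2 * (1 + |t|) ^ (k + 1)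
      + B * (1 + x) ^ 2 * (1 + |t|) ^ (k + 1) + B * (1 + x) ^ 2 * (1 + |t|) ^ (k + 1) := by ring
  rw [this]
  linarith

end Pool.Agent.Lib.MP_d713a4_nt
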