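import Pool.Agent.Lib.MP_d713a4_nt.Defs

/-!
# LEAF Fa: the weight functions

PROOF.  `ff_le`: `‖zz λ‖ ≤ 20 λ`, `‖cexp (-zz λ u)‖ = exp (-u)`.  `om_int`: Gamma integrals, `(1 + u)^k ≤ 2^k (1 + u^k)`.  `Tf_deriv`: product rule.
`ff_tail`: the fundamental theorem of calculus on `(a, ∞)` (`integral_Ioi_of_hasDerivAt_of_tendsto`), `Tf → 0`; `ff` is integrable on `(a, ∞)`.
-/

set_option autoImplicit false

namespace Pool.Agent.Lib.MP_d713a4_nt

open Complex MeasureTheory Set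

private theorem Fa_re (lam u : ℝ) : ‖cexp (-zz lam * u)‖ = Real.exp (-u) := by
  rw [Complex.norm_exp]
  congr 1
  unfold zz
  simp

private theorem Fa_norm (κ lam u : ℝ) (hκ : 1 ≤ κ) (hu : 0 < u) :
    ‖ff κ lam u‖ ≤ (‖zz lam‖ + κ) * om κ u := by
  have h1 : 0 ≤ u ^ κ := Real.rpow_nonneg hu.le _
  have h2 : 0 ≤ u ^ (κ - 1) := Real.rpow_nonneg hu.le _
  have h3 : ‖zz lam * ((u ^ κ : ℝ) : ℂ) - (κ : ℂ) * ((u ^ (κ - 1) : ℝ) : ℂ)‖ ≤
      ‖zz lam‖ * u ^ κ + κ * u ^ (κ - 1) := by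
    refine (norm_sub_le _ _).trans ?_
    rw [norm_mul, norm_mul, Complex.norm_real, Complex.norm_real, Complex.norm_real, Real.norm_of_nonneg h1,
      Real.norm_of_nonneg h2, Real.norm_of_nonneg (by linarith : 0 ≤ κ)]
  have h4 : ‖zz lam‖ * u ^ κ + κ * u ^ (κ - 1) ≤ (‖zz lam‖ + κ) * (u ^ κ + u ^ (κ - 1)) := by
    have h5 := norm_nonneg (zz lam)
    have h6 : 0 ≤ ‖zz lam‖ * u ^ (κ - 1) := mul_nonneg h5 h2
    have h7 : 0 ≤ κ * u ^ κ := mul_nonneg (by linarith) h1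
    nlinarith
  unfold ff om
  rw [norm_mul, Fa_re, ← mul_assoc]
  exact mul_le_mul_of_nonneg_right (h3.trans h4) (Real.exp_pos _).le

theorem ff_le (κ : ℝ) (hκ : 1 ≤ κ) : ∃ A : ℝ, 0 < A ∧ ∀ lam u : ℝ, 1 ≤ lam → 0 < u → ‖ff κ lam u‖ ≤ A * lam * om κ u := by
  refine ⟨20 + κ, by linarith, fun lam u hl hu => (Fa_norm κ lam u hκ hu).trans ?_⟩
  have h1 : 0 ≤ om κ u := by
    unfold om
    exact mul_nonneg (add_nonneg (Real.rpow_nonneg hu.le _) (Real.rpow_nonneg hu.le _)) (Real.exp_pos _).le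
  refine mul_le_mul_of_nonneg_right ?_ h1
  have h2 : ‖zz lam‖ ≤ 1 + 6 * Real.pi * lam := by
    unfold zz
    refine (norm_add_le _ _).trans ?_
    have h3 : (6 * Real.pi * lam * I : ℂ) = ((6 * Real.pi * lam : ℝ) : ℂ) * I := by push_cast; ring
    rw [norm_one, h3, norm_mul, Complex.norm_real, Complex.norm_I, mul_one,
      Real.norm_of_nonneg (by have := Real.pi_pos; positivity)]
  have h4 := Real.pi_lt_d2
  nlinarith

private theorem Fa_gam (c : ℝ) (hc : 0 ≤ c) : IntegrableOn (fun u : ℝ => u ^ c * Real.exp (-u)) (Ioi 0) := by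
  have h := Real.GammaIntegral_convergent (s := c + 1) (by linarith)
  refine h.congr_fun (fun u _ => ?_) measurableSet_Ioi
  show Real.exp (-u) * u ^ (c + 1 - 1) = u ^ c * Real.exp (-u)
  rw [add_sub_cancel_right, mul_comm]

theorem om_int (κ k : ℝ) (hκ : 1 ≤ κ) (hk : 0 ≤ k) : IntegrableOn (fun u => om κ u * (1 + u) ^ k) (Ioi 0) := by
  have g : IntegrableOn (fun u : ℝ => (2 : ℝ) ^ k * ((u ^ κ * Real.exp (-u) + u ^ (κ - 1) * Real.exp (-u)) +
      (u ^ (κ + k) * Real.exp (-u) + u ^ (κ - 1 + k) * Real.exp (-u)))) (Ioi 0) :=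
    (((Fa_gam κ (by linarith)).add (Fa_gam (κ - 1) (by linarith))).add
      ((Fa_gam (κ + k) (by linarith)).add (Fa_gam (κ - 1 + k) (by linarith)))).const_mul _
  refine Integrable.mono' g ?_ ?_
  · refine Measurable.aestronglyMeasurable ?_
    unfold om
    fun_prop
  · refine (ae_restrict_iff' measurableSet_Ioi).2 (Filter.Eventually.of_forall fun u hu => ?_)
    have hu' : (0 : ℝ) < u := hu
    have h1 : 0 ≤ u ^ κ := Real.rpow_nonneg hu'.le _
    have h2 : 0 ≤ u ^ (κ - 1) := Real.rpow_nonneg hu'.le _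
    have h3 : 0 ≤ u ^ k := Real.rpow_nonneg hu'.le _
    have h4 : (1 + u) ^ k ≤ (2 : ℝ) ^ k * (1 + u ^ k) := by
      rcases le_total u 1 with h | h
      · have e1 : (1 + u) ^ k ≤ (2 : ℝ) ^ k := Real.rpow_le_rpow (by linarith) (by linarith) hk
        have e2 : 0 ≤ (2 : ℝ) ^ k := Real.rpow_nonneg (by norm_num) _
        nlinarith
      · have e1 : (1 + u) ^ k ≤ (2 * u) ^ k := Real.rpow_le_rpow (by linarith) (by linarith) hk
        rw [Real.mul_rpow (by norm_num) hu'.le] at e1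
        have e2 : 0 ≤ (2 : ℝ) ^ k := Real.rpow_nonneg (by norm_num) _
        nlinarith
    have h5 : 0 ≤ (1 + u) ^ k := Real.rpow_nonneg (by linarith) _
    have h6 : 0 ≤ om κ u := by
      unfold om
      exact mul_nonneg (add_nonneg h1 h2) (Real.exp_pos _).le
    rw [Real.norm_of_nonneg (mul_nonneg h6 h5)]
    refine (mul_le_mul_of_nonneg_left h4 h6).trans (le_of_eq ?_)
    unfold om
    rw [Real.rpow_add hu', Real.rpow_add hu']
    ring

theorem ff_meas (κ lam : ℝ) : Measurable (ff κ lam) := by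
  unfold ff
  fun_prop

theorem Tf_deriv (κ lam u : ℝ) (hu : 0 < u) : HasDerivAt (Tf κ lam) (-ff κ lam u) u := by
  have h1 : HasDerivAt (fun v : ℝ => ((v ^ κ : ℝ) : ℂ)) ((κ * u ^ (κ - 1) : ℝ) : ℂ) u :=
    (Real.hasDerivAt_rpow_const (Or.inl hu.ne')).ofReal_comp
  have h2 : HasDerivAt (fun v : ℝ => cexp (-zz lam * (v : ℂ))) (cexp (-zz lam * (u : ℂ)) * (-zz lam * 1)) u := by
    have h3 : HasDerivAt (fun v : ℝ => (v : ℂ)) 1 u := Complex.ofRealCLM.hasDerivAt
    exact (h3.const_mul (-zz lam)).cexp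
  have h3 := h1.mul h2
  have h4 : HasDerivAt (Tf κ lam) (((κ * u ^ (κ - 1) : ℝ) : ℂ) * cexp (-zz lam * (u : ℂ)) +
      ((u ^ κ : ℝ) : ℂ) * (cexp (-zz lam * (u : ℂ)) * (-zz lam * 1))) u := by
    refine h3.congr_of_eventuallyEq ?_
    filter_upwards [lt_mem_nhds hu] with v hv
    unfold Tf
    rw [if_pos hv]
    rfl
  refine h4.congr_deriv ?_
  unfold ff
  push_cast
  ring

theorem norm_Tf (κ lam u : ℝ) (hu : 0 < u) : ‖Tf κ lam u‖ = u ^ κ * Real.exp (-u) := by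
  unfold Tf
  rw [if_pos hu, norm_mul, Fa_re, Complex.norm_real, Real.norm_of_nonneg (Real.rpow_nonneg hu.le _)]

theorem ff_tail (κ lam a : ℝ) (hκ : 1 ≤ κ) (ha : 0 < a) : ∫ u in Ioi a, ff κ lam u = Tf κ lam a := by
  have hom : IntegrableOn (fun u => om κ u) (Ioi a) := by
    have h1 := om_int κ 0 hκ le_rfl
    have h2 : IntegrableOn (fun u => om κ u) (Ioi 0) := by
      refine h1.congr_fun (fun u _ => ?_) measurableSet_Ioi
      show om κ u * (1 + u) ^ (0 : ℝ) = om κ u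
      rw [Real.rpow_zero, mul_one]
    exact h2.mono_set (Ioi_subset_Ioi ha.le)
  have hint : IntegrableOn (fun u => -ff κ lam u) (Ioi a) := by
    refine Integrable.mono' (hom.const_mul (‖zz lam‖ + κ)) (ff_meas κ lam).neg.aestronglyMeasurable ?_
    refine (ae_restrict_iff' measurableSet_Ioi).2 (Filter.Eventually.of_forall fun u hu => ?_)
    rw [norm_neg]
    exact Fa_norm κ lam u hκ (ha.trans hu)
  have hlim : Filter.Tendsto (Tf κ lam) Filter.atTop (nhds 0) := by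
    rw [tendsto_zero_iff_norm_tendsto_zero]
    have h1 := tendsto_rpow_mul_exp_neg_mul_atTop_nhds_zero κ 1 one_pos
    refine h1.congr' ?_
    filter_upwards [Filter.eventually_gt_atTop 0] with u hu
    rw [norm_Tf κ lam u hu, neg_one_mul]
  have h := integral_Ioi_of_hasDerivAt_of_tendsto' (f := Tf κ lam) (f' := fun u => -ff κ lam u)
    (fun x hx => Tf_deriv κ lam x (ha.trans_le hx)) hint hlim
  rw [integral_neg] at h
  have h2 : ∫ u in Ioi a, ff κ lam u = -(0 - Tf κ lam a) := by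
    rw [← h, neg_neg]
  rw [h2]
  ring

end Pool.Agent.Lib.MP_d713a4_nt
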