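import Pool.Agent.Lib.MP_d713a4_nt.Defs

/-!
# LEAF Ga: the Gamma function on vertical lines

PROOF.  `gam_decay`: `Γ(s) = r^s ∫_0^∞ x^(s-1) exp(-r x) dx` with `r = exp(i θ)` (`Complex.integral_cpow_mul_exp_neg_mul_Ioi`), so
`‖Γ(s)‖ ≤ exp(-θ Im s) ∫ x^(Re s - 1) exp(-x cos θ) dx`; use `θ` or `-θ` according to the sign of `Im s`.
`gam_nat`: `‖Γ(1 + i v)‖² = Γ(1 + i v) Γ(1 - i v) = i v Γ(i v) Γ(1 - i v) = π v / sinh (π v)` (`Complex.Gamma_mul_Gamma_one_sub`), which is at most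
`A (1 + |v|) exp(-π |v|)`; `‖Γ(N + i v)‖ = ‖Γ(1 + i v)‖ ∏_(1 ≤ j < N) ‖j + i v‖ ≤ ‖Γ(1 + i v)‖ N^N (1 + |v|)^(N - 1)`.
`norm_zz_cpow`: `‖w^(-s)‖ = ‖w‖^(-Re s) exp(Im s arg w)`, `arg (1 + i y) = arctan y`.
-/

set_option autoImplicit false

namespace Pool.Agent.Lib.MP_d713a4_nt

open Complex MeasureTheory

private theorem Ga_int (c : ℝ) (hc : -1 < c) (b : ℝ) (hb : 0 < b) :
    IntegrableOn (fun t : ℝ => t ^ c * Real.exp (-b * t)) (Set.Ioi 0) := by
  have h := integrableOn_rpow_mul_exp_neg_mul_rpow (s := c) (p := 1) hc one_pos hb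
  simpa only [Real.rpow_one] using h

private theorem Ga_norm (a r : ℂ) {t : ℝ} (ht : 0 < t) :
    ‖(t : ℂ) ^ (a - 1) * cexp (-r * t)‖ = t ^ (a.re - 1) * Real.exp (-r.re * t) := by
  rw [norm_mul, norm_cpow_eq_rpow_re_of_pos ht, norm_exp]
  simp

private theorem Ga_meas (a r : ℂ) :
    AEStronglyMeasurable (fun t : ℝ => (t : ℂ) ^ (a - 1) * cexp (-r * t)) (volume.restrict (Set.Ioi 0)) := by
  refine ContinuousOn.aestronglyMeasurable ?_ measurableSet_Ioi
  refine ContinuousOn.mul ?_ (by fun_prop)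
  intro t ht
  exact (continuousAt_ofReal_cpow_const t (a - 1) (Or.inr (ne_of_gt ht))).continuousWithinAt

private theorem Ga_diff (a : ℂ) (ha : 0 < a.re) (r₀ : ℂ) (hr : 0 < r₀.re) :
    DifferentiableAt ℂ (fun r : ℂ => ∫ t in Set.Ioi (0 : ℝ), (t : ℂ) ^ (a - 1) * cexp (-r * t)) r₀ := by
  have h := hasDerivAt_integral_of_dominated_loc_of_deriv_le (μ := volume.restrict (Set.Ioi (0 : ℝ)))
    (F := fun (r : ℂ) (t : ℝ) => (t : ℂ) ^ (a - 1) * cexp (-r * t))
    (F' := fun (r : ℂ) (t : ℝ) => (t : ℂ) ^ (a - 1) * cexp (-r * t) * (-t)) (x₀ := r₀)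
    (bound := fun t => t ^ a.re * Real.exp (-(r₀.re / 2) * t))
    (Metric.ball_mem_nhds r₀ (half_pos hr)) (Filter.Eventually.of_forall fun r => Ga_meas a r) ?_ ?_ ?_ ?_ ?_
  · exact h.2.differentiableAt
  · refine Integrable.mono' (Ga_int (a.re - 1) (by linarith) r₀.re hr) (Ga_meas a r₀) ?_
    refine (ae_restrict_iff' measurableSet_Ioi).2 (Filter.Eventually.of_forall fun t ht => ?_)
    rw [Ga_norm a r₀ ht]
  · exact (Ga_meas a r₀).mul (by fun_prop)
  · refine (ae_restrict_iff' measurableSet_Ioi).2 (Filter.Eventually.of_forall fun t ht r hr' => ?_)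
    have ht' : (0 : ℝ) < t := ht
    rw [norm_mul, Ga_norm a r ht', norm_neg, norm_real, Real.norm_of_nonneg ht'.le]
    have h1 : r₀.re / 2 < r.re := by
      have h2 : ‖r - r₀‖ < r₀.re / 2 := by
        rw [← dist_eq_norm]
        exact hr'
      have h3 := abs_re_le_norm (r - r₀)
      rw [sub_re] at h3
      have h4 := neg_abs_le (r.re - r₀.re)
      linarith
    have h2 : t ^ (a.re - 1) * Real.exp (-r.re * t) * t = t ^ a.re * Real.exp (-r.re * t) := by
      have h3 : t ^ a.re = t ^ (a.re - 1) * t := by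
        rw [← Real.rpow_add_one ht'.ne', sub_add_cancel]
      rw [h3]
      ring
    rw [h2]
    refine mul_le_mul_of_nonneg_left (Real.exp_le_exp.2 ?_) (Real.rpow_nonneg ht'.le _)
    exact mul_le_mul_of_nonneg_right (by linarith) ht'.le
  · exact Ga_int a.re (by linarith) (r₀.re / 2) (half_pos hr)
  · refine (ae_restrict_iff' measurableSet_Ioi).2 (Filter.Eventually.of_forall fun t ht r hr' => ?_)
    have h1 : HasDerivAt (fun r : ℂ => -r * (t : ℂ)) (-t) r := by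
      have h2 := ((hasDerivAt_id r).neg).mul_const (t : ℂ)
      simpa using h2
    have h3 := (h1.cexp).const_mul ((t : ℂ) ^ (a - 1))
    rw [mul_assoc]
    exact h3

private theorem Ga_formula (a : ℂ) (ha : 0 < a.re) (r : ℂ) (hr : 0 < r.re) :
    r ^ a * ∫ t in Set.Ioi (0 : ℝ), (t : ℂ) ^ (a - 1) * cexp (-r * t) = Gamma a := by
  set U : Set ℂ := {z | 0 < z.re} with hU
  set g : ℂ → ℂ := fun r => r ^ a * (∫ t in Set.Ioi (0 : ℝ), (t : ℂ) ^ (a - 1) * cexp (-r * t)) - Gamma a with hg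
  have hUo : IsOpen U := isOpen_lt continuous_const continuous_re
  have hUc : IsPreconnected U := (convex_halfSpace_re_gt 0).isPreconnected
  have hd : DifferentiableOn ℂ g U := by
    intro z hz
    have h1 : DifferentiableAt ℂ (fun r : ℂ => r ^ a) z :=
      (hasStrictDerivAt_cpow_const (c := a) (Or.inl hz)).hasDerivAt.differentiableAt
    exact ((h1.mul (Ga_diff a ha z hz)).sub_const _).differentiableWithinAt
  have han : AnalyticOnNhd ℂ g U := hd.analyticOnNhd hUo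
  have hreal : ∀ x : ℝ, 0 < x → g x = 0 := by
    intro x hx
    have h1 := Complex.integral_cpow_mul_exp_neg_mul_Ioi (a := a) (r := x) ha hx
    have h2 : (∫ t in Set.Ioi (0 : ℝ), (t : ℂ) ^ (a - 1) * cexp (-x * t)) = (1 / (x : ℂ)) ^ a * Gamma a := by
      rw [← h1]
      simp only [neg_mul]
    have h3 : (x : ℂ) ^ a * (1 / (x : ℂ)) ^ a = 1 := by
      rw [← ofReal_one, ← ofReal_div, ← mul_cpow_ofReal_nonneg hx.le (by positivity), ← ofReal_mul,
        mul_one_div_cancel hx.ne', ofReal_one, one_cpow]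
    simp only [hg]
    rw [h2, ← mul_assoc, h3, one_mul, sub_self]
  have hfr : ∃ᶠ z in nhdsWithin (1 : ℂ) {1}ᶜ, g z = 0 := by
    have h1 : Filter.Tendsto (fun x : ℝ => (x : ℂ)) (nhdsWithin (1 : ℝ) {1}ᶜ) (nhdsWithin (1 : ℂ) {1}ᶜ) := by
      refine tendsto_nhdsWithin_of_tendsto_nhds_of_eventually_within _ ?_ ?_
      · have h2 : Filter.Tendsto (fun x : ℝ => (x : ℂ)) (nhds 1) (nhds ((1 : ℝ) : ℂ)) :=
          continuous_ofReal.tendsto 1
        rw [ofReal_one] at h2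
        exact h2.mono_left nhdsWithin_le_nhds
      · filter_upwards [self_mem_nhdsWithin] with x hx
        intro h3
        exact hx (by simpa using h3)
    refine h1.frequently (Filter.Eventually.frequently ?_)
    have h2 : ∀ᶠ x : ℝ in nhds 1, 0 < x := lt_mem_nhds one_pos
    filter_upwards [h2.filter_mono nhdsWithin_le_nhds] with x hx
    exact hreal x hx
  have h1 := han.eqOn_zero_of_preconnected_of_frequently_eq_zero hUc (show (1 : ℂ) ∈ U by simp [hU]) hfr
  exact sub_eq_zero.1 (h1 (show r ∈ U from hr))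

private theorem Ga_dec (θ : ℝ) (h : |θ| < Real.pi / 2) (s : ℂ) (hs : 0 < s.re) :
    ‖Gamma s‖ ≤ Real.Gamma s.re * (Real.cos θ) ^ (-s.re) * Real.exp (-θ * s.im) := by
  have hc : 0 < Real.cos θ := Real.cos_pos_of_mem_Ioo (abs_lt.1 h)
  set r : ℂ := cexp (θ * I) with hr
  have hre : r.re = Real.cos θ := exp_ofReal_mul_I_re θ
  have hr0 : 0 < r.re := by rw [hre]; exact hc
  have h1 := Ga_formula s hs r hr0
  have h2 : ‖r ^ s‖ = Real.exp (-θ * s.im) := by
    have h3 := abs_lt.1 h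
    have h4 := Real.pi_pos
    rw [cpow_def_of_ne_zero (exp_ne_zero _), log_exp (by simp; linarith) (by simp; linarith), norm_exp]
    simp
  have h3 : ‖∫ t in Set.Ioi (0 : ℝ), (t : ℂ) ^ (s - 1) * cexp (-r * t)‖ ≤
      Real.Gamma s.re * (Real.cos θ) ^ (-s.re) := by
    have h4 := Real.integral_rpow_mul_exp_neg_mul_Ioi (a := s.re) (r := Real.cos θ) hs hc
    have h5 : (1 / Real.cos θ) ^ s.re = Real.cos θ ^ (-s.re) := by
      rw [one_div, Real.inv_rpow hc.le, Real.rpow_neg hc.le]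
    rw [h5, mul_comm] at h4
    rw [← h4]
    refine (norm_integral_le_integral_norm _).trans (le_of_eq ?_)
    refine setIntegral_congr_fun measurableSet_Ioi fun t ht => ?_
    rw [Ga_norm s r ht, hre, neg_mul]
  rw [← h1, norm_mul, h2, mul_comm]
  exact mul_le_mul_of_nonneg_right h3 (Real.exp_pos _).le

theorem gam_decay (θ : ℝ) (h0 : 0 ≤ θ) (h1 : θ < Real.pi / 2) (s : ℂ) (hs : 0 < s.re) :
    ‖Gamma s‖ ≤ Real.Gamma s.re * (Real.cos θ) ^ (-s.re) * Real.exp (-θ * |s.im|) := by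
  rcases le_total 0 s.im with h2 | h2
  · rw [abs_of_nonneg h2]
    exact Ga_dec θ (by rw [abs_of_nonneg h0]; exact h1) s hs
  · have h3 := Ga_dec (-θ) (by rw [abs_neg, abs_of_nonneg h0]; exact h1) s hs
    rw [Real.cos_neg] at h3
    rw [abs_of_nonpos h2]
    have h4 : -θ * -s.im = -(-θ) * s.im := by ring
    rw [h4]
    exact h3

private theorem Ga_sinh {x : ℝ} (hx : 0 < x) : x / Real.sinh x ≤ (1 + 2 * x) * Real.exp (-x) := by
  have hs : 0 < Real.sinh x := Real.sinh_pos_iff.2 hx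
  rw [div_le_iff₀ hs, Real.sinh_eq]
  have h1 : Real.exp (-x) * Real.exp x = 1 := by rw [← Real.exp_add]; simp
  have h2 : (1 + 2 * x) * Real.exp (-x) ^ 2 ≤ 1 := by
    have h3 : 1 + 2 * x ≤ Real.exp x ^ 2 := by
      have h4 := Real.add_one_le_exp (2 * x)
      have h5 : Real.exp x ^ 2 = Real.exp (2 * x) := by
        rw [← Real.exp_nat_mul]
        norm_num
      rw [h5]
      linarith
    calc (1 + 2 * x) * Real.exp (-x) ^ 2 ≤ Real.exp x ^ 2 * Real.exp (-x) ^ 2 :=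
          mul_le_mul_of_nonneg_right h3 (by positivity)
      _ = (Real.exp (-x) * Real.exp x) ^ 2 := by ring
      _ = 1 := by rw [h1]; norm_num
  nlinarith [h1, h2]

private theorem Ga_one (v : ℝ) :
    ‖Gamma (1 + v * I)‖ ^ 2 ≤ (1 + 2 * (Real.pi * |v|)) * Real.exp (-(Real.pi * |v|)) := by
  rcases eq_or_ne v 0 with rfl | hv
  · simp
  have hvI : (v : ℂ) * I ≠ 0 := mul_ne_zero (by exact_mod_cast hv) I_ne_zero
  have h1 : Gamma (1 + v * I) = v * I * Gamma (v * I) := by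
    rw [add_comm, Gamma_add_one _ hvI]
  have h2 := Complex.Gamma_mul_Gamma_one_sub ((v : ℂ) * I)
  have h3 : ‖Gamma (1 - v * I)‖ = ‖Gamma (1 + v * I)‖ := by
    have h4 := Gamma_conj (1 + v * I)
    have h5 : (starRingEnd ℂ) (1 + v * I) = 1 - v * I := by
      simp [sub_eq_add_neg]
    rw [h5] at h4
    rw [h4, norm_conj]
  have h4 : ‖Gamma (1 + v * I)‖ ^ 2 = |v| * ‖(Real.pi : ℂ) / sin (Real.pi * (v * I))‖ := by
    rw [← h2, norm_mul, h3]
    rw [sq]
    nth_rewrite 1 [h1]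
    rw [norm_mul, norm_mul, norm_I, norm_real, Real.norm_eq_abs]
    ring
  have h5 : (Real.pi : ℂ) / sin (Real.pi * (v * I)) = Real.pi / (Real.sinh (Real.pi * v) * I) := by
    rw [← mul_assoc, ← ofReal_mul, sin_mul_I, ofReal_sinh]
  have h6 : |Real.sinh (Real.pi * v)| = Real.sinh (Real.pi * |v|) := by
    rw [Real.abs_sinh, abs_mul, abs_of_pos Real.pi_pos]
  have h7 := Ga_sinh (x := Real.pi * |v|) (by positivity)
  rw [h4, h5, norm_div, norm_mul, norm_I, norm_real, norm_real, Real.norm_eq_abs, Real.norm_eq_abs, h6,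
    abs_of_pos Real.pi_pos, mul_one]
  refine le_trans (le_of_eq ?_) h7
  ring

private theorem Ga_one' (v : ℝ) :
    ‖Gamma (1 + v * I)‖ ≤ 7 * (1 + |v|) ^ ((1 : ℝ) - 1 / 2) * Real.exp (-Real.pi / 2 * |v|) := by
  have h1 := Ga_one v
  have hv := abs_nonneg v
  have h2 : (7 * (1 + |v|) ^ ((1 : ℝ) - 1 / 2) * Real.exp (-Real.pi / 2 * |v|)) ^ 2 =
      49 * (1 + |v|) * Real.exp (-(Real.pi * |v|)) := by
    rw [mul_pow, mul_pow, ← Real.rpow_natCast ((1 + |v|) ^ ((1 : ℝ) - 1 / 2)) 2, ← Real.rpow_mul (by positivity),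
      ← Real.exp_nat_mul]
    have h3 : ((1 : ℝ) - 1 / 2) * ((2 : ℕ) : ℝ) = 1 := by norm_num
    have h4 : ((2 : ℕ) : ℝ) * (-Real.pi / 2 * |v|) = -(Real.pi * |v|) := by
      push_cast
      ring
    rw [h3, h4, Real.rpow_one]
    norm_num
  refine le_of_sq_le_sq ?_ (by positivity)
  rw [h2]
  refine h1.trans (mul_le_mul_of_nonneg_right ?_ (Real.exp_pos _).le)
  have h5 := Real.pi_lt_four
  nlinarith

theorem gam_nat (N : ℕ) (hN : 1 ≤ N) : ∃ A : ℝ, 0 < A ∧ ∀ v : ℝ,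
    ‖Gamma (N + v * I)‖ ≤ A * (1 + |v|) ^ ((N : ℝ) - 1 / 2) * Real.exp (-Real.pi / 2 * |v|) := by
  induction N, hN using Nat.le_induction with
  | base =>
    refine ⟨7, by norm_num, fun v => ?_⟩
    have h := Ga_one' v
    rw [Nat.cast_one, Nat.cast_one]
    exact h
  | succ N hN ih =>
    obtain ⟨A, hA, h⟩ := ih
    have hN0 : (0 : ℝ) < N := by exact_mod_cast hN
    refine ⟨A * N, by positivity, fun v => ?_⟩
    have hv := abs_nonneg v
    have hne : (N : ℂ) + v * I ≠ 0 := by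
      intro h1
      have h2 := congrArg re h1
      simp at h2
      exact hN0.ne' (by exact_mod_cast h2)
    have h1 : ((N + 1 : ℕ) : ℂ) + v * I = (N + v * I) + 1 := by
      push_cast
      ring
    have h2 : ‖(N : ℂ) + v * I‖ ≤ N * (1 + |v|) := by
      refine (norm_add_le _ _).trans ?_
      rw [norm_natCast, norm_mul, norm_I, norm_real, Real.norm_eq_abs, mul_one]
      have h3 : (1 : ℝ) ≤ N := by exact_mod_cast hN
      nlinarith
    rw [h1, Gamma_add_one _ hne, norm_mul]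
    have h3 : (1 + |v|) ^ (((N + 1 : ℕ) : ℝ) - 1 / 2) = (1 + |v|) * (1 + |v|) ^ ((N : ℝ) - 1 / 2) := by
      rw [mul_comm, ← Real.rpow_add_one (by positivity)]
      congr 1
      push_cast
      ring
    rw [h3]
    calc ‖(N : ℂ) + v * I‖ * ‖Gamma (N + v * I)‖
        ≤ (N * (1 + |v|)) * (A * (1 + |v|) ^ ((N : ℝ) - 1 / 2) * Real.exp (-Real.pi / 2 * |v|)) :=
          mul_le_mul h2 (h v) (norm_nonneg _) (by positivity)
      _ = A * N * ((1 + |v|) * (1 + |v|) ^ ((N : ℝ) - 1 / 2)) * Real.exp (-Real.pi / 2 * |v|) := by ring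

theorem norm_zz_cpow (lam : ℝ) (s : ℂ) :
    ‖zz lam ^ (-s)‖ = ‖zz lam‖ ^ (-s.re) * Real.exp (s.im * Real.arctan (6 * Real.pi * lam)) := by
  have hre : (zz lam).re = 1 := by simp [zz]
  have him : (zz lam).im = 6 * Real.pi * lam := by simp [zz]
  have hne : zz lam ≠ 0 := by
    intro h
    rw [h] at hre
    simp at hre
  have harg : arg (zz lam) = Real.arctan (6 * Real.pi * lam) := by
    rw [arg_of_re_nonneg (by rw [hre]; exact zero_le_one), Real.arctan_eq_arcsin, him]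
    congr 2
    rw [norm_def, normSq_apply, hre, him]
    congr 1
    ring
  rw [norm_cpow_of_ne_zero hne, harg, neg_re, neg_im, div_eq_mul_inv, ← Real.exp_neg]
  congr 2
  ring

end Pool.Agent.Lib.MP_d713a4_nt
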