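import Mathlib

/-!
# The Gamma integral with a complex parameter

`∫_0^∞ x^(a-1) exp(-z x) dx = z^(-a) Γ(a)` for complex `a`, `z` of positive real part (Mathlib has this for real `z`).
-/

set_option autoImplicit false

namespace Pool.Agent.Lib.MP_d713a4_nt

open Complex MeasureTheory Set Filter Topology

private theorem gamC_norm (a z : ℂ) {x : ℝ} (hx : 0 < x) :
    ‖(x : ℂ) ^ (a - 1) * cexp (-z * x)‖ = x ^ (a.re - 1) * Real.exp (-(z.re * x)) := by
  rw [norm_mul, norm_cpow_eq_rpow_re_of_pos hx, norm_exp]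
  simp

private theorem gamC_real (s r : ℝ) (hs : -1 < s) (hr : 0 < r) :
    IntegrableOn (fun x : ℝ => x ^ s * Real.exp (-(r * x))) (Ioi 0) := by
  have h := integrableOn_rpow_mul_exp_neg_mul_rpow (p := 1) (s := s) (b := r) hs one_pos hr
  refine h.congr_fun (fun x _ => ?_) measurableSet_Ioi
  simp

private theorem gamC_meas (a z : ℂ) :
    AEStronglyMeasurable (fun x : ℝ => (x : ℂ) ^ a * cexp (-z * x)) (volume.restrict (Ioi 0)) := by
  refine ContinuousOn.aestronglyMeasurable (fun x hx => ContinuousAt.continuousWithinAt ?_) measurableSet_Ioi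
  have hx : 0 < x := hx
  refine ContinuousAt.mul ?_ (by fun_prop)
  exact (continuousAt_ofReal_cpow_const x a (Or.inr hx.ne'))

theorem gamC_integrable (a z : ℂ) (ha : 0 < a.re) (hz : 0 < z.re) :
    IntegrableOn (fun x : ℝ => (x : ℂ) ^ (a - 1) * cexp (-z * x)) (Ioi 0) := by
  refine (gamC_real (a.re - 1) z.re (by linarith) hz).mono' (gamC_meas _ _) ?_
  filter_upwards [ae_restrict_mem measurableSet_Ioi] with x hx
  rw [gamC_norm a z hx]

private theorem gamC_diff (a : ℂ) (ha : 0 < a.re) (z : ℂ) (hz : 0 < z.re) :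
    DifferentiableAt ℂ (fun z : ℂ => ∫ x : ℝ in Ioi 0, (x : ℂ) ^ (a - 1) * cexp (-z * x)) z := by
  have hb : Metric.ball z (z.re / 2) ∈ 𝓝 z := Metric.ball_mem_nhds z (by linarith)
  have h := hasDerivAt_integral_of_dominated_loc_of_deriv_le (μ := volume.restrict (Ioi (0 : ℝ)))
    (F := fun z x => ((x : ℝ) : ℂ) ^ (a - 1) * cexp (-z * x)) (x₀ := z)
    (F' := fun z x => -(((x : ℝ) : ℂ) ^ a * cexp (-z * x))) (s := Metric.ball z (z.re / 2))
    (bound := fun x => x ^ a.re * Real.exp (-(z.re / 2 * x))) hb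
    (Eventually.of_forall fun w => gamC_meas _ _) (gamC_integrable a z ha hz) (gamC_meas _ _).neg ?_
    (gamC_real a.re (z.re / 2) (by linarith) (by linarith)) ?_
  · exact h.2.differentiableAt
  · filter_upwards [ae_restrict_mem measurableSet_Ioi] with x hx w hw
    have hx : 0 < x := hx
    have hw1 : z.re / 2 ≤ w.re := by
      have h1 : |(w - z).re| ≤ ‖w - z‖ := abs_re_le_norm _
      rw [Metric.mem_ball, dist_eq_norm] at hw
      rw [sub_re] at h1
      have h2 := neg_abs_le (w.re - z.re)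
      linarith
    have h1 := gamC_norm (a + 1) w hx
    rw [add_sub_cancel_right] at h1
    rw [norm_neg, h1]
    simp only [add_re, one_re, add_sub_cancel_right]
    refine mul_le_mul_of_nonneg_left (Real.exp_le_exp.2 ?_) (by positivity)
    nlinarith
  · filter_upwards [ae_restrict_mem measurableSet_Ioi] with x hx w hw
    have hx : 0 < x := hx
    have hx' : (x : ℂ) ≠ 0 := ofReal_ne_zero.2 hx.ne'
    have h1 : HasDerivAt (fun w : ℂ => -w * x) (-x : ℂ) w := by
      simpa using ((hasDerivAt_id w).neg.mul_const (x : ℂ))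
    have h2 := (h1.cexp).const_mul ((x : ℂ) ^ (a - 1))
    refine h2.congr_deriv ?_
    have h3 : (x : ℂ) ^ a = (x : ℂ) ^ (a - 1) * x := by
      rw [cpow_sub _ _ hx', cpow_one, div_mul_cancel₀ _ hx']
    rw [h3]
    ring

theorem gamC_integral (a z : ℂ) (ha : 0 < a.re) (hz : 0 < z.re) :
    ∫ x : ℝ in Ioi 0, (x : ℂ) ^ (a - 1) * cexp (-z * x) = z ^ (-a) * Complex.Gamma a := by
  have hU : IsOpen {z : ℂ | 0 < z.re} := isOpen_lt continuous_const continuous_re
  have hf : AnalyticOnNhd ℂ (fun z : ℂ => ∫ x : ℝ in Ioi 0, (x : ℂ) ^ (a - 1) * cexp (-z * x)) {z : ℂ | 0 < z.re} := by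
    refine DifferentiableOn.analyticOnNhd (fun w hw => ?_) hU
    exact (gamC_diff a ha w hw).differentiableWithinAt
  have hg : AnalyticOnNhd ℂ (fun z : ℂ => z ^ (-a) * Complex.Gamma a) {z : ℂ | 0 < z.re} := by
    refine DifferentiableOn.analyticOnNhd (fun w hw => ?_) hU
    have hw : 0 < w.re := hw
    have h1 : DifferentiableAt ℂ (fun z : ℂ => z ^ (-a)) w :=
      differentiableAt_id.cpow_const (Or.inl hw)
    exact (h1.mul_const _).differentiableWithinAt
  have hpc : IsPreconnected {z : ℂ | 0 < z.re} := (convex_halfSpace_re_gt 0).isPreconnected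
  have h1 : (1 : ℂ) ∈ {z : ℂ | 0 < z.re} := by simp
  refine hf.eqOn_of_preconnected_of_frequently_eq hg hpc h1 ?_ hz
  have ht : Tendsto (fun x : ℝ => (x : ℂ)) (𝓝[≠] 1) (𝓝[≠] 1) := by
    refine tendsto_nhdsWithin_of_tendsto_nhds_of_eventually_within _ ?_ ?_
    · exact (continuous_ofReal.tendsto 1).mono_left nhdsWithin_le_nhds
    · filter_upwards [self_mem_nhdsWithin] with x hx
      simpa using hx
  refine ht.frequently (Eventually.frequently ?_)
  have h2 : ∀ᶠ x : ℝ in 𝓝[≠] 1, 0 < x := nhdsWithin_le_nhds (lt_mem_nhds one_pos)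
  filter_upwards [h2] with r hr
  have h3 := Complex.integral_cpow_mul_exp_neg_mul_Ioi ha hr
  have h4 : (1 / (r : ℂ)) ^ a = (r : ℂ) ^ (-a) := by
    rw [one_div, inv_cpow, cpow_neg]
    rw [arg_ofReal_of_nonneg hr.le]
    exact Real.pi_pos.ne
  rw [h4] at h3
  simpa using h3

end Pool.Agent.Lib.MP_d713a4_nt
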