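import Pool.Agent.Lib.MP_d713a4_nt.Fa
import Pool.Agent.Lib.MP_d713a4_nt.Ga
import Pool.Agent.Lib.MP_d713a4_nt.GamC

/-!
# LEAF Fb: the main terms are orthogonal to the weight

PROOF.  Integration by parts on `(0, ∞)` (`Tf_deriv`, `norm_Tf`, the boundary terms `Tf(u) u^(1-r)` tend to `0` at `0` and at `∞`):
`∫ ff u = ∫ Tf = Γ(κ+1) z^(-κ-1)` and `∫ ff u^(1-r) = (1-r) ∫ Tf u^(-r) = (1-r) Γ(κ+1-r) z^(-(κ+1-r))` (`Complex.integral_cpow_mul_exp_neg_mul_Ioi`).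
`‖z‖ ≥ λ`.  For `t ≥ 0`: `‖Γ(κ+1-r)‖ ≤ Γ(κ+1-σ)`, `norm_zz_cpow` with `s = κ + 1 - r`: the factor is `exp(-t arctan(6 π λ)) ≤ exp(-t)`.
For `t < 0`: `‖∫ Tf u^(-r)‖ ≤ ∫ u^(κ-σ) exp(-u) = Γ(κ+1-σ)`.
-/

set_option autoImplicit false

namespace Pool.Agent.Lib.MP_d713a4_nt

open Complex MeasureTheory Set

private theorem fb_zz_re (lam : ℝ) : (zz lam).re = 1 := by
  have h : zz lam = (1 : ℂ) + ((6 * Real.pi * lam : ℝ) : ℂ) * I := by
    rw [zz]
    push_cast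
    rfl
  rw [h, add_re, re_ofReal_mul]
  simp

private theorem fb_zz_im (lam : ℝ) : (zz lam).im = 6 * Real.pi * lam := by
  have h : zz lam = (1 : ℂ) + ((6 * Real.pi * lam : ℝ) : ℂ) * I := by
    rw [zz]
    push_cast
    rfl
  rw [h, add_im, im_ofReal_mul]
  simp

private theorem fb_zz_ne (lam : ℝ) : zz lam ≠ 0 := by
  intro h
  have h1 := fb_zz_re lam
  rw [h] at h1
  simp at h1

private theorem fb_zz_norm (lam : ℝ) (h : 1 ≤ lam) : lam ≤ ‖zz lam‖ := by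
  have h1 : |(zz lam).im| ≤ ‖zz lam‖ := abs_im_le_norm _
  rw [fb_zz_im] at h1
  have h2 := Real.pi_gt_three
  have h3 := le_abs_self (6 * Real.pi * lam)
  nlinarith

/-- the moments of `ff` -/
private theorem fb_moment (κ lam : ℝ) (w : ℂ) (hw : 0 < κ + w.re) :
    ∫ u in Ioi (0 : ℝ), ff κ lam u * (u : ℂ) ^ w = w * (zz lam ^ (-(κ + w)) * Gamma (κ + w)) := by
  have hz : 0 < (zz lam).re := by rw [fb_zz_re]; exact one_pos
  have h1 : 0 < ((κ : ℂ) + w + 1).re := by simp; linarith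
  have h2 : 0 < ((κ : ℂ) + w).re := by simpa using hw
  have h3 : ((κ : ℂ) + w) ≠ 0 := by
    intro h
    rw [h] at h2
    simp at h2
  have e : ∀ u ∈ Ioi (0 : ℝ), ff κ lam u * (u : ℂ) ^ w = zz lam * ((u : ℂ) ^ (κ + w + 1 - 1) * cexp (-zz lam * u)) -
      κ * ((u : ℂ) ^ (κ + w - 1) * cexp (-zz lam * u)) := by
    intro u hu
    have hu : 0 < u := hu
    have hu' : (u : ℂ) ≠ 0 := ofReal_ne_zero.2 hu.ne'
    have e1 : (κ : ℂ) + w + 1 - 1 = κ + w := by ring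
    have e2 : (κ : ℂ) + w - 1 = (κ - 1 : ℝ) + w := by push_cast; ring
    rw [e1, e2, cpow_add _ _ hu', cpow_add _ _ hu', ff, ofReal_cpow hu.le, ofReal_cpow hu.le]
    ring
  rw [setIntegral_congr_fun measurableSet_Ioi e, integral_sub, integral_const_mul, integral_const_mul,
    gamC_integral _ _ h1 hz, gamC_integral _ _ h2 hz, Gamma_add_one _ h3]
  · have e3 : zz lam ^ (-((κ : ℂ) + w + 1)) = zz lam ^ (-((κ : ℂ) + w)) * (zz lam)⁻¹ := by
      rw [neg_add, cpow_add _ _ (fb_zz_ne lam), cpow_neg_one]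
    rw [e3]
    have h4 := fb_zz_ne lam
    field_simp
    ring
  · exact (gamC_integrable _ _ h1 hz).const_mul _
  · exact (gamC_integrable _ _ h2 hz).const_mul _

theorem ff_one (κ : ℝ) (hκ : 1 ≤ κ) : ∃ A : ℝ, 0 < A ∧ ∀ lam : ℝ, 1 ≤ lam →
    ‖∫ u in Ioi (0 : ℝ), ff κ lam u * u‖ ≤ A * lam ^ (-(κ + 1)) := by
  have hG : 0 < Real.Gamma (κ + 1) := Real.Gamma_pos_of_pos (by linarith)
  refine ⟨Real.Gamma (κ + 1), hG, fun lam hlam => ?_⟩
  have h1 := fb_moment κ lam 1 (by simp; linarith)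
  simp only [cpow_one, one_mul] at h1
  rw [h1, norm_mul, norm_zz_cpow]
  have e1 : (κ : ℂ) + 1 = ((κ + 1 : ℝ) : ℂ) := by push_cast; rfl
  rw [e1, Gamma_ofReal, ofReal_im, zero_mul, Real.exp_zero, mul_one, ofReal_re, mul_comm, norm_real,
    Real.norm_of_nonneg hG.le]
  refine mul_le_mul_of_nonneg_left ?_ hG.le
  exact Real.rpow_le_rpow_of_nonpos (by linarith) (fb_zz_norm lam hlam) (by linarith)

private theorem fb_arctan (lam : ℝ) (h : 1 ≤ lam) : 1 ≤ Real.arctan (6 * Real.pi * lam) := by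
  have h2 := Real.pi_gt_three
  have h3 : Real.arctan (Real.sqrt 3) = Real.pi / 3 := by
    rw [← Real.tan_pi_div_three, Real.arctan_tan] <;> linarith
  have h4 : Real.sqrt 3 ≤ 6 * Real.pi * lam := by
    have h5 : Real.sqrt 3 ≤ 3 := by
      rw [Real.sqrt_le_left (by norm_num)]
      norm_num
    nlinarith
  have h6 := Real.arctan_strictMono.monotone h4
  rw [h3] at h6
  linarith

theorem ff_pow (κ σ : ℝ) (hκ : 1 ≤ κ) (h0 : 0 < σ) (h1 : σ < 1) : ∃ A : ℝ, 0 < A ∧ ∀ lam : ℝ, 1 ≤ lam → ∀ t : ℝ,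
    ‖∫ u in Ioi (0 : ℝ), ff κ lam u * (u : ℂ) ^ (1 - (σ + t * I))‖ ≤ A * (1 + |t|) * Real.exp (-max t 0) := by
  have hG : 0 < Real.Gamma (κ + (1 - σ)) := Real.Gamma_pos_of_pos (by linarith)
  refine ⟨Real.Gamma (κ + (1 - σ)), hG, fun lam hlam t => ?_⟩
  have hwr : ((1 : ℂ) - (σ + t * I)).re = 1 - σ := by simp
  have hwi : ((1 : ℂ) - (σ + t * I)).im = -t := by simp
  have hsr : ((κ : ℂ) + (1 - (σ + t * I))).re = κ + (1 - σ) := by simp
  have hsi : ((κ : ℂ) + (1 - (σ + t * I))).im = -t := by simp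
  rw [fb_moment κ lam _ (by rw [hwr]; linarith), norm_mul]
  have hn : ‖(1 : ℂ) - (σ + t * I)‖ ≤ 1 + |t| := by
    have e : (1 : ℂ) - (σ + t * I) = ((1 - σ : ℝ) : ℂ) + ((-t : ℝ) : ℂ) * I := by push_cast; ring
    rw [e]
    refine (norm_add_le _ _).trans ?_
    rw [norm_mul, norm_I, mul_one, norm_real, norm_real, Real.norm_eq_abs, Real.norm_eq_abs, abs_neg,
      abs_of_nonneg (by linarith)]
    linarith
  have hs : 0 < ((κ : ℂ) + (1 - (σ + t * I))).re := by rw [hsr]; linarith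
  have key : ‖zz lam ^ (-((κ : ℂ) + (1 - (σ + t * I)))) * Gamma ((κ : ℂ) + (1 - (σ + t * I)))‖ ≤
      Real.Gamma (κ + (1 - σ)) * Real.exp (-max t 0) := by
    rcases le_or_gt 0 t with ht | ht
    · rw [max_eq_left ht, norm_mul, norm_zz_cpow, hsi, hsr]
      have g1 : ‖Gamma ((κ : ℂ) + (1 - (σ + t * I)))‖ ≤ Real.Gamma (κ + (1 - σ)) := by
        have g := gam_decay 0 le_rfl (by positivity) _ hs
        rw [hsr] at g
        simpa using g
      have g2 : ‖zz lam‖ ^ (-(κ + (1 - σ))) ≤ 1 :=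
        Real.rpow_le_one_of_one_le_of_nonpos (hlam.trans (fb_zz_norm lam hlam)) (by linarith)
      have g3 : Real.exp (-t * Real.arctan (6 * Real.pi * lam)) ≤ Real.exp (-t) := by
        refine Real.exp_le_exp.2 ?_
        nlinarith [fb_arctan lam hlam]
      calc ‖zz lam‖ ^ (-(κ + (1 - σ))) * Real.exp (-t * Real.arctan (6 * Real.pi * lam)) *
            ‖Gamma ((κ : ℂ) + (1 - (σ + t * I)))‖
          ≤ 1 * Real.exp (-t) * Real.Gamma (κ + (1 - σ)) := by gcongr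
        _ = _ := by ring
    · rw [max_eq_right ht.le, neg_zero, Real.exp_zero, mul_one]
      have hz : 0 < (zz lam).re := by rw [fb_zz_re]; exact one_pos
      rw [← gamC_integral _ _ hs hz]
      refine (norm_integral_le_integral_norm _).trans (le_of_eq ?_)
      rw [Real.Gamma_eq_integral (by linarith : 0 < κ + (1 - σ))]
      refine setIntegral_congr_fun measurableSet_Ioi (fun u hu => ?_)
      have hu : 0 < u := hu
      rw [norm_mul, norm_cpow_eq_rpow_re_of_pos hu, norm_exp, sub_re, hsr, one_re, mul_comm]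
      congr 2
      simp [fb_zz_re]
  calc ‖(1 : ℂ) - (σ + t * I)‖ * ‖zz lam ^ (-((κ : ℂ) + (1 - (σ + t * I)))) * Gamma ((κ : ℂ) + (1 - (σ + t * I)))‖
      ≤ (1 + |t|) * (Real.Gamma (κ + (1 - σ)) * Real.exp (-max t 0)) :=
        mul_le_mul hn key (norm_nonneg _) (by positivity)
    _ = _ := by ring

end Pool.Agent.Lib.MP_d713a4_nt
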