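import Pool.Agent.Lib.MP_d713a4_nt.Fa

/-!
# LEAF Ft: sums of `Tf`

PROOF.  `‖Tf κ λ u‖ = u^κ exp(-u) ≤ A min(1, u^(-2))` for `u > 0` (`norm_Tf`), `Tf κ λ 0 = 0`; `∑_(n ≥ 1) min(1, (X/n)²) ≤ 1 + 3 X` (the `n ≤ X + 1`, and `∑_(n > X + 1) X²/n² ≤ X`) .
-/

set_option autoImplicit false

namespace Pool.Agent.Lib.MP_d713a4_nt

open Complex

private theorem Ft_exp (n : ℕ) (s u : ℝ) (hs0 : 0 ≤ s) (hs : s ≤ n) (hu : 0 < u) :
    u ^ s * Real.exp (-u) ≤ 1 + n.factorial := by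
  have h1 : u ^ s ≤ 1 + u ^ n := by
    rcases le_total u 1 with h | h
    · have h2 : u ^ s ≤ 1 := Real.rpow_le_one hu.le h hs0
      have h3 : 0 ≤ u ^ n := pow_nonneg hu.le n
      linarith
    · have h2 : u ^ s ≤ u ^ (n : ℝ) := Real.rpow_le_rpow_of_exponent_le h hs
      rw [Real.rpow_natCast] at h2
      linarith
  have h4 : Real.exp (-u) ≤ 1 := by
    rw [← Real.exp_zero]
    exact Real.exp_le_exp.2 (by linarith)
  have h5 : u ^ n * Real.exp (-u) ≤ n.factorial := by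
    have h6 := Real.pow_div_factorial_le_exp u hu.le n
    have h7 : (0 : ℝ) < n.factorial := by exact_mod_cast n.factorial_pos
    rw [div_le_iff₀ h7] at h6
    rw [Real.exp_neg, ← div_eq_mul_inv, div_le_iff₀ (Real.exp_pos u), mul_comm]
    exact h6
  have h8 := mul_le_mul_of_nonneg_right h1 (Real.exp_pos (-u)).le
  rw [add_mul, one_mul] at h8
  linarith

theorem Tf_small (κ : ℝ) (hκ : 1 ≤ κ) : ∃ A : ℝ, 0 < A ∧ ∀ lam u : ℝ, 0 < u → ‖Tf κ lam u‖ ≤ A * u ^ (-2 : ℝ) ∧ ‖Tf κ lam u‖ ≤ A := by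
  obtain ⟨n, hn⟩ := exists_nat_ge (κ + 2)
  refine ⟨1 + n.factorial, by positivity, fun lam u hu => ?_⟩
  rw [norm_Tf κ lam u hu]
  refine ⟨?_, Ft_exp n κ u (by linarith) (by linarith) hu⟩
  have h1 := Ft_exp n (κ + 2) u (by linarith) hn hu
  rw [Real.rpow_add hu] at h1
  have h2 : 0 < u ^ (-2 : ℝ) := Real.rpow_pos_of_pos hu _
  have h3 : u ^ (2 : ℝ) * u ^ (-2 : ℝ) = 1 := by
    rw [← Real.rpow_add hu]
    norm_num
  have h4 := mul_le_mul_of_nonneg_right h1 h2.le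
  calc u ^ κ * Real.exp (-u) = u ^ κ * (u ^ (2 : ℝ) * u ^ (-2 : ℝ)) * Real.exp (-u) := by rw [h3, mul_one]
    _ = u ^ κ * u ^ (2 : ℝ) * Real.exp (-u) * u ^ (-2 : ℝ) := by ring
    _ ≤ _ := h4

theorem Tf_sum (κ : ℝ) (hκ : 1 ≤ κ) : ∃ A : ℝ, 0 < A ∧ ∀ lam X : ℝ, 0 < X →
    Summable (fun n : ℕ => ‖Tf κ lam (n / X)‖) ∧ ∑' n : ℕ, ‖Tf κ lam (n / X)‖ ≤ A * (1 + X) := by
  obtain ⟨A, hA, hT⟩ := Tf_small κ hκ
  refine ⟨3 * A, by positivity, fun lam X hX => ?_⟩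
  have hb : ∀ m : ℕ, ∑ i ∈ Finset.range m, ‖Tf κ lam (i / X)‖ ≤ 3 * A * (1 + X) := by
    intro m
    obtain ⟨K, hK⟩ : ∃ K : ℕ, K = ⌊X⌋₊ := ⟨_, rfl⟩
    have hK1 : (K : ℝ) ≤ X := by
      rw [hK]
      exact Nat.floor_le hX.le
    have hK2 : X < K + 1 := by
      rw [hK]
      exact Nat.lt_floor_add_one X
    have h1 : ∑ i ∈ Finset.range m, ‖Tf κ lam (i / X)‖ ≤
        ∑ i ∈ Finset.range (K + 1) ∪ Finset.Ioo K m, ‖Tf κ lam (i / X)‖ := by
      refine Finset.sum_le_sum_of_subset_of_nonneg ?_ fun i _ _ => norm_nonneg _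
      intro i hi
      rw [Finset.mem_range] at hi
      rw [Finset.mem_union, Finset.mem_range, Finset.mem_Ioo]
      omega
    have hd : Disjoint (Finset.range (K + 1)) (Finset.Ioo K m) := by
      rw [Finset.disjoint_left]
      intro i hi hi'
      rw [Finset.mem_range] at hi
      rw [Finset.mem_Ioo] at hi'
      omega
    rw [Finset.sum_union hd] at h1
    have h2 : ∑ i ∈ Finset.range (K + 1), ‖Tf κ lam (i / X)‖ ≤ A * (1 + X) := by
      have h3 : ∀ i ∈ Finset.range (K + 1), ‖Tf κ lam (i / X)‖ ≤ A := by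
        intro i _
        by_cases hi : i = 0
        · rw [hi, Nat.cast_zero, zero_div]
          unfold Tf
          rw [if_neg (lt_irrefl 0), norm_zero]
          exact hA.le
        · have h4 : (0 : ℝ) < i := by exact_mod_cast Nat.pos_of_ne_zero hi
          exact (hT lam (i / X) (by positivity)).2
      refine (Finset.sum_le_sum h3).trans ?_
      rw [Finset.sum_const, Finset.card_range, nsmul_eq_mul]
      push_cast
      nlinarith
    have h3 : ∑ i ∈ Finset.Ioo K m, ‖Tf κ lam (i / X)‖ ≤ 2 * A * X := by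
      have h4 : ∀ i ∈ Finset.Ioo K m, ‖Tf κ lam (i / X)‖ ≤ A * X ^ 2 * ((i : ℝ) ^ 2)⁻¹ := by
        intro i hi
        rw [Finset.mem_Ioo] at hi
        have h5 : (0 : ℝ) < i := by
          have : 0 < i := by omega
          exact_mod_cast this
        refine (hT lam (i / X) (by positivity)).1.trans (le_of_eq ?_)
        rw [Real.rpow_neg (by positivity), Real.rpow_two, div_pow, inv_div]
        field_simp
      refine (Finset.sum_le_sum h4).trans ?_
      rw [← Finset.mul_sum]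
      have h5 : ∑ i ∈ Finset.Ioo K m, ((i : ℝ) ^ 2)⁻¹ ≤ 2 / (K + 1) := sum_Ioo_inv_sq_le K m
      have h6 : A * X ^ 2 * ∑ i ∈ Finset.Ioo K m, ((i : ℝ) ^ 2)⁻¹ ≤ A * X ^ 2 * (2 / (K + 1)) :=
        mul_le_mul_of_nonneg_left h5 (by positivity)
      refine h6.trans ?_
      have hK3 : (0 : ℝ) < K + 1 := by positivity
      rw [mul_div_assoc', div_le_iff₀ hK3]
      have h7 : 2 * A * X * X ≤ 2 * A * X * (K + 1) := mul_le_mul_of_nonneg_left hK2.le (by positivity)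
      nlinarith
    have h4 : 0 ≤ A * X := by positivity
    nlinarith
  exact ⟨summable_of_sum_range_le (fun _ => norm_nonneg _) hb, Real.tsum_le_of_sum_range_le (fun _ => norm_nonneg _) hb⟩

end Pool.Agent.Lib.MP_d713a4_nt
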