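import Pool.Agent.Lib.MP_d713a4_nt.Fa
import Pool.Agent.Lib.MP_d713a4_nt.Ft

/-!
# LEAF Fc: integration of partial sums

PROOF.  `∑_(n ≤ X u) c n = ∑_(n ≥ 1) c n 1_(u ≥ n/X)`; Fubini (`integral_tsum` / `hasSum_integral_of_summable_integral_norm`; `ff_le`, `om_int`,
`∑_(n ≤ X u) |c n| ≤ B (2 + X u)³` ), `∫_(u ≥ n/X) ff = Tf(n/X)` (`ff_tail`); the term `n = 0` is `0` because `Tf κ λ 0 = 0`.
-/

set_option autoImplicit false

namespace Pool.Agent.Lib.MP_d713a4_nt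

open Complex MeasureTheory Set

private theorem Fc_ff_int (κ lam : ℝ) (hκ : 1 ≤ κ) (hl : 1 ≤ lam) : IntegrableOn (ff κ lam) (Ioi 0) := by
  obtain ⟨A, hA, hle⟩ := ff_le κ hκ
  have h0 := om_int κ 0 hκ le_rfl
  refine Integrable.mono' (g := fun u => A * lam * (om κ u * (1 + u) ^ (0 : ℝ))) (h0.const_mul _)
    (ff_meas κ lam).aestronglyMeasurable ?_
  filter_upwards [ae_restrict_mem measurableSet_Ioi] with u hu
  rw [Real.rpow_zero, mul_one]
  exact hle lam u hl hu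

private theorem Fc_om_nonneg (κ u : ℝ) (hu : 0 < u) : 0 ≤ om κ u := by
  unfold om
  positivity

/-- the terms -/
private noncomputable def Fc_F (κ lam X : ℝ) (c : ℕ → ℂ) (n : ℕ) : ℝ → ℂ :=
  (Ici ((n : ℝ) / X)).indicator fun u => (if n = 0 then 0 else c n) * ff κ lam u

private theorem Fc_F_int (κ lam X : ℝ) (hκ : 1 ≤ κ) (hl : 1 ≤ lam) (c : ℕ → ℂ) (n : ℕ) :
    Integrable (Fc_F κ lam X c n) (volume.restrict (Ioi 0)) :=
  Integrable.indicator ((Fc_ff_int κ lam hκ hl).const_mul _) measurableSet_Ici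

private theorem Fc_F_integral (κ lam X : ℝ) (hκ : 1 ≤ κ) (hX : 0 < X) (c : ℕ → ℂ) (n : ℕ) :
    ∫ u in Ioi (0 : ℝ), Fc_F κ lam X c n u = c n * Tf κ lam (n / X) := by
  rcases Nat.eq_zero_or_pos n with h | h
  · subst h
    have h1 : Tf κ lam ((0 : ℕ) / X) = 0 := by
      unfold Tf
      simp
    rw [h1, mul_zero]
    have h2 : ∀ u, Fc_F κ lam X c 0 u = 0 := by
      intro u
      unfold Fc_F
      rw [if_pos rfl, Set.indicator_apply]
      simp
    simp only [h2, integral_zero]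
  · have hn : (0 : ℝ) < (n : ℝ) / X := div_pos (by exact_mod_cast h) hX
    have h1 : Ioi (0 : ℝ) ∩ Ici ((n : ℝ) / X) = Ici ((n : ℝ) / X) := by
      refine Set.inter_eq_right.mpr fun x hx => ?_
      exact lt_of_lt_of_le hn hx
    unfold Fc_F
    rw [setIntegral_indicator measurableSet_Ici, h1, integral_const_mul, integral_Ici_eq_integral_Ioi,
      ff_tail κ lam _ hκ hn, if_neg (by omega)]

private theorem Fc_F_norm (κ lam X : ℝ) (hκ : 1 ≤ κ) (hl : 1 ≤ lam) (hX : 0 < X) (c : ℕ → ℂ) (B : ℝ)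
    (hc : ∀ n, ‖c n‖ ≤ B * (n + 1) ^ 2) :
    Summable fun n => ∫ u in Ioi (0 : ℝ), ‖Fc_F κ lam X c n u‖ := by
  obtain ⟨A, hA, hle⟩ := ff_le κ hκ
  have hB : 0 ≤ B := by
    have := (norm_nonneg _).trans (hc 0)
    simpa using this
  have hint := om_int κ 4 hκ (by norm_num)
  set m : ℝ := min 1 (1 / X) with hm
  have hm0 : 0 < m := lt_min one_pos (by positivity)
  have hm1 : m ≤ 1 := min_le_left _ _
  have hm2 : m ≤ 1 / X := min_le_right _ _
  set K : ℝ := B * A * lam / m ^ 4 with hK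
  have hK0 : 0 ≤ K := by positivity
  have hpt : ∀ n : ℕ, ∀ u ∈ Ioi (0 : ℝ),
      ‖Fc_F κ lam X c n u‖ ≤ K * (1 / ((n : ℝ) + 1) ^ 2) * (om κ u * (1 + u) ^ (4 : ℝ)) := by
    intro n u hu
    have hu' : (0 : ℝ) < u := hu
    have hom := Fc_om_nonneg κ u hu'
    have hr : 0 ≤ K * (1 / ((n : ℝ) + 1) ^ 2) * (om κ u * (1 + u) ^ (4 : ℝ)) := by positivity
    unfold Fc_F
    rw [Set.indicator_apply]
    split_ifs with h1 h2
    · simpa using hr
    · have h3 : (n : ℝ) / X ≤ u := h1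
      have h4 : m * ((n : ℝ) + 1) ≤ 1 + u := by
        have h5 : m * (n : ℝ) ≤ (n : ℝ) / X := by
          have := mul_le_mul_of_nonneg_right hm2 (Nat.cast_nonneg (α := ℝ) n)
          calc m * (n : ℝ) ≤ 1 / X * (n : ℝ) := this
            _ = (n : ℝ) / X := by ring
        nlinarith
      have h6 : (m * ((n : ℝ) + 1)) ^ 4 ≤ (1 + u) ^ (4 : ℝ) := by
        have h7 : (1 + u) ^ (4 : ℝ) = (1 + u) ^ (4 : ℕ) := by
          rw [← Real.rpow_natCast]
          norm_num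
        rw [h7]
        exact pow_le_pow_left₀ (by positivity) h4 4
      have h8 : ‖c n * ff κ lam u‖ ≤ B * ((n : ℝ) + 1) ^ 2 * (A * lam * om κ u) := by
        rw [norm_mul]
        exact mul_le_mul (hc n) (hle lam u hl hu') (norm_nonneg _) (by positivity)
      refine h8.trans ?_
      have h9 : B * ((n : ℝ) + 1) ^ 2 * (A * lam * om κ u) =
          K * (1 / ((n : ℝ) + 1) ^ 2) * (om κ u * (m * ((n : ℝ) + 1)) ^ 4) := by
        rw [hK]
        have : ((n : ℝ) + 1) ≠ 0 := by positivity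
        field_simp
      rw [h9]
      refine mul_le_mul_of_nonneg_left ?_ (by positivity)
      exact mul_le_mul_of_nonneg_left h6 hom
    · simpa using hr
  have hsum : Summable fun n : ℕ => K * (1 / ((n : ℝ) + 1) ^ 2) * ∫ u in Ioi (0 : ℝ), om κ u * (1 + u) ^ (4 : ℝ) := by
    refine Summable.mul_right _ (Summable.mul_left _ ?_)
    have h := (summable_nat_add_iff 1).mpr (Real.summable_one_div_nat_pow.mpr (by norm_num : 1 < 2))
    refine h.congr fun n => ?_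
    push_cast
    rfl
  refine Summable.of_nonneg_of_le (fun n => ?_) (fun n => ?_) hsum
  · exact integral_nonneg fun u => norm_nonneg _
  · rw [← integral_const_mul]
    refine setIntegral_mono_on (Fc_F_int κ lam X hκ hl c n).norm ?_ measurableSet_Ioi (hpt n)
    exact hint.const_mul _

private theorem Fc_F_tsum (κ lam X : ℝ) (hX : 0 < X) (c : ℕ → ℂ) (u : ℝ) (hu : 0 < u) :
    ∑' n : ℕ, Fc_F κ lam X c n u = ff κ lam u * ∑ n ∈ Finset.Icc 1 ⌊X * u⌋₊, c n := by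
  have hmem : ∀ n : ℕ, u ∈ Ici ((n : ℝ) / X) ↔ n ≤ ⌊X * u⌋₊ := by
    intro n
    rw [Set.mem_Ici, div_le_iff₀ hX, Nat.le_floor_iff (by positivity), mul_comm u X]
  rw [tsum_eq_sum (s := Finset.Icc 1 ⌊X * u⌋₊), Finset.mul_sum]
  · refine Finset.sum_congr rfl fun n hn => ?_
    rw [Finset.mem_Icc] at hn
    unfold Fc_F
    rw [Set.indicator_of_mem ((hmem n).mpr hn.2), if_neg (by omega), mul_comm]
  · intro n hn
    rw [Finset.mem_Icc] at hn
    unfold Fc_F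
    rw [Set.indicator_apply]
    split_ifs with h1 h2
    · rw [zero_mul]
    · exact absurd ⟨by omega, (hmem n).mp h1⟩ hn
    · rfl

theorem ff_sum (κ lam X B : ℝ) (hκ : 1 ≤ κ) (hl : 1 ≤ lam) (hX : 0 < X) (c : ℕ → ℂ) (hc : ∀ n, ‖c n‖ ≤ B * (n + 1) ^ 2) :
    ∫ u in Ioi (0 : ℝ), ff κ lam u * ∑ n ∈ Finset.Icc 1 ⌊X * u⌋₊, c n = ∑' n : ℕ, c n * Tf κ lam (n / X) := by
  have h := hasSum_integral_of_summable_integral_norm (μ := volume.restrict (Ioi (0 : ℝ)))
    (F := Fc_F κ lam X c) (Fc_F_int κ lam X hκ hl c) (Fc_F_norm κ lam X hκ hl hX c B hc)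
  have h1 : ∫ u in Ioi (0 : ℝ), ff κ lam u * ∑ n ∈ Finset.Icc 1 ⌊X * u⌋₊, c n =
      ∫ u in Ioi (0 : ℝ), ∑' n : ℕ, Fc_F κ lam X c n u :=
    setIntegral_congr_fun measurableSet_Ioi fun u hu => (Fc_F_tsum κ lam X hX c u hu).symm
  rw [h1, ← h.tsum_eq]
  exact tsum_congr fun n => Fc_F_integral κ lam X hκ hX c n

end Pool.Agent.Lib.MP_d713a4_nt
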