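import Pool.Agent.Lib.MP_d713a4_nt.Ga

/-!
# LEAF Gi: an integral of Gamma functions

PROOF.  By `gam_nat`, `norm_zz_cpow`, `arctan(6 π λ) = π/2 - arctan(1/(6 π λ)) ≤ π/2 - 1/(12 π λ)` (and `≥ 0`), `‖zz λ‖ ≥ λ`:
`‖Γ(N + i v)‖ ‖z^(-(N + i v))‖ (1 + |v|)^c ≤ A λ^(-N) (1 + |v|)^(N - 1/2 + c) exp(-|v|/(12 π λ))`; substitute `v = λ w`, `1 + |v| ≤ λ (1 + |w|)`:
at most `A λ^(-N) λ^(N - 1/2 + c) λ ∫ (1 + |w|)^(N - 1/2 + c) exp(-|w|/(12 π)) dw`.
-/

set_option autoImplicit false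

namespace Pool.Agent.Lib.MP_d713a4_nt

open Complex MeasureTheory

private theorem Gi_bdd (s b : ℝ) (hb : 0 < b) : ∃ C : ℝ, 0 < C ∧ ∀ x : ℝ, 1 ≤ x → x ^ s ≤ C * Real.exp (b * x) := by
  refine ⟨(⌈s⌉₊).factorial / b ^ ⌈s⌉₊, by positivity, fun x hx => ?_⟩
  have h1 : x ^ s ≤ x ^ ((⌈s⌉₊ : ℕ) : ℝ) := Real.rpow_le_rpow_of_exponent_le hx (Nat.le_ceil s)
  rw [Real.rpow_natCast] at h1
  have h2 := Real.pow_div_factorial_le_exp (b * x) (by positivity) ⌈s⌉₊
  have h3 : (0 : ℝ) < (⌈s⌉₊).factorial := by positivity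
  have h4 : (0 : ℝ) < b ^ ⌈s⌉₊ := by positivity
  rw [mul_pow, div_le_iff₀ h3] at h2
  refine h1.trans ?_
  rw [div_mul_eq_mul_div, le_div_iff₀ h4]
  nlinarith [h2]

private theorem Gi_h_int (s b : ℝ) (hb : 0 < b) : Integrable (fun w : ℝ => (1 + |w|) ^ s * Real.exp (-(b * |w|))) := by
  obtain ⟨C, hC, hb'⟩ := Gi_bdd (s + 2) b hb
  have hcont : Continuous (fun w : ℝ => (1 + |w|) ^ s * Real.exp (-(b * |w|))) := by
    refine Continuous.mul (Continuous.rpow_const (by fun_prop) fun w => Or.inl ?_) (by fun_prop)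
    positivity
  refine (integrable_inv_one_add_sq.const_mul (C * Real.exp b)).mono' hcont.aestronglyMeasurable (Filter.Eventually.of_forall fun w => ?_)
  have h0 : 0 < 1 + |w| := by positivity
  rw [Real.norm_of_nonneg (by positivity)]
  have h1 := hb' (1 + |w|) (by linarith [abs_nonneg w])
  rw [Real.rpow_add h0] at h1
  have h2 : (1 + |w|) ^ (2 : ℝ) = (1 + |w|) ^ 2 := by norm_cast
  rw [h2] at h1
  have h3 : 1 + w ^ 2 ≤ (1 + |w|) ^ 2 := by nlinarith [abs_nonneg w, sq_abs w]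
  have h4 : (0 : ℝ) < 1 + w ^ 2 := by positivity
  rw [← div_eq_mul_inv, le_div_iff₀ h4]
  have h5 : Real.exp (b * (1 + |w|)) * Real.exp (-(b * |w|)) = Real.exp b := by
    rw [← Real.exp_add]; ring_nf
  calc (1 + |w|) ^ s * Real.exp (-(b * |w|)) * (1 + w ^ 2)
      ≤ (1 + |w|) ^ s * Real.exp (-(b * |w|)) * (1 + |w|) ^ 2 := by
        gcongr
    _ = ((1 + |w|) ^ s * (1 + |w|) ^ 2) * Real.exp (-(b * |w|)) := by ring
    _ ≤ (C * Real.exp (b * (1 + |w|))) * Real.exp (-(b * |w|)) := by gcongr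
    _ = C * Real.exp b := by rw [mul_assoc, h5]

private theorem Gi_arctan (m : ℝ) (hm : 1 ≤ m) : Real.arctan m ≤ Real.pi / 2 - 1 / (2 * m) := by
  have hm0 : 0 < m := by linarith
  have h1 := Real.arctan_inv_of_pos hm0
  have h2 : 1 / (2 * m) ≤ Real.arctan m⁻¹ := by
    have hx : 0 ≤ m⁻¹ := by positivity
    have hx1 : m⁻¹ ≤ 1 := inv_le_one_of_one_le₀ hm
    have key : ∀ x : ℝ, 0 ≤ x → x ≤ 1 → x / 2 ≤ Real.arctan x := by
      intro x h0 h1
      rw [← Real.arctan_tan (x := x / 2) (by linarith [Real.pi_pos]) (by linarith [Real.pi_gt_three])]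
      refine Real.arctan_strictMono.monotone ?_
      have hc : 0 < Real.cos (x / 2) := Real.cos_pos_of_mem_Ioo ⟨by linarith [Real.pi_pos], by linarith [Real.pi_gt_three]⟩
      rw [Real.tan_eq_sin_div_cos, div_le_iff₀ hc]
      have hs : Real.sin (x / 2) ≤ x / 2 := Real.sin_le (by linarith)
      have hcc := Real.one_sub_sq_div_two_le_cos (x := x / 2)
      nlinarith
    have := key m⁻¹ hx hx1
    have e : 1 / (2 * m) = m⁻¹ / 2 := by field_simp
    rw [e]; exact this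
  linarith

private theorem Gi_norm_zz (lam : ℝ) (hl : 1 ≤ lam) : lam ≤ ‖zz lam‖ := by
  have h1 := Complex.abs_im_le_norm (zz lam)
  have h2 : (zz lam).im = 6 * Real.pi * lam := by
    simp [zz]
  rw [h2] at h1
  have h3 : lam ≤ 6 * Real.pi * lam := by nlinarith [Real.pi_gt_three]
  exact (h3.trans (le_abs_self _)).trans h1

theorem gam_int (N : ℕ) (hN : 1 ≤ N) (c : ℝ) (hc : 0 ≤ c) : ∃ A : ℝ, 0 < A ∧ ∀ lam : ℝ, 1 ≤ lam →
    Integrable (fun v : ℝ => ‖Gamma (N + v * I)‖ * ‖zz lam ^ (-(N + v * I))‖ * (1 + |v|) ^ c) ∧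
    ∫ v : ℝ, ‖Gamma (N + v * I)‖ * ‖zz lam ^ (-(N + v * I))‖ * (1 + |v|) ^ c ≤ A * lam ^ (1 / 2 + c) := by
  obtain ⟨A0, hA0, hG⟩ := gam_nat N hN
  set s : ℝ := (N : ℝ) - 1 / 2 + c with hs
  have hN' : (1 : ℝ) ≤ N := by exact_mod_cast hN
  have hs0 : 0 ≤ s := by rw [hs]; linarith
  set b : ℝ := 1 / (12 * Real.pi) with hbdef
  have hb : 0 < b := by rw [hbdef]; positivity
  set h : ℝ → ℝ := fun w => (1 + |w|) ^ s * Real.exp (-(b * |w|)) with hh
  have hint : Integrable h := Gi_h_int s b hb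
  have hnn : ∀ w, 0 ≤ h w := fun w => by simp only [hh]; positivity
  refine ⟨A0 * (∫ w, h w) + 1, by have := integral_nonneg (μ := volume) (show (0 : ℝ → ℝ) ≤ h from hnn); positivity, fun lam hl => ?_⟩
  have hl0 : 0 < lam := by linarith
  have hz : lam ≤ ‖zz lam‖ := Gi_norm_zz lam hl
  have hz0 : zz lam ≠ 0 := by
    intro e; rw [e, norm_zero] at hz; linarith
  have hbd : ∀ v : ℝ, ‖Gamma (N + v * I)‖ * ‖zz lam ^ (-(N + v * I))‖ * (1 + |v|) ^ c ≤
      A0 * lam ^ (s - N) * h (v / lam) := by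
    intro v
    have hv : 0 < 1 + |v| := by positivity
    have e1 : ‖zz lam ^ (-((N : ℂ) + v * I))‖ = ‖zz lam‖ ^ (-(N : ℝ)) * Real.exp (v * Real.arctan (6 * Real.pi * lam)) := by
      rw [norm_zz_cpow]; simp
    have e2 : ‖zz lam‖ ^ (-(N : ℝ)) ≤ lam ^ (-(N : ℝ)) :=
      Real.rpow_le_rpow_of_nonpos hl0 hz (by linarith)
    have hm : 1 ≤ 6 * Real.pi * lam := by nlinarith [Real.pi_gt_three]
    have h3 : v * Real.arctan (6 * Real.pi * lam) ≤ |v| * (Real.pi / 2 - 1 / (2 * (6 * Real.pi * lam))) := by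
      have ha := Gi_arctan _ hm
      have ha0 : 0 ≤ Real.arctan (6 * Real.pi * lam) := Real.arctan_nonneg.2 (by positivity)
      exact mul_le_mul (le_abs_self v) ha ha0 (abs_nonneg v)
    have e3 : Real.exp (v * Real.arctan (6 * Real.pi * lam)) ≤ Real.exp (|v| * (Real.pi / 2 - 1 / (2 * (6 * Real.pi * lam)))) :=
      Real.exp_le_exp.2 h3
    have e4 : (1 + |v|) ^ s ≤ lam ^ s * (1 + |v / lam|) ^ s := by
      rw [← Real.mul_rpow hl0.le (by positivity)]
      refine Real.rpow_le_rpow hv.le ?_ hs0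
      rw [abs_div, abs_of_pos hl0, mul_add, mul_div_cancel₀ _ hl0.ne']
      linarith
    have e5 : Real.exp (-Real.pi / 2 * |v|) * Real.exp (|v| * (Real.pi / 2 - 1 / (2 * (6 * Real.pi * lam)))) = Real.exp (-(b * |v / lam|)) := by
      rw [← Real.exp_add, abs_div, abs_of_pos hl0, hbdef]
      congr 1
      field_simp
      ring
    have e6 : (1 + |v|) ^ ((N : ℝ) - 1 / 2) * (1 + |v|) ^ c = (1 + |v|) ^ s := by
      rw [← Real.rpow_add hv]
    have e7 : lam ^ (-(N : ℝ)) * lam ^ s = lam ^ (s - N) := by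
      rw [← Real.rpow_add hl0]; ring_nf
    calc ‖Gamma (N + v * I)‖ * ‖zz lam ^ (-((N : ℂ) + v * I))‖ * (1 + |v|) ^ c
        ≤ (A0 * (1 + |v|) ^ ((N : ℝ) - 1 / 2) * Real.exp (-Real.pi / 2 * |v|)) *
          (lam ^ (-(N : ℝ)) * Real.exp (|v| * (Real.pi / 2 - 1 / (2 * (6 * Real.pi * lam))))) * (1 + |v|) ^ c := by
          rw [e1]
          gcongr
          exact hG v
      _ = A0 * lam ^ (-(N : ℝ)) * ((1 + |v|) ^ ((N : ℝ) - 1 / 2) * (1 + |v|) ^ c) *
          (Real.exp (-Real.pi / 2 * |v|) * Real.exp (|v| * (Real.pi / 2 - 1 / (2 * (6 * Real.pi * lam))))) := by ring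
      _ = A0 * lam ^ (-(N : ℝ)) * (1 + |v|) ^ s * Real.exp (-(b * |v / lam|)) := by rw [e5, e6]
      _ ≤ A0 * lam ^ (-(N : ℝ)) * (lam ^ s * (1 + |v / lam|) ^ s) * Real.exp (-(b * |v / lam|)) := by gcongr
      _ = A0 * (lam ^ (-(N : ℝ)) * lam ^ s) * ((1 + |v / lam|) ^ s * Real.exp (-(b * |v / lam|))) := by ring
      _ = A0 * lam ^ (s - N) * h (v / lam) := by rw [e7]
  have hdom : Integrable (fun v : ℝ => A0 * lam ^ (s - N) * h (v / lam)) :=
    (hint.comp_div hl0.ne').const_mul _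
  have hcont : Continuous (fun v : ℝ => ‖Gamma (N + v * I)‖ * ‖zz lam ^ (-((N : ℂ) + v * I))‖ * (1 + |v|) ^ c) := by
    refine Continuous.mul (Continuous.mul ?_ ?_) (Continuous.rpow_const (by fun_prop) fun w => Or.inl ?_)
    · refine Continuous.norm ?_
      rw [continuous_iff_continuousAt]
      intro v
      refine ContinuousAt.comp (f := fun v : ℝ => (N : ℂ) + v * I) (g := Gamma) ?_ (by fun_prop)
      refine (Complex.differentiableAt_Gamma _ fun m => ?_).continuousAt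
      intro e
      have := congrArg Complex.re e
      simp at this
      have hm : (0 : ℝ) ≤ m := by positivity
      linarith
    · refine Continuous.norm ?_
      refine Continuous.const_cpow (by fun_prop) (Or.inl hz0)
    · positivity
  have hI : Integrable (fun v : ℝ => ‖Gamma (N + v * I)‖ * ‖zz lam ^ (-((N : ℂ) + v * I))‖ * (1 + |v|) ^ c) := by
    refine hdom.mono' hcont.aestronglyMeasurable (Filter.Eventually.of_forall fun v => ?_)
    rw [Real.norm_of_nonneg (by positivity)]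
    exact hbd v
  refine ⟨hI, ?_⟩
  calc ∫ v : ℝ, ‖Gamma (N + v * I)‖ * ‖zz lam ^ (-((N : ℂ) + v * I))‖ * (1 + |v|) ^ c
      ≤ ∫ v : ℝ, A0 * lam ^ (s - N) * h (v / lam) := integral_mono hI hdom hbd
    _ = A0 * lam ^ (s - N) * (lam * ∫ w, h w) := by
        rw [integral_const_mul, Measure.integral_comp_div, abs_of_pos hl0, smul_eq_mul]
    _ = (A0 * ∫ w, h w) * lam ^ (1 / 2 + c) := by
        have : lam ^ (s - N) * lam = lam ^ (1 / 2 + c) := by
          conv_lhs => rw [← Real.rpow_one lam, ← Real.rpow_mul hl0.le, one_mul]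
          rw [← Real.rpow_add hl0]
          congr 1
          rw [hs]; ring
        rw [← this]; ring
    _ ≤ (A0 * (∫ w, h w) + 1) * lam ^ (1 / 2 + c) := by
        have : 0 ≤ lam ^ (1 / 2 + c) := by positivity
        nlinarith

end Pool.Agent.Lib.MP_d713a4_nt
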