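import Pool.Agent.Lib.MP_d713a4_nt.Ch
import Pool.Agent.Lib.MP_9c2ea5_nt.AConv
import Pool.Agent.Lib.MP_b95a42_nt.LOne

/-!
# LEAF Gr: growth of the L-functions

PROOF.  `norm_L_le`: the partial sums `S(u) = ∑_(m ≤ u) χ(m)` are bounded by `n` (periodic, the sum over a period is `0` because `χ ≠ 1`, `chi_ne_one`), so
`L(s, χ) = s ∫_1^∞ S(u) u^(-s-1) du` for `Re s > 1` (`LSeries_eq_mul_integral`) and, by analytic continuation (both sides are analytic for
`Re s > 0`), for `Re s > 0`; `‖L‖ ≤ n |s| / Re s ≤ n (1 + |t| / Re s) ≤ n (1 + 4 |t|)`.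
(Other ways are welcome: e.g. the partial sums of `∑ χ(m) m^(-s)` over whole periods converge locally uniformly for `Re s > 0`.)
`diff_LJ`: `DirichletCharacter.differentiable_LFunction`.  `LJ_ne`: for `s ≠ 1` this is `GRH`; `s = 1`: `DirichletCharacter.LFunction_apply_one_ne_zero`.
-/

set_option autoImplicit false

namespace Pool.Agent.Lib.MP_d713a4_nt

open Complex

theorem diff_LJ (n : ℕ) (hn : 1 < n) (ho : Odd n) (hs : Squarefree n) : Differentiable ℂ (LJ n) := by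
  have : NeZero n := ⟨by omega⟩
  rw [LJ_eq]
  exact DirichletCharacter.differentiable_LFunction (chi_ne_one n hn ho hs)

theorem LJ_ne (g : GRH) (n : ℕ) (hn : 1 < n) (ho : Odd n) (hs : Squarefree n) (s : ℂ) (h : 1 / 2 < s.re) : LJ n s ≠ 0 := by
  by_cases h1 : s = 1
  · have : NeZero n := ⟨by omega⟩
    rw [LJ_eq, h1]
    exact DirichletCharacter.LFunction_apply_one_ne_zero (chi_ne_one n hn ho hs)
  · exact g n ho hs s h h1

/-- The sums over the intervals. -/
private theorem Gr_sum {m : ℕ} [NeZero m] (χ : DirichletCharacter ℂ m) (hχ : χ ≠ 1) (M n : ℕ) :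
    ‖∑ k ∈ Finset.Ioc M n, χ (k : ZMod m)‖ ≤ m := by
  have hic : ∀ a b : ℕ, a ≤ b → b < m → ‖∑ k ∈ Finset.range b, χ (k : ZMod m) -
      ∑ k ∈ Finset.range a, χ (k : ZMod m)‖ ≤ m := by
    intro a b hab hb
    rw [← Finset.sum_Ico_eq_sub _ hab]
    refine (norm_sum_le _ _).trans ?_
    calc ∑ k ∈ Finset.Ico a b, ‖χ (k : ZMod m)‖ ≤ ∑ _k ∈ Finset.Ico a b, (1 : ℝ) :=
          Finset.sum_le_sum fun k _ => χ.norm_le_one _
      _ = ((b - a : ℕ) : ℝ) := by simp
      _ ≤ m := by exact_mod_cast (by omega : b - a ≤ m)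
  rcases le_or_gt M n with h | h
  · have e : Finset.Ioc M n = Finset.Ico (M + 1) (n + 1) := by
      ext x
      simp only [Finset.mem_Ioc, Finset.mem_Ico]
      omega
    rw [e, Finset.sum_Ico_eq_sub _ (by omega),
      Pool.Agent.Lib.MP_b95a42_nt.sum_range_mod χ hχ (n + 1),
      Pool.Agent.Lib.MP_b95a42_nt.sum_range_mod χ hχ (M + 1)]
    have h1 := Nat.mod_lt (n + 1) (NeZero.pos m)
    have h2 := Nat.mod_lt (M + 1) (NeZero.pos m)
    rcases le_total ((M + 1) % m) ((n + 1) % m) with h3 | h3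
    · exact hic _ _ h3 h1
    · rw [norm_sub_rev]
      exact hic _ _ h3 h2
  · rw [Finset.Ioc_eq_empty_of_le h.le, Finset.sum_empty, norm_zero]
    positivity

private theorem Gr_bound {m : ℕ} [NeZero m] (χ : DirichletCharacter ℂ m) (hχ : χ ≠ 1) (s : ℂ)
    (hs : 0 < s.re) : ‖DirichletCharacter.LFunction χ s - 1‖ ≤ m * (1 + ‖s‖ / s.re) := by
  obtain ⟨g, hg1, hg2, hg3⟩ := Pool.Agent.Lib.MP_9c2ea5_nt.An.exists_cont
    (fun n => χ (n : ZMod m)) m (Gr_sum χ hχ) (fun n => χ.norm_le_one _)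
  have hopen : IsOpen {s : ℂ | 0 < s.re} := isOpen_lt continuous_const Complex.continuous_re
  have hconn : IsPreconnected {s : ℂ | 0 < s.re} :=
    (convex_halfSpace_re_gt 0).isPreconnected
  have ha1 : AnalyticOnNhd ℂ g {s : ℂ | 0 < s.re} := hg1.analyticOnNhd hopen
  have ha2 : AnalyticOnNhd ℂ (DirichletCharacter.LFunction χ) {s : ℂ | 0 < s.re} :=
    (DirichletCharacter.differentiable_LFunction hχ).differentiableOn.analyticOnNhd hopen
  have hnear : g =ᶠ[nhds (2 : ℂ)] DirichletCharacter.LFunction χ := by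
    have hopen1 : IsOpen {s : ℂ | 1 < s.re} := isOpen_lt continuous_const Complex.continuous_re
    filter_upwards [hopen1.mem_nhds (show (2 : ℂ) ∈ {s : ℂ | 1 < s.re} by simp)] with z hz
    rw [hg2 z hz, DirichletCharacter.LFunction_eq_LSeries χ hz]
  have heq := ha1.eqOn_of_preconnected_of_eventuallyEq ha2 hconn
    (show (2 : ℂ) ∈ {s : ℂ | 0 < s.re} by simp) hnear
  have h1 := hg3 s hs 1 le_rfl
  have e : Finset.Ioc (0 : ℕ) 1 = {1} := rfl
  rw [heq (show s ∈ {s : ℂ | 0 < s.re} from hs), e, Finset.sum_singleton, Nat.cast_one,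
    Nat.cast_one, map_one, Complex.one_cpow, mul_one, Nat.cast_one, Real.one_rpow, mul_one] at h1
  exact h1

theorem norm_L_le (n : ℕ) (hn : 1 < n) (ho : Odd n) (hs : Squarefree n) (s : ℂ) (h : 1 / 4 ≤ s.re) :
    ‖LJ n s‖ ≤ 4 * n * (|s.im| + 2) := by
  have : NeZero n := ⟨by omega⟩
  rw [LJ_eq]
  have h0 : 0 < s.re := by linarith
  have h1 := Gr_bound (chi n) (chi_ne_one n hn ho hs) s h0
  have h2 : ‖s‖ / s.re ≤ 1 + 4 * |s.im| := by
    rw [div_le_iff₀ h0]
    have h3 := Complex.norm_le_abs_re_add_abs_im s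
    rw [abs_of_pos h0] at h3
    have h4 : |s.im| * 1 ≤ |s.im| * (4 * s.re) :=
      mul_le_mul_of_nonneg_left (by linarith) (abs_nonneg _)
    nlinarith
  have h5 : ‖DirichletCharacter.LFunction (chi n) s‖ ≤
      ‖DirichletCharacter.LFunction (chi n) s - 1‖ + 1 := by
    have h6 := norm_add_le (DirichletCharacter.LFunction (chi n) s - 1) 1
    rw [sub_add_cancel, norm_one] at h6
    exact h6
  have hn1 : (1 : ℝ) ≤ n := by exact_mod_cast hn.le
  have h7 : (n : ℝ) * (1 + ‖s‖ / s.re) ≤ n * (1 + (1 + 4 * |s.im|)) :=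
    mul_le_mul_of_nonneg_left (by linarith) (by linarith)
  have h8 := abs_nonneg s.im
  nlinarith

end Pool.Agent.Lib.MP_d713a4_nt
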