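import Mathlib

/-!
# LEAF Lg: the logarithm of a function without zeros in a disc, with the bounds of Borel and Carathéodory

PROOF.  `exists_log`: `f'/f` has a primitive `g₀` in the ball (`Complex.IsExactOn`, Morera's theorem for a disc in
`Mathlib/Analysis/Complex/HasPrimitives.lean`), `exp (-g₀) f` has derivative `0`, so it is constant; normalise by `g c = Complex.log (f c)`.
`log_le`: `g` of `exists_log`; `Re g = log ‖f‖ ≤ log M`; `‖g c‖ ≤ |log ‖f c‖| + π ≤ log K + π`.  `Complex.borelCaratheodory` for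
`z ↦ g (c + z)` (with `log M + 1` in place of `log M`, to be positive) on the radius `r`: the constant depends on `r`, `R` only.
-/

set_option autoImplicit false

namespace Pool.Agent.Lib.MP_d713a4_nt

open Complex Metric

theorem exists_log (f : ℂ → ℂ) (c : ℂ) (R : ℝ) (hR : 0 < R) (hf : DifferentiableOn ℂ f (ball c R))
    (h0 : ∀ z ∈ ball c R, f z ≠ 0) :
    ∃ g : ℂ → ℂ, DifferentiableOn ℂ g (ball c R) ∧ (∀ z ∈ ball c R, cexp (g z) = f z) ∧ |(g c).im| ≤ Real.pi := by
  have hF : DifferentiableOn ℂ (fun z => deriv f z / f z) (ball c R) :=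
    (hf.deriv isOpen_ball).div hf h0
  obtain ⟨g, hgc, hg⟩ := hF.isExactOn_ball.with_val_at c (Complex.log (f c))
  have hcR : c ∈ ball c R := mem_ball_self hR
  have hfd : ∀ z ∈ ball c R, HasDerivAt f (deriv f z) z := fun z hz =>
    (hf.differentiableAt (isOpen_ball.mem_nhds hz)).hasDerivAt
  have hh : ∀ z ∈ ball c R, HasDerivAt (fun w => cexp (-g w) * f w) 0 z := by
    intro z hz
    have h1 : HasDerivAt (fun w => cexp (-g w) * f w)
        (cexp (-g z) * -(deriv f z / f z) * f z + cexp (-g z) * deriv f z) z :=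
      ((hg z hz).neg.cexp).mul (hfd z hz)
    have h2 : cexp (-g z) * -(deriv f z / f z) * f z + cexp (-g z) * deriv f z = 0 := by
      have h3 := h0 z hz
      field_simp
      ring
    rw [h2] at h1
    exact h1
  have hconst : ∀ z ∈ ball c R, cexp (-g z) * f z = cexp (-g c) * f c := by
    intro z hz
    exact isOpen_ball.is_const_of_deriv_eq_zero (convex_ball c R).isPreconnected
      (fun w hw => (hh w hw).differentiableAt.differentiableWithinAt) (fun w hw => (hh w hw).deriv) hz hcR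
  have h1 : cexp (-g c) * f c = 1 := by
    rw [hgc, Complex.exp_neg, Complex.exp_log (h0 c hcR)]
    exact inv_mul_cancel₀ (h0 c hcR)
  refine ⟨g, fun z hz => (hg z hz).differentiableAt.differentiableWithinAt, fun z hz => ?_, ?_⟩
  · have h2 := hconst z hz
    rw [h1, Complex.exp_neg] at h2
    have h3 : cexp (g z) ≠ 0 := Complex.exp_ne_zero _
    field_simp at h2
    exact h2.symm
  · rw [hgc, Complex.log_im]
    exact Complex.abs_arg_le_pi _

theorem log_le (r R : ℝ) (hr : 0 < r) (hrR : r < R) : ∃ A : ℝ, 0 < A ∧ ∀ (f : ℂ → ℂ) (c : ℂ) (M K : ℝ), 1 ≤ M → 1 ≤ K →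
    DifferentiableOn ℂ f (ball c R) → (∀ z ∈ ball c R, f z ≠ 0) → (∀ z ∈ ball c R, ‖f z‖ ≤ M) → K⁻¹ ≤ ‖f c‖ →
    ‖f c‖ ≤ K →
    ∃ g : ℂ → ℂ, DifferentiableOn ℂ g (ball c R) ∧ (∀ z ∈ ball c R, cexp (g z) = f z) ∧
      ∀ z ∈ closedBall c r, ‖g z‖ ≤ A * (1 + Real.log M + Real.log K) := by
  have hd : 0 < R - r := sub_pos.2 hrR
  have hR : 0 < R := hr.trans hrR
  refine ⟨(2 * r + 8 * R) / (R - r), by positivity, ?_⟩
  intro f c M K hM hK hf h0 hfM hK1 hK2
  obtain ⟨g, hg, hge, hgi⟩ := exists_log f c R hR hf h0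
  refine ⟨g, hg, hge, fun z hz => ?_⟩
  have hre : ∀ w ∈ ball c R, (g w).re = Real.log ‖f w‖ := by
    intro w hw
    rw [← hge w hw, Complex.norm_exp, Real.log_exp]
  have hcR : c ∈ ball c R := mem_ball_self hR
  have hlM : 0 ≤ Real.log M := Real.log_nonneg hM
  have hlK : 0 ≤ Real.log K := Real.log_nonneg hK
  have hK0 : 0 < K := lt_of_lt_of_le one_pos hK
  have hc1 : ‖g c‖ ≤ Real.log K + Real.pi := by
    refine (Complex.norm_le_abs_re_add_abs_im (g c)).trans (add_le_add ?_ hgi)
    rw [hre c hcR, abs_le]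
    have hfc : 0 < ‖f c‖ := norm_pos_iff.2 (h0 c hcR)
    constructor
    · rw [← Real.log_inv]
      exact Real.log_le_log (inv_pos.2 hK0) hK1
    · exact Real.log_le_log hfc hK2
  have hmap : ∀ w ∈ ball (0 : ℂ) R, c + w ∈ ball c R := by
    intro w hw
    rw [mem_ball, dist_eq_norm, add_sub_cancel_left]
    exact mem_ball_zero_iff.1 hw
  have hw : z - c ∈ ball (0 : ℂ) R := by
    rw [mem_ball_zero_iff, ← dist_eq_norm]
    exact lt_of_le_of_lt (mem_closedBall.1 hz) hrR
  have hwr : ‖z - c‖ ≤ r := by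
    rw [← dist_eq_norm]
    exact mem_closedBall.1 hz
  have hbc := Complex.borelCaratheodory (f := fun w => g (c + w)) (z := z - c) (M := Real.log M + 1) (R := R)
    (by linarith)
    (hg.comp (differentiableOn_const c |>.add differentiableOn_id) fun w hw' => hmap w hw')
    (by
      intro w hw'
      show (g (c + w)).re ≤ Real.log M + 1
      rw [hre _ (hmap w hw')]
      have h1 := Real.log_le_log (norm_pos_iff.2 (h0 _ (hmap w hw'))) (hfM _ (hmap w hw'))
      linarith) hR hw
  simp only [add_sub_cancel, add_zero] at hbc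
  refine hbc.trans ?_
  have hden : R - r ≤ R - ‖z - c‖ := by linarith
  have hpi : Real.pi ≤ 4 := Real.pi_le_four
  have h1 : 2 * (Real.log M + 1) * ‖z - c‖ / (R - ‖z - c‖) ≤ 2 * (Real.log M + 1) * r / (R - r) := by
    have h5 : 0 ≤ 2 * (Real.log M + 1) := by linarith
    exact div_le_div₀ (mul_nonneg h5 hr.le) (mul_le_mul_of_nonneg_left hwr h5) hd hden
  have h2 : ‖g c‖ * (R + ‖z - c‖) / (R - ‖z - c‖) ≤ (Real.log K + 4) * (2 * R) / (R - r) := by
    refine div_le_div₀ (by positivity) (mul_le_mul (by linarith) (by linarith) (by positivity) (by linarith)) hd hden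
  refine (add_le_add h1 h2).trans ?_
  rw [← add_div, div_mul_eq_mul_div, div_le_div_iff_of_pos_right hd]
  nlinarith [mul_nonneg hr.le hlM, mul_nonneg hR.le hlM, mul_nonneg hr.le hlK, mul_nonneg hR.le hlK]

end Pool.Agent.Lib.MP_d713a4_nt
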