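import Pool.Agent.Lib.MP_d713a4_nt.Gr
import Pool.Agent.Lib.MP_d713a4_nt.Gf
import Pool.Agent.Lib.MP_d713a4_nt.Bc

/-!
# LEAF Li: the Lindelöf bound for `L(s, χ_n)` under GRH

PROOF.  `lind` with `f = LJ n`, `c = 2 + i Im s`, `K` of `far (h/2)`, `M = 4 n (|Im s| + 4)` (`norm_L_le`), `LJ_ne`: the ball of radius `3/2 - h/2` lies in
`Re > 1/2 + h/2`, the ball of radius `1 - h/2` in `Re > 1 + h/2`, and the points with `Re = 1/2 + h` on the horizontal line through `c` are in the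
closed ball of radius `3/2 - h`.
-/

set_option autoImplicit false

namespace Pool.Agent.Lib.MP_d713a4_nt

open Complex

theorem L_lind (g : GRH) (h η : ℝ) (h0 : 0 < h) (h1 : h < 1 / 2) (hη : 0 < η) : ∃ A : ℝ, 0 < A ∧ ∀ n : ℕ, 1 < n → Odd n →
    Squarefree n → ∀ s : ℂ, s.re = 1 / 2 + h → ‖LJ n s‖ ≤ A * (n * (|s.im| + 2)) ^ η := by
  obtain ⟨K, hK, hfar⟩ := far (h / 2) (by linarith)
  obtain ⟨A, hA, hlind⟩ := lind h η K h0 h1 hη hK
  refine ⟨A * 8 ^ η, by positivity, fun n hn ho hsq s hs => ?_⟩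
  have hn1 : (1 : ℝ) ≤ n := by exact_mod_cast hn.le
  have habs : 0 ≤ |s.im| := abs_nonneg _
  have hre : ∀ z : ℂ, ∀ r : ℝ, z ∈ Metric.ball (⟨2, s.im⟩ : ℂ) r → 2 - r < z.re ∧ |z.im| ≤ |s.im| + r := by
    intro z r hz
    rw [Metric.mem_ball, Complex.dist_eq] at hz
    have h2 := (abs_le.1 (Complex.abs_re_le_norm (z - ⟨2, s.im⟩))).1
    have h3 := Complex.abs_im_le_norm (z - ⟨2, s.im⟩)
    rw [Complex.sub_re] at h2
    rw [Complex.sub_im] at h3
    simp only at h2 h3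
    have h4 : |z.im| ≤ |z.im - s.im| + |s.im| := by
      have h5 := abs_add_le (z.im - s.im) s.im
      rwa [sub_add_cancel] at h5
    constructor <;> linarith
  have hM : 1 ≤ 8 * (n * (|s.im| + 2)) := by nlinarith
  have key := (hlind (LJ n) ⟨2, s.im⟩ (8 * (n * (|s.im| + 2))) hM (diff_LJ n hn ho hsq).differentiableOn
    (fun z hz => LJ_ne g n hn ho hsq z (by have := (hre z _ hz).1; linarith))
    (fun z hz => by
      obtain ⟨h2, h3⟩ := hre z _ hz
      refine (norm_L_le n hn ho hsq z (by linarith)).trans ?_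
      have h4 : |z.im| + 2 ≤ 2 * (|s.im| + 2) := by linarith
      have h5 : 0 ≤ 4 * (n : ℝ) := by linarith
      calc 4 * (n : ℝ) * (|z.im| + 2) ≤ 4 * n * (2 * (|s.im| + 2)) := mul_le_mul_of_nonneg_left h4 h5
        _ = 8 * (n * (|s.im| + 2)) := by ring)
    (fun z hz => by
      have h2 := (hre z _ hz).1
      obtain ⟨h3, h4, -⟩ := hfar n ho z (by linarith)
      exact ⟨h3, h4⟩)
    s (by
      have h2 : dist s (⟨2, s.im⟩ : ℂ) = dist s.re (2 : ℝ) := Complex.dist_of_im_eq (z := s) (w := ⟨2, s.im⟩) rfl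
      rw [Metric.mem_closedBall, h2, Real.dist_eq, hs]
      rw [abs_of_nonpos (by linarith)]
      linarith)).1
  refine key.trans (le_of_eq ?_)
  rw [Real.mul_rpow (by norm_num) (by positivity), mul_assoc]

end Pool.Agent.Lib.MP_d713a4_nt
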