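import Pool.Agent.Lib.MP_d713a4_nt.Dl

/-!
# LEAF Ma: growth of `FF`

PROOF.  `dl_le`, `dl_cont`: a finite sum; at most `x` terms, `log (n (|t| + 2)) ≤ n (|t| + 2)`, `n ≤ x`.
-/

set_option autoImplicit false

namespace Pool.Agent.Lib.MP_d713a4_nt

open Complex

private theorem Ma_mem {x : ℝ} {n : ℕ} (hn : n ∈ OS x) : 1 ≤ n ∧ n ≤ ⌊x⌋₊ ∧ Odd n ∧ Squarefree n := by
  unfold OS at hn
  obtain ⟨h1, h2, h3⟩ := Finset.mem_filter.1 hn
  obtain ⟨h4, h5⟩ := Finset.mem_Icc.1 h1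
  exact ⟨h4, h5, h2, h3⟩

theorem FF_cont (g : GRH) (σ : ℝ) (h0 : 0 < σ) (h1 : σ < 1 / 2) (x : ℝ) : Continuous fun t : ℝ => FF x (σ + t * I) := by
  unfold FF
  refine continuous_finsetSum _ fun n hn => ?_
  obtain ⟨_, _, h2, h3⟩ := Ma_mem hn
  exact dl_cont g σ h0 h1 n h2 h3

theorem FF_le (g : GRH) (σ : ℝ) (h0 : 0 < σ) (h1 : σ < 1 / 2) : ∃ A : ℝ, 0 < A ∧ ∀ x t : ℝ, 0 ≤ x →
    ‖FF x (σ + t * I)‖ ≤ A * (1 + x) ^ 2 * (1 + |t|) := by
  obtain ⟨A, hA, hall⟩ := dl_le g σ h0 h1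
  refine ⟨2 * A, by linarith, fun x t hx => ?_⟩
  have ht : 0 ≤ |t| := abs_nonneg t
  have h2 : ∀ n ∈ OS x, ‖dl n (1 / 2 + (σ + t * I))‖ ≤ 2 * A * (1 + x) * (1 + |t|) := by
    intro n hn
    obtain ⟨h3, h4, h5, h6⟩ := Ma_mem hn
    have h7 : (n : ℝ) ≤ x := (Nat.cast_le.2 h4).trans (Nat.floor_le hx)
    have h8 : (1 : ℝ) ≤ n := by exact_mod_cast h3
    have h9 : (0 : ℝ) < n * (|t| + 2) := by positivity
    refine ((hall n h5 h6).2 t).trans ?_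
    have h10 : Real.log (n * (|t| + 2)) ≤ n * (|t| + 2) - 1 := Real.log_le_sub_one_of_pos h9
    have h11 : (n : ℝ) * (|t| + 2) ≤ (1 + x) * (2 * (1 + |t|)) :=
      mul_le_mul (by linarith) (by linarith) (by linarith) (by linarith)
    have h12 : Real.log (n * (|t| + 2)) ≤ (1 + x) * (2 * (1 + |t|)) := by linarith
    calc A * Real.log (n * (|t| + 2)) ≤ A * ((1 + x) * (2 * (1 + |t|))) := mul_le_mul_of_nonneg_left h12 hA.le
      _ = 2 * A * (1 + x) * (1 + |t|) := by ring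
  have h3 : ((OS x).card : ℝ) ≤ 1 + x := by
    have h4 : (OS x).card ≤ ⌊x⌋₊ := by
      unfold OS
      refine (Finset.card_filter_le _ _).trans ?_
      rw [Nat.card_Icc]
      omega
    have h5 : ((OS x).card : ℝ) ≤ x := (Nat.cast_le.2 h4).trans (Nat.floor_le hx)
    linarith
  have h4 : 0 ≤ 2 * A * (1 + x) * (1 + |t|) := by positivity
  unfold FF
  refine (norm_sum_le _ _).trans ((Finset.sum_le_card_nsmul _ _ _ h2).trans ?_)
  rw [nsmul_eq_mul]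
  calc ((OS x).card : ℝ) * (2 * A * (1 + x) * (1 + |t|)) ≤ (1 + x) * (2 * A * (1 + x) * (1 + |t|)) :=
        mul_le_mul_of_nonneg_right h3 h4
    _ = 2 * A * (1 + x) ^ 2 * (1 + |t|) := by ring

end Pool.Agent.Lib.MP_d713a4_nt
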