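import Pool.Agent.Lib.MP_d713a4_nt.Zd

/-!
# The theorem
-/

set_option autoImplicit false

namespace Pool.Agent.Lib.MP_d713a4_nt

open Complex

theorem main (g : GRH) (σ δ : ℝ) (h0 : 0 < σ) (h1 : σ < 1 / 4) (hδ : 0 < δ) : ∃ ε₀ : ℝ, 0 < ε₀ ∧ ∀ ε : ℝ, ε ≤ ε₀ →
    ∀ A B : ℂ → ℂ, ¬ ∃ C X₀ : ℝ, ∀ X : ℝ, X₀ ≤ X → ∀ r : ℂ, r.re = σ → |r.im| ≤ X ^ (1 - ε) →
      ‖FF X r - X * A r - (X : ℂ) ^ (1 - r) * B r‖ ≤ C * X ^ (1 / 2 - σ - δ) := by
  refine ⟨min δ (1 / 4) / 3, by positivity, ?_⟩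
  rintro ε hε A B ⟨C, X₀, h⟩
  refine contra g σ (min δ (1 / 4)) h0 h1 (by positivity) (min_le_right _ _) (fun t => A (σ + t * I)) (fun t => B (σ + t * I))
    |C| (max X₀ 1) ?_
  intro x hx t ht
  have hx1 : 1 ≤ x := (le_max_right _ _).trans hx
  have h2 := h x ((le_max_left _ _).trans hx) (σ + t * I) (by simp) (by
    have h3 : ((σ : ℂ) + t * I).im = t := by simp
    rw [h3]
    exact ht.trans (Real.rpow_le_rpow_of_exponent_le hx1 (by linarith)))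
  refine h2.trans ?_
  refine (mul_le_mul_of_nonneg_right (le_abs_self C) (Real.rpow_nonneg (by linarith) _)).trans ?_
  refine mul_le_mul_of_nonneg_left (Real.rpow_le_rpow_of_exponent_le hx1 ?_) (abs_nonneg C)
  have h4 := min_le_left δ (1 / 4)
  linarith

/-- the sum `S(r)` of the question -/
noncomputable def SS (r : ℂ) : ℂ :=
  ∑' p : {p : ℕ // p.Prime ∧ 2 < p}, (Real.log (p : ℕ) : ℂ) / (((p : ℕ) + 1) * (((p : ℕ) : ℂ) ^ (1 + 2 * r) - 1))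

/-- the product `P_(D,2)(α, β)` of the question -/
noncomputable def PD (α β : ℂ) : ℂ :=
  ∏' p : {p : ℕ // p.Prime ∧ 2 < p},
    (1 + (1 - ((p : ℕ) : ℂ) ^ (β - α)) / (((p : ℕ) + 1) * (((p : ℕ) : ℂ) ^ (1 + α + β) - 1)))

/-- the function `G(s) = Γ_e(s) + Γ_o(s)` of the question -/
noncomputable def GG (s : ℂ) : ℂ := Gamma ((1 - s) / 2) / Gamma (s / 2) + Gamma ((2 - s) / 2) / Gamma ((1 + s) / 2)

/-- the factor of `X` in the first main term of Q1 -/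
noncomputable def M1 (r : ℂ) : ℂ := 2 / (3 * riemannZeta 2) * (deriv riemannZeta (1 + 2 * r) / riemannZeta (1 + 2 * r) + SS r)

/-- the factor of `X^(1-r)` in the second main term of Q1 (which has a minus sign) -/
noncomputable def M2 (r : ℂ) : ℂ :=
  (Real.pi : ℂ) ^ r * riemannZeta (1 - 2 * r) * GG (1 / 2 + r) * PD (-r) r / (3 * (1 - r) * riemannZeta 2)

theorem main_Q1 (g : GRH) (θ c' : ℝ) (hθ : θ < 1 / 2) (hc' : 0 < c') : ∃ ε₀ : ℝ, 0 < ε₀ ∧ ∀ ε : ℝ, ε ≤ ε₀ → ∀ c : ℝ,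
    ¬ ∃ C X₀ : ℝ, ∀ X : ℝ, X₀ ≤ X → ∀ r : ℂ, c / Real.log X ≤ r.re → r.re ≤ c' → |r.im| ≤ X ^ (1 - ε) →
      ‖FF X r - (X * M1 r - (X : ℂ) ^ (1 - r) * M2 r)‖ ≤ C * X ^ θ := by
  set σ : ℝ := min (min ((1 / 2 - θ) / 2) c') (1 / 8) with hσ
  have h0 : 0 < σ := lt_min (lt_min (by linarith) hc') (by norm_num)
  have h1 : σ < 1 / 4 := lt_of_le_of_lt (min_le_right _ _) (by norm_num)
  have h2 : σ ≤ (1 / 2 - θ) / 2 := (min_le_left _ _).trans (min_le_left _ _)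
  have h2' : σ ≤ c' := (min_le_left _ _).trans (min_le_right _ _)
  obtain ⟨ε₀, hε₀, h3⟩ := main g σ ((1 / 2 - θ) / 2) h0 h1 (by linarith)
  refine ⟨ε₀, hε₀, ?_⟩
  rintro ε hε c ⟨C, X₀, h⟩
  apply h3 ε hε M1 (fun r => -M2 r)
  refine ⟨|C|, max X₀ (Real.exp (|c| / σ) + 1), ?_⟩
  intro X hX r hr hr2
  have hX1 : X₀ ≤ X := (le_max_left _ _).trans hX
  have hX2 : Real.exp (|c| / σ) + 1 ≤ X := (le_max_right _ _).trans hX
  have hX3 : 1 < X := by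
    have := Real.exp_pos (|c| / σ)
    linarith
  have hlog : 0 < Real.log X := Real.log_pos hX3
  have h4 : |c| / σ ≤ Real.log X := by
    rw [Real.le_log_iff_exp_le (by linarith)]
    linarith
  have h5 : c / Real.log X ≤ r.re := by
    rw [hr, div_le_iff₀ hlog]
    rw [div_le_iff₀ h0] at h4
    have := le_abs_self c
    linarith
  have h6 := h X hX1 r h5 (by rw [hr]; linarith) hr2
  have h7 : FF X r - X * M1 r - (X : ℂ) ^ (1 - r) * -M2 r = FF X r - (X * M1 r - (X : ℂ) ^ (1 - r) * M2 r) := by ring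
  rw [h7]
  refine h6.trans ?_
  refine (mul_le_mul_of_nonneg_right (le_abs_self C) (Real.rpow_nonneg (by linarith) _)).trans ?_
  refine mul_le_mul_of_nonneg_left (Real.rpow_le_rpow_of_exponent_le hX3.le ?_) (abs_nonneg C)
  linarith

end Pool.Agent.Lib.MP_d713a4_nt
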