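import Pool.Agent.Lib.MP_d713a4_nt.Ma

/-!
# LEAF Mb: the functions `a`, `b` are measurable and of polynomial growth

PROOF.  (growth) for `t` put `x = max (X₀, 1, |t|^(1/(1-ε)))`; `|t| ≤ x^(1-ε) ≤ (2x)^(1-ε)`, so `EE` at `x` and `2x` are at most `C (2x)^θ ≤ |C| 2 x`
(`θ ≤ 1`, `x ≥ 1`).  With `r = σ + i t`: `2 EE x - EE (2x) = 2 FF x - FF (2x) - x^(1-r) (2 - 2^(1-r)) b`, `|2 - 2^(1-r)| = 2 |1 - 2^(-r)| ≥ 2 (1 - 2^(-σ)) > 0`.
So (`FF_le`) `‖b t‖` and then `‖a t‖` are bounded by a polynomial in `x ≤ |X₀| + 1 + (1 + |t|)^m`, `m ≥ 1/(1-ε)`.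
(measurability) for each `t`: `FF n (σ + i t)/n → a t` and `(FF n (σ + i t) - n a t)/n^(1-r) → b t` as `n → ∞` through the natural numbers (`θ < 1 - σ`), and
`t ↦ FF n (σ + i t)` is continuous (`FF_cont`): `measurable_of_tendsto_metrizable`.
-/

set_option autoImplicit false

namespace Pool.Agent.Lib.MP_d713a4_nt

open Complex

private theorem Mb_norm (σ t x : ℝ) (hx : 0 < x) : ‖(x : ℂ) ^ (1 - (σ + t * I) : ℂ)‖ = x ^ (1 - σ) := by
  rw [Complex.norm_cpow_eq_rpow_re_of_pos hx]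
  simp

private theorem Mb_EE {σ ε θ C X₀ : ℝ} {a b : ℝ → ℂ} (hb : Bd σ ε θ C X₀ a b) {x t : ℝ} (hx : X₀ ≤ x) (h1 : 1 ≤ x)
    (ht : |t| ≤ x ^ (1 - ε)) : ‖EE σ a b x t‖ ≤ |C| * x ^ θ :=
  (hb x hx t ht).trans (mul_le_mul_of_nonneg_right (le_abs_self C) (by positivity))

private theorem Mb_limA (σ ε θ C X₀ : ℝ) (h0 : 0 < σ) (hε1 : ε < 1) (hθ : θ < 1 - σ)
    (a b : ℝ → ℂ) (hb : Bd σ ε θ C X₀ a b) (t : ℝ) :
    Filter.Tendsto (fun x : ℝ => FF x (σ + t * I) / (x : ℂ)) Filter.atTop (nhds (a t)) := by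
  rw [← tendsto_sub_nhds_zero_iff]
  have hg : Filter.Tendsto (fun x : ℝ => |C| * x ^ (-(1 - θ)) + ‖b t‖ * x ^ (-σ)) Filter.atTop (nhds 0) := by
    have h2 := (tendsto_rpow_neg_atTop (y := 1 - θ) (by linarith)).const_mul |C|
    have h3 := (tendsto_rpow_neg_atTop (y := σ) h0).const_mul ‖b t‖
    simpa using h2.add h3
  refine squeeze_zero_norm' ?_ hg
  filter_upwards [Filter.eventually_ge_atTop X₀, Filter.eventually_ge_atTop 1,
    (tendsto_rpow_atTop (y := 1 - ε) (by linarith)).eventually_ge_atTop |t|] with x hx hx1 hxt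
  have hx0 : 0 < x := by linarith
  have hxc : (x : ℂ) ≠ 0 := by exact_mod_cast hx0.ne'
  have e1 : FF x (σ + t * I) / (x : ℂ) - a t = (EE σ a b x t + (x : ℂ) ^ (1 - (σ + t * I) : ℂ) * b t) / x := by
    rw [eq_div_iff hxc, sub_mul, div_mul_cancel₀ _ hxc]
    unfold EE
    ring
  rw [e1, norm_div, Complex.norm_real, Real.norm_of_nonneg hx0.le, div_le_iff₀ hx0]
  refine (norm_add_le _ _).trans ?_
  rw [norm_mul, Mb_norm σ t x hx0]
  have e2 : x ^ θ = x ^ (-(1 - θ)) * x := by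
    rw [← Real.rpow_add_one hx0.ne']
    congr 1
    ring
  have e3 : x ^ (1 - σ) = x ^ (-σ) * x := by
    rw [← Real.rpow_add_one hx0.ne']
    congr 1
    ring
  have h4 := Mb_EE hb hx hx1 hxt
  rw [e2] at h4
  rw [e3]
  linarith

private theorem Mb_limB (σ ε θ C X₀ : ℝ) (hε1 : ε < 1) (hθ : θ < 1 - σ)
    (a b : ℝ → ℂ) (hb : Bd σ ε θ C X₀ a b) (t : ℝ) :
    Filter.Tendsto (fun x : ℝ => (FF x (σ + t * I) - x * a t) / (x : ℂ) ^ (1 - (σ + t * I) : ℂ)) Filter.atTop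
      (nhds (b t)) := by
  rw [← tendsto_sub_nhds_zero_iff]
  have hg : Filter.Tendsto (fun x : ℝ => |C| * x ^ (-(1 - σ - θ))) Filter.atTop (nhds 0) := by
    have h2 := (tendsto_rpow_neg_atTop (y := 1 - σ - θ) (by linarith)).const_mul |C|
    simpa using h2
  refine squeeze_zero_norm' ?_ hg
  filter_upwards [Filter.eventually_ge_atTop X₀, Filter.eventually_ge_atTop 1,
    (tendsto_rpow_atTop (y := 1 - ε) (by linarith)).eventually_ge_atTop |t|] with x hx hx1 hxt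
  have hx0 : 0 < x := by linarith
  have hxc : (x : ℂ) ≠ 0 := by exact_mod_cast hx0.ne'
  have hpc : (x : ℂ) ^ (1 - (σ + t * I) : ℂ) ≠ 0 := by
    intro h
    have h5 := Mb_norm σ t x hx0
    rw [h, norm_zero] at h5
    exact (Real.rpow_pos_of_pos hx0 _).ne h5
  have e1 : (FF x (σ + t * I) - x * a t) / (x : ℂ) ^ (1 - (σ + t * I) : ℂ) - b t =
      EE σ a b x t / (x : ℂ) ^ (1 - (σ + t * I) : ℂ) := by
    rw [eq_div_iff hpc, sub_mul, div_mul_cancel₀ _ hpc]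
    unfold EE
    ring
  have hp : 0 < x ^ (1 - σ) := Real.rpow_pos_of_pos hx0 _
  rw [e1, norm_div, Mb_norm σ t x hx0, div_le_iff₀ hp, mul_assoc, ← Real.rpow_add hx0]
  refine (Mb_EE hb hx hx1 hxt).trans (le_of_eq ?_)
  congr 2
  ring

private theorem Mb_bd (g : GRH) (σ ε θ C X₀ : ℝ) (h0 : 0 < σ) (h1 : σ < 1 / 2) (hε1 : ε < 1) (hθ : θ < 1 - σ)
    (a b : ℝ → ℂ) (hb : Bd σ ε θ C X₀ a b) :
    ∃ (k : ℕ) (B : ℝ), 0 < B ∧ ∀ t : ℝ, ‖a t‖ ≤ B * (1 + |t|) ^ k ∧ ‖b t‖ ≤ B * (1 + |t|) ^ k := by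
  obtain ⟨A, hA, hFF⟩ := FF_le g σ h0 h1
  obtain ⟨m, hm⟩ := exists_nat_ge (1 / (1 - ε))
  have hε2 : 0 < 1 - ε := by linarith
  rw [div_le_iff₀ hε2] at hm
  have hm0 : m ≠ 0 := by
    rintro rfl
    rw [Nat.cast_zero, zero_mul] at hm
    linarith
  set c0 : ℝ := 2 - 2 ^ (1 - σ) with hc0
  have hc0p : 0 < c0 := by
    have h2 : (2 : ℝ) ^ (1 - σ) < 2 ^ (1 : ℝ) := Real.rpow_lt_rpow_of_exponent_lt (by norm_num) (by linarith)
    rw [Real.rpow_one] at h2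
    linarith
  have hC := abs_nonneg C
  have hD1 : 0 ≤ (17 * A + 4 * |C|) / c0 := by positivity
  refine ⟨2 * m + 1, ((17 * A + 4 * |C|) / c0 + 4 * A + |C|) * (1 + |X₀|) ^ (2 * m), by positivity, fun t => ?_⟩
  have ht0 := abs_nonneg t
  have hX0 := abs_nonneg X₀
  set y : ℝ := 1 + |X₀| + |t| with hy
  have hy1 : 1 ≤ y := by linarith
  set x : ℝ := y ^ m with hx
  have hyx : y ≤ x := le_self_pow₀ hy1 hm0
  have hx1 : 1 ≤ x := hy1.trans hyx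
  have hx0 : 0 < x := by linarith
  have hxX : X₀ ≤ x := by
    have := le_abs_self X₀
    linarith
  have htx : |t| ≤ x ^ (1 - ε) := by
    rw [hx, ← Real.rpow_natCast y m, ← Real.rpow_mul (by linarith)]
    calc |t| ≤ y := by linarith
      _ = y ^ (1 : ℝ) := (Real.rpow_one y).symm
      _ ≤ y ^ ((m : ℝ) * (1 - ε)) := Real.rpow_le_rpow_of_exponent_le hy1 hm
  have ht2x : |t| ≤ (2 * x) ^ (1 - ε) := htx.trans (Real.rpow_le_rpow hx0.le (by linarith) hε2.le)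
  have hE1 := Mb_EE hb hxX hx1 htx
  have hE2 := Mb_EE hb (x := 2 * x) (t := t) (by linarith) (by linarith) ht2x
  have hF1 := hFF x t hx0.le
  have hF2 := hFF (2 * x) t (by linarith)
  have hθ1 : θ ≤ 1 := by linarith
  have hp1 : x ^ θ ≤ x := by
    calc x ^ θ ≤ x ^ (1 : ℝ) := Real.rpow_le_rpow_of_exponent_le hx1 hθ1
      _ = x := Real.rpow_one x
  have hp2 : (2 * x) ^ θ ≤ 2 * x := by
    calc (2 * x) ^ θ ≤ (2 * x) ^ (1 : ℝ) := Real.rpow_le_rpow_of_exponent_le (by linarith) hθ1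
      _ = 2 * x := Real.rpow_one _
  have hE1' : ‖EE σ a b x t‖ ≤ |C| * x := hE1.trans (mul_le_mul_of_nonneg_left hp1 hC)
  have hE2' : ‖EE σ a b (2 * x) t‖ ≤ |C| * (2 * x) := hE2.trans (mul_le_mul_of_nonneg_left hp2 hC)
  have hT1 : 1 ≤ 1 + |t| := by linarith
  set T : ℝ := 1 + |t| with hT
  have hT0 : 0 < T := by linarith
  have hxx : x ≤ x ^ 2 * T := by nlinarith
  have hq1 : A * (1 + x) ^ 2 * T ≤ 4 * A * (x ^ 2 * T) := by
    have h2 : (1 + x) ^ 2 ≤ 4 * x ^ 2 := by nlinarith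
    calc A * (1 + x) ^ 2 * T ≤ A * (4 * x ^ 2) * T := by gcongr
      _ = 4 * A * (x ^ 2 * T) := by ring
  have hq2 : A * (1 + 2 * x) ^ 2 * T ≤ 9 * A * (x ^ 2 * T) := by
    have h2 : (1 + 2 * x) ^ 2 ≤ 9 * x ^ 2 := by nlinarith
    calc A * (1 + 2 * x) ^ 2 * T ≤ A * (9 * x ^ 2) * T := by gcongr
      _ = 9 * A * (x ^ 2 * T) := by ring
  have hq3 : |C| * x ≤ |C| * (x ^ 2 * T) := mul_le_mul_of_nonneg_left hxx hC
  set s : ℂ := 1 - (σ + t * I) with hs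
  have hn1 : ‖(x : ℂ) ^ s‖ = x ^ (1 - σ) := Mb_norm σ t x hx0
  have hn2 : ‖((2 : ℝ) : ℂ) ^ s‖ = 2 ^ (1 - σ) := Mb_norm σ t 2 (by norm_num)
  have hmul : ((2 * x : ℝ) : ℂ) ^ s = ((2 : ℝ) : ℂ) ^ s * (x : ℂ) ^ s := by
    rw [Complex.ofReal_mul, Complex.mul_cpow_ofReal_nonneg (by norm_num) hx0.le]
  have key : (x : ℂ) ^ s * (2 - ((2 : ℝ) : ℂ) ^ s) * b t =
      2 * FF x (σ + t * I) - FF (2 * x) (σ + t * I) - 2 * EE σ a b x t + EE σ a b (2 * x) t := by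
    have e1 : EE σ a b (2 * x) t = FF (2 * x) (σ + t * I) - ((2 * x : ℝ) : ℂ) * a t - ((2 * x : ℝ) : ℂ) ^ s * b t := rfl
    have e2 : EE σ a b x t = FF x (σ + t * I) - (x : ℂ) * a t - (x : ℂ) ^ s * b t := rfl
    rw [e1, e2, hmul]
    push_cast
    ring
  have hlow : c0 ≤ ‖(2 : ℂ) - ((2 : ℝ) : ℂ) ^ s‖ := by
    have h2 := norm_sub_norm_le (2 : ℂ) (((2 : ℝ) : ℂ) ^ s)
    have h3 : ‖(2 : ℂ)‖ = 2 := by simp
    rw [hn2, h3] at h2
    exact h2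
  have hge : 1 ≤ x ^ (1 - σ) := Real.one_le_rpow hx1 (by linarith)
  have hB0 := norm_nonneg (b t)
  have hup : c0 * ‖b t‖ ≤ (17 * A + 4 * |C|) * (x ^ 2 * T) := by
    have h2 : ‖(x : ℂ) ^ s * (2 - ((2 : ℝ) : ℂ) ^ s) * b t‖ ≤
        2 * ‖FF x (σ + t * I)‖ + ‖FF (2 * x) (σ + t * I)‖ + 2 * ‖EE σ a b x t‖ + ‖EE σ a b (2 * x) t‖ := by
      rw [key]
      have h3 : ∀ z : ℂ, ‖2 * z‖ = 2 * ‖z‖ := fun z => by rw [norm_mul]; simp
      have h4 := norm_add_le (2 * FF x (σ + t * I) - FF (2 * x) (σ + t * I) - 2 * EE σ a b x t) (EE σ a b (2 * x) t)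
      have h5 := norm_sub_le (2 * FF x (σ + t * I) - FF (2 * x) (σ + t * I)) (2 * EE σ a b x t)
      have h6 := norm_sub_le (2 * FF x (σ + t * I)) (FF (2 * x) (σ + t * I))
      rw [h3] at h5 h6
      linarith
    rw [norm_mul, norm_mul, hn1] at h2
    have h7 : c0 * ‖b t‖ ≤ x ^ (1 - σ) * ‖(2 : ℂ) - ((2 : ℝ) : ℂ) ^ s‖ * ‖b t‖ := by
      refine mul_le_mul_of_nonneg_right ?_ hB0
      calc c0 = 1 * c0 := (one_mul _).symm
        _ ≤ x ^ (1 - σ) * ‖(2 : ℂ) - ((2 : ℝ) : ℂ) ^ s‖ := mul_le_mul hge hlow hc0p.le (by linarith)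
    linarith
  have hbt : ‖b t‖ ≤ (17 * A + 4 * |C|) / c0 * (x ^ 2 * T) := by
    rw [div_mul_eq_mul_div, le_div_iff₀ hc0p, mul_comm]
    exact hup
  have hat : ‖a t‖ ≤ (4 * A + |C|) * (x ^ 2 * T) + ‖b t‖ := by
    have h2 : (x : ℂ) * a t = FF x (σ + t * I) - (x : ℂ) ^ s * b t - EE σ a b x t := by
      have e2 : EE σ a b x t = FF x (σ + t * I) - (x : ℂ) * a t - (x : ℂ) ^ s * b t := rfl
      rw [e2]
      ring
    have h3 : ‖(x : ℂ) * a t‖ = x * ‖a t‖ := by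
      rw [norm_mul, Complex.norm_real, Real.norm_of_nonneg hx0.le]
    have h4 := norm_sub_le (FF x (σ + t * I) - (x : ℂ) ^ s * b t) (EE σ a b x t)
    have h5 := norm_sub_le (FF x (σ + t * I)) ((x : ℂ) ^ s * b t)
    rw [norm_mul, hn1] at h5
    have h6 : x ^ (1 - σ) ≤ x := by
      calc x ^ (1 - σ) ≤ x ^ (1 : ℝ) := Real.rpow_le_rpow_of_exponent_le hx1 (by linarith)
        _ = x := Real.rpow_one x
    have h7 : x ^ (1 - σ) * ‖b t‖ ≤ x * ‖b t‖ := mul_le_mul_of_nonneg_right h6 hB0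
    rw [← h2, h3] at h4
    have h8 : x * ‖a t‖ ≤ x * ((4 * A + |C|) * (x * T) + ‖b t‖) := by
      have h9 : |C| * x ≤ x * (|C| * (x * T)) := by nlinarith
      have h10 : 4 * A * (x ^ 2 * T) = x * (4 * A * (x * T)) := by ring
      nlinarith
    have h11 := le_of_mul_le_mul_left h8 hx0
    have h12 : (4 * A + |C|) * (x * T) ≤ (4 * A + |C|) * (x ^ 2 * T) := by
      refine mul_le_mul_of_nonneg_left ?_ (by positivity)
      refine mul_le_mul_of_nonneg_right ?_ hT0.le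
      nlinarith
    linarith
  have hyT : y ≤ (1 + |X₀|) * T := by nlinarith
  have hxT : x ^ 2 * T ≤ (1 + |X₀|) ^ (2 * m) * T ^ (2 * m + 1) := by
    have h2 : x ≤ ((1 + |X₀|) * T) ^ m := pow_le_pow_left₀ (by linarith) hyT m
    have h3 : x ^ 2 ≤ (((1 + |X₀|) * T) ^ m) ^ 2 := pow_le_pow_left₀ hx0.le h2 2
    calc x ^ 2 * T ≤ (((1 + |X₀|) * T) ^ m) ^ 2 * T := mul_le_mul_of_nonneg_right h3 hT0.le
      _ = (1 + |X₀|) ^ (2 * m) * T ^ (2 * m + 1) := by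
        rw [mul_pow, mul_pow, ← pow_mul, ← pow_mul, mul_comm m 2, pow_succ T (2 * m), mul_assoc]
  have hfin : ∀ c : ℝ, 0 ≤ c → c * (x ^ 2 * T) ≤ c * (1 + |X₀|) ^ (2 * m) * T ^ (2 * m + 1) := by
    intro c hc
    rw [mul_assoc]
    exact mul_le_mul_of_nonneg_left hxT hc
  constructor
  · have h2 := hfin ((17 * A + 4 * |C|) / c0 + 4 * A + |C|) (by positivity)
    refine le_trans ?_ h2
    have h3 : ((17 * A + 4 * |C|) / c0 + 4 * A + |C|) * (x ^ 2 * T) =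
        (4 * A + |C|) * (x ^ 2 * T) + (17 * A + 4 * |C|) / c0 * (x ^ 2 * T) := by ring
    rw [h3]
    linarith
  · have h2 := hfin ((17 * A + 4 * |C|) / c0 + 4 * A + |C|) (by positivity)
    refine le_trans ?_ h2
    have h3 : ((17 * A + 4 * |C|) / c0 + 4 * A + |C|) * (x ^ 2 * T) =
        (4 * A + |C|) * (x ^ 2 * T) + (17 * A + 4 * |C|) / c0 * (x ^ 2 * T) := by ring
    have h4 : 0 ≤ (4 * A + |C|) * (x ^ 2 * T) := by positivity
    rw [h3]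
    linarith

theorem ab_growth (g : GRH) (σ ε θ C X₀ : ℝ) (h0 : 0 < σ) (h1 : σ < 1 / 2) (hε : 0 < ε) (hε1 : ε < 1) (hθ : θ < 1 - σ)
    (a b : ℝ → ℂ) (hb : Bd σ ε θ C X₀ a b) :
    Measurable a ∧ Measurable b ∧ ∃ (k : ℕ) (B : ℝ), 0 < B ∧ ∀ t : ℝ, ‖a t‖ ≤ B * (1 + |t|) ^ k ∧ ‖b t‖ ≤ B * (1 + |t|) ^ k := by
  have hnat : Filter.Tendsto (fun n : ℕ => ((n + 1 : ℕ) : ℝ)) Filter.atTop Filter.atTop :=
    tendsto_natCast_atTop_atTop.comp (Filter.tendsto_add_atTop_nat 1)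
  have hma : Measurable a := by
    refine measurable_of_tendsto_metrizable (f := fun (n : ℕ) (t : ℝ) => FF ((n + 1 : ℕ) : ℝ) (σ + t * I) / (((n + 1 : ℕ) : ℝ) : ℂ))
      (fun n => ((FF_cont g σ h0 h1 _).div_const _).measurable) ?_
    rw [tendsto_pi_nhds]
    intro t
    exact (Mb_limA σ ε θ C X₀ h0 hε1 hθ a b hb t).comp hnat
  have hmb : Measurable b := by
    refine measurable_of_tendsto_metrizable (f := fun (n : ℕ) (t : ℝ) => (FF ((n + 1 : ℕ) : ℝ) (σ + t * I) - (((n + 1 : ℕ) : ℝ) : ℂ) * a t) /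
      (((n + 1 : ℕ) : ℝ) : ℂ) ^ (1 - (σ + t * I) : ℂ)) (fun n => ?_) ?_
    · refine Measurable.div ((FF_cont g σ h0 h1 _).measurable.sub (hma.const_mul _)) ?_
      refine Continuous.measurable ?_
      refine Continuous.const_cpow (by fun_prop) (Or.inl ?_)
      exact_mod_cast Nat.succ_ne_zero n
    · rw [tendsto_pi_nhds]
      intro t
      exact (Mb_limB σ ε θ C X₀ hε1 hθ a b hb t).comp hnat
  exact ⟨hma, hmb, Mb_bd g σ ε θ C X₀ h0 h1 hε1 hθ a b hb⟩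

end Pool.Agent.Lib.MP_d713a4_nt
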