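import Pool.Agent.Lib.MP_d713a4_nt.Defs

/-!
# The sums over the square divisors: definitions
-/

set_option autoImplicit false

namespace Pool.Agent.Lib.MP_d713a4_nt

open Complex ArithmeticFunction

open Classical in
/-- `μ(d)` for `d` prime to `2 p`, zero otherwise -/
noncomputable def mu (p d : ℕ) : ℂ := if Nat.Coprime d (2 * p) then ((moebius d : ℤ) : ℂ) else 0

/-- `∑ μ(d) (1 - exp(-d/D)) d^(-w)` over the `d` prime to `2 p` -/
noncomputable def Nf (p : ℕ) (D : ℝ) (w : ℂ) : ℂ :=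
  ∑' d : ℕ, mu p d * (1 - Real.exp (-d / D) : ℝ) * (d : ℂ) ^ (-w)

/-- `∑ (m/p) Tf(m q / X)` over all `m` -/
noncomputable def Uf (κ X : ℝ) (p : ℕ) (q : ℝ) : ℂ := ∑' m : ℕ, ch p m * Tf κ (X / p) (m * q / X)

open Classical in
/-- `∑ (m/p) Tf(m q / X)` over odd `m` -/
noncomputable def Vf (κ X : ℝ) (p : ℕ) (q : ℝ) : ℂ := ∑' m : ℕ, if Odd m then ch p m * Tf κ (X / p) (m * q / X) else 0

/-- the part of `St` with the small square divisors -/
noncomputable def P1 (κ X : ℝ) (p : ℕ) (D : ℝ) : ℂ := ∑' d : ℕ, mu p d * (Real.exp (-d / D) : ℝ) * Vf κ X p (d ^ 2)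

/-- the part of `St` with the large square divisors -/
noncomputable def P2 (κ X : ℝ) (p : ℕ) (D : ℝ) : ℂ := ∑' d : ℕ, mu p d * (1 - Real.exp (-d / D) : ℝ) * Vf κ X p (d ^ 2)

end Pool.Agent.Lib.MP_d713a4_nt
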