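import Pool.Agent.Lib.MP_d713a4_nt.Mg
import Pool.Agent.Lib.MP_d713a4_nt.NfD
import Pool.Agent.Lib.MP_d713a4_nt.Ch

/-!
# LEAF Me: the large square divisors as an integral

PROOF.  `∑_(m odd) ch p m m^(-s) = L(s, χ_p) (1 - 2^(-s))` for `Re s > 1` (`ch_mul`, `ch_two`, `LFunction_eq_LSeries`); sum `Tf_mellin` with `u = m d²/X`
over `m` and `d`; all the sums converge absolutely on `Re s = 2` (`gz_decay`).
-/

set_option autoImplicit false

namespace Pool.Agent.Lib.MP_d713a4_nt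

open Complex MeasureTheory

private lemma Me_exp (c : ℝ) (hc : 0 < c) : Integrable (fun v : ℝ => Real.exp (-c * |v|)) := by
  have h1 : IntegrableOn (fun v : ℝ => Real.exp (-c * |v|)) (Set.Ioi 0) :=
    (exp_neg_integrableOn_Ioi 0 hc).congr_fun (fun v hv => by
      have hv' : 0 < v := hv
      show Real.exp (-c * v) = Real.exp (-c * |v|)
      rw [abs_of_pos hv']) measurableSet_Ioi
  have h2 : IntegrableOn (fun v : ℝ => Real.exp (-c * |v|)) (Set.Iic 0) :=
    (integrableOn_exp_mul_Iic hc 0).congr_fun (fun v hv => by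
      have hv' : v ≤ 0 := hv
      show Real.exp (c * v) = Real.exp (-c * |v|)
      rw [abs_of_nonpos hv']
      ring_nf) measurableSet_Iic
  have h3 := h2.union h1
  rwa [Set.Iic_union_Ioi, integrableOn_univ] at h3

private lemma Me_zz (lam : ℝ) : zz lam ≠ 0 := by
  intro h
  have h1 := congrArg Complex.re h
  simp [zz] at h1

private lemma Me_cont (κ lam : ℝ) (hκ : 1 ≤ κ) :
    Continuous (fun v : ℝ => Gamma (2 + v * I + κ) * zz lam ^ (-(2 + v * I + κ))) := by
  refine Continuous.mul ?_ ?_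
  · rw [continuous_iff_continuousAt]
    intro v
    have h1 : ContinuousAt Gamma (2 + v * I + κ) := by
      refine (differentiableAt_Gamma _ fun m h => ?_).continuousAt
      have h2 := congrArg Complex.re h
      simp at h2
      have : (0 : ℝ) ≤ m := Nat.cast_nonneg m
      linarith
    exact ContinuousAt.comp (f := fun v : ℝ => (2 + v * I + κ : ℂ)) h1 (by fun_prop)
  · exact Continuous.const_cpow (by fun_prop) (Or.inl (Me_zz lam))

private lemma Me_int (κ lam : ℝ) (hκ : 1 ≤ κ) :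
    Integrable (fun v : ℝ => Gamma (2 + v * I + κ) * zz lam ^ (-(2 + v * I + κ))) := by
  obtain ⟨C, c, hC, hc, h⟩ := gz_decay lam (2 + κ) (2 + κ) (by linarith) le_rfl
  refine ((Me_exp c hc).const_mul C).mono' (Me_cont κ lam hκ).aestronglyMeasurable (ae_of_all _ fun v => ?_)
  have h1 := h (2 + v * I + κ) (by simp) (by simp)
  simpa using h1

private lemma Me_cpow (a b X : ℝ) (ha : 0 < a) (hb : 0 < b) (hX : 0 < X) (s : ℂ) :
    ((a * b ^ 2 / X : ℝ) : ℂ) ^ (-s) = (a : ℂ) ^ (-s) * (b : ℂ) ^ (-(2 * s)) * (X : ℂ) ^ s := by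
  have h1 : 0 < a * b ^ 2 / X := by positivity
  rw [cpow_def_of_ne_zero (by exact_mod_cast h1.ne'), cpow_def_of_ne_zero (by exact_mod_cast ha.ne'),
    cpow_def_of_ne_zero (by exact_mod_cast hb.ne'), cpow_def_of_ne_zero (by exact_mod_cast hX.ne'),
    ← exp_add, ← exp_add, ← ofReal_log h1.le, ← ofReal_log ha.le, ← ofReal_log hb.le, ← ofReal_log hX.le,
    Real.log_div (by positivity) hX.ne', Real.log_mul ha.ne' (by positivity), Real.log_pow]
  congr 1
  push_cast
  ring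

private lemma Me_norm (a : ℝ) (ha : 0 < a) (v : ℝ) : ‖(a : ℂ) ^ (-(2 + v * I) : ℂ)‖ = (a ^ 2)⁻¹ := by
  rw [norm_cpow_eq_rpow_re_of_pos ha]
  have : (-(2 + v * I) : ℂ).re = -2 := by simp
  rw [this, Real.rpow_neg ha.le]
  norm_cast

private lemma Me_par (f : ℕ → ℂ) (hf : Summable f) :
    (∑' m : ℕ, if Odd m then f m else 0) = ∑' m : ℕ, f m - ∑' k : ℕ, f (2 * k) := by
  have he : Summable (fun k : ℕ => f (2 * k)) :=
    hf.comp_injective (i := fun k : ℕ => 2 * k) (fun a b h => by simpa using h)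
  have ho : Summable (fun k : ℕ => f (2 * k + 1)) :=
    hf.comp_injective (i := fun k : ℕ => 2 * k + 1) (fun a b h => by simpa using h)
  have h1 := tsum_even_add_odd (f := f) he ho
  have e1 : ∀ k : ℕ, (if Odd (2 * k) then f (2 * k) else 0) = 0 := by
    intro k
    rw [if_neg (by simp)]
  have e2 : ∀ k : ℕ, (if Odd (2 * k + 1) then f (2 * k + 1) else 0) = f (2 * k + 1) := by
    intro k
    rw [if_pos (by simp)]
  have s1 : Summable (fun k : ℕ => (if Odd (2 * k) then f (2 * k) else 0)) := by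
    simp only [e1]
    exact summable_zero
  have s2 : Summable (fun k : ℕ => (if Odd (2 * k + 1) then f (2 * k + 1) else 0)) := by
    simp only [e2]
    exact ho
  have h5 := tsum_even_add_odd (f := fun m : ℕ => if Odd m then f m else 0) s1 s2
  rw [← h5, ← h1]
  simp only [e1, e2, tsum_zero, zero_add]
  ring

private lemma Me_sum (p : ℕ) (s : ℂ) (hs : 1 < s.re) : Summable (fun m : ℕ => ch p m * (m : ℂ) ^ (-s)) := by
  refine Summable.of_norm_bounded (g := fun m : ℕ => (m : ℝ) ^ (-s.re)) (Real.summable_nat_rpow.mpr (by linarith)) ?_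
  intro m
  rw [norm_mul]
  rcases Nat.eq_zero_or_pos m with h0 | h0
  · subst h0
    have hs0 : -s ≠ 0 := by
      intro h
      have := congrArg Complex.re h
      simp at this
      linarith
    rw [Nat.cast_zero, zero_cpow hs0, norm_zero, mul_zero]
    positivity
  · rw [norm_natCast_cpow_of_pos h0, neg_re]
    calc ‖ch p m‖ * (m : ℝ) ^ (-s.re) ≤ 1 * (m : ℝ) ^ (-s.re) :=
          mul_le_mul_of_nonneg_right (norm_ch_le p m) (by positivity)
      _ = _ := one_mul _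

private lemma Me_LJ (p : ℕ) (hp : p.Prime) (s : ℂ) (hs : 1 < s.re) :
    LJ p s = ∑' m : ℕ, ch p m * (m : ℂ) ^ (-s) := by
  have : NeZero p := ⟨hp.ne_zero⟩
  rw [LJ_eq, DirichletCharacter.LFunction_eq_LSeries _ hs, LSeries]
  refine tsum_congr fun m => ?_
  rcases Nat.eq_zero_or_pos m with h0 | h0
  · subst h0
    have hs0 : -s ≠ 0 := by
      intro h
      have := congrArg Complex.re h
      simp at this
      linarith
    rw [LSeries.term_zero, Nat.cast_zero, zero_cpow hs0, mul_zero]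
  · rw [LSeries.term_of_ne_zero h0.ne', chi_apply, cpow_neg, div_eq_mul_inv]
    rfl

/-- the odd part of the L-series -/
private lemma Me_L (p : ℕ) (hp : p.Prime) (h8 : p % 8 = 1) (s : ℂ) (hs : 1 < s.re) :
    (∑' m : ℕ, if Odd m then ch p m * (m : ℂ) ^ (-s) else 0) = LJ p s * (1 - (2 : ℂ) ^ (-s)) := by
  rw [Me_par _ (Me_sum p s hs), ← Me_LJ p hp s hs]
  have h2 : (∑' k : ℕ, ch p (2 * k) * ((2 * k : ℕ) : ℂ) ^ (-s)) = (2 : ℂ) ^ (-s) * LJ p s := by
    rw [Me_LJ p hp s hs, ← tsum_mul_left]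
    refine tsum_congr fun k => ?_
    rw [ch_mul, ch_two p hp h8, Nat.cast_mul, Nat.cast_ofNat]
    have h3 : ((2 : ℂ) * (k : ℂ)) ^ (-s) = (2 : ℂ) ^ (-s) * (k : ℂ) ^ (-s) := by
      have := mul_cpow_ofReal_nonneg (a := 2) (b := k) (by norm_num) (Nat.cast_nonneg k) (-s)
      simpa using this
    rw [h3]
    ring
  rw [h2]
  ring

private lemma Me_bdd (g h : ℝ → ℂ) (K : ℝ) (hg : Integrable g) (hh : Continuous h) (hb : ∀ v, ‖h v‖ ≤ K) :
    Integrable (fun v => g v * h v) ∧ ∫ v, ‖g v * h v‖ ≤ K * ∫ v, ‖g v‖ := by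
  have hpt : ∀ v, ‖g v * h v‖ ≤ K * ‖g v‖ := by
    intro v
    rw [norm_mul, mul_comm]
    exact mul_le_mul_of_nonneg_right (hb v) (norm_nonneg _)
  have hI : Integrable (fun v => g v * h v) :=
    (hg.norm.const_mul K).mono' (hg.aestronglyMeasurable.mul hh.aestronglyMeasurable) (ae_of_all _ hpt)
  refine ⟨hI, ?_⟩
  rw [← integral_const_mul]
  exact integral_mono hI.norm (hg.norm.const_mul K) hpt

private lemma Me_cc (b : ℂ) (hb : b ≠ 0) : Continuous (fun v : ℝ => b ^ (2 + v * I : ℂ)) :=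
  Continuous.const_cpow (by fun_prop) (Or.inl hb)

private lemma Me_cn (b : ℂ) (hb : b ≠ 0) : Continuous (fun v : ℝ => b ^ (-(2 + v * I) : ℂ)) :=
  Continuous.const_cpow (by fun_prop) (Or.inl hb)

private lemma Me_c2 (b : ℂ) (hb : b ≠ 0) : Continuous (fun v : ℝ => b ^ (-(2 * (2 + v * I)) : ℂ)) :=
  Continuous.const_cpow (by fun_prop) (Or.inl hb)

private lemma Me_nX (X : ℝ) (hX : 0 < X) (v : ℝ) : ‖(X : ℂ) ^ (2 + v * I : ℂ)‖ = X ^ 2 := by
  rw [norm_cpow_eq_rpow_re_of_pos hX]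
  have : (2 + v * I : ℂ).re = 2 := by simp
  rw [this]
  norm_cast

private lemma Me_nd (a : ℝ) (ha : 0 < a) (v : ℝ) : ‖(a : ℂ) ^ (-(2 * (2 + v * I)) : ℂ)‖ = (a ^ 4)⁻¹ := by
  rw [norm_cpow_eq_rpow_re_of_pos ha]
  have : (-(2 * (2 + v * I)) : ℂ).re = -4 := by
    simp
    norm_num
  rw [this, Real.rpow_neg ha.le]
  norm_cast

private lemma Me_odd (p m : ℕ) (v : ℝ) :
    ‖(if Odd m then ch p m * (m : ℂ) ^ (-(2 + v * I) : ℂ) else 0)‖ ≤ ((m : ℝ) ^ 2)⁻¹ := by
  split_ifs with h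
  · have hm : (0 : ℝ) < m := by
      have : 0 < m := h.pos
      exact_mod_cast this
    rw [norm_mul]
    have h1 := Me_norm (m : ℝ) hm v
    rw [ofReal_natCast] at h1
    rw [h1]
    calc ‖ch p m‖ * ((m : ℝ) ^ 2)⁻¹ ≤ 1 * ((m : ℝ) ^ 2)⁻¹ :=
          mul_le_mul_of_nonneg_right (norm_ch_le p m) (by positivity)
      _ = _ := one_mul _
  · rw [norm_zero]
    positivity

private lemma Me_s2 : Summable (fun m : ℕ => ((m : ℝ) ^ 2)⁻¹) := by
  exact Real.summable_nat_pow_inv.mpr (by norm_num)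

private lemma Me_s4 : Summable (fun m : ℕ => ((m : ℝ) ^ 4)⁻¹) := by
  exact Real.summable_nat_pow_inv.mpr (by norm_num)

private lemma Me_V (κ X : ℝ) (hκ : 1 ≤ κ) (hX : 0 < X) (p : ℕ) (hp : p.Prime) (h8 : p % 8 = 1) (d : ℕ) (hd : 0 < d) :
    Vf κ X p ((d : ℝ) ^ 2) = (1 / (2 * Real.pi) : ℝ) * ∫ v : ℝ,
      (Gamma (2 + v * I + κ) * zz (X / p) ^ (-(2 + v * I + κ))) *
        ((X : ℂ) ^ (2 + v * I) * (d : ℂ) ^ (-(2 * (2 + v * I))) * (LJ p (2 + v * I) * (1 - (2 : ℂ) ^ (-(2 + v * I))))) := by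
  have hd' : (0 : ℝ) < d := by exact_mod_cast hd
  have hdc : (d : ℂ) ≠ 0 := by exact_mod_cast hd.ne'
  have hXc : (X : ℂ) ≠ 0 := by exact_mod_cast hX.ne'
  set G : ℝ → ℂ := fun v => Gamma (2 + v * I + κ) * zz (X / p) ^ (-(2 + v * I + κ)) with hG
  have hGi : Integrable G := Me_int κ (X / p) hκ
  set h : ℕ → ℝ → ℂ := fun m v => (X : ℂ) ^ (2 + v * I : ℂ) * (d : ℂ) ^ (-(2 * (2 + v * I)) : ℂ) *
    (if Odd m then ch p m * (m : ℂ) ^ (-(2 + v * I) : ℂ) else 0) with hh
  have hcont : ∀ m, Continuous (h m) := by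
    intro m
    refine Continuous.mul ((Me_cc _ hXc).mul (Me_c2 _ hdc)) ?_
    by_cases hm : Odd m
    · simp only [if_pos hm]
      refine continuous_const.mul (Me_cn _ ?_)
      exact_mod_cast hm.pos.ne'
    · simp only [if_neg hm]
      exact continuous_const
  have hb : ∀ m v, ‖h m v‖ ≤ X ^ 2 * ((d : ℝ) ^ 4)⁻¹ * ((m : ℝ) ^ 2)⁻¹ := by
    intro m v
    rw [hh]
    simp only
    rw [norm_mul, norm_mul, Me_nX X hX v]
    have h1 := Me_nd (d : ℝ) hd' v
    rw [ofReal_natCast] at h1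
    rw [h1]
    exact mul_le_mul_of_nonneg_left (Me_odd p m v) (by positivity)
  have key : ∀ m : ℕ, (if Odd m then ch p m * Tf κ (X / p) (m * (d : ℝ) ^ 2 / X) else 0) =
      (1 / (2 * Real.pi) : ℝ) * ∫ v : ℝ, G v * h m v := by
    intro m
    by_cases hm : Odd m
    · have hm' : (0 : ℝ) < m := by exact_mod_cast hm.pos
      rw [if_pos hm, Tf_mellin κ (X / p) (m * (d : ℝ) ^ 2 / X) hκ (by positivity), mul_left_comm, ← integral_const_mul]
      congr 1
      refine integral_congr_ae (ae_of_all _ fun v => ?_)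
      simp only [hG, hh, if_pos hm]
      rw [Me_cpow (m : ℝ) (d : ℝ) X hm' hd' hX, ofReal_natCast, ofReal_natCast]
      ring
    · rw [if_neg hm]
      simp only [hh, if_neg hm, mul_zero, integral_zero]
  rw [Vf, tsum_congr key, tsum_mul_left]
  congr 1
  rw [integral_tsum_of_summable_integral_norm (fun m => (Me_bdd G (h m) _ hGi (hcont m) (hb m)).1)]
  · refine integral_congr_ae (ae_of_all _ fun v => ?_)
    simp only [hh]
    rw [tsum_mul_left, tsum_mul_left, Me_L p hp h8 _ (by simp)]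
  · refine Summable.of_nonneg_of_le (fun m => integral_nonneg fun v => norm_nonneg _)
      (fun m => (Me_bdd G (h m) _ hGi (hcont m) (hb m)).2) ?_
    exact (Me_s2.mul_left _).mul_right _

private lemma Me_mu0 (p : ℕ) (hp : p.Prime) : mu p 0 = 0 := by
  rw [mu, if_neg]
  rw [Nat.coprime_zero_left]
  have := hp.two_le
  omega

private lemma Me_mu (p d : ℕ) : ‖mu p d‖ ≤ 1 := by
  rw [mu]
  split_ifs
  · rw [Complex.norm_intCast]
    have h1 : |ArithmeticFunction.moebius d| ≤ 1 := ArithmeticFunction.abs_moebius_le_one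
    exact_mod_cast h1
  · rw [norm_zero]
    norm_num

private lemma Me_exp1 (D : ℝ) (hD : 1 ≤ D) (d : ℕ) : ‖((1 - Real.exp (-d / D) : ℝ) : ℂ)‖ ≤ 1 := by
  have h1 : Real.exp (-d / D) ≤ 1 := by
    rw [Real.exp_le_one_iff]
    have h2 : (0 : ℝ) ≤ d := Nat.cast_nonneg d
    exact div_nonpos_of_nonpos_of_nonneg (by linarith) (by linarith)
  have h3 : 0 < Real.exp (-d / D) := Real.exp_pos _
  rw [norm_real, Real.norm_eq_abs, abs_le]
  constructor <;> linarith

private lemma Me_Lc (p : ℕ) (hp : p.Prime) : Continuous (fun v : ℝ => LJ p (2 + v * I)) := by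
  have : NeZero p := ⟨hp.ne_zero⟩
  rw [continuous_iff_continuousAt]
  intro v
  rw [LJ_eq]
  have h1 : ContinuousAt (DirichletCharacter.LFunction (chi p)) (2 + v * I) := by
    refine (DirichletCharacter.differentiableAt_LFunction _ _ (Or.inl fun h => ?_)).continuousAt
    have h2 := congrArg Complex.re h
    simp at h2
  exact ContinuousAt.comp (f := fun v : ℝ => (2 + v * I : ℂ)) h1 (by fun_prop)

private lemma Me_Lb (p : ℕ) (hp : p.Prime) (h8 : p % 8 = 1) (v : ℝ) :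
    ‖LJ p (2 + v * I) * (1 - (2 : ℂ) ^ (-(2 + v * I)))‖ ≤ ∑' m : ℕ, ((m : ℝ) ^ 2)⁻¹ := by
  rw [← Me_L p hp h8 _ (by simp)]
  exact tsum_of_norm_bounded Me_s2.hasSum (fun m => Me_odd p m v)

theorem P2_eq (κ X D : ℝ) (hκ : 1 ≤ κ) (hX : 0 < X) (hD : 1 ≤ D) (p : ℕ) (hp : p.Prime) (h8 : p % 8 = 1) :
    P2 κ X p D = (1 / (2 * Real.pi) : ℝ) * ∫ v : ℝ, Gamma (2 + v * I + κ) * zz (X / p) ^ (-(2 + v * I + κ)) *
      (X : ℂ) ^ (2 + v * I) * LJ p (2 + v * I) * (1 - (2 : ℂ) ^ (-(2 + v * I))) * Nf p D (2 * (2 + v * I)) := by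
  have hXc : (X : ℂ) ≠ 0 := by exact_mod_cast hX.ne'
  set G : ℝ → ℂ := fun v => Gamma (2 + v * I + κ) * zz (X / p) ^ (-(2 + v * I + κ)) with hG
  have hGi : Integrable G := Me_int κ (X / p) hκ
  set Z : ℝ := ∑' m : ℕ, ((m : ℝ) ^ 2)⁻¹ with hZ
  have hZ0 : 0 ≤ Z := tsum_nonneg fun m => by positivity
  set h : ℕ → ℝ → ℂ := fun d v => (X : ℂ) ^ (2 + v * I : ℂ) * (LJ p (2 + v * I) * (1 - (2 : ℂ) ^ (-(2 + v * I)))) *
    (mu p d * ((1 - Real.exp (-d / D) : ℝ) : ℂ) * (d : ℂ) ^ (-(2 * (2 + v * I)) : ℂ)) with hh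
  have hcont : ∀ d, Continuous (h d) := by
    intro d
    refine Continuous.mul ((Me_cc _ hXc).mul ((Me_Lc p hp).mul (continuous_const.sub (Me_cn _ two_ne_zero)))) ?_
    rcases Nat.eq_zero_or_pos d with hd | hd
    · subst hd
      rw [Me_mu0 p hp]
      simp only [zero_mul]
      exact continuous_const
    · exact continuous_const.mul (Me_c2 _ (by exact_mod_cast hd.ne'))
  have hb : ∀ d v, ‖h d v‖ ≤ X ^ 2 * Z * ((d : ℝ) ^ 4)⁻¹ := by
    intro d v
    rw [hh]
    simp only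
    rcases Nat.eq_zero_or_pos d with hd | hd
    · subst hd
      rw [Me_mu0 p hp, zero_mul, zero_mul, mul_zero, norm_zero]
      positivity
    · have hd' : (0 : ℝ) < d := by exact_mod_cast hd
      rw [norm_mul, norm_mul, Me_nX X hX v, norm_mul (mu p d * _), norm_mul (mu p d)]
      have h1 := Me_nd (d : ℝ) hd' v
      rw [ofReal_natCast] at h1
      rw [h1]
      have h2 : ‖mu p d‖ * ‖((1 - Real.exp (-d / D) : ℝ) : ℂ)‖ ≤ 1 :=
        mul_le_one₀ (Me_mu p d) (norm_nonneg _) (Me_exp1 D hD d)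
      calc X ^ 2 * ‖LJ p (2 + v * I) * (1 - (2 : ℂ) ^ (-(2 + v * I)))‖ *
            (‖mu p d‖ * ‖((1 - Real.exp (-d / D) : ℝ) : ℂ)‖ * ((d : ℝ) ^ 4)⁻¹)
          ≤ X ^ 2 * Z * (1 * ((d : ℝ) ^ 4)⁻¹) := by
            refine mul_le_mul (mul_le_mul_of_nonneg_left (Me_Lb p hp h8 v) (by positivity))
              (mul_le_mul_of_nonneg_right h2 (by positivity)) (by positivity) (by positivity)
        _ = _ := by rw [one_mul]
  have key : ∀ d : ℕ, mu p d * ((1 - Real.exp (-d / D) : ℝ) : ℂ) * Vf κ X p ((d : ℝ) ^ 2) =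
      (1 / (2 * Real.pi) : ℝ) * ∫ v : ℝ, G v * h d v := by
    intro d
    rcases Nat.eq_zero_or_pos d with hd | hd
    · subst hd
      simp only [hh, Me_mu0 p hp, zero_mul, mul_zero, integral_zero]
    · rw [Me_V κ X hκ hX p hp h8 d hd, mul_left_comm, ← integral_const_mul]
      congr 1
      refine integral_congr_ae (ae_of_all _ fun v => ?_)
      simp only [hG, hh]
      ring
  rw [P2, tsum_congr key, tsum_mul_left]
  congr 1
  rw [integral_tsum_of_summable_integral_norm (fun d => (Me_bdd G (h d) _ hGi (hcont d) (hb d)).1)]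
  · refine integral_congr_ae (ae_of_all _ fun v => ?_)
    simp only [hh, hG]
    rw [tsum_mul_left, tsum_mul_left, Nf]
    ring
  · refine Summable.of_nonneg_of_le (fun d => integral_nonneg fun v => norm_nonneg _)
      (fun d => (Me_bdd G (h d) _ hGi (hcont d) (hb d)).2) ?_
    exact (Me_s4.mul_left _).mul_right _

end Pool.Agent.Lib.MP_d713a4_nt
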