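import Pool.Agent.Lib.MP_d713a4_nt.Ga
import Pool.Agent.Lib.MP_d713a4_nt.Fa

/-!
# LEAF Mg: the Mellin transform of `Tf`

PROOF.  `gz_decay`: choose `θ` with `arctan(6 π λ) < θ < π/2` (`λ` arbitrary real), `θ ≥ 0`; `gam_decay` and `norm_zz_cpow`:
at most `C exp(-(θ - arctan(6 π λ)) |v|)` for `v ≥ 0`, and for `v ≤ 0` at most `C exp(-(θ + arctan(6πλ)) |v|)` (take `θ > |arctan(6πλ)|`).
`Tf_mellin`: `∫_0^∞ Tf(u) u^(s-1) du = Γ(s+κ) z^(-(s+κ))` (`Complex.integral_cpow_mul_exp_neg_mul_Ioi`); `mellin_inversion` on `Re s = 2`.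
-/

set_option autoImplicit false

namespace Pool.Agent.Lib.MP_d713a4_nt

open Complex MeasureTheory

private theorem Mg_int_exp (c : ℝ) (hc : 0 < c) : Integrable fun v : ℝ => Real.exp (-c * |v|) := by
  rw [← integrableOn_univ, ← Set.Iic_union_Ioi (a := (0 : ℝ)), integrableOn_union]
  constructor
  · refine (integrableOn_exp_mul_Iic hc 0).congr_fun (fun v hv => ?_) measurableSet_Iic
    simp only
    rw [abs_of_nonpos hv, neg_mul_neg]
  · refine (integrableOn_exp_mul_Ioi (neg_lt_zero.mpr hc) 0).congr_fun (fun v hv => ?_) measurableSet_Ioi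
    simp only
    rw [abs_of_pos hv]

private theorem Mg_norm (a r : ℂ) (t : ℝ) (ht : 0 < t) :
    ‖(t : ℂ) ^ (a - 1) * cexp (-(r * t))‖ = t ^ (a.re - 1) * Real.exp (-r.re * t) := by
  rw [norm_mul, norm_cpow_eq_rpow_re_of_pos ht, Complex.norm_exp]
  simp

private theorem Mg_meas (a r : ℂ) :
    AEStronglyMeasurable (fun t : ℝ => (t : ℂ) ^ (a - 1) * cexp (-(r * t))) (volume.restrict (Set.Ioi 0)) := by
  refine ContinuousOn.aestronglyMeasurable ?_ measurableSet_Ioi
  refine ContinuousOn.mul (fun t ht => ?_) (by fun_prop)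
  exact (continuousAt_ofReal_cpow_const t (a - 1) (Or.inr (ne_of_gt ht))).continuousWithinAt

private theorem Mg_real (s b : ℝ) (hs : -1 < s) (hb : 0 < b) :
    IntegrableOn (fun x : ℝ => x ^ s * Real.exp (-b * x)) (Set.Ioi 0) := by
  have h := integrableOn_rpow_mul_exp_neg_mul_rpow hs one_pos hb
  simpa only [Real.rpow_one] using h

private theorem Mg_conv (a r : ℂ) (ha : 0 < a.re) (hr : 0 < r.re) :
    IntegrableOn (fun t : ℝ => (t : ℂ) ^ (a - 1) * cexp (-(r * t))) (Set.Ioi 0) := by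
  refine (Mg_real (a.re - 1) r.re (by linarith) hr).mono' (Mg_meas a r) ?_
  refine (ae_restrict_iff' measurableSet_Ioi).mpr (Filter.Eventually.of_forall fun t ht => ?_)
  rw [Mg_norm a r t ht]

private theorem Mg_gamma (a r : ℂ) (ha : 0 < a.re) (hr : 0 < r.re) :
    ∫ t : ℝ in Set.Ioi 0, (t : ℂ) ^ (a - 1) * cexp (-(r * t)) = r ^ (-a) * Gamma a := by
  have hopen : IsOpen {z : ℂ | 0 < z.re} := isOpen_lt continuous_const continuous_re
  have hF : DifferentiableOn ℂ (fun z : ℂ => ∫ t : ℝ in Set.Ioi 0, (t : ℂ) ^ (a - 1) * cexp (-(z * t)))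
      {z : ℂ | 0 < z.re} := by
    intro z hz
    have hz : 0 < z.re := hz
    have key := hasDerivAt_integral_of_dominated_loc_of_deriv_le (μ := volume.restrict (Set.Ioi (0 : ℝ)))
      (F := fun (z : ℂ) (t : ℝ) => (t : ℂ) ^ (a - 1) * cexp (-(z * t)))
      (F' := fun (z : ℂ) (t : ℝ) => (t : ℂ) ^ (a - 1) * (cexp (-(z * t)) * -(t : ℂ)))
      (x₀ := z) (s := Metric.ball z (z.re / 2)) (bound := fun t => t ^ a.re * Real.exp (-(z.re / 2) * t))
      (Metric.ball_mem_nhds z (by positivity)) (Filter.Eventually.of_forall fun w => Mg_meas a w)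
      (Mg_conv a z ha hz) ?_ ?_ (Mg_real a.re (z.re / 2) (by linarith) (by positivity)) ?_
    · exact key.2.differentiableAt.differentiableWithinAt
    · have h1 := (Mg_meas a z).mul ((continuous_ofReal.neg).aestronglyMeasurable (μ := volume.restrict (Set.Ioi (0 : ℝ))))
      refine h1.congr (Filter.Eventually.of_forall fun t => ?_)
      simp only [Pi.mul_apply, Pi.neg_apply]
      ring
    · refine (ae_restrict_iff' measurableSet_Ioi).mpr (Filter.Eventually.of_forall fun t ht w hw => ?_)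
      have ht : 0 < t := ht
      have h1 : z.re / 2 ≤ w.re := by
        have h2 := abs_re_le_norm (w - z)
        have h3 : ‖w - z‖ < z.re / 2 := by simpa [dist_eq] using hw
        have h4 := (abs_le.mp (h2.trans h3.le)).1
        rw [sub_re] at h4
        linarith
      rw [← mul_assoc, norm_mul, Mg_norm a w t ht, norm_neg, norm_real, Real.norm_of_nonneg ht.le]
      have h5 : t ^ a.re = t ^ (a.re - 1) * t := by
        rw [← Real.rpow_add_one ht.ne', sub_add_cancel]
      rw [h5]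
      have h6 : Real.exp (-w.re * t) ≤ Real.exp (-(z.re / 2) * t) := by
        apply Real.exp_le_exp.mpr
        nlinarith
      calc t ^ (a.re - 1) * Real.exp (-w.re * t) * t = (t ^ (a.re - 1) * t) * Real.exp (-w.re * t) := by ring
        _ ≤ _ := mul_le_mul_of_nonneg_left h6 (by positivity)
    · refine Filter.Eventually.of_forall fun t w _ => ?_
      have h1 : HasDerivAt (fun w : ℂ => -(w * t)) (-(t : ℂ)) w := by
        have h0 := ((hasDerivAt_id w).mul_const (t : ℂ)).neg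
        rw [one_mul] at h0
        exact h0
      exact (h1.cexp).const_mul _
  have hG : DifferentiableOn ℂ (fun z : ℂ => z ^ (-a) * Gamma a) {z : ℂ | 0 < z.re} := by
    intro z hz
    have h1 : z ∈ slitPlane := Or.inl hz
    exact ((differentiableAt_id.cpow_const h1).mul_const _).differentiableWithinAt
  have hpre : IsPreconnected {z : ℂ | 0 < z.re} := (convex_halfSpace_re_gt 0).isPreconnected
  have h := (hF.analyticOnNhd hopen).eqOn_of_preconnected_of_frequently_eq (hG.analyticOnNhd hopen) hpre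
    (z₀ := 1) (by simp) ?_
  · exact h hr
  · have h1 : ∃ᶠ x : ℝ in nhdsWithin (1 : ℝ) {1}ᶜ, 0 < x := by
      have h2 : ∀ᶠ x : ℝ in nhdsWithin (1 : ℝ) {1}ᶜ, 0 < x :=
        mem_nhdsWithin_of_mem_nhds (Ioi_mem_nhds one_pos)
      exact h2.frequently
    have h3 : Filter.Tendsto (fun x : ℝ => (x : ℂ)) (nhdsWithin (1 : ℝ) {1}ᶜ) (nhdsWithin (1 : ℂ) {1}ᶜ) := by
      refine tendsto_nhdsWithin_iff.mpr ⟨?_, ?_⟩
      · exact (continuous_ofReal.tendsto' 1 1 ofReal_one).mono_left nhdsWithin_le_nhds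
      · filter_upwards [self_mem_nhdsWithin] with x hx
        simpa using hx
    refine h3.frequently (h1.mono fun x hx => ?_)
    rw [Complex.integral_cpow_mul_exp_neg_mul_Ioi ha hx, one_div, inv_cpow _ _ (by
      rw [arg_ofReal_of_nonneg hx.le]
      exact Real.pi_pos.ne), cpow_neg]

private theorem Mg_zz_re (lam : ℝ) : (zz lam).re = 1 := by
  simp [zz]

theorem gz_decay (lam x y : ℝ) (hx : 0 < x) (hxy : x ≤ y) : ∃ C c : ℝ, 0 < C ∧ 0 < c ∧ ∀ s : ℂ, x ≤ s.re → s.re ≤ y →
    ‖Gamma s * zz lam ^ (-s)‖ ≤ C * Real.exp (-c * |s.im|) := by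
  set α := Real.arctan (6 * Real.pi * lam) with hα
  have hα1 : |α| < Real.pi / 2 := abs_lt.mpr ⟨Real.neg_pi_div_two_lt_arctan _, Real.arctan_lt_pi_div_two _⟩
  have hπ := Real.pi_pos
  set θ := (|α| + Real.pi / 2) / 2 with hθ
  have hα0 := abs_nonneg α
  have hθ0 : 0 ≤ θ := by positivity
  have hθ1 : θ < Real.pi / 2 := by rw [hθ]; linarith
  have hθ2 : 0 < θ - |α| := by rw [hθ]; linarith
  have hcos : 0 < Real.cos θ := Real.cos_pos_of_mem_Ioo ⟨by linarith, hθ1⟩
  have hcos1 : Real.cos θ ≤ 1 := Real.cos_le_one θ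
  have hcont : ContinuousOn Real.Gamma (Set.Icc x y) := by
    intro t ht
    have ht0 : 0 < t := hx.trans_le ht.1
    refine (Real.differentiableAt_Gamma fun m => ?_).continuousAt.continuousWithinAt
    have : (0 : ℝ) ≤ m := Nat.cast_nonneg m
    linarith
  obtain ⟨G, hG⟩ := (isCompact_Icc.image_of_continuousOn hcont).bddAbove
  have hGs : ∀ t, x ≤ t → t ≤ y → Real.Gamma t ≤ G := fun t h1 h2 => hG ⟨t, ⟨h1, h2⟩, rfl⟩
  have hG0 : 0 < G := (Real.Gamma_pos_of_pos hx).trans_le (hGs x le_rfl hxy)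
  refine ⟨G * Real.cos θ ^ (-y), θ - |α|, by positivity, hθ2, fun s h1 h2 => ?_⟩
  have hs0 : 0 < s.re := hx.trans_le h1
  have hz1 : 1 ≤ ‖zz lam‖ := by
    have h3 := re_le_norm (zz lam)
    rwa [Mg_zz_re] at h3
  have h4 := gam_decay θ hθ0 hθ1 s hs0
  have h5 : Real.cos θ ^ (-s.re) ≤ Real.cos θ ^ (-y) :=
    Real.rpow_le_rpow_of_exponent_ge hcos hcos1 (by linarith)
  have h6 : ‖zz lam‖ ^ (-s.re) ≤ 1 := Real.rpow_le_one_of_one_le_of_nonpos hz1 (by linarith)
  have h7 : Real.exp (s.im * α) ≤ Real.exp (|α| * |s.im|) := by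
    apply Real.exp_le_exp.mpr
    rw [mul_comm |α|, ← abs_mul]
    exact le_abs_self _
  rw [norm_mul, norm_zz_cpow]
  have h8 : ‖Gamma s‖ ≤ G * Real.cos θ ^ (-y) * Real.exp (-θ * |s.im|) := by
    refine h4.trans (mul_le_mul_of_nonneg_right ?_ (Real.exp_pos _).le)
    exact mul_le_mul (hGs _ h1 h2) h5 (by positivity) hG0.le
  have h9 : ‖zz lam‖ ^ (-s.re) * Real.exp (s.im * α) ≤ 1 * Real.exp (|α| * |s.im|) :=
    mul_le_mul h6 h7 (Real.exp_pos _).le zero_le_one
  calc ‖Gamma s‖ * (‖zz lam‖ ^ (-s.re) * Real.exp (s.im * α))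
      ≤ (G * Real.cos θ ^ (-y) * Real.exp (-θ * |s.im|)) * (1 * Real.exp (|α| * |s.im|)) :=
        mul_le_mul h8 h9 (by positivity) (by positivity)
    _ = G * Real.cos θ ^ (-y) * Real.exp (-(θ - |α|) * |s.im|) := by
        rw [one_mul, mul_assoc, ← Real.exp_add]
        congr 2
        ring

private theorem Mg_Tf (κ lam t : ℝ) (s : ℂ) (ht : 0 < t) :
    (t : ℂ) ^ (s - 1) • Tf κ lam t = (t : ℂ) ^ (s + κ - 1) * cexp (-(zz lam * t)) := by
  have h1 : (t : ℂ) ≠ 0 := ofReal_ne_zero.mpr ht.ne'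
  rw [Tf, if_pos ht, smul_eq_mul, ← mul_assoc, ofReal_cpow ht.le, ← cpow_add _ _ h1, neg_mul]
  congr 2
  ring

private theorem Mg_mel (κ lam : ℝ) (s : ℂ) (hs : 0 < s.re + κ) :
    mellin (Tf κ lam) s = Gamma (s + κ) * zz lam ^ (-(s + κ)) := by
  rw [mellin, setIntegral_congr_fun measurableSet_Ioi (fun t ht => Mg_Tf κ lam t s ht),
    Mg_gamma (s + κ) (zz lam) (by simpa using hs) (by rw [Mg_zz_re]; exact one_pos), mul_comm]

theorem Tf_mellin (κ lam u : ℝ) (hκ : 1 ≤ κ) (hu : 0 < u) :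
    Tf κ lam u = (1 / (2 * Real.pi) : ℝ) * ∫ v : ℝ, Gamma (2 + v * I + κ) * zz lam ^ (-(2 + v * I + κ)) * (u : ℂ) ^ (-(2 + v * I)) := by
  have hmel : ∀ v : ℝ, mellin (Tf κ lam) (((2 : ℝ) : ℂ) + v * I) =
      Gamma (2 + v * I + κ) * zz lam ^ (-(2 + v * I + κ)) := by
    intro v
    rw [Mg_mel κ lam _ (by simp; linarith)]
    norm_num
  have hconv : MellinConvergent (Tf κ lam) ((2 : ℝ) : ℂ) := by
    rw [MellinConvergent]
    refine (Mg_conv (((2 : ℝ) : ℂ) + κ) (zz lam) (by simp; linarith) (by rw [Mg_zz_re]; exact one_pos)).congr_fun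
      (fun t ht => (Mg_Tf κ lam t _ ht).symm) measurableSet_Ioi
  have hvert : VerticalIntegrable (mellin (Tf κ lam)) 2 := by
    rw [VerticalIntegrable]
    obtain ⟨C, c, hC, hc, h⟩ := gz_decay lam (2 + κ) (2 + κ) (by linarith) le_rfl
    have hcont : Continuous fun v : ℝ => Gamma (2 + v * I + κ) * zz lam ^ (-(2 + v * I + κ) : ℂ) := by
      refine Continuous.mul ?_ ?_
      · rw [continuous_iff_continuousAt]
        intro v
        have h1 : ContinuousAt Gamma (2 + v * I + κ) := by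
          refine (differentiableAt_Gamma _ fun m hm => ?_).continuousAt
          have h2 := congrArg re hm
          simp at h2
          have : (0 : ℝ) ≤ m := Nat.cast_nonneg m
          linarith
        exact ContinuousAt.comp (f := fun v : ℝ => (2 + v * I + κ : ℂ)) h1 (by fun_prop)
      · refine Continuous.const_cpow (by fun_prop) (Or.inl ?_)
        intro h0
        have h2 := congrArg re h0
        rw [Mg_zz_re] at h2
        simp at h2
    have h3 : (fun v : ℝ => mellin (Tf κ lam) (((2 : ℝ) : ℂ) + v * I)) =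
        fun v : ℝ => Gamma (2 + v * I + κ) * zz lam ^ (-(2 + v * I + κ) : ℂ) := funext hmel
    rw [h3]
    refine ((Mg_int_exp c hc).const_mul C).mono' hcont.aestronglyMeasurable (Filter.Eventually.of_forall fun v => ?_)
    have h4 := h (2 + v * I + κ) (by simp) (by simp)
    simpa using h4
  have hTc : ContinuousAt (Tf κ lam) u := (Tf_deriv κ lam u hu).continuousAt
  have key := mellinInv_mellin_eq 2 (Tf κ lam) hu hconv hvert hTc
  rw [← key, mellinInv, ← Complex.coe_smul, smul_eq_mul]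
  congr 1
  refine integral_congr_ae (Filter.Eventually.of_forall fun v => ?_)
  simp only
  rw [hmel, smul_eq_mul, mul_comm]
  norm_num

end Pool.Agent.Lib.MP_d713a4_nt
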