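import Pool.Agent.Lib.MP_d713a4_nt.Nc
import Pool.Agent.Lib.MP_d713a4_nt.Cp

/-!
# LEAF Na: the integral representation of `Nf`

PROOF.  `mu_exp`; the function `H u = Γ(u + 1) D^u Z(w + u) / ((1 - 2^(-w-u)) (1 - p^(-w-u)))` is differentiable and `≤ C/(1 + Im²)` in the strip
`-1/2 - h ≤ Re u ≤ 2` (`gam_decay` for `Γ(u + 1)`, `Re (u + 1) ≥ 1/2 - h > 0`; `hZ2`; `|1 - 2^(-s)|, |1 - p^(-s)| ≥ 1 - 2^(-1/2)`, `Re (w + u) ≥ 1/2 + h`), `Γ(u) = Γ(u+1)/u`, `vline_pole`: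
`(1/2π) ∫_(Re u = 2) H/u = (1/2π) ∫_(Re u = -1/2-h) H/u + H 0`, and `H 0 = ∑ mu p d d^(-w)` (`mu_series`, `hZ1`).  `Nf = ∑ mu p d d^(-w) - ∑ mu p d exp(-d/D) d^(-w)`.
-/

set_option autoImplicit false

namespace Pool.Agent.Lib.MP_d713a4_nt

open Complex

/-- the integrand without the pole -/
private noncomputable def Na_H (Z : ℂ → ℂ) (p : ℕ) (D : ℝ) (w u : ℂ) : ℂ :=
  Gamma (u + 1) * (D : ℂ) ^ u * Z (w + u) / ((1 - (2 : ℂ) ^ (-(w + u))) * (1 - (p : ℂ) ^ (-(w + u))))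

private theorem Na_low {n : ℕ} (hn : 2 ≤ n) (s : ℂ) (hs : 1 / 2 ≤ s.re) : 1 / 4 ≤ ‖1 - (n : ℂ) ^ (-s)‖ := by
  have hn0 : 0 < n := by omega
  have h1 : ‖(n : ℂ) ^ (-s)‖ = (n : ℝ) ^ (-s.re) := by
    rw [Complex.norm_natCast_cpow_of_pos hn0, Complex.neg_re]
  have hn1 : (1 : ℝ) ≤ n := by exact_mod_cast hn0
  have hn2 : (2 : ℝ) ≤ n := by exact_mod_cast hn
  have h2 : (n : ℝ) ^ (-s.re) ≤ (n : ℝ) ^ (-(1 / 2) : ℝ) :=
    Real.rpow_le_rpow_of_exponent_le hn1 (by linarith)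
  have h3 : (n : ℝ) ^ (-(1 / 2) : ℝ) ≤ (2 : ℝ) ^ (-(1 / 2) : ℝ) :=
    Real.rpow_le_rpow_of_nonpos (by norm_num) hn2 (by norm_num)
  have h4 : (2 : ℝ) ^ (-(1 / 2) : ℝ) ≤ 3 / 4 := by
    rw [Real.rpow_neg (by norm_num), ← Real.sqrt_eq_rpow]
    have h5 : (4 / 3 : ℝ) ≤ Real.sqrt 2 := Real.le_sqrt_of_sq_le (by norm_num)
    rw [inv_le_comm₀ (by positivity) (by norm_num)]
    linarith
  have h5 : (1 : ℝ) - ‖(n : ℂ) ^ (-s)‖ ≤ ‖1 - (n : ℂ) ^ (-s)‖ := by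
    have := norm_sub_norm_le (1 : ℂ) ((n : ℂ) ^ (-s))
    rwa [norm_one] at this
  rw [h1] at h5
  linarith

private theorem Na_low2 (s : ℂ) (hs : 1 / 2 ≤ s.re) : 1 / 4 ≤ ‖1 - (2 : ℂ) ^ (-s)‖ := by
  have := Na_low (n := 2) le_rfl s hs
  exact_mod_cast this

private theorem Na_ne {n : ℕ} (hn : 2 ≤ n) (s : ℂ) (hs : 1 / 2 ≤ s.re) : 1 - (n : ℂ) ^ (-s) ≠ 0 := by
  intro h
  have := Na_low hn s hs
  rw [h, norm_zero] at this
  linarith

private theorem Na_poly (c x : ℝ) (hc : 1 ≤ c) (hx : 0 ≤ x) : (x + c) * (1 + x ^ 2) ≤ 27 * c * Real.exp x := by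
  have h1 : x / 3 + 1 ≤ Real.exp (x / 3) := Real.add_one_le_exp _
  have h2 : (x / 3 + 1) ^ 3 ≤ Real.exp (x / 3) ^ 3 := pow_le_pow_left₀ (by positivity) h1 3
  have h3 : Real.exp (x / 3) ^ 3 = Real.exp x := by
    rw [← Real.exp_nat_mul]
    congr 1
    push_cast
    ring
  rw [h3] at h2
  have h4 : (x + c) * (1 + x ^ 2) ≤ c * (1 + x) ^ 3 := by
    have h5 : x + c ≤ c * (1 + x) := by nlinarith
    have h6 : 1 + x ^ 2 ≤ (1 + x) ^ 2 := by nlinarith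
    calc (x + c) * (1 + x ^ 2) ≤ (c * (1 + x)) * (1 + x) ^ 2 := mul_le_mul h5 h6 (by positivity) (by positivity)
      _ = _ := by ring
  have h7 : (1 + x) ^ 3 ≤ 27 * (x / 3 + 1) ^ 3 := by
    have h8 : 1 + x ≤ 3 * (x / 3 + 1) := by linarith
    calc (1 + x) ^ 3 ≤ (3 * (x / 3 + 1)) ^ 3 := pow_le_pow_left₀ (by positivity) h8 3
      _ = _ := by ring
  calc (x + c) * (1 + x ^ 2) ≤ c * (1 + x) ^ 3 := h4
    _ ≤ c * (27 * Real.exp x) := mul_le_mul_of_nonneg_left (h7.trans (by linarith)) (by linarith)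
    _ = _ := by ring

private theorem Na_mu (p d : ℕ) : ‖mu p d‖ ≤ 1 := by
  unfold mu
  split_ifs
  · have h1 := ArithmeticFunction.abs_moebius_le_one (n := d)
    rw [Complex.norm_intCast]
    exact_mod_cast h1
  · simp

private theorem Na_mu0 (p : ℕ) (hp : p.Prime) : mu p 0 = 0 := by
  unfold mu
  rw [if_neg]
  rw [Nat.coprime_zero_left]
  have := hp.two_le
  omega

private theorem Na_sum (p : ℕ) (hp : p.Prime) (w : ℂ) (hw : 1 < w.re) (c : ℕ → ℝ) (hc : ∀ d, |c d| ≤ 1) :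
    Summable fun d : ℕ => mu p d * (c d : ℝ) * (d : ℂ) ^ (-w) := by
  refine Summable.of_norm_bounded (g := fun d : ℕ => (d : ℝ) ^ (-w.re)) (Real.summable_nat_rpow.2 (by linarith)) ?_
  intro d
  rcases Nat.eq_zero_or_pos d with rfl | hd
  · rw [Na_mu0 p hp, zero_mul, zero_mul, norm_zero]
    positivity
  · rw [norm_mul, norm_mul, Complex.norm_natCast_cpow_of_pos hd, Complex.neg_re, Complex.norm_real, Real.norm_eq_abs]
    have h1 : ‖mu p d‖ * |c d| ≤ 1 := mul_le_one₀ (Na_mu p d) (abs_nonneg _) (hc d)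
    have h2 : (0 : ℝ) ≤ (d : ℝ) ^ (-w.re) := by positivity
    calc ‖mu p d‖ * |c d| * (d : ℝ) ^ (-w.re) ≤ 1 * (d : ℝ) ^ (-w.re) := mul_le_mul_of_nonneg_right h1 h2
      _ = _ := one_mul _

private theorem Na_diff (Z : ℂ → ℂ) (hZ : DifferentiableOn ℂ Z {s | 1 / 2 < s.re}) (h : ℝ) (h0 : 0 < h) (h1 : h < 1 / 4)
    (p : ℕ) (hp : p.Prime) (D : ℝ) (hD : 1 ≤ D) (w : ℂ) (hw : w.re = 1 + 2 * h) (u : ℂ) (hu : -1 / 2 - h ≤ u.re) :
    DifferentiableAt ℂ (Na_H Z p D w) u := by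
  have hs : 1 / 2 < (w + u).re := by
    rw [Complex.add_re, hw]
    linarith
  have hD0 : (D : ℂ) ≠ 0 := by
    rw [Complex.ofReal_ne_zero]
    linarith
  have e1 : DifferentiableAt ℂ (fun u : ℂ => Gamma (u + 1)) u := by
    have h2 : DifferentiableAt ℂ Gamma (u + 1) := by
      refine differentiableAt_Gamma _ fun m hm => ?_
      have h3 := congrArg Complex.re hm
      rw [Complex.add_re, Complex.one_re, Complex.neg_re, Complex.natCast_re] at h3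
      have h4 : (0 : ℝ) ≤ m := Nat.cast_nonneg m
      linarith
    exact h2.comp u (by fun_prop : DifferentiableAt ℂ (fun u : ℂ => u + 1) u)
  have e2 : DifferentiableAt ℂ (fun u : ℂ => (D : ℂ) ^ u) u :=
    (differentiableAt_id).const_cpow (Or.inl hD0)
  have e3 : DifferentiableAt ℂ (fun u : ℂ => Z (w + u)) u := by
    have h2 : DifferentiableAt ℂ Z (w + u) :=
      (hZ _ hs).differentiableAt ((isOpen_lt continuous_const Complex.continuous_re).mem_nhds hs)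
    exact h2.comp u (by fun_prop : DifferentiableAt ℂ (fun u : ℂ => w + u) u)
  have e4 : ∀ n : ℕ, 2 ≤ n → DifferentiableAt ℂ (fun u : ℂ => 1 - (n : ℂ) ^ (-(w + u))) u := by
    intro n hn
    have hn0 : (n : ℂ) ≠ 0 := by
      rw [Nat.cast_ne_zero]
      omega
    refine (differentiableAt_const _).sub ?_
    exact DifferentiableAt.const_cpow (by fun_prop) (Or.inl hn0)
  have e5 : DifferentiableAt ℂ (fun u : ℂ => 1 - (2 : ℂ) ^ (-(w + u))) u := by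
    have := e4 2 le_rfl
    exact_mod_cast this
  unfold Na_H
  refine ((e1.mul e2).mul e3).div (e5.mul (e4 p hp.two_le)) (mul_ne_zero ?_ (Na_ne hp.two_le _ hs.le))
  have := Na_ne (n := 2) le_rfl _ hs.le
  exact_mod_cast this

private theorem Na_bound (Z : ℂ → ℂ) (h A : ℝ) (h0 : 0 < h) (h1 : h < 1 / 4)
    (hZ2 : ∀ s : ℂ, 1 / 2 + h ≤ s.re → ‖Z s‖ ≤ A * (|s.im| + 2) ^ (1 : ℝ))
    (p : ℕ) (hp : p.Prime) (D : ℝ) (hD : 1 ≤ D) (w : ℂ) (hw : w.re = 1 + 2 * h) :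
    ∃ C : ℝ, ∀ u : ℂ, -1 / 2 - h ≤ u.re → u.re ≤ 2 → ‖Na_H Z p D w u‖ ≤ C / (1 + u.im ^ 2) := by
  have hA : 0 ≤ A := by
    have h2 := hZ2 1 (by rw [Complex.one_re]; linarith)
    rw [Real.rpow_one, Complex.one_im, abs_zero, zero_add] at h2
    have := (norm_nonneg (Z 1)).trans h2
    linarith
  obtain ⟨G, hG⟩ := (isCompact_Icc (a := 1 / 2 - h) (b := (3 : ℝ))).exists_bound_of_continuousOn (f := Real.Gamma) (by
    intro x hx
    refine (Real.differentiableAt_Gamma fun m hm => ?_).continuousAt.continuousWithinAt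
    have h4 : (0 : ℝ) ≤ m := Nat.cast_nonneg m
    have := hx.1
    linarith)
  have hG0 : 0 ≤ G := (norm_nonneg _).trans (hG 1 ⟨by linarith, by norm_num⟩)
  have hcos : 0 < Real.cos 1 := Real.cos_one_pos
  set K3 : ℝ := (Real.cos 1) ^ (-3 : ℝ) with hK3
  have hK30 : 0 ≤ K3 := by positivity
  set c : ℝ := |w.im| + 2 with hc
  have hc1 : 1 ≤ c := by
    have := abs_nonneg w.im
    linarith
  refine ⟨16 * (G * K3 * D ^ 2 * A * (27 * c)), fun u hu1 hu2 => ?_⟩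
  have hs : 1 / 2 + h ≤ (w + u).re := by
    rw [Complex.add_re, hw]
    linarith
  have hs2 : 1 / 2 ≤ (w + u).re := by linarith
  have b1 : ‖Gamma (u + 1)‖ ≤ G * K3 * Real.exp (-|u.im|) := by
    have hre : (u + 1).re = u.re + 1 := by rw [Complex.add_re, Complex.one_re]
    have him : (u + 1).im = u.im := by rw [Complex.add_im, Complex.one_im, add_zero]
    have h2 := gam_decay 1 zero_le_one (by linarith [Real.pi_gt_three]) (u + 1) (by rw [hre]; linarith)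
    rw [hre, him, neg_mul, one_mul] at h2
    have h3 : Real.Gamma (u.re + 1) ≤ G :=
      (le_abs_self _).trans (hG _ ⟨by linarith, by linarith⟩)
    have h4 : (Real.cos 1) ^ (-(u.re + 1)) ≤ K3 :=
      Real.rpow_le_rpow_of_exponent_ge hcos (Real.cos_le_one 1) (by linarith)
    refine h2.trans (mul_le_mul_of_nonneg_right (mul_le_mul h3 h4 (by positivity) hG0) (Real.exp_pos _).le)
  have b2 : ‖(D : ℂ) ^ u‖ ≤ D ^ 2 := by
    rw [Complex.norm_cpow_eq_rpow_re_of_pos (by linarith)]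
    calc D ^ u.re ≤ D ^ (2 : ℝ) := Real.rpow_le_rpow_of_exponent_le hD hu2
      _ = D ^ 2 := by norm_cast
  have b3 : ‖Z (w + u)‖ ≤ A * (|u.im| + c) := by
    have h2 := hZ2 (w + u) hs
    rw [Real.rpow_one] at h2
    refine h2.trans (mul_le_mul_of_nonneg_left ?_ hA)
    rw [Complex.add_im, hc]
    have := abs_add_le w.im u.im
    linarith
  have b4 := Na_low2 (w + u) hs2
  have b5 := Na_low hp.two_le (w + u) hs2
  unfold Na_H
  rw [norm_div, norm_mul, norm_mul, norm_mul]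
  have b6 : 1 / 16 ≤ ‖1 - (2 : ℂ) ^ (-(w + u))‖ * ‖1 - (p : ℂ) ^ (-(w + u))‖ := by
    calc (1 / 16 : ℝ) = 1 / 4 * (1 / 4) := by norm_num
      _ ≤ _ := mul_le_mul b4 b5 (by norm_num) (norm_nonneg _)
  have b7 : ‖Gamma (u + 1)‖ * ‖(D : ℂ) ^ u‖ * ‖Z (w + u)‖ ≤
      G * K3 * Real.exp (-|u.im|) * D ^ 2 * (A * (|u.im| + c)) :=
    mul_le_mul (mul_le_mul b1 b2 (norm_nonneg _) (by positivity)) b3 (norm_nonneg _) (by positivity)
  have b8 : (|u.im| + c) * (1 + u.im ^ 2) ≤ 27 * c * Real.exp |u.im| := by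
    have := Na_poly c |u.im| hc1 (abs_nonneg _)
    rwa [sq_abs] at this
  have b9 : 0 < 1 + u.im ^ 2 := by positivity
  rw [le_div_iff₀ b9, div_mul_eq_mul_div, div_le_iff₀ (lt_of_lt_of_le (by norm_num) b6)]
  calc ‖Gamma (u + 1)‖ * ‖(D : ℂ) ^ u‖ * ‖Z (w + u)‖ * (1 + u.im ^ 2) ≤
        G * K3 * Real.exp (-|u.im|) * D ^ 2 * (A * (|u.im| + c)) * (1 + u.im ^ 2) :=
        mul_le_mul_of_nonneg_right b7 b9.le
    _ = G * K3 * D ^ 2 * A * Real.exp (-|u.im|) * ((|u.im| + c) * (1 + u.im ^ 2)) := by ring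
    _ ≤ G * K3 * D ^ 2 * A * Real.exp (-|u.im|) * (27 * c * Real.exp |u.im|) :=
        mul_le_mul_of_nonneg_left b8 (by positivity)
    _ = G * K3 * D ^ 2 * A * (27 * c) * (Real.exp (-|u.im|) * Real.exp |u.im|) := by ring
    _ = G * K3 * D ^ 2 * A * (27 * c) := by rw [← Real.exp_add, neg_add_cancel, Real.exp_zero, mul_one]
    _ = 16 * (G * K3 * D ^ 2 * A * (27 * c)) * (1 / 16) := by ring
    _ ≤ _ := mul_le_mul_of_nonneg_left b6 (by positivity)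

theorem Nf_eq (Z : ℂ → ℂ) (hZ : DifferentiableOn ℂ Z {s | 1 / 2 < s.re}) (hZ1 : ∀ s : ℂ, 1 < s.re → Z s = (riemannZeta s)⁻¹)
    (h A : ℝ) (h0 : 0 < h) (h1 : h < 1 / 4) (hZ2 : ∀ s : ℂ, 1 / 2 + h ≤ s.re → ‖Z s‖ ≤ A * (|s.im| + 2) ^ (1 : ℝ))
    (p : ℕ) (hp : p.Prime) (hp2 : 2 < p) (D : ℝ) (hD : 1 ≤ D) (w : ℂ) (hw : w.re = 1 + 2 * h) :
    Nf p D w = -(1 / (2 * Real.pi) : ℝ) * ∫ v : ℝ, Gamma ((-1 / 2 - h : ℝ) + v * I + 1) / ((-1 / 2 - h : ℝ) + v * I) *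
      (D : ℂ) ^ (((-1 / 2 - h : ℝ) : ℂ) + v * I) * Z (w + ((-1 / 2 - h : ℝ) + v * I)) /
      ((1 - (2 : ℂ) ^ (-(w + ((-1 / 2 - h : ℝ) + v * I)))) * (1 - (p : ℂ) ^ (-(w + ((-1 / 2 - h : ℝ) + v * I))))) := by
  have hw1 : 1 < w.re := by linarith
  obtain ⟨C, hC⟩ := Na_bound Z h A h0 h1 hZ2 p hp D hD w hw
  have key := vline_pole (Na_H Z p D w) (-1 / 2 - h) 2 C (by linarith) (by norm_num)
    (fun z hz _ => Na_diff Z hZ h h0 h1 p hp D hD w hw z hz) hC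
  have hH0 : Na_H Z p D w 0 = ∑' d : ℕ, mu p d * (d : ℂ) ^ (-w) := by
    unfold Na_H
    rw [mu_series p hp hp2 w hw1, zero_add, Gamma_one, cpow_zero, one_mul, one_mul, add_zero, hZ1 w hw1]
  have hE : ∑' d : ℕ, mu p d * (Real.exp (-d / D) : ℝ) * (d : ℂ) ^ (-w) =
      (1 / (2 * Real.pi) : ℝ) * ∫ t : ℝ, Na_H Z p D w ((2 : ℝ) + t * I) / ((2 : ℝ) + t * I) := by
    rw [mu_exp p hp hp2 D hD w hw1]
    congr 1
    refine MeasureTheory.integral_congr_ae (Filter.Eventually.of_forall fun v => ?_)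
    show Gamma (2 + v * I) * (D : ℂ) ^ (2 + v * I) *
        ((riemannZeta (w + (2 + v * I)))⁻¹ /
          ((1 - (2 : ℂ) ^ (-(w + (2 + v * I)))) * (1 - (p : ℂ) ^ (-(w + (2 + v * I)))))) =
      Na_H Z p D w ((2 : ℝ) + v * I) / ((2 : ℝ) + v * I)
    have hu : ((2 : ℝ) : ℂ) = 2 := by norm_num
    have hne : (2 + v * I : ℂ) ≠ 0 := by
      intro h2
      have h3 := congrArg Complex.re h2
      simp at h3
    have hre : 1 < (w + (2 + v * I)).re := by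
      simp
      linarith
    unfold Na_H
    rw [hu, Gamma_add_one _ hne, hZ1 _ hre]
    field_simp
  have hN : Nf p D w = ∑' d : ℕ, mu p d * (d : ℂ) ^ (-w) -
      ∑' d : ℕ, mu p d * (Real.exp (-d / D) : ℝ) * (d : ℂ) ^ (-w) := by
    have s1 : Summable fun d : ℕ => mu p d * (d : ℂ) ^ (-w) := by
      have := Na_sum p hp w hw1 (fun _ => 1) (fun _ => by simp)
      simpa using this
    have s2 : Summable fun d : ℕ => mu p d * (Real.exp (-d / D) : ℝ) * (d : ℂ) ^ (-w) := by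
      refine Na_sum p hp w hw1 (fun d => Real.exp (-d / D)) fun d => ?_
      rw [abs_of_pos (Real.exp_pos _), Real.exp_le_one_iff]
      have : (0 : ℝ) ≤ d / D := by positivity
      rw [neg_div]
      linarith
    rw [← s1.tsum_sub s2]
    unfold Nf
    refine tsum_congr fun d => ?_
    push_cast
    ring
  rw [hN, hE, key, hH0]
  have hpi : (Real.pi : ℂ) ≠ 0 := by
    rw [Complex.ofReal_ne_zero]
    exact Real.pi_ne_zero
  have hint : (∫ v : ℝ, Gamma ((-1 / 2 - h : ℝ) + v * I + 1) / ((-1 / 2 - h : ℝ) + v * I) *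
      (D : ℂ) ^ (((-1 / 2 - h : ℝ) : ℂ) + v * I) * Z (w + ((-1 / 2 - h : ℝ) + v * I)) /
      ((1 - (2 : ℂ) ^ (-(w + ((-1 / 2 - h : ℝ) + v * I)))) * (1 - (p : ℂ) ^ (-(w + ((-1 / 2 - h : ℝ) + v * I)))))) =
      ∫ t : ℝ, Na_H Z p D w ((-1 / 2 - h : ℝ) + t * I) / ((-1 / 2 - h : ℝ) + t * I) := by
    refine MeasureTheory.integral_congr_ae (Filter.Eventually.of_forall fun v => ?_)
    unfold Na_H
    ring
  rw [hint]
  generalize (∫ t : ℝ, Na_H Z p D w ((-1 / 2 - h : ℝ) + t * I) / ((-1 / 2 - h : ℝ) + t * I)) = J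
  generalize (∑' d : ℕ, mu p d * (d : ℂ) ^ (-w)) = S
  push_cast
  field_simp
  ring

end Pool.Agent.Lib.MP_d713a4_nt
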