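import Pool.Agent.Lib.MP_d713a4_nt.Gz
import Pool.Agent.Lib.MP_d713a4_nt.Gf
import Pool.Agent.Lib.MP_d713a4_nt.Bc

/-!
# LEAF Zi: the function `1/ζ` under the Riemann hypothesis

PROOF.  `Z s = 1/ζ(s)` for `s ≠ 1`, `Z 1 = 0`: differentiable on `Re s > 1/2` (at `1`: `(s - 1) ζ(s) → 1`, removable singularity); `LJ_one`, `GRH` for `n = 1`.
The bound: `|Im s| ≥ 3`, `Re s ≤ 7/2 - h`: `lind` with `f = ζ`, `c = 2 + i Im s` as in `Li` (`norm_zeta_le`, `far (h/2)`; `‖f z‖⁻¹`); `Re s ≥ 2`: `far 1` (`1/ζ` is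
bounded); the remaining set `1/2 + h ≤ Re s ≤ 3`, `|Im s| ≤ 3` is compact.
-/

set_option autoImplicit false

namespace Pool.Agent.Lib.MP_d713a4_nt

open Complex

private theorem Zi_tendsto :
    Filter.Tendsto (fun s : ℂ => (riemannZeta s)⁻¹) (nhdsWithin 1 {1}ᶜ) (nhds 0) := by
  have h1 := riemannZeta_residue_one.inv₀ one_ne_zero
  have h2 : Filter.Tendsto (fun s : ℂ => s - 1) (nhdsWithin 1 {1}ᶜ) (nhds 0) := by
    have h3 : Filter.Tendsto (fun s : ℂ => s - 1) (nhds 1) (nhds (1 - 1)) :=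
      (continuous_id.sub continuous_const).tendsto 1
    rw [sub_self] at h3
    exact h3.mono_left nhdsWithin_le_nhds
  have h4 := h2.mul h1
  rw [zero_mul] at h4
  refine h4.congr' ?_
  filter_upwards [self_mem_nhdsWithin] with s hs
  have h5 : s - 1 ≠ 0 := sub_ne_zero.2 hs
  rw [mul_inv, ← mul_assoc, mul_inv_cancel₀ h5, one_mul]

private theorem Zi_diff (hne : ∀ s : ℂ, 1 / 2 < s.re → s ≠ 1 → riemannZeta s ≠ 0) :
    DifferentiableOn ℂ (Function.update (fun s : ℂ => (riemannZeta s)⁻¹) 1 0) {s | 1 / 2 < s.re} := by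
  have hopen : IsOpen {s : ℂ | 1 / 2 < s.re} := isOpen_lt continuous_const continuous_re
  have hoff : ∀ s : ℂ, 1 / 2 < s.re → s ≠ 1 →
      DifferentiableAt ℂ (Function.update (fun s : ℂ => (riemannZeta s)⁻¹) 1 0) s := by
    intro s hs h1
    have h2 : DifferentiableAt ℂ (fun s : ℂ => (riemannZeta s)⁻¹) s :=
      (differentiableAt_riemannZeta h1).inv (hne s hs h1)
    refine h2.congr_of_eventuallyEq ?_
    filter_upwards [isOpen_ne.mem_nhds h1] with z hz
    exact Function.update_of_ne hz _ _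
  intro s hs
  by_cases h1 : s = 1
  · subst h1
    refine DifferentiableAt.differentiableWithinAt ?_
    refine (Complex.analyticAt_of_differentiable_on_punctured_nhds_of_continuousAt ?_ ?_).differentiableAt
    · rw [eventually_nhdsWithin_iff]
      filter_upwards [hopen.mem_nhds hs] with z hz hz1
      exact hoff z hz hz1
    · rw [continuousAt_update_same]
      exact Zi_tendsto
  · exact (hoff s hs h1).differentiableWithinAt

theorem exists_Z (g : GRH) : ∃ Z : ℂ → ℂ, DifferentiableOn ℂ Z {s | 1 / 2 < s.re} ∧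
    (∀ s : ℂ, 1 < s.re → Z s = (riemannZeta s)⁻¹) ∧
    ∀ h η : ℝ, 0 < h → h < 1 / 2 → 0 < η → ∃ A : ℝ, 0 < A ∧ ∀ s : ℂ, 1 / 2 + h ≤ s.re →
      ‖Z s‖ ≤ A * (|s.im| + 2) ^ η := by
  have hne : ∀ s : ℂ, 1 / 2 < s.re → s ≠ 1 → riemannZeta s ≠ 0 := by
    intro s hs h1
    have := g 1 odd_one squarefree_one s hs h1
    rwa [LJ_one] at this
  have hZ := Zi_diff hne
  refine ⟨Function.update (fun s : ℂ => (riemannZeta s)⁻¹) 1 0, hZ, ?_, ?_⟩
  · intro s hs
    exact Function.update_of_ne (by rintro rfl; simp at hs) _ _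
  intro h η h0 h1 hη
  obtain ⟨A₀, hA₀, hA₀'⟩ := norm_zeta_le
  obtain ⟨K, hK, hK'⟩ := far (h / 2) (by linarith)
  obtain ⟨A₂, hA₂, hA₂'⟩ := far 1 one_pos
  obtain ⟨A₁, hA₁, hA₁'⟩ := lind h η K h0 h1 hη hK
  -- the compact set
  have hcomp : IsCompact (Set.Icc (1 / 2 + h) 3 ×ℂ Set.Icc (-3) 3) :=
    isCompact_Icc.reProdIm isCompact_Icc
  have hcont : ContinuousOn (Function.update (fun s : ℂ => (riemannZeta s)⁻¹) 1 0)
      (Set.Icc (1 / 2 + h) 3 ×ℂ Set.Icc (-3) 3) := by
    refine hZ.continuousOn.mono ?_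
    intro z hz
    rw [Complex.mem_reProdIm] at hz
    have := hz.1.1
    show 1 / 2 < z.re
    linarith
  obtain ⟨A₃, hA₃⟩ := hcomp.exists_bound_of_continuousOn hcont
  have hA₀0 : 0 < A₀ := by linarith
  have h2A : 0 < (2 * A₀) ^ η := Real.rpow_pos_of_pos (by linarith) _
  refine ⟨A₁ * (2 * A₀) ^ η + A₂ + |A₃|, by positivity, ?_⟩
  intro s hs
  have hone : 1 ≤ (|s.im| + 2) ^ η :=
    Real.one_le_rpow (by linarith [abs_nonneg s.im]) hη.le
  have hpos : 0 < (|s.im| + 2) ^ η := by linarith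
  have hA₃0 := abs_nonneg A₃
  rcases le_or_gt 2 s.re with h2 | h2
  · -- the half plane of absolute convergence
    have hs1 : s ≠ 1 := by
      rintro rfl
      norm_num at h2
    rw [Function.update_of_ne hs1, norm_inv]
    have h3 := (hA₂' 1 odd_one s (by linarith)).1
    rw [LJ_one] at h3
    have hA₂0 : 0 < A₂ := by linarith
    have h4 : ‖riemannZeta s‖⁻¹ ≤ A₂ := by
      rw [inv_le_comm₀ (lt_of_lt_of_le (inv_pos.2 hA₂0) h3) hA₂0]
      exact h3
    calc ‖riemannZeta s‖⁻¹ ≤ A₂ := h4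
      _ = A₂ * 1 := (mul_one _).symm
      _ ≤ (A₁ * (2 * A₀) ^ η + A₂ + |A₃|) * (|s.im| + 2) ^ η := by
        refine mul_le_mul ?_ hone zero_le_one (by positivity)
        nlinarith [mul_pos hA₁ h2A]
  rcases le_or_gt 3 |s.im| with h3 | h3
  · have hs1 : s ≠ 1 := by
      rintro rfl
      norm_num at h3
    rw [Function.update_of_ne hs1, norm_inv]
    set c : ℂ := 2 + s.im * I with hc
    have hcre : c.re = 2 := by simp [hc]
    have hcim : c.im = s.im := by simp [hc]
    have hball : ∀ r : ℝ, ∀ z ∈ Metric.ball c r, |z.re - 2| < r ∧ |z.im - s.im| < r := by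
      intro r z hz
      rw [Metric.mem_ball, dist_eq_norm] at hz
      have ha := (Complex.abs_re_le_norm (z - c)).trans_lt hz
      have hb := (Complex.abs_im_le_norm (z - c)).trans_lt hz
      rw [Complex.sub_re, hcre] at ha
      rw [Complex.sub_im, hcim] at hb
      exact ⟨ha, hb⟩
    have hzone : ∀ z ∈ Metric.ball c (3 / 2 - h / 2), 1 / 2 < z.re ∧ 3 / 2 ≤ |z.im| ∧
        |z.im| ≤ |s.im| + 3 / 2 := by
      intro z hz
      obtain ⟨ha, hb⟩ := hball _ z hz
      rw [abs_lt] at ha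
      have h5 : |s.im| - |z.im| ≤ |z.im - s.im| := by
        rw [abs_sub_comm]
        exact abs_sub_abs_le_abs_sub _ _
      have h6 : |z.im| - |s.im| ≤ |z.im - s.im| := abs_sub_abs_le_abs_sub _ _
      exact ⟨by linarith [ha.1], by linarith, by linarith⟩
    have hz1 : ∀ z ∈ Metric.ball c (3 / 2 - h / 2), z ≠ 1 := by
      rintro z hz rfl
      have := (hzone 1 hz).2.1
      norm_num at this
    have hM : 1 ≤ A₀ * (|s.im| + 4) := by nlinarith [abs_nonneg s.im]
    have h7 := hA₁' riemannZeta c (A₀ * (|s.im| + 4)) hM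
      (fun z hz => (differentiableAt_riemannZeta (hz1 z hz)).differentiableWithinAt)
      (fun z hz => hne z (hzone z hz).1 (hz1 z hz))
      (fun z hz => by
        obtain ⟨ha, hb, hd⟩ := hzone z hz
        refine (hA₀' z ha.le (by linarith)).trans ?_
        exact mul_le_mul_of_nonneg_left (by linarith) hA₀0.le)
      (fun z hz => by
        have ha := (hball _ z hz).1
        rw [abs_lt] at ha
        have h8 := hK' 1 odd_one z (by linarith [ha.1])
        rw [LJ_one] at h8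
        exact ⟨h8.1, h8.2.1⟩)
      s (by
        rw [Metric.mem_closedBall, dist_eq_norm]
        have h9 : s - c = ((s.re - 2 : ℝ) : ℂ) := by
          apply Complex.ext
          · simp [hc]
          · simp [hc]
        rw [h9, Complex.norm_real, Real.norm_eq_abs, abs_le]
        constructor <;> linarith)
    refine h7.2.trans ?_
    have h10 : (A₀ * (|s.im| + 4)) ^ η ≤ (2 * A₀) ^ η * (|s.im| + 2) ^ η := by
      rw [← Real.mul_rpow (by linarith) (by linarith [abs_nonneg s.im])]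
      refine Real.rpow_le_rpow (by positivity) ?_ hη.le
      nlinarith [abs_nonneg s.im]
    calc A₁ * (A₀ * (|s.im| + 4)) ^ η ≤ A₁ * ((2 * A₀) ^ η * (|s.im| + 2) ^ η) :=
          mul_le_mul_of_nonneg_left h10 hA₁.le
      _ = A₁ * (2 * A₀) ^ η * (|s.im| + 2) ^ η := by ring
      _ ≤ (A₁ * (2 * A₀) ^ η + A₂ + |A₃|) * (|s.im| + 2) ^ η := by
        refine mul_le_mul_of_nonneg_right ?_ hpos.le
        linarith
  · have h4 := hA₃ s (by
      rw [Complex.mem_reProdIm, Set.mem_Icc, Set.mem_Icc]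
      rw [abs_lt] at h3
      exact ⟨⟨hs, by linarith⟩, ⟨by linarith [h3.1], by linarith [h3.2]⟩⟩)
    calc ‖Function.update (fun s : ℂ => (riemannZeta s)⁻¹) 1 0 s‖ ≤ A₃ := h4
      _ ≤ |A₃| := le_abs_self _
      _ = |A₃| * 1 := (mul_one _).symm
      _ ≤ (A₁ * (2 * A₀) ^ η + A₂ + |A₃|) * (|s.im| + 2) ^ η := by
        refine mul_le_mul ?_ hone zero_le_one (by positivity)
        nlinarith [mul_pos hA₁ h2A]

end Pool.Agent.Lib.MP_d713a4_nt
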