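import Pool.Agent.Lib.MP_d713a4_nt.Na
import Pool.Agent.Lib.MP_d713a4_nt.Zi

/-!
# LEAF Nb: the bound of `Nf`

PROOF.  `exists_Z`, `Nf_eq`; on the line `Re u = -1/2 - h`: `‖D^u‖ = D^(-1/2-h) ≤ D^(-1/2)`; `‖Γ(u+1)‖ ≤ C exp(-|v|/2)` (`gam_decay` with `θ = 1/2`, `Re (u+1) = 1/2 - h > 0`),
`‖u‖ ≥ 1/2`; `‖Z(w+u)‖ ≤ A (|Im w + v| + 2)^η ≤ A (|Im w| + 2)^η (|v| + 2)^η`; `|1 - 2^(-s)|, |1 - p^(-s)| ≥ 1 - 2^(-1/2)`.
-/

set_option autoImplicit false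

namespace Pool.Agent.Lib.MP_d713a4_nt

open Complex

private theorem Nb_one (p : ℕ) (hp : 2 ≤ p) (s : ℂ) (hs : 1 / 2 ≤ s.re) :
    1 - (2 : ℝ) ^ (-(1 / 2) : ℝ) ≤ ‖1 - (p : ℂ) ^ (-s)‖ := by
  have h1 : ‖(p : ℂ) ^ (-s)‖ = (p : ℝ) ^ (-s.re) := by
    rw [Complex.norm_natCast_cpow_of_pos (by omega), Complex.neg_re]
  have hp' : (2 : ℝ) ≤ (p : ℝ) := by exact_mod_cast hp
  have h2 : (p : ℝ) ^ (-s.re) ≤ (2 : ℝ) ^ (-(1 / 2) : ℝ) :=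
    (Real.rpow_le_rpow_of_nonpos (by norm_num) hp' (by linarith)).trans
      (Real.rpow_le_rpow_of_exponent_le (by norm_num) (by linarith))
  have h3 := norm_sub_norm_le (1 : ℂ) ((p : ℂ) ^ (-s))
  rw [norm_one, h1] at h3
  linarith

private theorem Nb_m : 0 < 1 - (2 : ℝ) ^ (-(1 / 2) : ℝ) := by
  have h : (2 : ℝ) ^ (-(1 / 2) : ℝ) < 1 := Real.rpow_lt_one_of_one_lt_of_neg (by norm_num) (by norm_num)
  linarith

private theorem Nb_exp (t : ℝ) (ht : 0 ≤ t) :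
    (t + 2) * Real.exp (-(1 / 2) * t) ≤ 48 * Real.exp 1 * (1 + t ^ 2)⁻¹ := by
  have h1 := Real.pow_div_factorial_le_exp ((t + 2) / 2) (by linarith) 3
  have h2 : Real.exp ((t + 2) / 2) = Real.exp 1 * Real.exp (1 / 2 * t) := by
    rw [← Real.exp_add]
    congr 1
    ring
  have h3 : ((3 : ℕ).factorial : ℝ) = 6 := by norm_num [Nat.factorial]
  rw [h2, h3, div_le_iff₀ (by norm_num)] at h1
  have h4 : Real.exp (-(1 / 2) * t) = (Real.exp (1 / 2 * t))⁻¹ := by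
    rw [← Real.exp_neg]
    congr 1
    ring
  have h5 : 0 < Real.exp (1 / 2 * t) := Real.exp_pos _
  have h6 : 0 < 1 + t ^ 2 := by positivity
  rw [h4, ← div_eq_mul_inv, ← div_eq_mul_inv, div_le_div_iff₀ h5 h6]
  have h7 : (t + 2) * (1 + t ^ 2) ≤ (t + 2) ^ 3 := by
    have h8 : (t + 2) ^ 3 - (t + 2) * (1 + t ^ 2) = (t + 2) * (4 * t + 3) := by ring
    have h9 : 0 ≤ (t + 2) * (4 * t + 3) := by positivity
    linarith
  have h8 : ((t + 2) / 2) ^ 3 = (t + 2) ^ 3 / 8 := by ring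
  rw [h8] at h1
  linarith

private theorem Nb_pow (a v η : ℝ) (hη : 0 < η) (hη1 : η ≤ 1) :
    (|a + v| + 2) ^ η ≤ (|a| + 2) ^ η * (|v| + 2) := by
  have ha := abs_nonneg a
  have hv := abs_nonneg v
  have h1 : |a + v| + 2 ≤ (|a| + 2) * (|v| + 2) := by
    have h2 := abs_add_le a v
    have h3 : 0 ≤ |a| * |v| := mul_nonneg ha hv
    have h4 : (|a| + 2) * (|v| + 2) = |a| * |v| + 2 * |a| + 2 * |v| + 4 := by ring
    linarith
  have h2 : (|a + v| + 2) ^ η ≤ ((|a| + 2) * (|v| + 2)) ^ η :=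
    Real.rpow_le_rpow (by positivity) h1 hη.le
  rw [Real.mul_rpow (by positivity) (by positivity)] at h2
  have h3 : (|v| + 2) ^ η ≤ |v| + 2 := by
    have h4 := Real.rpow_le_rpow_of_exponent_le (x := |v| + 2) (by linarith) hη1
    rwa [Real.rpow_one] at h4
  exact h2.trans (mul_le_mul_of_nonneg_left h3 (by positivity))

private theorem Nb_pt {h η B : ℝ} (h0 : 0 < h) (h1 : h < 1 / 4) (hη : 0 < η) (hη1 : η ≤ 1) (hB : 0 < B)
    {Z : ℂ → ℂ} (hZ : ∀ s : ℂ, 1 / 2 + h ≤ s.re → ‖Z s‖ ≤ B * (|s.im| + 2) ^ η)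
    {p : ℕ} (hp : 2 < p) {D : ℝ} (hD : 1 ≤ D) {w u : ℂ} (hw : w.re = 1 + 2 * h)
    (hu : u.re = -1 / 2 - h) :
    ‖Gamma (u + 1) / u * (D : ℂ) ^ u * Z (w + u) /
      ((1 - (2 : ℂ) ^ (-(w + u))) * (1 - (p : ℂ) ^ (-(w + u))))‖ ≤
      (Real.Gamma (1 / 2 - h) * Real.cos (1 / 2) ^ (-(1 / 2 - h))) * 2 * B * (48 * Real.exp 1) /
        ((1 - (2 : ℝ) ^ (-(1 / 2) : ℝ)) * (1 - (2 : ℝ) ^ (-(1 / 2) : ℝ))) *
        (D ^ (-(1 / 2) : ℝ) * (|w.im| + 2) ^ η) * (1 + u.im ^ 2)⁻¹ := by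
  have hc0 : 0 < Real.cos (1 / 2) := Real.cos_pos_of_mem_Ioo
    ⟨by linarith [Real.pi_gt_three], by linarith [Real.pi_gt_three]⟩
  have hG : 0 < Real.Gamma (1 / 2 - h) := Real.Gamma_pos_of_pos (by linarith)
  obtain ⟨G, hGd⟩ : ∃ G, G = Real.Gamma (1 / 2 - h) * Real.cos (1 / 2) ^ (-(1 / 2 - h)) := ⟨_, rfl⟩
  have hG0 : 0 < G := by
    rw [hGd]
    exact mul_pos hG (Real.rpow_pos_of_pos hc0 _)
  rw [← hGd]
  obtain ⟨m, hm⟩ : ∃ m, m = 1 - (2 : ℝ) ^ (-(1 / 2) : ℝ) := ⟨_, rfl⟩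
  have hm0 : 0 < m := by
    rw [hm]
    exact Nb_m
  rw [← hm]
  -- the Gamma function
  have a1 : ‖Gamma (u + 1)‖ ≤ G * Real.exp (-(1 / 2) * |u.im|) := by
    have e1 : (u + 1).re = 1 / 2 - h := by
      rw [Complex.add_re, Complex.one_re, hu]
      ring
    have e2 : (u + 1).im = u.im := by
      rw [Complex.add_im, Complex.one_im, add_zero]
    have h2 := gam_decay (1 / 2) (by norm_num) (by linarith [Real.pi_gt_three]) (u + 1)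
      (by rw [e1]; linarith)
    rw [e1, e2, ← hGd] at h2
    exact h2
  have a2 : 1 / 2 ≤ ‖u‖ := by
    have h2 := Complex.abs_re_le_norm u
    rw [hu] at h2
    have h3 : -(-1 / 2 - h) ≤ |-1 / 2 - h| := neg_le_abs _
    linarith
  have a3 : ‖(D : ℂ) ^ u‖ ≤ D ^ (-(1 / 2) : ℝ) := by
    rw [Complex.norm_cpow_eq_rpow_re_of_pos (by linarith), hu]
    exact Real.rpow_le_rpow_of_exponent_le hD (by linarith)
  have hr : (w + u).re = 1 / 2 + h := by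
    rw [Complex.add_re, hw, hu]
    ring
  have a4 : ‖Z (w + u)‖ ≤ B * ((|w.im| + 2) ^ η * (|u.im| + 2)) := by
    have h2 := hZ (w + u) (by rw [hr])
    rw [Complex.add_im] at h2
    exact h2.trans (mul_le_mul_of_nonneg_left (Nb_pow _ _ η hη hη1) hB.le)
  have a5 : m ≤ ‖1 - (2 : ℂ) ^ (-(w + u))‖ := by
    have h2 := Nb_one 2 le_rfl (w + u) (by rw [hr]; linarith)
    rw [← hm, Nat.cast_ofNat] at h2
    exact h2
  have a6 : m ≤ ‖1 - (p : ℂ) ^ (-(w + u))‖ := by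
    have h2 := Nb_one p (by omega) (w + u) (by rw [hr]; linarith)
    rw [← hm] at h2
    exact h2
  have a7 := Nb_exp |u.im| (abs_nonneg _)
  rw [sq_abs] at a7
  have hD0 : 0 ≤ D ^ (-(1 / 2) : ℝ) := Real.rpow_nonneg (by linarith) _
  have hW0 : 0 ≤ (|w.im| + 2) ^ η := Real.rpow_nonneg (by positivity) _
  rw [norm_div, norm_mul, norm_mul, norm_div, norm_mul]
  have b1 : ‖Gamma (u + 1)‖ / ‖u‖ ≤ G * Real.exp (-(1 / 2) * |u.im|) * 2 := by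
    have h2 : G * Real.exp (-(1 / 2) * |u.im|) * 2 = G * Real.exp (-(1 / 2) * |u.im|) / (1 / 2) := by
      rw [div_div_eq_mul_div, div_one]
    rw [h2]
    exact div_le_div₀ (by positivity) a1 (by norm_num) a2
  have b2 : ‖Gamma (u + 1)‖ / ‖u‖ * ‖(D : ℂ) ^ u‖ ≤
      G * Real.exp (-(1 / 2) * |u.im|) * 2 * D ^ (-(1 / 2) : ℝ) :=
    mul_le_mul b1 a3 (norm_nonneg _) (by positivity)
  have b3 : ‖Gamma (u + 1)‖ / ‖u‖ * ‖(D : ℂ) ^ u‖ * ‖Z (w + u)‖ ≤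
      G * Real.exp (-(1 / 2) * |u.im|) * 2 * D ^ (-(1 / 2) : ℝ) *
        (B * ((|w.im| + 2) ^ η * (|u.im| + 2))) :=
    mul_le_mul b2 a4 (norm_nonneg _) (by positivity)
  have b4 : G * Real.exp (-(1 / 2) * |u.im|) * 2 * D ^ (-(1 / 2) : ℝ) *
        (B * ((|w.im| + 2) ^ η * (|u.im| + 2))) =
      G * 2 * B * (D ^ (-(1 / 2) : ℝ) * (|w.im| + 2) ^ η) *
        ((|u.im| + 2) * Real.exp (-(1 / 2) * |u.im|)) := by ring
  rw [b4] at b3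
  have b5 := b3.trans (mul_le_mul_of_nonneg_left a7
    (by positivity : 0 ≤ G * 2 * B * (D ^ (-(1 / 2) : ℝ) * (|w.im| + 2) ^ η)))
  have b6 := div_le_div₀ (by positivity) b5 (mul_pos hm0 hm0)
    (mul_le_mul a5 a6 hm0.le (norm_nonneg _))
  refine b6.trans (le_of_eq ?_)
  ring

theorem Nf_le (g : GRH) (h η : ℝ) (h0 : 0 < h) (h1 : h < 1 / 4) (hη : 0 < η) (hη1 : η ≤ 1) : ∃ A : ℝ, 0 < A ∧
    ∀ p : ℕ, p.Prime → 2 < p → ∀ D : ℝ, 1 ≤ D → ∀ w : ℂ, w.re = 1 + 2 * h →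
      ‖Nf p D w‖ ≤ A * D ^ (-(1 / 2) : ℝ) * (|w.im| + 2) ^ η := by
  obtain ⟨Z, hZ, hZ1, hb⟩ := exists_Z g
  obtain ⟨B₁, hB₁, hZ2⟩ := hb h 1 h0 (by linarith) one_pos
  obtain ⟨B, hB, hZ3⟩ := hb h η h0 (by linarith) hη
  have hc0 : 0 < Real.cos (1 / 2) := Real.cos_pos_of_mem_Ioo
    ⟨by linarith [Real.pi_gt_three], by linarith [Real.pi_gt_three]⟩
  have hG : 0 < Real.Gamma (1 / 2 - h) := Real.Gamma_pos_of_pos (by linarith)
  obtain ⟨K, hK⟩ : ∃ K, K = (Real.Gamma (1 / 2 - h) * Real.cos (1 / 2) ^ (-(1 / 2 - h))) * 2 * B *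
      (48 * Real.exp 1) / ((1 - (2 : ℝ) ^ (-(1 / 2) : ℝ)) * (1 - (2 : ℝ) ^ (-(1 / 2) : ℝ))) := ⟨_, rfl⟩
  have hK0 : 0 < K := by
    rw [hK]
    have h2 := Real.rpow_pos_of_pos hc0 (-(1 / 2 - h))
    have h3 := Nb_m
    positivity
  refine ⟨K / 2, by positivity, fun p hp hp2 D hD w hw => ?_⟩
  rw [Nf_eq Z hZ hZ1 h B₁ h0 h1 hZ2 p hp hp2 D hD w hw, norm_mul]
  have e1 : ‖(-(1 / (2 * Real.pi) : ℝ) : ℂ)‖ = 1 / (2 * Real.pi) := by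
    rw [norm_neg, Complex.norm_real, Real.norm_eq_abs, abs_of_pos (by positivity)]
  have e2 : ∀ v : ℝ, ((((-1 / 2 - h : ℝ) : ℂ) + v * I).re) = -1 / 2 - h := by
    intro v
    rw [Complex.add_re, Complex.ofReal_re, Complex.re_ofReal_mul, Complex.I_re, mul_zero, add_zero]
  have e3 : ∀ v : ℝ, ((((-1 / 2 - h : ℝ) : ℂ) + v * I).im) = v := by
    intro v
    rw [Complex.add_im, Complex.ofReal_im, Complex.im_ofReal_mul, Complex.I_im, mul_one, zero_add]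
  have key := MeasureTheory.norm_integral_le_of_norm_le
    (f := fun v : ℝ => Gamma ((-1 / 2 - h : ℝ) + v * I + 1) / ((-1 / 2 - h : ℝ) + v * I) *
      (D : ℂ) ^ (((-1 / 2 - h : ℝ) : ℂ) + v * I) * Z (w + ((-1 / 2 - h : ℝ) + v * I)) /
      ((1 - (2 : ℂ) ^ (-(w + ((-1 / 2 - h : ℝ) + v * I)))) *
        (1 - (p : ℂ) ^ (-(w + ((-1 / 2 - h : ℝ) + v * I))))))
    (g := fun v : ℝ => K * (D ^ (-(1 / 2) : ℝ) * (|w.im| + 2) ^ η) * (1 + v ^ 2)⁻¹)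
    (μ := MeasureTheory.volume) (integrable_inv_one_add_sq.const_mul _)
    (Filter.Eventually.of_forall fun v => by
      have h2 := Nb_pt h0 h1 hη hη1 hB hZ3 hp2 hD hw (e2 v)
      rw [← hK, e3 v] at h2
      exact h2)
  rw [MeasureTheory.integral_const_mul, integral_univ_inv_one_add_sq] at key
  rw [e1]
  refine (mul_le_mul_of_nonneg_left key (by positivity)).trans (le_of_eq ?_)
  have hpi : Real.pi ≠ 0 := Real.pi_ne_zero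
  field_simp

end Pool.Agent.Lib.MP_d713a4_nt
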