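import Pool.Agent.Lib.MP_d713a4_nt.NfD
import Pool.Agent.Lib.MP_d713a4_nt.Ga

/-!
# LEAF Nc: smooth sums of the Möbius function

PROOF.  `exp_mellin`: Mellin inversion for `exp(-x)` (`mellin_inversion`; `Complex.Gamma_eq_integral`: `Γ` is the Mellin transform of `exp(-x)`; the vertical integrability by `gam_decay`).
`mu_series`: `ζ(s) (1 - 2^(-s)) (1 - p^(-s)) = ∑_(m prime to 2p) m^(-s)` and the convolution with `μ` restricted to the numbers prime to `2 p` (a completely multiplicative twist), or the Euler product of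
the trivial character modulo `2 p` (`DirichletCharacter.LFunctionTrivChar_eq_mul_riemannZeta`, `LSeries_mul_mu_eq_one` for the trivial character modulo `2 p`).
`mu_exp`: sum `exp_mellin` with `x = d/D` times `mu p d d^(-w)` over `d` (absolute convergence), `mu_series` at `w + u`.
-/

set_option autoImplicit false

namespace Pool.Agent.Lib.MP_d713a4_nt

open Complex MeasureTheory

/-- The Gamma function is integrable on the line `Re s = 2`. -/
private theorem Nc_int : Integrable fun v : ℝ => Gamma (2 + v * I) := by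
  have h1 : Integrable fun v : ℝ => Real.exp (-|v|) := by
    have h2 : IntegrableOn (fun v : ℝ => Real.exp (-|v|)) (Set.Ioi 0) := by
      refine (integrableOn_exp_neg_Ioi 0).congr_fun (fun v hv => ?_) measurableSet_Ioi
      rw [Set.mem_Ioi] at hv
      simp only
      rw [abs_of_pos hv]
    have h3 : IntegrableOn (fun v : ℝ => Real.exp (-|v|)) (Set.Iic 0) := by
      refine (integrableOn_exp_Iic 0).congr_fun (fun v hv => ?_) measurableSet_Iic
      rw [Set.mem_Iic] at hv
      show Real.exp v = Real.exp (-|v|)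
      rw [abs_of_nonpos hv, neg_neg]
    rw [← integrableOn_univ, ← Set.Iic_union_Ioi (a := (0 : ℝ))]
    exact h3.union h2
  have hre : ∀ v : ℝ, (2 + v * I : ℂ).re = 2 := by
    intro v
    simp
  have him : ∀ v : ℝ, (2 + v * I : ℂ).im = v := by
    intro v
    simp
  refine (h1.const_mul (Real.Gamma 2 * (Real.cos 1) ^ (-(2 : ℝ)))).mono' ?_ (Filter.Eventually.of_forall fun v => ?_)
  · refine Continuous.aestronglyMeasurable ?_
    rw [continuous_iff_continuousAt]
    intro v
    have h2 : ContinuousAt Gamma (2 + v * I) := by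
      refine (differentiableAt_Gamma _ fun m hm => ?_).continuousAt
      have h3 := congrArg Complex.re hm
      rw [hre, neg_re, natCast_re] at h3
      have : (0 : ℝ) ≤ m := Nat.cast_nonneg m
      linarith
    exact ContinuousAt.comp (f := fun v : ℝ => (2 + v * I : ℂ)) h2 (by fun_prop)
  · have h2 := gam_decay 1 zero_le_one (by linarith [Real.pi_gt_three]) (2 + v * I) (by rw [hre]; norm_num)
    rw [hre, him] at h2
    simpa using h2

theorem exp_mellin (x : ℝ) (hx : 0 < x) :
    (Real.exp (-x) : ℂ) = (1 / (2 * Real.pi) : ℝ) * ∫ v : ℝ, Gamma (2 + v * I) * (x : ℂ) ^ (-(2 + v * I)) := by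
  have hm : ∀ s : ℂ, 0 < s.re → mellin (fun x : ℝ => (Real.exp (-x) : ℂ)) s = Gamma s := by
    intro s hs
    rw [Gamma_eq_integral hs, GammaIntegral_eq_mellin]
  have hre : ∀ v : ℝ, ((2 : ℝ) + v * I : ℂ).re = 2 := by
    intro v
    simp
  have h1 := mellinInv_mellin_eq 2 (fun x : ℝ => (Real.exp (-x) : ℂ)) hx ?_ ?_ ?_
  · rw [← h1, mellinInv, real_smul]
    congr 1
    refine integral_congr_ae (Filter.Eventually.of_forall fun v => ?_)
    simp only
    rw [hm _ (by rw [hre]; norm_num), smul_eq_mul, mul_comm]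
    norm_num
  · have h2 := GammaIntegral_convergent (s := (2 : ℝ)) (by simp)
    refine h2.congr_fun (fun v _ => ?_) measurableSet_Ioi
    simp only
    rw [smul_eq_mul, mul_comm]
  · have h2 : (fun v : ℝ => mellin (fun x : ℝ => (Real.exp (-x) : ℂ)) ((2 : ℝ) + v * I)) =
        fun v : ℝ => Gamma (2 + v * I) := by
      funext v
      rw [hm _ (by rw [hre]; norm_num)]
      norm_num
    have h3 := Nc_int
    rw [← h2] at h3
    exact h3
  · exact (continuous_ofReal.comp (Real.continuous_exp.comp continuous_neg)).continuousAt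

theorem mu_series (p : ℕ) (hp : p.Prime) (hp2 : 2 < p) (s : ℂ) (hs : 1 < s.re) :
    ∑' d : ℕ, mu p d * (d : ℂ) ^ (-s) =
      (riemannZeta s)⁻¹ / ((1 - (2 : ℂ) ^ (-s)) * (1 - (p : ℂ) ^ (-s))) := by
  have hN : NeZero (2 * p) := ⟨by have := hp.pos; omega⟩
  have hs1 : s ≠ 1 := by
    intro h
    rw [h, one_re] at hs
    exact lt_irrefl _ hs
  have h1 := DirichletCharacter.LSeries.mul_mu_eq_one (1 : DirichletCharacter ℂ (2 * p)) hs
  have h2 := DirichletCharacter.LFunction_eq_LSeries (1 : DirichletCharacter ℂ (2 * p)) hs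
  have h3 := DirichletCharacter.LFunctionTrivChar_eq_mul_riemannZeta (N := 2 * p) hs1
  have h4 : (2 * p).primeFactors = {2, p} := by
    rw [Nat.primeFactors_mul two_ne_zero hp.ne_zero, Nat.Prime.primeFactors Nat.prime_two, hp.primeFactors]
    rfl
  rw [h4, Finset.prod_pair (by omega)] at h3
  have h5 : ∑' d : ℕ, mu p d * (d : ℂ) ^ (-s) =
      LSeries ((fun n : ℕ => (1 : DirichletCharacter ℂ (2 * p)) n) * fun n : ℕ => ((ArithmeticFunction.moebius n : ℤ) : ℂ)) s := by
    rw [LSeries]
    refine tsum_congr fun d => ?_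
    rcases Nat.eq_zero_or_pos d with rfl | hd
    · rw [LSeries.term_zero, mu, if_neg, zero_mul]
      rw [Nat.coprime_zero_left]
      have := hp.pos
      omega
    · rw [LSeries.term_of_ne_zero hd.ne', cpow_neg, div_eq_mul_inv, Pi.mul_apply]
      congr 1
      by_cases hc : Nat.Coprime d (2 * p)
      · rw [mu, if_pos hc, MulChar.one_apply ((ZMod.isUnit_iff_coprime d (2 * p)).2 hc), one_mul]
      · rw [mu, if_neg hc, MulChar.map_nonunit _ (fun h => hc ((ZMod.isUnit_iff_coprime d (2 * p)).1 h)), zero_mul]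
  rw [h5]
  have h6 : LSeries (fun n : ℕ => (1 : DirichletCharacter ℂ (2 * p)) n) s =
      (1 - (2 : ℂ) ^ (-s)) * (1 - (p : ℂ) ^ (-s)) * riemannZeta s := by
    rw [← h2]
    rw [DirichletCharacter.LFunctionTrivChar] at h3
    rw [h3]
    norm_num
  have h7 := h1
  rw [h6] at h7
  have h8 : (1 - (2 : ℂ) ^ (-s)) * (1 - (p : ℂ) ^ (-s)) * riemannZeta s ≠ 0 := by
    intro h0
    rw [h0, zero_mul] at h7
    exact zero_ne_one h7
  have h9 : (1 - (2 : ℂ) ^ (-s)) * (1 - (p : ℂ) ^ (-s)) ≠ 0 := left_ne_zero_of_mul h8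
  have h10 : riemannZeta s ≠ 0 := right_ne_zero_of_mul h8
  rw [eq_div_iff h9]
  refine eq_inv_of_mul_eq_one_left ?_
  linear_combination h7

theorem mu_exp (p : ℕ) (hp : p.Prime) (hp2 : 2 < p) (D : ℝ) (hD : 1 ≤ D) (w : ℂ) (hw : 1 < w.re) :
    ∑' d : ℕ, mu p d * (Real.exp (-d / D) : ℝ) * (d : ℂ) ^ (-w) =
      (1 / (2 * Real.pi) : ℝ) * ∫ v : ℝ, Gamma (2 + v * I) * (D : ℂ) ^ (2 + v * I) *
        ((riemannZeta (w + (2 + v * I)))⁻¹ /
          ((1 - (2 : ℂ) ^ (-(w + (2 + v * I)))) * (1 - (p : ℂ) ^ (-(w + (2 + v * I)))))) := by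
  have hD0 : 0 < D := by linarith
  have hre : ∀ v : ℝ, (2 + v * I : ℂ).re = 2 := by
    intro v
    simp
  have hmu0 : mu p 0 = 0 := by
    rw [mu, if_neg]
    rw [Nat.coprime_zero_left]
    have := hp.pos
    omega
  have hmu : ∀ d, ‖mu p d‖ ≤ 1 := by
    intro d
    rw [mu]
    split_ifs
    · have h1 := ArithmeticFunction.abs_moebius_le_one (n := d)
      rw [norm_intCast]
      exact_mod_cast h1
    · rw [norm_zero]
      exact zero_le_one
  -- the terms
  set F : ℕ → ℝ → ℂ := fun d v => Gamma (2 + v * I) * (D : ℂ) ^ (2 + v * I) *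
    (mu p d * (d : ℂ) ^ (-(w + (2 + v * I)))) with hF
  have hFn : ∀ d v, ‖F d v‖ ≤ ‖Gamma (2 + v * I)‖ * (D ^ (2 : ℝ) * (d : ℝ) ^ (-(w.re + 2))) := by
    intro d v
    rw [hF]
    simp only
    rcases Nat.eq_zero_or_pos d with rfl | hd
    · rw [hmu0, zero_mul, mul_zero, norm_zero]
      positivity
    · rw [norm_mul, norm_mul, norm_mul, norm_cpow_eq_rpow_re_of_pos hD0, hre, norm_natCast_cpow_of_pos hd, neg_re,
        add_re, hre, mul_assoc]
      refine mul_le_mul_of_nonneg_left ?_ (norm_nonneg _)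
      refine mul_le_mul_of_nonneg_left ?_ (by positivity)
      exact mul_le_of_le_one_left (by positivity) (hmu d)
  have hFc : ∀ d, AEStronglyMeasurable (F d) := by
    intro d
    rcases Nat.eq_zero_or_pos d with rfl | hd
    · have h1 : F 0 = fun _ => 0 := by
        funext v
        rw [hF]
        simp only
        rw [hmu0, zero_mul, mul_zero]
      rw [h1]
      exact aestronglyMeasurable_const
    · rw [hF]
      simp only
      refine (Nc_int.aestronglyMeasurable.mul ?_).mul ?_
      · refine Continuous.aestronglyMeasurable ?_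
        exact Continuous.const_cpow (by fun_prop) (Or.inl (by exact_mod_cast hD0.ne'))
      · refine Continuous.aestronglyMeasurable (continuous_const.mul ?_)
        exact Continuous.const_cpow (by fun_prop) (Or.inl (by exact_mod_cast hd.ne'))
  have hFi : ∀ d, Integrable (F d) := fun d =>
    (Nc_int.norm.mul_const _).mono' (hFc d) (Filter.Eventually.of_forall fun v => hFn d v)
  have hsum : Summable fun d => ∫ v, ‖F d v‖ := by
    have h1 : Summable fun d : ℕ => (d : ℝ) ^ (-(w.re + 2)) := by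
      rw [Real.summable_nat_rpow]
      linarith
    refine Summable.of_nonneg_of_le (fun d => integral_nonneg fun v => norm_nonneg _) (fun d => ?_)
      (h1.mul_left ((∫ v : ℝ, ‖Gamma (2 + v * I)‖) * D ^ (2 : ℝ)))
    refine (integral_mono (hFi d).norm (Nc_int.norm.mul_const _) (fun v => hFn d v)).trans ?_
    rw [integral_mul_const, mul_assoc]
  have hswap := hasSum_integral_of_summable_integral_norm hFi hsum
  have hterm : ∀ d : ℕ, mu p d * (Real.exp (-d / D) : ℝ) * (d : ℂ) ^ (-w) =
      (1 / (2 * Real.pi) : ℝ) * ∫ v, F d v := by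
    intro d
    rcases Nat.eq_zero_or_pos d with rfl | hd
    · have h1 : F 0 = fun _ => 0 := by
        funext v
        rw [hF]
        simp only
        rw [hmu0, zero_mul, mul_zero]
      rw [h1, hmu0, integral_zero, zero_mul, zero_mul, mul_zero]
    · have hd0 : (0 : ℝ) < d := by exact_mod_cast hd
      have h1 := exp_mellin (d / D) (by positivity)
      have hdc : (d : ℂ) ≠ 0 := by exact_mod_cast hd.ne'
      have h2 : ∀ v : ℝ, F d v = (mu p d * (d : ℂ) ^ (-w)) *
          (Gamma (2 + v * I) * (((d : ℝ) / D : ℝ) : ℂ) ^ (-(2 + v * I))) := by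
        intro v
        have h3 : (((d : ℝ) / D : ℝ) : ℂ) ^ (-(2 + v * I)) = (d : ℂ) ^ (-(2 + v * I)) * (D : ℂ) ^ (2 + v * I) := by
          have h4 : (((d : ℝ) / D : ℝ) : ℂ) = ((d : ℝ) : ℂ) * ((D⁻¹ : ℝ) : ℂ) := by
            rw [div_eq_mul_inv]
            push_cast
            rfl
          rw [h4, mul_cpow_ofReal_nonneg hd0.le (inv_pos.2 hD0).le, ofReal_natCast]
          congr 1
          rw [ofReal_inv, inv_cpow _ _ (by rw [arg_ofReal_of_nonneg hD0.le]; exact Real.pi_pos.ne), cpow_neg, inv_inv]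
        rw [hF]
        simp only
        rw [h3, neg_add w, cpow_add _ _ hdc]
        ring
      have h3 : ∫ v, F d v = (mu p d * (d : ℂ) ^ (-w)) *
          ∫ v : ℝ, Gamma (2 + v * I) * (((d : ℝ) / D : ℝ) : ℂ) ^ (-(2 + v * I)) := by
        rw [← integral_const_mul]
        exact integral_congr_ae (Filter.Eventually.of_forall h2)
      rw [show (-(d : ℝ) / D) = -(d / D) by ring, h3, h1]
      ring
  have hser : ∀ v : ℝ, ∑' d, F d v = Gamma (2 + v * I) * (D : ℂ) ^ (2 + v * I) *
        ((riemannZeta (w + (2 + v * I)))⁻¹ /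
          ((1 - (2 : ℂ) ^ (-(w + (2 + v * I)))) * (1 - (p : ℂ) ^ (-(w + (2 + v * I)))))) := by
    intro v
    rw [← mu_series p hp hp2 (w + (2 + v * I)) (by rw [add_re, hre]; linarith), ← tsum_mul_left]
  calc ∑' d : ℕ, mu p d * (Real.exp (-d / D) : ℝ) * (d : ℂ) ^ (-w)
      = ∑' d : ℕ, (1 / (2 * Real.pi) : ℝ) * ∫ v, F d v := tsum_congr hterm
    _ = (1 / (2 * Real.pi) : ℝ) * ∫ v, ∑' d, F d v := by rw [tsum_mul_left, hswap.tsum_eq]
    _ = _ := by
        congr 1
        exact integral_congr_ae (Filter.Eventually.of_forall hser)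

end Pool.Agent.Lib.MP_d713a4_nt
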