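import Pool.Agent.Lib.MP_d713a4_nt.NfD

/-!
# LEAF Pd: a sum of the Möbius function

PROOF.  The term `d = 1` is `exp(-1/D)/2 ≥ 0.9/2` (`D ≥ 10`); the terms with `d` even are `0`; the others are at most `(1/2) ∑_(d ≥ 3 odd) 1/d² ≤ 0.24/2`: `1/d² ≤ (1/2)(1/(d-1) - 1/(d+1)) = 1/(d² - 1)`, for odd `d ≥ 5` the sum of
the right sides telescopes to `1/8`, and `1/9 + 1/8 < 0.24`.
-/

set_option autoImplicit false

namespace Pool.Agent.Lib.MP_d713a4_nt

open Complex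

private theorem Pd_sum (k : ℕ) : ∑ d ∈ Finset.Icc 2 (2 * k + 1), (if Odd d then 1 / (2 * (d : ℝ) ^ 2) else (0 : ℝ)) ≤
    1 / 8 - 1 / (4 * (2 * (k : ℝ) + 2)) := by
  induction k with
  | zero => norm_num
  | succ k ih =>
    have h1 : 2 * (k + 1) + 1 = 2 * k + 1 + 1 + 1 := by ring
    rw [h1, Finset.sum_Icc_succ_top (by omega), Finset.sum_Icc_succ_top (by omega),
      if_neg (by rw [Nat.not_odd_iff_even]; exact ⟨k + 1, by ring⟩), if_pos ⟨k + 1, by ring⟩]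
    have h2 : 1 / (2 * (((2 * k + 1 + 1 + 1 : ℕ) : ℝ)) ^ 2) ≤
        1 / (4 * (2 * (k : ℝ) + 2)) - 1 / (4 * (2 * ((k + 1 : ℕ) : ℝ) + 2)) := by
      push_cast
      rw [div_sub_div _ _ (by positivity) (by positivity), div_le_div_iff₀ (by positivity) (by positivity)]
      nlinarith [sq_nonneg (k : ℝ), (Nat.cast_nonneg k : (0 : ℝ) ≤ k)]
    push_cast at h2 ih ⊢
    have h3 : (2 * (k : ℝ) + 1 + 1 + 1) = 2 * k + 2 + 1 := by ring
    rw [h3] at h2
    linarith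

private theorem Pd_norm (p d : ℕ) : ‖mu p d‖ ≤ if Odd d then 1 else 0 := by
  unfold mu
  split_ifs with h1 h2 h2
  · rw [Complex.norm_intCast]
    exact_mod_cast ArithmeticFunction.abs_moebius_le_one
  · exfalso
    rw [Nat.not_odd_iff_even] at h2
    have h3 : d.Coprime 2 := Nat.Coprime.coprime_dvd_right (Dvd.intro _ rfl) h1
    have h4 : 2 ∣ d := h2.two_dvd
    have h5 := Nat.Coprime.eq_one_of_dvd h3.symm h4
    omega
  · rw [norm_zero]
    exact zero_le_one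
  · rw [norm_zero]

theorem mu_low (p M : ℕ) (hM : 1 ≤ M) (D : ℝ) (hD : 10 ≤ D) :
    1 / 4 ≤ ‖∑ d ∈ Finset.Icc 1 M, mu p d * (Real.exp (-d / D) / (2 * d ^ 2) : ℝ)‖ := by
  have hD0 : 0 < D := by linarith
  have h1 : ∑ d ∈ Finset.Icc 1 M, mu p d * (Real.exp (-d / D) / (2 * d ^ 2) : ℝ) =
      mu p 1 * (Real.exp (-(1 : ℕ) / D) / (2 * ((1 : ℕ) : ℝ) ^ 2) : ℝ) +
        ∑ d ∈ Finset.Icc 2 M, mu p d * (Real.exp (-d / D) / (2 * d ^ 2) : ℝ) := by
    rw [← Finset.insert_Icc_succ_left_eq_Icc hM, Finset.sum_insert (by simp)]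
    rfl
  have h2 : mu p 1 = 1 := by
    unfold mu
    rw [if_pos (Nat.coprime_one_left _)]
    simp
  have h3 : 9 / 20 ≤ ‖mu p 1 * (Real.exp (-(1 : ℕ) / D) / (2 * ((1 : ℕ) : ℝ) ^ 2) : ℝ)‖ := by
    rw [h2, one_mul, Complex.norm_real, Real.norm_of_nonneg (by positivity)]
    have h4 := Real.add_one_le_exp (-1 / D)
    have h5 : 1 / D ≤ 1 / 10 := one_div_le_one_div_of_le (by norm_num) hD
    have h6 : -1 / D = -(1 / D) := by ring
    push_cast
    rw [le_div_iff₀ (by norm_num)]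
    rw [h6] at h4 ⊢
    linarith
  have h4 : ‖∑ d ∈ Finset.Icc 2 M, mu p d * (Real.exp (-d / D) / (2 * d ^ 2) : ℝ)‖ ≤ 1 / 8 := by
    refine (norm_sum_le _ _).trans ?_
    have h5 : ∀ d ∈ Finset.Icc 2 M, ‖mu p d * (Real.exp (-d / D) / (2 * d ^ 2) : ℝ)‖ ≤
        if Odd d then 1 / (2 * (d : ℝ) ^ 2) else 0 := by
      intro d hd
      have hd2 : (2 : ℝ) ≤ d := by exact_mod_cast (Finset.mem_Icc.1 hd).1
      rw [norm_mul, Complex.norm_real, Real.norm_of_nonneg (by positivity)]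
      have h6 := Pd_norm p d
      have h7 : Real.exp (-d / D) ≤ 1 := by
        rw [Real.exp_le_one_iff]
        exact div_nonpos_of_nonpos_of_nonneg (by linarith) hD0.le
      have h8 : Real.exp (-d / D) / (2 * (d : ℝ) ^ 2) ≤ 1 / (2 * (d : ℝ) ^ 2) :=
        div_le_div_of_nonneg_right h7 (by positivity)
      by_cases ho : Odd d
      · rw [if_pos ho] at h6 ⊢
        calc ‖mu p d‖ * (Real.exp (-d / D) / (2 * (d : ℝ) ^ 2)) ≤ 1 * (1 / (2 * (d : ℝ) ^ 2)) :=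
              mul_le_mul h6 h8 (by positivity) zero_le_one
          _ = _ := one_mul _
      · rw [if_neg ho] at h6 ⊢
        have h9 : ‖mu p d‖ = 0 := le_antisymm h6 (norm_nonneg _)
        rw [h9, zero_mul]
    refine (Finset.sum_le_sum h5).trans ?_
    refine (Finset.sum_le_sum_of_subset_of_nonneg (Finset.Icc_subset_Icc_right (by omega : M ≤ 2 * M + 1))
      fun d _ _ => ?_).trans ((Pd_sum M).trans ?_)
    · split_ifs
      · positivity
      · exact le_rfl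
    · have : (0 : ℝ) ≤ 1 / (4 * (2 * M + 2)) := by positivity
      linarith
  rw [h1]
  have h5 := norm_sub_norm_le (mu p 1 * (Real.exp (-(1 : ℕ) / D) / (2 * ((1 : ℕ) : ℝ) ^ 2) : ℝ))
    (-∑ d ∈ Finset.Icc 2 M, mu p d * (Real.exp (-d / D) / (2 * d ^ 2) : ℝ))
  rw [norm_neg, sub_neg_eq_add] at h5
  linarith

end Pool.Agent.Lib.MP_d713a4_nt
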