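import Pool.Agent.Lib.MP_d713a4_nt.NfD
import Pool.Agent.Lib.MP_d713a4_nt.Ch
import Pool.Agent.Lib.MP_d713a4_nt.Ft

/-!
# LEAF Sp: decomposition over the square divisors

PROOF.  `Vf_eq`: `∑_(m odd) = ∑_m - ∑_(m even)`, `ch p (2 m) = ch p 2 ch p m`, `Tf(2 m q/X)`.
`Vf_le`: `Tf_sum` with `X/q` in place of `X`, `1 + X/q ≤ 2 X`.
`St_split`: `os n = 1_(n odd) ∑_(d² ∣ n) μ(d)` (`n ≥ 1`), so `St = ∑_(d odd) μ(d) ∑_(m odd) ch p (m d²) Tf(m d²/X)`; `ch p (m d²) = ch p m` if `p ∤ d` and `0` if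
`p ∣ d`; the double sum converges absolutely (`Tf_small`); `1 = exp(-d/D) + (1 - exp(-d/D))`.
-/

set_option autoImplicit false

namespace Pool.Agent.Lib.MP_d713a4_nt

open Complex

private theorem Sp_summ (κ X q : ℝ) (hκ : 1 ≤ κ) (hX : 0 < X) (hq : 0 < q) (lam : ℝ) :
    Summable (fun m : ℕ => ‖Tf κ lam (m * q / X)‖) := by
  obtain ⟨A, _, hA⟩ := Tf_sum κ hκ
  refine (hA lam (X / q) (div_pos hX hq)).1.congr fun m => ?_
  rw [div_div_eq_mul_div]

private theorem Sp_le (κ lam : ℝ) (p m : ℕ) (u : ℝ) : ‖ch p m * Tf κ lam u‖ ≤ ‖Tf κ lam u‖ := by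
  rw [norm_mul]
  exact mul_le_of_le_one_left (norm_nonneg _) (norm_ch_le p m)

private theorem Sp_su (κ X q : ℝ) (hκ : 1 ≤ κ) (hX : 0 < X) (hq : 0 < q) (p : ℕ) :
    Summable (fun m : ℕ => ch p m * Tf κ (X / p) (m * q / X)) :=
  Summable.of_norm_bounded (Sp_summ κ X q hκ hX hq _) fun m => Sp_le _ _ _ _ _

theorem Vf_eq (κ X q : ℝ) (hκ : 1 ≤ κ) (hX : 0 < X) (hq : 0 < q) (p : ℕ) :
    Vf κ X p q = Uf κ X p q - ch p 2 * Uf κ X p (2 * q) := by
  set a : ℕ → ℂ := fun m => ch p m * Tf κ (X / p) (m * q / X) with ha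
  have hs : Summable a := Sp_su κ X q hκ hX hq p
  have hse : Summable fun k : ℕ => a (2 * k) := hs.comp_injective fun x y h => by
    have h' : 2 * x = 2 * y := h
    omega
  have hso : Summable fun k : ℕ => a (2 * k + 1) := hs.comp_injective fun x y h => by
    have h' : 2 * x + 1 = 2 * y + 1 := h
    omega
  have h1 : ∑' k, a (2 * k) + ∑' k, a (2 * k + 1) = ∑' k, a k := tsum_even_add_odd hse hso
  have h2 : Uf κ X p q = ∑' k, a k := rfl
  have h3 : ∑' k, a (2 * k) = ch p 2 * Uf κ X p (2 * q) := by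
    unfold Uf
    rw [← tsum_mul_left]
    refine tsum_congr fun k => ?_
    rw [ha]
    simp only
    rw [ch_mul, mul_assoc]
    congr 3
    push_cast
    ring
  have h4 : Vf κ X p q = ∑' k, a (2 * k + 1) := by
    unfold Vf
    have e1 : ∀ k : ℕ, ¬ Odd (2 * k) := fun k => by simp
    have e2 : ∀ k : ℕ, Odd (2 * k + 1) := fun k => ⟨k, rfl⟩
    rw [← tsum_even_add_odd (f := fun m : ℕ => if Odd m then ch p m * Tf κ (X / p) (m * q / X) else 0)]
    · simp only [e1, e2, if_true, if_false, tsum_zero, zero_add]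
      rfl
    · simp only [e1, if_false]
      exact summable_zero
    · simp only [e2, if_true]
      exact hso
  rw [h4, h2, ← h3, ← h1]
  ring

theorem Vf_le (κ : ℝ) (hκ : 1 ≤ κ) : ∃ A : ℝ, 0 < A ∧ ∀ X q : ℝ, 1 ≤ X → 1 ≤ q → ∀ p : ℕ, ‖Vf κ X p q‖ ≤ A * X := by
  obtain ⟨A, hA0, hA⟩ := Tf_sum κ hκ
  refine ⟨A * 2, by positivity, fun X q hX hq p => ?_⟩
  have hX0 : 0 < X := by linarith
  have hq0 : 0 < q := by linarith
  obtain ⟨h1, h2⟩ := hA (X / p) (X / q) (div_pos hX0 hq0)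
  have hb : ∀ m : ℕ, ‖(if Odd m then ch p m * Tf κ (X / p) (m * q / X) else 0)‖ ≤ ‖Tf κ (X / p) (m / (X / q))‖ := by
    intro m
    rw [div_div_eq_mul_div]
    split_ifs
    · exact Sp_le _ _ _ _ _
    · rw [norm_zero]
      exact norm_nonneg _
  unfold Vf
  calc _ ≤ ∑' m : ℕ, ‖Tf κ (X / p) (m / (X / q))‖ := tsum_of_norm_bounded h1.hasSum hb
    _ ≤ A * (1 + X / q) := h2
    _ ≤ A * (X + X) := by
        apply mul_le_mul_of_nonneg_left _ hA0.le
        have : X / q ≤ X := div_le_self hX0.le hq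
        linarith
    _ = A * 2 * X := by ring

private theorem Sp_dvd {a b d : ℕ} (ha : Squarefree a) (hb : b ≠ 0) : d ^ 2 ∣ b ^ 2 * a ↔ d ∣ b := by
  constructor
  · intro h
    obtain ⟨g, hg⟩ : ∃ g, g = Nat.gcd d b := ⟨_, rfl⟩
    have hgpos : 0 < g := hg ▸ Nat.gcd_pos_of_pos_right d (Nat.pos_of_ne_zero hb)
    obtain ⟨d', b', hco, hd', hb'⟩ := Nat.exists_coprime d b
    rw [← hg] at hd' hb'
    have h1 : d' ^ 2 ∣ b' ^ 2 * a := by
      have h2 : g ^ 2 * d' ^ 2 ∣ g ^ 2 * (b' ^ 2 * a) := by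
        have e1 : g ^ 2 * d' ^ 2 = d ^ 2 := by rw [hd']; ring
        have e2 : g ^ 2 * (b' ^ 2 * a) = b ^ 2 * a := by rw [hb']; ring
        rw [e1, e2]
        exact h
      exact Nat.dvd_of_mul_dvd_mul_left (pow_pos hgpos 2) h2
    have h3 : d' ^ 2 ∣ a := (Nat.Coprime.pow 2 2 hco).dvd_of_dvd_mul_left h1
    have h4 : d' = 1 := Nat.isUnit_iff.1 (ha d' (by rw [← sq]; exact h3))
    rw [hd', h4, one_mul, hg]
    exact Nat.gcd_dvd_right d b
  · intro h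
    exact Dvd.dvd.mul_right (pow_dvd_pow_of_dvd h 2) a

private theorem Sp_mob (n : ℕ) (hn : n ≠ 0) (s : Finset ℕ) (hs : ∀ d, d ^ 2 ∣ n → d ∈ s) :
    (∑ d ∈ s, if d ^ 2 ∣ n then (ArithmeticFunction.moebius d : ℤ) else 0) = if Squarefree n then 1 else 0 := by
  obtain ⟨a, b, hab, ha⟩ := Nat.sq_mul_squarefree n
  have hb : b ≠ 0 := by
    rintro rfl
    apply hn
    rw [← hab]
    simp
  have h1 : (∑ d ∈ s, if d ^ 2 ∣ n then (ArithmeticFunction.moebius d : ℤ) else 0) =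
      ∑ d ∈ b.divisors, (ArithmeticFunction.moebius d : ℤ) := by
    rw [← Finset.sum_filter]
    congr 1
    ext d
    rw [Finset.mem_filter, Nat.mem_divisors]
    constructor
    · rintro ⟨_, h⟩
      rw [← hab, Sp_dvd ha hb] at h
      exact ⟨h, hb⟩
    · rintro ⟨h, _⟩
      have h' : d ^ 2 ∣ n := by rw [← hab, Sp_dvd ha hb]; exact h
      exact ⟨hs d h', h'⟩
  rw [h1, ← ArithmeticFunction.coe_mul_zeta_apply, ArithmeticFunction.moebius_mul_coe_zeta,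
    ArithmeticFunction.one_apply]
  congr 1
  apply propext
  constructor
  · intro h
    rw [← hab, h, one_pow, one_mul]
    exact ha
  · intro h
    exact Nat.isUnit_iff.1 (h b (by rw [← sq, ← hab]; exact Dvd.intro _ rfl))

private theorem Sp_mu_le (p d : ℕ) : ‖mu p d‖ ≤ 1 := by
  unfold mu
  split_ifs
  · rw [Complex.norm_intCast]
    exact_mod_cast ArithmeticFunction.abs_moebius_le_one
  · rw [norm_zero]
    exact zero_le_one

open Classical in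
private noncomputable def Sp_G (κ X : ℝ) (p : ℕ) (d n : ℕ) : ℂ :=
  if d ^ 2 ∣ n ∧ Odd n then mu p d * (ch p n * Tf κ (X / p) (n / X)) else 0

private theorem Sp_bound (κ X : ℝ) (hκ : 1 ≤ κ) (hX : 0 < X) (p : ℕ) :
    ∃ C : ℝ, ∀ d n : ℕ, ‖Sp_G κ X p d n‖ ≤ C * ((d : ℝ) ^ (-(3 / 2) : ℝ) * (n : ℝ) ^ (-(5 / 4) : ℝ)) := by
  obtain ⟨A, hA0, hA⟩ := Tf_small κ hκ
  refine ⟨A * X ^ 2, fun d n => ?_⟩
  have hnn : 0 ≤ A * X ^ 2 * ((d : ℝ) ^ (-(3 / 2) : ℝ) * (n : ℝ) ^ (-(5 / 4) : ℝ)) := by positivity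
  unfold Sp_G
  split_ifs with h
  swap
  · rw [norm_zero]
    exact hnn
  obtain ⟨h1, h2⟩ := h
  have hn : 0 < n := h2.pos
  have hd : 0 < d := by
    rcases Nat.eq_zero_or_pos d with h0 | h0
    · rw [h0] at h1
      simp at h1
      omega
    · exact h0
  have hnR : (0 : ℝ) < n := by exact_mod_cast hn
  have hdR : (0 : ℝ) < d := by exact_mod_cast hd
  have h3 : ‖Tf κ (X / p) (n / X)‖ ≤ A * ((n : ℝ) / X) ^ (-2 : ℝ) := (hA (X / p) (n / X) (div_pos hnR hX)).1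
  have h4 : ((n : ℝ) / X) ^ (-2 : ℝ) = X ^ 2 * (n : ℝ) ^ (-2 : ℝ) := by
    rw [Real.div_rpow hnR.le hX.le, Real.rpow_neg hX.le, Real.rpow_two, div_inv_eq_mul, mul_comm]
  have h5 : (n : ℝ) ^ (-2 : ℝ) ≤ (d : ℝ) ^ (-(3 / 2) : ℝ) * (n : ℝ) ^ (-(5 / 4) : ℝ) := by
    have e1 : (n : ℝ) ^ (-2 : ℝ) = (n : ℝ) ^ (-(3 / 4) : ℝ) * (n : ℝ) ^ (-(5 / 4) : ℝ) := by
      rw [← Real.rpow_add hnR]
      norm_num
    have e2 : (d : ℝ) ^ (-(3 / 2) : ℝ) = ((d : ℝ) ^ 2) ^ (-(3 / 4) : ℝ) := by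
      rw [← Real.rpow_natCast, ← Real.rpow_mul hdR.le]
      norm_num
    have e3 : (d : ℝ) ^ 2 ≤ n := by
      have := Nat.le_of_dvd hn h1
      exact_mod_cast this
    rw [e1, e2]
    apply mul_le_mul_of_nonneg_right _ (by positivity)
    exact Real.rpow_le_rpow_of_nonpos (by positivity) e3 (by norm_num)
  calc ‖mu p d * (ch p n * Tf κ (X / p) (n / X))‖ = ‖mu p d‖ * ‖ch p n * Tf κ (X / p) (n / X)‖ := norm_mul _ _
    _ ≤ 1 * ‖Tf κ (X / p) (n / X)‖ := mul_le_mul (Sp_mu_le p d) (Sp_le _ _ _ _ _) (norm_nonneg _) zero_le_one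
    _ ≤ A * ((n : ℝ) / X) ^ (-2 : ℝ) := by rw [one_mul]; exact h3
    _ = A * X ^ 2 * (n : ℝ) ^ (-2 : ℝ) := by rw [h4]; ring
    _ ≤ A * X ^ 2 * ((d : ℝ) ^ (-(3 / 2) : ℝ) * (n : ℝ) ^ (-(5 / 4) : ℝ)) :=
        mul_le_mul_of_nonneg_left h5 (by positivity)

private theorem Sp_s1 : Summable fun d : ℕ => (d : ℝ) ^ (-(3 / 2) : ℝ) :=
  Real.summable_nat_rpow.2 (by norm_num)

private theorem Sp_s2 : Summable fun d : ℕ => (d : ℝ) ^ (-(5 / 4) : ℝ) :=
  Real.summable_nat_rpow.2 (by norm_num)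

private theorem Sp_row (κ X : ℝ) (hX : 0 < X) (p : ℕ) (hp : p.Prime) (hp2 : 2 < p) (n : ℕ) :
    ∑' d : ℕ, Sp_G κ X p d n = os n * ch p n * Tf κ (X / p) (n / X) := by
  classical
  by_cases ho : Odd n
  swap
  · have h1 : ∀ d, Sp_G κ X p d n = 0 := fun d => by
      unfold Sp_G
      rw [if_neg (fun h => ho h.2)]
    have h2 : os n = 0 := by
      unfold os
      rw [if_neg (fun h => ho h.1)]
    simp only [h1, tsum_zero, h2, zero_mul]
  have hn : 0 < n := ho.pos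
  by_cases hpn : p ∣ n
  · have h0 : ch p n = 0 := by
      unfold ch
      have h3 : jacobiSym (n : ℤ) p = 0 := by
        have : NeZero p := ⟨hp.ne_zero⟩
        rw [jacobiSym.eq_zero_iff_not_coprime, Int.gcd_natCast_natCast]
        intro h
        exact (Nat.Prime.coprime_iff_not_dvd hp).1 (Nat.coprime_comm.1 h) hpn
      rw [h3]
      norm_num
    have h1 : ∀ d, Sp_G κ X p d n = 0 := fun d => by
      unfold Sp_G
      rw [h0]
      simp
    simp only [h1, tsum_zero, h0, mul_zero, zero_mul]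
  have hG : ∀ d, Sp_G κ X p d n = (if d ^ 2 ∣ n then ((ArithmeticFunction.moebius d : ℤ) : ℂ) else 0) *
      (ch p n * Tf κ (X / p) (n / X)) := by
    intro d
    unfold Sp_G
    by_cases hd : d ^ 2 ∣ n
    · rw [if_pos ⟨hd, ho⟩, if_pos hd]
      have hdn : d ∣ n := (Dvd.intro_left _ (by rw [← sq])).trans hd
      have hcop : Nat.Coprime d (2 * p) := by
        apply Nat.Coprime.mul_right
        · exact Nat.Coprime.coprime_dvd_left hdn (Nat.coprime_two_right.2 ho)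
        · exact Nat.Coprime.coprime_dvd_left hdn
            (Nat.coprime_comm.1 ((Nat.Prime.coprime_iff_not_dvd hp).2 hpn))
      unfold mu
      rw [if_pos hcop]
    · rw [if_neg (fun h => hd h.1), if_neg hd, zero_mul]
  have hfin : ∀ d ∉ Finset.range (n + 1), Sp_G κ X p d n = 0 := by
    intro d hd
    rw [hG, if_neg, zero_mul]
    intro h
    apply hd
    rw [Finset.mem_range]
    have h1 := Nat.le_of_dvd hn h
    have h2 : d ≤ d ^ 2 := Nat.le_self_pow two_ne_zero d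
    omega
  rw [tsum_eq_sum hfin, Finset.sum_congr rfl fun d _ => hG d, ← Finset.sum_mul]
  have hm := Sp_mob n hn.ne' (Finset.range (n + 1)) (fun d h => by
    rw [Finset.mem_range]
    have h1 := Nat.le_of_dvd hn h
    have h2 : d ≤ d ^ 2 := Nat.le_self_pow two_ne_zero d
    omega)
  have hm' : (∑ d ∈ Finset.range (n + 1), if d ^ 2 ∣ n then ((ArithmeticFunction.moebius d : ℤ) : ℂ) else 0) =
      os n := by
    have h1 := congrArg (fun z : ℤ => (z : ℂ)) hm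
    simp only [Int.cast_sum, Int.cast_ite, Int.cast_zero, Int.cast_one] at h1
    rw [h1]
    unfold os
    by_cases hsq : Squarefree n
    · rw [if_pos hsq, if_pos ⟨ho, hsq⟩]
    · rw [if_neg hsq, if_neg (fun h => hsq h.2)]
  rw [hm']
  ring

private theorem Sp_col (κ X : ℝ) (hX : 0 < X) (p : ℕ) (hp : p.Prime) (hp2 : 2 < p) (d : ℕ) :
    ∑' n : ℕ, Sp_G κ X p d n = mu p d * Vf κ X p (d ^ 2) := by
  classical
  by_cases hc : Nat.Coprime d (2 * p)
  swap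
  · have h0 : mu p d = 0 := by
      unfold mu
      rw [if_neg hc]
    have h1 : ∀ n, Sp_G κ X p d n = 0 := fun n => by
      unfold Sp_G
      rw [h0]
      simp
    simp only [h1, tsum_zero, h0, zero_mul]
  have hd0 : d ≠ 0 := by
    rintro rfl
    rw [Nat.coprime_zero_left] at hc
    omega
  have hdo : Odd d := Nat.coprime_two_right.1 (Nat.Coprime.coprime_mul_right_right hc)
  have hpd : ¬ p ∣ d := by
    have h1 : Nat.Coprime d p := Nat.Coprime.coprime_mul_left_right hc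
    exact (Nat.Prime.coprime_iff_not_dvd hp).1 (Nat.coprime_comm.1 h1)
  have hinj : Function.Injective fun m : ℕ => m * d ^ 2 := fun x y h =>
    Nat.eq_of_mul_eq_mul_right (pow_pos (Nat.pos_of_ne_zero hd0) 2) h
  have hsup : Function.support (Sp_G κ X p d) ⊆ Set.range fun m : ℕ => m * d ^ 2 := by
    intro n hn
    rw [Function.mem_support] at hn
    by_contra hcon
    apply hn
    unfold Sp_G
    rw [if_neg]
    rintro ⟨⟨m, hm⟩, _⟩
    exact hcon ⟨m, by rw [hm]; exact mul_comm _ _⟩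
  rw [← hinj.tsum_eq hsup]
  unfold Vf
  rw [← tsum_mul_left]
  refine tsum_congr fun m => ?_
  unfold Sp_G
  have hod : Odd (m * d ^ 2) ↔ Odd m := by
    rw [Nat.odd_mul]
    exact ⟨fun h => h.1, fun h => ⟨h, hdo.pow⟩⟩
  by_cases hm : Odd m
  · rw [if_pos ⟨Dvd.intro_left m rfl, hod.2 hm⟩, if_pos hm, ch_mul, ch_sq p d hp hpd, mul_one]
    push_cast
    rfl
  · rw [if_neg (fun h => hm (hod.1 h.2)), if_neg hm, mul_zero]

theorem St_split (κ X D : ℝ) (hκ : 1 ≤ κ) (hX : 0 < X) (hD : 1 ≤ D) (p : ℕ) (hp : p.Prime) (hp2 : 2 < p) :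
    St κ X p = P1 κ X p D + P2 κ X p D := by
  obtain ⟨C, hC⟩ := Sp_bound κ X hκ hX p
  have hsum : Summable (Function.uncurry (Sp_G κ X p)) := by
    have h1 : Summable fun z : ℕ × ℕ => (z.1 : ℝ) ^ (-(3 / 2) : ℝ) * (z.2 : ℝ) ^ (-(5 / 4) : ℝ) :=
      Sp_s1.mul_of_nonneg Sp_s2 (fun _ => by positivity) (fun _ => by positivity)
    exact Summable.of_norm_bounded (h1.mul_left C) fun z => hC z.1 z.2
  have hB : ∀ d : ℕ, ‖mu p d * Vf κ X p (d ^ 2)‖ ≤
      C * (∑' n : ℕ, (n : ℝ) ^ (-(5 / 4) : ℝ)) * (d : ℝ) ^ (-(3 / 2) : ℝ) := by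
    intro d
    rw [← Sp_col κ X hX p hp hp2 d]
    have h2 : HasSum (fun n : ℕ => C * ((d : ℝ) ^ (-(3 / 2) : ℝ) * (n : ℝ) ^ (-(5 / 4) : ℝ)))
        (C * ((d : ℝ) ^ (-(3 / 2) : ℝ) * ∑' n : ℕ, (n : ℝ) ^ (-(5 / 4) : ℝ))) :=
      (Sp_s2.hasSum.mul_left _).mul_left C
    calc _ ≤ C * ((d : ℝ) ^ (-(3 / 2) : ℝ) * ∑' n : ℕ, (n : ℝ) ^ (-(5 / 4) : ℝ)) :=
          tsum_of_norm_bounded h2 fun n => hC d n
      _ = _ := by ring
  have hw : ∀ w : ℕ → ℝ, (∀ d, 0 ≤ w d ∧ w d ≤ 1) →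
      Summable fun d : ℕ => mu p d * (w d : ℝ) * Vf κ X p (d ^ 2) := by
    intro w hw
    refine Summable.of_norm_bounded (Sp_s1.mul_left (C * ∑' n : ℕ, (n : ℝ) ^ (-(5 / 4) : ℝ))) fun d => ?_
    refine le_trans ?_ (hB d)
    have e1 : mu p d * (w d : ℝ) * Vf κ X p (d ^ 2) = (w d : ℝ) * (mu p d * Vf κ X p (d ^ 2)) := by ring
    rw [e1, norm_mul, Complex.norm_real, Real.norm_of_nonneg (hw d).1]
    exact mul_le_of_le_one_left (norm_nonneg _) (hw d).2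
  have hexp : ∀ d : ℕ, 0 ≤ Real.exp (-d / D) ∧ Real.exp (-d / D) ≤ 1 := fun d =>
    ⟨(Real.exp_pos _).le, Real.exp_le_one_iff.2 (div_nonpos_of_nonpos_of_nonneg
      (neg_nonpos.2 (Nat.cast_nonneg d)) (by linarith))⟩
  have hs1 := hw (fun d => Real.exp (-d / D)) hexp
  have hs2 := hw (fun d => 1 - Real.exp (-d / D)) (fun d => ⟨by linarith [(hexp d).2], by linarith [(hexp d).1]⟩)
  have h3 : P1 κ X p D + P2 κ X p D = ∑' d : ℕ, mu p d * Vf κ X p (d ^ 2) := by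
    unfold P1 P2
    rw [← hs1.tsum_add hs2]
    refine tsum_congr fun d => ?_
    push_cast
    ring
  rw [h3]
  calc St κ X p = ∑' n : ℕ, ∑' d : ℕ, Sp_G κ X p d n := by
        unfold St
        exact tsum_congr fun n => (Sp_row κ X hX p hp hp2 n).symm
    _ = ∑' d : ℕ, ∑' n : ℕ, Sp_G κ X p d n := hsum.tsum_comm
    _ = _ := tsum_congr fun d => Sp_col κ X hX p hp hp2 d

end Pool.Agent.Lib.MP_d713a4_nt
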