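import Pool.Agent.Lib.MP_d713a4_nt.Um
import Pool.Agent.Lib.MP_d713a4_nt.Sp
import Pool.Agent.Lib.MP_d713a4_nt.Pd

/-!
# LEAF Pa: the small square divisors

PROOF.  `λ = X/p`, `D = λ^(1/4)`, `M = ⌊λ^(3/8)⌋`.  For `d ≤ M`, `d` prime to `2 p`: `2 d² ≤ 2 λ^(3/4) ≤ λ` (large `λ`), by `Vf_eq`, `ch_two`, `Uf_main` for `q = d²` and `q = 2 d²`,
`ch p (3 d²) = ch p (6 d²) = ch p 3` (`p ∤ d`): `Vf(d²) = tau λ Γ(κ+1) ch p 3/(2 d²) + O(√p λ (2 λ^(-1/4))^(κ+1))`; the errors add up to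
`O(√p λ λ^(3/8) λ^(-(κ+1)/4))`, which is `o(√p λ)` because `κ ≥ 1`.
For `d > M`: `exp(-d/D) ≤ exp(-d/(2D)) exp(-λ^(1/8)/2)`, `Vf_le`: in total at most `A X 4 D exp(-λ^(1/8)/2) = o(√p λ)` (`λ ≥ p^(a/2)`, `X = λ p`).
Main term: `‖tau p‖ = √p`, `‖ch p 3‖ = 1` (`p ≥ 17`), `mu_low`.
-/

set_option autoImplicit false

namespace Pool.Agent.Lib.MP_d713a4_nt

open Complex

private theorem Pa_mu_le (p d : ℕ) : ‖mu p d‖ ≤ 1 := by
  unfold mu
  split_ifs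
  · rw [Complex.norm_intCast]
    exact_mod_cast ArithmeticFunction.abs_moebius_le_one
  · simp

private theorem Pa_mu_zero (p : ℕ) (hp : p.Prime) : mu p 0 = 0 := by
  unfold mu
  rw [if_neg]
  rw [Nat.coprime_zero_left]
  have := hp.two_le
  omega

/-- one term -/
private theorem Pa_term (κ : ℝ) (hκ : 1 ≤ κ) (A : ℝ) (hA0 : 0 < A)
    (hA : ∀ (p : ℕ) [NeZero p], p.Prime → p % 8 = 1 → ∀ X : ℝ, 1 ≤ X / p →
      ∀ q : ℕ, 1 ≤ q → (q : ℝ) ≤ X / p →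
      ‖Uf κ X p q - tau p * (X / p / q * Real.Gamma (κ + 1) : ℝ) * ch p (3 * q)‖ ≤
        A * Real.sqrt p * (X / p) * (q / (X / p)) ^ (κ + 1))
    (p : ℕ) [NeZero p] (hp : p.Prime) (h8 : p % 8 = 1) (X lam : ℝ) (hlam : X / p = lam) (hl : 1 ≤ lam)
    (hX : 0 < X) (d : ℕ) (hd : 1 ≤ d) (hcop : Nat.Coprime d (2 * p)) (h2 : 2 * (d : ℝ) ^ 2 ≤ lam) :
    ‖Vf κ X p ((d : ℝ) ^ 2) - tau p * (lam * Real.Gamma (κ + 1) : ℝ) * ch p 3 * (1 / (2 * (d : ℝ) ^ 2) : ℝ)‖ ≤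
      2 * A * Real.sqrt p * lam * (2 * (d : ℝ) ^ 2 / lam) ^ (κ + 1) := by
  have hl0 : 0 < lam := by linarith
  have hd0 : (0 : ℝ) < d := by exact_mod_cast hd
  have hpd : ¬ p ∣ d := by
    intro h
    have h1 : Nat.Coprime d p := hcop.coprime_dvd_right (Dvd.intro_left 2 rfl)
    exact hp.one_lt.ne' (Nat.eq_one_of_dvd_coprimes h1 h dvd_rfl)
  have h1 := hA p hp h8 X (by rw [hlam]; exact hl) (d ^ 2) (Nat.one_le_pow _ _ hd) (by
    rw [hlam]; push_cast; nlinarith [sq_nonneg (d : ℝ)])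
  have h3 := hA p hp h8 X (by rw [hlam]; exact hl) (2 * d ^ 2) (by
    have := Nat.one_le_pow 2 d hd
    omega) (by rw [hlam]; push_cast; exact h2)
  rw [hlam] at h1 h3
  have hc1 : ch p (3 * d ^ 2) = ch p 3 := by
    rw [ch_mul, ch_sq p d hp hpd, mul_one]
  have hc2 : ch p (3 * (2 * d ^ 2)) = ch p 3 := by
    rw [ch_mul, ch_mul, ch_sq p d hp hpd, ch_two p hp h8, one_mul, mul_one]
  rw [hc1] at h1
  rw [hc2] at h3
  have hV := Vf_eq κ X ((d : ℝ) ^ 2) hκ hX (by positivity) p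
  rw [ch_two p hp h8, one_mul] at hV
  have hq1 : (((d ^ 2 : ℕ) : ℝ)) = (d : ℝ) ^ 2 := by push_cast; rfl
  have hq2 : (((2 * d ^ 2 : ℕ) : ℝ)) = 2 * (d : ℝ) ^ 2 := by push_cast; rfl
  rw [hq1] at h1
  rw [hq2] at h3
  set E1 := Uf κ X p ((d : ℝ) ^ 2) - tau p * (lam / (d : ℝ) ^ 2 * Real.Gamma (κ + 1) : ℝ) * ch p 3 with hE1
  set E2 := Uf κ X p (2 * (d : ℝ) ^ 2) - tau p * (lam / (2 * (d : ℝ) ^ 2) * Real.Gamma (κ + 1) : ℝ) * ch p 3
    with hE2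
  have he : Vf κ X p ((d : ℝ) ^ 2) - tau p * (lam * Real.Gamma (κ + 1) : ℝ) * ch p 3 *
      (1 / (2 * (d : ℝ) ^ 2) : ℝ) = E1 - E2 := by
    rw [hV, hE1, hE2]
    have h5 : ((lam / (d : ℝ) ^ 2 * Real.Gamma (κ + 1) : ℝ) : ℂ) -
        ((lam / (2 * (d : ℝ) ^ 2) * Real.Gamma (κ + 1) : ℝ) : ℂ) =
        ((lam * Real.Gamma (κ + 1) : ℝ) : ℂ) * ((1 / (2 * (d : ℝ) ^ 2) : ℝ) : ℂ) := by
      rw [← Complex.ofReal_sub, ← Complex.ofReal_mul]
      congr 1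
      field_simp
      ring
    have h6 : tau p * ((lam * Real.Gamma (κ + 1) : ℝ) : ℂ) * ch p 3 * ((1 / (2 * (d : ℝ) ^ 2) : ℝ) : ℂ) =
        tau p * (((lam / (d : ℝ) ^ 2 * Real.Gamma (κ + 1) : ℝ) : ℂ) -
        ((lam / (2 * (d : ℝ) ^ 2) * Real.Gamma (κ + 1) : ℝ) : ℂ)) * ch p 3 := by
      rw [h5]; ring
    rw [h6]
    ring
  rw [he]
  have h7 : ((d : ℝ) ^ 2 / lam) ^ (κ + 1) ≤ (2 * (d : ℝ) ^ 2 / lam) ^ (κ + 1) := by
    apply Real.rpow_le_rpow (by positivity) _ (by linarith)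
    apply div_le_div_of_nonneg_right _ hl0.le
    nlinarith [sq_nonneg (d : ℝ)]
  have h8' : 0 ≤ A * Real.sqrt p * lam := by positivity
  calc ‖E1 - E2‖ ≤ ‖E1‖ + ‖E2‖ := norm_sub_le _ _
    _ ≤ A * Real.sqrt p * lam * ((d : ℝ) ^ 2 / lam) ^ (κ + 1) +
        A * Real.sqrt p * lam * (2 * (d : ℝ) ^ 2 / lam) ^ (κ + 1) := add_le_add h1 h3
    _ ≤ A * Real.sqrt p * lam * (2 * (d : ℝ) ^ 2 / lam) ^ (κ + 1) +
        A * Real.sqrt p * lam * (2 * (d : ℝ) ^ 2 / lam) ^ (κ + 1) :=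
        add_le_add (mul_le_mul_of_nonneg_left h7 h8') le_rfl
    _ = _ := by ring

/-- the conditions on `λ` -/
private theorem Pa_large (b A B δ : ℝ) (hδ : 0 < δ) : ∃ L : ℝ, 1 ≤ L ∧ ∀ lam : ℝ, L ≤ lam →
    10 ≤ lam ^ (1 / 4 : ℝ) ∧ A * lam ^ (-(1 / 8) : ℝ) ≤ δ ∧ B * (lam ^ b * Real.exp (-lam ^ (1 / 8 : ℝ))) ≤ δ := by
  have h1 : ∀ᶠ lam : ℝ in Filter.atTop, 10 ≤ lam ^ (1 / 4 : ℝ) :=
    (tendsto_rpow_atTop (by norm_num : (0 : ℝ) < 1 / 4)).eventually_ge_atTop 10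
  have h2 : ∀ᶠ lam : ℝ in Filter.atTop, A * lam ^ (-(1 / 8) : ℝ) ≤ δ := by
    have h := (tendsto_rpow_neg_atTop (by norm_num : (0 : ℝ) < 1 / 8)).const_mul A
    rw [mul_zero] at h
    exact (h.eventually_lt_const hδ).mono fun x hx => hx.le
  have h3 : ∀ᶠ lam : ℝ in Filter.atTop, B * (lam ^ b * Real.exp (-lam ^ (1 / 8 : ℝ))) ≤ δ := by
    have h := (tendsto_rpow_mul_exp_neg_mul_atTop_nhds_zero (8 * b) 1 one_pos).comp
      (tendsto_rpow_atTop (by norm_num : (0 : ℝ) < 1 / 8))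
    have h' := h.const_mul B
    rw [mul_zero] at h'
    filter_upwards [h'.eventually_lt_const hδ, Filter.eventually_gt_atTop 0] with x hx hx0
    refine le_trans (le_of_eq ?_) hx.le
    simp only [Function.comp]
    rw [← Real.rpow_mul hx0.le]
    congr 2
    · congr 1
      ring
    · ring_nf
  obtain ⟨L, hL⟩ := Filter.eventually_atTop.1 (h1.and (h2.and h3))
  exact ⟨max 1 L, le_max_left _ _, fun lam hlam => hL lam ((le_max_right _ _).trans hlam)⟩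

/-- a geometric sum -/
private theorem Pa_geom {D : ℝ} (hD : 1 ≤ D) : Summable (fun i : ℕ => Real.exp (-(i : ℝ) / D)) ∧
    ∑' i : ℕ, Real.exp (-(i : ℝ) / D) ≤ 2 * D := by
  have hD0 : 0 < D := by linarith
  have h1 : (fun i : ℕ => Real.exp (-(i : ℝ) / D)) = fun i : ℕ => (Real.exp (-1 / D)) ^ i := by
    funext i
    rw [← Real.exp_nat_mul]
    congr 1
    ring
  have h2 : Real.exp (-1 / D) < 1 := by
    rw [Real.exp_lt_one_iff]
    exact div_neg_of_neg_of_pos (by norm_num) hD0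
  have h0 : 0 ≤ Real.exp (-1 / D) := (Real.exp_pos _).le
  rw [h1]
  refine ⟨summable_geometric_of_lt_one h0 h2, ?_⟩
  rw [tsum_geometric_of_lt_one h0 h2]
  -- `exp (-t) ≤ 1 / (1 + t)`, so `1 / (1 - exp (-t)) ≤ (1 + t) / t = D + 1`
  have h3 : Real.exp (-1 / D) * (1 + 1 / D) ≤ 1 := by
    have h4 : 1 + 1 / D ≤ Real.exp (1 / D) := by
      have := Real.add_one_le_exp (1 / D)
      linarith
    calc Real.exp (-1 / D) * (1 + 1 / D) ≤ Real.exp (-1 / D) * Real.exp (1 / D) :=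
          mul_le_mul_of_nonneg_left h4 h0
      _ = 1 := by rw [← Real.exp_add]; ring_nf; exact Real.exp_zero
  have h5 : 1 ≤ (2 * D) * (1 - Real.exp (-1 / D)) := by
    have h6 : Real.exp (-1 / D) * (D + 1) ≤ D := by
      have h7 : Real.exp (-1 / D) * (D + 1) = D * (Real.exp (-1 / D) * (1 + 1 / D)) := by
        field_simp
      rw [h7]
      nlinarith
    nlinarith
  rw [inv_le_comm₀ (by linarith) (by linarith)]
  rw [inv_eq_one_div, div_le_iff₀ (by linarith)]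
  linarith

theorem P1_low (a κ : ℝ) (ha : 0 < a) (ha1 : a ≤ 1) (hκ : 1 ≤ κ) : ∃ c : ℝ, 0 < c ∧ ∃ p₀ : ℕ, ∀ p : ℕ, p.Prime → p % 8 = 1 →
    p₀ ≤ p → ∀ X : ℝ, (p : ℝ) ^ (a / 2) ≤ X / p → X / p ≤ (p : ℝ) ^ a →
    c * (X / p) * Real.sqrt p ≤ ‖P1 κ X p ((X / p) ^ (1 / 4 : ℝ))‖ := by
  obtain ⟨A, hA0, hA⟩ := Uf_main κ hκ
  obtain ⟨B, hB0, hB⟩ := Vf_le κ hκ
  have hΓ : 0 < Real.Gamma (κ + 1) := Real.Gamma_pos_of_pos (by linarith)
  obtain ⟨L, hL1, hL⟩ := Pa_large (1 / a + 1 / 4) (8 * A) (2 * B) (Real.Gamma (κ + 1) / 16) (by positivity)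
  obtain ⟨p₀, hp₀⟩ : ∃ p₀ : ℕ, ∀ p : ℕ, p₀ ≤ p → L ≤ (p : ℝ) ^ (a / 2) := by
    have h := (tendsto_rpow_atTop (by linarith : 0 < a / 2)).comp tendsto_natCast_atTop_atTop
    exact Filter.eventually_atTop.1 (h.eventually_ge_atTop L)
  refine ⟨Real.Gamma (κ + 1) / 8, by positivity, max p₀ 17, ?_⟩
  intro p hp h8 hpp X hX1 hX2
  haveI : NeZero p := ⟨hp.ne_zero⟩
  have hp0 : (0 : ℝ) < p := by exact_mod_cast hp.pos
  have hp17 : 17 ≤ p := (le_max_right _ _).trans hpp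
  obtain ⟨lam, hlam⟩ : ∃ lam, X / p = lam := ⟨_, rfl⟩
  rw [hlam] at hX1 hX2 ⊢
  have hLl : L ≤ lam := (hp₀ p ((le_max_left _ _).trans hpp)).trans hX1
  obtain ⟨hl1, hl2, hl3⟩ := hL lam hLl
  have hlam1 : 1 ≤ lam := hL1.trans hLl
  have hlam0 : 0 < lam := by linarith
  have hXe : X = lam * p := by
    rw [← hlam]
    field_simp
  have hXpos : 0 < X := by rw [hXe]; positivity
  have hXge : 1 ≤ X := by
    rw [hXe]
    have : (1 : ℝ) ≤ p := by exact_mod_cast hp.one_lt.le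
    nlinarith
  set D := lam ^ (1 / 4 : ℝ) with hD
  have hD1 : 1 ≤ D := by linarith
  have hD0 : 0 < D := by linarith
  set M := ⌊lam ^ (3 / 8 : ℝ)⌋₊ with hM
  have hM1 : 1 ≤ M := by
    rw [hM, Nat.one_le_floor_iff]
    exact Real.one_le_rpow hlam1 (by norm_num)
  have hMle : (M : ℝ) ≤ lam ^ (3 / 8 : ℝ) := Nat.floor_le (by positivity)
  have hMlt : lam ^ (3 / 8 : ℝ) ≤ (M : ℝ) + 1 := (Nat.lt_floor_add_one _).le
  have h38 : lam ^ (3 / 8 : ℝ) / D = lam ^ (1 / 8 : ℝ) := by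
    rw [hD, ← Real.rpow_sub hlam0]
    norm_num
  -- the terms
  set g : ℕ → ℂ := fun d => mu p d * (Real.exp (-d / D) : ℝ) * Vf κ X p (d ^ 2) with hg
  have hgle : ∀ d : ℕ, ‖g d‖ ≤ B * X * Real.exp (-(d : ℝ) / D) := by
    intro d
    rcases Nat.eq_zero_or_pos d with rfl | hd
    · simp only [hg]
      rw [Pa_mu_zero p hp, zero_mul, zero_mul, norm_zero]
      positivity
    · simp only [hg]
      rw [norm_mul, norm_mul, Complex.norm_real, Real.norm_eq_abs, abs_of_pos (Real.exp_pos _)]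
      have h1 : (1 : ℝ) ≤ (d : ℝ) ^ 2 := one_le_pow₀ (by exact_mod_cast hd)
      have h2 := hB X ((d : ℝ) ^ 2) hXge h1 p
      have h3 := Pa_mu_le p d
      have h4 := (Real.exp_pos (-(d : ℝ) / D)).le
      calc ‖mu p d‖ * Real.exp (-(d : ℝ) / D) * ‖Vf κ X p ((d : ℝ) ^ 2)‖ ≤
            1 * Real.exp (-(d : ℝ) / D) * (B * X) := by gcongr
        _ = B * X * Real.exp (-(d : ℝ) / D) := by ring
  obtain ⟨hgs, hgt⟩ := Pa_geom hD1
  have hsum : Summable g := by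
    apply Summable.of_norm_bounded (g := fun d : ℕ => B * X * Real.exp (-(d : ℝ) / D)) (hgs.mul_left _) hgle
  have hP1 : P1 κ X p D = ∑ d ∈ Finset.range (M + 1), g d + ∑' i : ℕ, g (i + (M + 1)) := by
    unfold P1
    exact (hsum.sum_add_tsum_nat_add (M + 1)).symm
  -- the tail
  have htail : ‖∑' i : ℕ, g (i + (M + 1))‖ ≤ Real.Gamma (κ + 1) / 16 * (lam * Real.sqrt p) := by
    have h1 : ∀ i : ℕ, ‖g (i + (M + 1))‖ ≤ B * X * Real.exp (-lam ^ (1 / 8 : ℝ)) * Real.exp (-(i : ℝ) / D) := by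
      intro i
      refine (hgle _).trans ?_
      rw [mul_assoc (B * X), ← Real.exp_add]
      apply mul_le_mul_of_nonneg_left _ (by positivity)
      apply Real.exp_le_exp.2
      push_cast
      have h2 : -((i : ℝ) + (M + 1)) / D = -((M : ℝ) + 1) / D + -(i : ℝ) / D := by ring
      rw [h2]
      have h3 : lam ^ (1 / 8 : ℝ) ≤ ((M : ℝ) + 1) / D := by
        rw [← h38]
        exact div_le_div_of_nonneg_right hMlt hD0.le
      have h4 : -((M : ℝ) + 1) / D = -(((M : ℝ) + 1) / D) := by ring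
      rw [h4]
      linarith
    have h2 : ‖∑' i : ℕ, g (i + (M + 1))‖ ≤
        ∑' i : ℕ, B * X * Real.exp (-lam ^ (1 / 8 : ℝ)) * Real.exp (-(i : ℝ) / D) :=
      tsum_of_norm_bounded (hgs.mul_left _).hasSum h1
    rw [tsum_mul_left] at h2
    have h3 : B * X * Real.exp (-lam ^ (1 / 8 : ℝ)) * ∑' i : ℕ, Real.exp (-(i : ℝ) / D) ≤
        B * X * Real.exp (-lam ^ (1 / 8 : ℝ)) * (2 * D) :=
      mul_le_mul_of_nonneg_left hgt (by positivity)
    refine h2.trans (h3.trans ?_)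
    -- `√p ≤ λ^(1/a)`
    have h4 : Real.sqrt p ≤ lam ^ (1 / a) := by
      have h5 : ((p : ℝ) ^ (a / 2)) ^ (1 / a) ≤ lam ^ (1 / a) :=
        Real.rpow_le_rpow (by positivity) hX1 (by positivity)
      rw [← Real.rpow_mul hp0.le] at h5
      rw [Real.sqrt_eq_rpow]
      have h6 : a / 2 * (1 / a) = 1 / 2 := by field_simp
      rwa [h6] at h5
    have h7 : (p : ℝ) = Real.sqrt p * Real.sqrt p := (Real.mul_self_sqrt hp0.le).symm
    have h8' : B * X * Real.exp (-lam ^ (1 / 8 : ℝ)) * (2 * D) =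
        (2 * B * (Real.sqrt p * D * Real.exp (-lam ^ (1 / 8 : ℝ)))) * (lam * Real.sqrt p) := by
      rw [hXe]
      conv_lhs => rw [h7]
      ring
    rw [h8']
    apply mul_le_mul_of_nonneg_right _ (by positivity)
    refine le_trans ?_ hl3
    have h9 : lam ^ (1 / a + 1 / 4) = lam ^ (1 / a) * D := by
      rw [hD, ← Real.rpow_add hlam0]
    rw [h9]
    have h10 : 0 ≤ Real.exp (-lam ^ (1 / 8 : ℝ)) := (Real.exp_pos _).le
    gcongr
  -- the main part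
  set T : ℂ := tau p * (lam * Real.Gamma (κ + 1) : ℝ) * ch p 3 with hT
  have hnT : ‖T‖ = Real.sqrt p * (lam * Real.Gamma (κ + 1)) := by
    rw [hT, norm_mul, norm_mul, norm_tau p hp (by omega), Complex.norm_real, Real.norm_eq_abs,
      abs_of_pos (by positivity), norm_ch p 3 hp (by
        intro h
        have := Nat.le_of_dvd (by norm_num) h
        omega), mul_one]
  set Q : ℝ := 8 * A * lam ^ (-(1 / 8) : ℝ) with hQ
  have hterm : ∀ d ∈ Finset.Icc 1 M, ‖g d - T * (mu p d * (Real.exp (-d / D) / (2 * d ^ 2) : ℝ))‖ ≤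
      8 * A * Real.sqrt p * lam * lam ^ (-(1 / 2) : ℝ) := by
    intro d hd
    rw [Finset.mem_Icc] at hd
    have hd0 : (0 : ℝ) < d := by exact_mod_cast hd.1
    by_cases hcop : Nat.Coprime d (2 * p)
    · have hdM : (d : ℝ) ≤ lam ^ (3 / 8 : ℝ) := (Nat.cast_le.2 hd.2).trans hMle
      have hd2 : (d : ℝ) ^ 2 ≤ lam ^ (3 / 4 : ℝ) := by
        calc (d : ℝ) ^ 2 ≤ (lam ^ (3 / 8 : ℝ)) ^ 2 := pow_le_pow_left₀ hd0.le hdM 2
          _ = lam ^ (3 / 4 : ℝ) := by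
              rw [← Real.rpow_natCast, ← Real.rpow_mul hlam0.le]
              norm_num
      have h34 : lam ^ (3 / 4 : ℝ) * D = lam := by
        rw [hD, ← Real.rpow_add hlam0]
        norm_num
      have hd3 : 2 * (d : ℝ) ^ 2 ≤ lam := by
        have h5 : 0 ≤ lam ^ (3 / 4 : ℝ) := by positivity
        nlinarith
      have hT1 := Pa_term κ hκ A hA0 hA p hp h8 X lam hlam hlam1 hXpos d hd.1 hcop hd3
      have h6 : 2 * (d : ℝ) ^ 2 / lam ≤ 2 * lam ^ (-(1 / 4) : ℝ) := by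
        rw [div_le_iff₀ hlam0, mul_assoc]
        have h7 : lam ^ (-(1 / 4) : ℝ) * lam = lam ^ (3 / 4 : ℝ) := by
          nth_rewrite 2 [← Real.rpow_one lam]
          rw [← Real.rpow_add hlam0]
          norm_num
        rw [h7]
        linarith
      have h7 : 2 * lam ^ (-(1 / 4) : ℝ) ≤ 1 := by
        have h8' : lam ^ (-(1 / 4) : ℝ) * D = 1 := by
          rw [hD, ← Real.rpow_add hlam0]
          norm_num
        have h9 : 0 ≤ lam ^ (-(1 / 4) : ℝ) := by positivity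
        nlinarith
      have h9 : (2 * (d : ℝ) ^ 2 / lam) ^ (κ + 1) ≤ 4 * lam ^ (-(1 / 2) : ℝ) := by
        calc (2 * (d : ℝ) ^ 2 / lam) ^ (κ + 1) ≤ (2 * lam ^ (-(1 / 4) : ℝ)) ^ (κ + 1) :=
              Real.rpow_le_rpow (by positivity) h6 (by linarith)
          _ ≤ (2 * lam ^ (-(1 / 4) : ℝ)) ^ (2 : ℝ) :=
              Real.rpow_le_rpow_of_exponent_ge (by positivity) h7 (by linarith)
          _ = 4 * lam ^ (-(1 / 2) : ℝ) := by
              rw [Real.mul_rpow (by norm_num) (by positivity), ← Real.rpow_mul hlam0.le]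
              norm_num
      have h10 : g d - T * (mu p d * (Real.exp (-d / D) / (2 * d ^ 2) : ℝ)) =
          mu p d * (Real.exp (-d / D) : ℝ) *
            (Vf κ X p ((d : ℝ) ^ 2) - T * (1 / (2 * (d : ℝ) ^ 2) : ℝ)) := by
        have h11 : ((Real.exp (-(d : ℝ) / D) / (2 * (d : ℝ) ^ 2) : ℝ) : ℂ) =
            ((Real.exp (-(d : ℝ) / D) : ℝ) : ℂ) * ((1 / (2 * (d : ℝ) ^ 2) : ℝ) : ℂ) := by
          rw [← Complex.ofReal_mul]
          congr 1
          ring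
        rw [h11]
        simp only [hg]
        ring
      rw [h10, norm_mul, norm_mul, Complex.norm_real, Real.norm_eq_abs, abs_of_pos (Real.exp_pos _)]
      have h12 : Real.exp (-(d : ℝ) / D) ≤ 1 := by
        rw [Real.exp_le_one_iff]
        exact div_nonpos_of_nonpos_of_nonneg (by linarith) hD0.le
      have h13 := Pa_mu_le p d
      have h14 : 0 ≤ Real.exp (-(d : ℝ) / D) := (Real.exp_pos _).le
      calc ‖mu p d‖ * Real.exp (-(d : ℝ) / D) * ‖Vf κ X p ((d : ℝ) ^ 2) - T * (1 / (2 * (d : ℝ) ^ 2) : ℝ)‖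
          ≤ 1 * 1 * (2 * A * Real.sqrt p * lam * (2 * (d : ℝ) ^ 2 / lam) ^ (κ + 1)) := by
            gcongr
        _ ≤ 1 * 1 * (2 * A * Real.sqrt p * lam * (4 * lam ^ (-(1 / 2) : ℝ))) := by gcongr
        _ = 8 * A * Real.sqrt p * lam * lam ^ (-(1 / 2) : ℝ) := by ring
    · have h5 : mu p d = 0 := by
        unfold mu
        rw [if_neg hcop]
      simp only [hg]
      rw [h5]
      simp only [zero_mul, mul_zero, sub_zero, norm_zero]
      positivity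
  have hmain : ‖∑ d ∈ Finset.range (M + 1), g d‖ ≥
      Real.sqrt p * (lam * Real.Gamma (κ + 1)) * (1 / 4) - Q * (lam * Real.sqrt p) := by
    have h1 : ∑ d ∈ Finset.range (M + 1), g d = ∑ d ∈ Finset.Icc 1 M, g d := by
      rw [Finset.range_eq_Ico, Finset.sum_eq_sum_Ico_succ_bot (by omega)]
      have : g 0 = 0 := by
        simp only [hg]
        rw [Pa_mu_zero p hp, zero_mul, zero_mul]
      rw [this, zero_add]
      rfl
    rw [h1]
    set W := ∑ d ∈ Finset.Icc 1 M, mu p d * (Real.exp (-d / D) / (2 * d ^ 2) : ℝ) with hW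
    have h2 : 1 / 4 ≤ ‖W‖ := mu_low p M hM1 D hl1
    have h3 : ‖∑ d ∈ Finset.Icc 1 M, g d - T * W‖ ≤
        (M : ℝ) * (8 * A * Real.sqrt p * lam * lam ^ (-(1 / 2) : ℝ)) := by
      rw [hW, Finset.mul_sum, ← Finset.sum_sub_distrib]
      refine (norm_sum_le _ _).trans ((Finset.sum_le_card_nsmul _ _ _ hterm).trans ?_)
      rw [Nat.card_Icc, nsmul_eq_mul]
      simp
    have h4 : (M : ℝ) * (8 * A * Real.sqrt p * lam * lam ^ (-(1 / 2) : ℝ)) ≤ Q * (lam * Real.sqrt p) := by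
      have h5 : lam ^ (3 / 8 : ℝ) * lam ^ (-(1 / 2) : ℝ) = lam ^ (-(1 / 8) : ℝ) := by
        rw [← Real.rpow_add hlam0]
        norm_num
      calc (M : ℝ) * (8 * A * Real.sqrt p * lam * lam ^ (-(1 / 2) : ℝ)) ≤
            lam ^ (3 / 8 : ℝ) * (8 * A * Real.sqrt p * lam * lam ^ (-(1 / 2) : ℝ)) := by gcongr
        _ = 8 * A * (lam ^ (3 / 8 : ℝ) * lam ^ (-(1 / 2) : ℝ)) * (lam * Real.sqrt p) := by ring
        _ = Q * (lam * Real.sqrt p) := by rw [h5, hQ]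
    have h6 : ‖T * W‖ ≤ ‖∑ d ∈ Finset.Icc 1 M, g d‖ + ‖∑ d ∈ Finset.Icc 1 M, g d - T * W‖ := by
      have h7 : T * W = ∑ d ∈ Finset.Icc 1 M, g d - (∑ d ∈ Finset.Icc 1 M, g d - T * W) := by ring
      calc ‖T * W‖ = ‖∑ d ∈ Finset.Icc 1 M, g d - (∑ d ∈ Finset.Icc 1 M, g d - T * W)‖ := by rw [← h7]
        _ ≤ _ := norm_sub_le _ _
    rw [norm_mul, hnT] at h6
    have h8' : Real.sqrt p * (lam * Real.Gamma (κ + 1)) * (1 / 4) ≤
        Real.sqrt p * (lam * Real.Gamma (κ + 1)) * ‖W‖ := mul_le_mul_of_nonneg_left h2 (by positivity)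
    linarith
  have hfin : ‖∑ d ∈ Finset.range (M + 1), g d‖ ≤ ‖P1 κ X p D‖ + ‖∑' i : ℕ, g (i + (M + 1))‖ := by
    have h1 : ∑ d ∈ Finset.range (M + 1), g d = P1 κ X p D - ∑' i : ℕ, g (i + (M + 1)) := by
      rw [hP1]; ring
    rw [h1]
    exact norm_sub_le _ _
  have hQ2 : Q * (lam * Real.sqrt p) ≤ Real.Gamma (κ + 1) / 16 * (lam * Real.sqrt p) :=
    mul_le_mul_of_nonneg_right hl2 (by positivity)
  have h20 : Real.sqrt p * (lam * Real.Gamma (κ + 1)) * (1 / 4) =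
      Real.Gamma (κ + 1) / 4 * (lam * Real.sqrt p) := by ring
  rw [h20] at hmain
  have h21 : Real.Gamma (κ + 1) / 8 * lam * Real.sqrt p = Real.Gamma (κ + 1) / 8 * (lam * Real.sqrt p) := by
    ring
  rw [h21]
  linarith

end Pool.Agent.Lib.MP_d713a4_nt
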