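import Pool.Agent.Lib.MP_d713a4_nt.Pc
import Pool.Agent.Lib.MP_d713a4_nt.Gi
import Pool.Agent.Lib.MP_d713a4_nt.Li
import Pool.Agent.Lib.MP_d713a4_nt.Nb

/-!
# LEAF Pb: the large square divisors

PROOF.  `P2_shift` with `κ = N - 1/2 - h ≥ 1`, so `s + κ = N + i v`; `‖X^s‖ = X^(1/2+h)`, `L_lind` (`n = p`), `‖1 - 2^(-s)‖ ≤ 2`, `Nf_le` (`Re (2s) = 1 + 2h`), `gam_int` with `c = 2 η`:
`(p (|v| + 2))^η (2 |v| + 2)^η ≤ 4 p^η (1 + |v|)^(2η)`.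
-/

set_option autoImplicit false

namespace Pool.Agent.Lib.MP_d713a4_nt

open Complex MeasureTheory

private theorem Pb_pow (η v : ℝ) (hη : 0 < η) (hη1 : η ≤ 1) (p : ℝ) (hp : 0 < p) :
    (p * (|v| + 2)) ^ η * (|2 * v| + 2) ^ η ≤ 4 * p ^ η * (1 + |v|) ^ (2 * η) := by
  have hv := abs_nonneg v
  have h1 : (p * (|v| + 2)) ^ η ≤ p ^ η * (2 ^ η * (1 + |v|) ^ η) := by
    have e1 : (p * (|v| + 2)) ^ η = p ^ η * (|v| + 2) ^ η := Real.mul_rpow hp.le (by linarith)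
    have e2 : (2 : ℝ) ^ η * (1 + |v|) ^ η = (2 * (1 + |v|)) ^ η := (Real.mul_rpow (by norm_num) (by linarith)).symm
    rw [e1, e2]
    apply mul_le_mul_of_nonneg_left _ (Real.rpow_nonneg hp.le _)
    exact Real.rpow_le_rpow (by linarith) (by linarith) hη.le
  have h2 : (|2 * v| + 2) ^ η = 2 ^ η * (1 + |v|) ^ η := by
    rw [← Real.mul_rpow (by norm_num) (by linarith), abs_mul, abs_two]
    congr 1
    ring
  have h3 : (2 : ℝ) ^ η ≤ 2 := by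
    calc (2 : ℝ) ^ η ≤ 2 ^ (1 : ℝ) := Real.rpow_le_rpow_of_exponent_le (by norm_num) hη1
      _ = 2 := Real.rpow_one 2
  have h4 : (1 + |v|) ^ (2 * η) = (1 + |v|) ^ η * (1 + |v|) ^ η := by
    rw [← Real.rpow_add (by linarith)]
    congr 1
    ring
  have h5 : 0 ≤ (1 + |v|) ^ η := Real.rpow_nonneg (by linarith) _
  have h6 : 0 ≤ p ^ η := Real.rpow_nonneg hp.le _
  have h7 : (0 : ℝ) ≤ 2 ^ η := Real.rpow_nonneg (by norm_num) _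
  calc (p * (|v| + 2)) ^ η * (|2 * v| + 2) ^ η
      ≤ p ^ η * (2 ^ η * (1 + |v|) ^ η) * (2 ^ η * (1 + |v|) ^ η) := by
        rw [h2]
        exact mul_le_mul_of_nonneg_right h1 (mul_nonneg h7 h5)
    _ = (2 ^ η * 2 ^ η) * (p ^ η * ((1 + |v|) ^ η * (1 + |v|) ^ η)) := by ring
    _ ≤ (2 * 2) * (p ^ η * ((1 + |v|) ^ η * (1 + |v|) ^ η)) := by
        apply mul_le_mul_of_nonneg_right (mul_le_mul h3 h3 h7 (by norm_num))
        exact mul_nonneg h6 (mul_nonneg h5 h5)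
    _ = 4 * p ^ η * (1 + |v|) ^ (2 * η) := by
        rw [h4]
        ring

private theorem Pb_two (h v : ℝ) (h0 : 0 < h) : ‖(1 : ℂ) - (2 : ℂ) ^ (-(((1 / 2 + h : ℝ) : ℂ) + v * I))‖ ≤ 2 := by
  have h1 : ‖(2 : ℂ) ^ (-(((1 / 2 + h : ℝ) : ℂ) + v * I))‖ ≤ 1 := by
    have h2 : ‖((2 : ℝ) : ℂ) ^ (-(((1 / 2 + h : ℝ) : ℂ) + v * I))‖ = (2 : ℝ) ^ (-(((1 / 2 + h : ℝ) : ℂ) + v * I)).re :=
      Complex.norm_cpow_eq_rpow_re_of_pos (by norm_num) _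
    have h3 : (-(((1 / 2 + h : ℝ) : ℂ) + v * I)).re = -(1 / 2 + h) := by simp
    rw [h3] at h2
    have h4 : ((2 : ℝ) : ℂ) = 2 := by norm_num
    rw [h4] at h2
    rw [h2]
    exact Real.rpow_le_one_of_one_le_of_nonpos (by norm_num) (by linarith)
  calc ‖(1 : ℂ) - (2 : ℂ) ^ (-(((1 / 2 + h : ℝ) : ℂ) + v * I))‖
      ≤ ‖(1 : ℂ)‖ + ‖(2 : ℂ) ^ (-(((1 / 2 + h : ℝ) : ℂ) + v * I))‖ := norm_sub_le _ _
    _ ≤ 1 + 1 := by
        rw [norm_one]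
        linarith
    _ = 2 := by norm_num

theorem P2_le (g : GRH) (N : ℕ) (hN : 2 ≤ N) (h η : ℝ) (h0 : 0 < h) (h1 : h < 1 / 4) (hη : 0 < η) (hη1 : η ≤ 1) : ∃ A : ℝ, 0 < A ∧
    ∀ p : ℕ, p.Prime → p % 8 = 1 → ∀ X D : ℝ, 1 ≤ X / p → 1 ≤ D →
    ‖P2 (N - 1 / 2 - h) X p D‖ ≤ A * X ^ (1 / 2 + h) * (X / p) ^ (1 / 2 + 2 * η) * (p : ℝ) ^ η * D ^ (-(1 / 2) : ℝ) := by
  obtain ⟨AL, hAL, hL⟩ := L_lind g h η h0 (by linarith) hη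
  obtain ⟨AN, hAN, hNf⟩ := Nf_le g h η h0 h1 hη hη1
  obtain ⟨AG, hAG, hG⟩ := gam_int N (by omega) (2 * η) (by positivity)
  have hpi := Real.pi_pos
  refine ⟨1 / (2 * Real.pi) * (8 * AL * AN * AG), by positivity, ?_⟩
  intro p hp h8 X D hX hD
  have hp0 : (0 : ℝ) < p := by exact_mod_cast hp.pos
  have hXpos : 0 < X := by
    have h2 : 0 < X / p := by linarith
    have h3 : X = X / p * p := by field_simp
    rw [h3]
    positivity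
  have hp2 : 2 < p := by
    have := hp.two_le
    omega
  have hodd : Odd p := by
    rw [Nat.odd_iff]
    omega
  have hD0 : 0 < D := by linarith
  obtain ⟨hGi, hGb⟩ := hG (X / p) hX
  have hNr : (2 : ℝ) ≤ N := by exact_mod_cast hN
  rw [P2_shift (N - 1 / 2 - h) X D h (by linarith) hXpos hD h0 h1 p hp h8]
  rw [norm_mul, Complex.norm_real, Real.norm_of_nonneg (by positivity)]
  have hC0 : 0 ≤ 8 * AL * AN * X ^ (1 / 2 + h) * (p : ℝ) ^ η * D ^ (-(1 / 2) : ℝ) := by positivity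
  have key : ∀ v : ℝ, ‖Gamma ((1 / 2 + h : ℝ) + v * I + (N - 1 / 2 - h : ℝ)) *
      zz (X / p) ^ (-((1 / 2 + h : ℝ) + v * I + (N - 1 / 2 - h : ℝ))) *
      (X : ℂ) ^ (((1 / 2 + h : ℝ) : ℂ) + v * I) * LJ p ((1 / 2 + h : ℝ) + v * I) *
      (1 - (2 : ℂ) ^ (-(((1 / 2 + h : ℝ) : ℂ) + v * I))) * Nf p D (2 * ((1 / 2 + h : ℝ) + v * I))‖ ≤
      8 * AL * AN * X ^ (1 / 2 + h) * (p : ℝ) ^ η * D ^ (-(1 / 2) : ℝ) *
        (‖Gamma (N + v * I)‖ * ‖zz (X / p) ^ (-(N + v * I))‖ * (1 + |v|) ^ (2 * η)) := by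
    intro v
    have e1 : (((1 / 2 + h : ℝ) : ℂ) + v * I + (N - 1 / 2 - h : ℝ)) = N + v * I := by
      push_cast
      ring
    rw [e1]
    have hre : (((1 / 2 + h : ℝ) : ℂ) + v * I).re = 1 / 2 + h := by simp
    have him : (((1 / 2 + h : ℝ) : ℂ) + v * I).im = v := by simp
    have hXn : ‖(X : ℂ) ^ (((1 / 2 + h : ℝ) : ℂ) + v * I)‖ = X ^ (1 / 2 + h) := by
      rw [Complex.norm_cpow_eq_rpow_re_of_pos hXpos, hre]
    have hLn := hL p hp.one_lt hodd hp.prime.squarefree (((1 / 2 + h : ℝ) : ℂ) + v * I) hre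
    rw [him] at hLn
    have hw : (2 * (((1 / 2 + h : ℝ) : ℂ) + v * I)).re = 1 + 2 * h := by
      simp
      ring
    have hwi : (2 * (((1 / 2 + h : ℝ) : ℂ) + v * I)).im = 2 * v := by
      simp
    have hNn := hNf p hp hp2 D hD _ hw
    rw [hwi] at hNn
    have h2n := Pb_two h v h0
    have hpow := Pb_pow η v hη hη1 p hp0
    have hD1 : 0 < D ^ (-(1 / 2) : ℝ) := Real.rpow_pos_of_pos hD0 _
    have hX1 : 0 < X ^ (1 / 2 + h) := Real.rpow_pos_of_pos hXpos _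
    have hprod : ‖LJ p (((1 / 2 + h : ℝ) : ℂ) + v * I)‖ * ‖(1 : ℂ) - (2 : ℂ) ^ (-(((1 / 2 + h : ℝ) : ℂ) + v * I))‖ *
        ‖Nf p D (2 * (((1 / 2 + h : ℝ) : ℂ) + v * I))‖ ≤
        8 * AL * AN * (p : ℝ) ^ η * D ^ (-(1 / 2) : ℝ) * (1 + |v|) ^ (2 * η) := by
      have a1 : 0 ≤ (p * (|v| + 2) : ℝ) ^ η := by positivity
      have a2 : 0 ≤ (|2 * v| + 2 : ℝ) ^ η := by positivity
      calc ‖LJ p (((1 / 2 + h : ℝ) : ℂ) + v * I)‖ * ‖(1 : ℂ) - (2 : ℂ) ^ (-(((1 / 2 + h : ℝ) : ℂ) + v * I))‖ *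
          ‖Nf p D (2 * (((1 / 2 + h : ℝ) : ℂ) + v * I))‖
          ≤ (AL * (p * (|v| + 2)) ^ η * 2) * (AN * D ^ (-(1 / 2) : ℝ) * (|2 * v| + 2) ^ η) := by
            apply mul_le_mul _ hNn (norm_nonneg _) (by positivity)
            exact mul_le_mul hLn h2n (norm_nonneg _) (by positivity)
        _ = 2 * AL * AN * D ^ (-(1 / 2) : ℝ) * ((p * (|v| + 2)) ^ η * (|2 * v| + 2) ^ η) := by ring
        _ ≤ 2 * AL * AN * D ^ (-(1 / 2) : ℝ) * (4 * p ^ η * (1 + |v|) ^ (2 * η)) :=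
            mul_le_mul_of_nonneg_left hpow (by positivity)
        _ = 8 * AL * AN * (p : ℝ) ^ η * D ^ (-(1 / 2) : ℝ) * (1 + |v|) ^ (2 * η) := by ring
    rw [norm_mul, norm_mul, norm_mul, norm_mul, norm_mul, hXn]
    have b1 : 0 ≤ ‖Gamma (N + v * I)‖ * ‖zz (X / p) ^ (-(N + v * I))‖ * X ^ (1 / 2 + h) := by positivity
    calc ‖Gamma (N + v * I)‖ * ‖zz (X / p) ^ (-(N + v * I))‖ * X ^ (1 / 2 + h) *
          ‖LJ p (((1 / 2 + h : ℝ) : ℂ) + v * I)‖ * ‖(1 : ℂ) - (2 : ℂ) ^ (-(((1 / 2 + h : ℝ) : ℂ) + v * I))‖ *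
          ‖Nf p D (2 * (((1 / 2 + h : ℝ) : ℂ) + v * I))‖
        = (‖Gamma (N + v * I)‖ * ‖zz (X / p) ^ (-(N + v * I))‖ * X ^ (1 / 2 + h)) *
          (‖LJ p (((1 / 2 + h : ℝ) : ℂ) + v * I)‖ * ‖(1 : ℂ) - (2 : ℂ) ^ (-(((1 / 2 + h : ℝ) : ℂ) + v * I))‖ *
          ‖Nf p D (2 * (((1 / 2 + h : ℝ) : ℂ) + v * I))‖) := by ring
      _ ≤ (‖Gamma (N + v * I)‖ * ‖zz (X / p) ^ (-(N + v * I))‖ * X ^ (1 / 2 + h)) *
          (8 * AL * AN * (p : ℝ) ^ η * D ^ (-(1 / 2) : ℝ) * (1 + |v|) ^ (2 * η)) :=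
          mul_le_mul_of_nonneg_left hprod b1
      _ = _ := by ring
  have hint := norm_integral_le_of_norm_le (hGi.const_mul (8 * AL * AN * X ^ (1 / 2 + h) * (p : ℝ) ^ η * D ^ (-(1 / 2) : ℝ)))
    (Filter.Eventually.of_forall key)
  rw [integral_const_mul] at hint
  calc 1 / (2 * Real.pi) * ‖∫ v : ℝ, Gamma ((1 / 2 + h : ℝ) + v * I + (N - 1 / 2 - h : ℝ)) *
      zz (X / p) ^ (-((1 / 2 + h : ℝ) + v * I + (N - 1 / 2 - h : ℝ))) *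
      (X : ℂ) ^ (((1 / 2 + h : ℝ) : ℂ) + v * I) * LJ p ((1 / 2 + h : ℝ) + v * I) *
      (1 - (2 : ℂ) ^ (-(((1 / 2 + h : ℝ) : ℂ) + v * I))) * Nf p D (2 * ((1 / 2 + h : ℝ) + v * I))‖
      ≤ 1 / (2 * Real.pi) * (8 * AL * AN * X ^ (1 / 2 + h) * (p : ℝ) ^ η * D ^ (-(1 / 2) : ℝ) *
        (AG * (X / p) ^ (1 / 2 + 2 * η))) := by
        apply mul_le_mul_of_nonneg_left _ (by positivity)
        exact hint.trans (mul_le_mul_of_nonneg_left hGb hC0)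
    _ = 1 / (2 * Real.pi) * (8 * AL * AN * AG) * X ^ (1 / 2 + h) * (X / p) ^ (1 / 2 + 2 * η) * (p : ℝ) ^ η *
        D ^ (-(1 / 2) : ℝ) := by ring

end Pool.Agent.Lib.MP_d713a4_nt
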