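import Pool.Agent.Lib.MP_d713a4_nt.Me
import Pool.Agent.Lib.MP_d713a4_nt.Cs
import Pool.Agent.Lib.MP_d713a4_nt.Gr

/-!
# LEAF Pc: shift to the critical line

PROOF.  `vline` for the integrand of `P2_eq` as a function of `s` in the strip `1/2 + h ≤ Re s ≤ 2`: `Γ(s + κ)`, `LJ p` (`diff_LJ`), and `Nf p D (2 s)` (a
Dirichlet series with bounded coefficients, `Re (2 s) > 1`: `LSeries_differentiableOn` or `differentiableOn_tsum_of_summable_norm`) are differentiable; bounds: `gz_decay`,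
`norm_L_le`, `‖Nf‖ ≤ ∑ d^(-1-2h)`, `‖X^s‖ ≤ X^2 + 1`.
-/

set_option autoImplicit false

namespace Pool.Agent.Lib.MP_d713a4_nt

open Complex MeasureTheory

private theorem Pc_coeff (p : ℕ) (D : ℝ) (hD : 1 ≤ D) (d : ℕ) :
    ‖mu p d * ((1 - Real.exp (-d / D) : ℝ) : ℂ)‖ ≤ 1 := by
  rw [norm_mul]
  have h1 : ‖mu p d‖ ≤ 1 := by
    unfold mu
    split_ifs
    · rw [Complex.norm_intCast]
      exact_mod_cast ArithmeticFunction.abs_moebius_le_one
    · rw [norm_zero]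
      exact zero_le_one
  have h2 : ‖((1 - Real.exp (-d / D) : ℝ) : ℂ)‖ ≤ 1 := by
    rw [Complex.norm_real, Real.norm_eq_abs, abs_le]
    have h3 : Real.exp (-d / D) ≤ 1 := by
      rw [Real.exp_le_one_iff]
      have h4 : (0 : ℝ) ≤ d := Nat.cast_nonneg d
      exact div_nonpos_of_nonpos_of_nonneg (by linarith) (by linarith)
    have h5 := Real.exp_pos (-d / D)
    constructor <;> linarith
  calc ‖mu p d‖ * ‖((1 - Real.exp (-d / D) : ℝ) : ℂ)‖ ≤ 1 * 1 :=
        mul_le_mul h1 h2 (norm_nonneg _) zero_le_one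
    _ = 1 := one_mul 1

private theorem Pc_diff (p : ℕ) (D : ℝ) (hD : 1 ≤ D) (w : ℂ) (hw : 1 < w.re) :
    DifferentiableAt ℂ (Nf p D) w := by
  have habs : LSeries.abscissaOfAbsConv
      (fun d : ℕ => mu p d * ((1 - Real.exp (-d / D) : ℝ) : ℂ)) ≤ 1 :=
    LSeries.abscissaOfAbsConv_le_of_le_const ⟨1, fun d _ => Pc_coeff p D hD d⟩
  have h1 : DifferentiableAt ℂ
      (LSeries fun d : ℕ => mu p d * ((1 - Real.exp (-d / D) : ℝ) : ℂ)) w := by
    refine (LSeries_hasDerivAt (lt_of_le_of_lt habs ?_)).differentiableAt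
    exact_mod_cast hw
  refine h1.congr_of_eventuallyEq ?_
  have hopen1 : IsOpen {s : ℂ | 1 < s.re} := isOpen_lt continuous_const Complex.continuous_re
  filter_upwards [hopen1.mem_nhds hw] with z hz
  have hz0 : z ≠ 0 := by
    rintro rfl
    have : (1 : ℝ) < 0 := hz
    linarith
  unfold Nf LSeries
  refine tsum_congr fun d => ?_
  rcases Nat.eq_zero_or_pos d with h | h
  · have e : ((0 : ℕ) : ℂ) = 0 := Nat.cast_zero
    rw [h, LSeries.term_zero, e, Complex.zero_cpow (neg_ne_zero.2 hz0), mul_zero]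
  · rw [LSeries.term_of_ne_zero h.ne', Complex.cpow_neg]
    exact (div_eq_mul_inv _ _).symm

private theorem Pc_bound (p : ℕ) (D h : ℝ) (hD : 1 ≤ D) (h0 : 0 < h) :
    ∃ B : ℝ, 0 ≤ B ∧ ∀ w : ℂ, 1 + 2 * h ≤ w.re → ‖Nf p D w‖ ≤ B := by
  have hs : Summable fun d : ℕ => (d : ℝ) ^ (-(1 + 2 * h)) :=
    Real.summable_nat_rpow.2 (by linarith)
  refine ⟨∑' d : ℕ, (d : ℝ) ^ (-(1 + 2 * h)), tsum_nonneg fun d => by positivity, fun w hw => ?_⟩
  have h1 : ∀ d : ℕ, ‖mu p d * ((1 - Real.exp (-d / D) : ℝ) : ℂ) * (d : ℂ) ^ (-w)‖ ≤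
      (d : ℝ) ^ (-(1 + 2 * h)) := by
    intro d
    rcases Nat.eq_zero_or_pos d with h2 | h2
    · have hw0 : w ≠ 0 := by
        rintro rfl
        have : 1 + 2 * h ≤ 0 := hw
        linarith
      have e : ((0 : ℕ) : ℂ) = 0 := Nat.cast_zero
      rw [h2, e, Complex.zero_cpow (neg_ne_zero.2 hw0), mul_zero, norm_zero]
      exact Real.rpow_nonneg (Nat.cast_nonneg _) _
    · rw [norm_mul]
      have h3 : ‖(d : ℂ) ^ (-w)‖ ≤ (d : ℝ) ^ (-(1 + 2 * h)) := by
        rw [Complex.norm_natCast_cpow_of_pos h2, Complex.neg_re]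
        exact Real.rpow_le_rpow_of_exponent_le (by exact_mod_cast h2) (by linarith)
      calc ‖mu p d * ((1 - Real.exp (-d / D) : ℝ) : ℂ)‖ * ‖(d : ℂ) ^ (-w)‖
          ≤ 1 * (d : ℝ) ^ (-(1 + 2 * h)) :=
            mul_le_mul (Pc_coeff p D hD d) h3 (norm_nonneg _) zero_le_one
        _ = (d : ℝ) ^ (-(1 + 2 * h)) := one_mul _
  exact tsum_of_norm_bounded hs.hasSum h1

private theorem Pc_exp (c : ℝ) (hc : 0 < c) : ∃ K : ℝ, 0 < K ∧ ∀ x : ℝ, 0 ≤ x →
    Real.exp (-c * x) * (x + 2) ≤ K / (1 + x ^ 2) := by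
  set m := min 1 (c / 3) with hm
  have hm0 : 0 < m := lt_min one_pos (by linarith)
  refine ⟨2 / m ^ 3, by positivity, fun x hx => ?_⟩
  have h1 : m * (1 + x) ≤ Real.exp (c / 3 * x) := by
    have h2 := Real.add_one_le_exp (c / 3 * x)
    have h3 : m * 1 ≤ 1 * 1 := by
      rw [mul_one, mul_one]
      exact min_le_left _ _
    have h4 : m * x ≤ c / 3 * x := mul_le_mul_of_nonneg_right (min_le_right _ _) hx
    linarith
  have h5 : (m * (1 + x)) ^ 3 ≤ Real.exp (c * x) := by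
    have h6 : Real.exp (c * x) = Real.exp (c / 3 * x) ^ 3 := by
      rw [← Real.exp_nat_mul]
      congr 1
      push_cast
      ring
    rw [h6]
    exact pow_le_pow_left₀ (by positivity) h1 3
  rw [le_div_iff₀ (by positivity), neg_mul, Real.exp_neg, mul_assoc, inv_mul_le_iff₀ (Real.exp_pos _)]
  have h7 : (x + 2) * (1 + x ^ 2) ≤ 2 * (1 + x) ^ 3 := by nlinarith [mul_nonneg hx hx, mul_nonneg (mul_nonneg hx hx) hx]
  calc (x + 2) * (1 + x ^ 2) ≤ 2 * (1 + x) ^ 3 := h7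
    _ = (m * (1 + x)) ^ 3 * (2 / m ^ 3) := by
        field_simp
    _ ≤ Real.exp (c * x) * (2 / m ^ 3) := mul_le_mul_of_nonneg_right h5 (by positivity)

theorem P2_shift (κ X D h : ℝ) (hκ : 1 ≤ κ) (hX : 0 < X) (hD : 1 ≤ D) (h0 : 0 < h) (h1 : h < 1 / 4) (p : ℕ) (hp : p.Prime) (h8 : p % 8 = 1) :
    P2 κ X p D = (1 / (2 * Real.pi) : ℝ) * ∫ v : ℝ, Gamma ((1 / 2 + h : ℝ) + v * I + κ) * zz (X / p) ^ (-((1 / 2 + h : ℝ) + v * I + κ)) *
      (X : ℂ) ^ (((1 / 2 + h : ℝ) : ℂ) + v * I) * LJ p ((1 / 2 + h : ℝ) + v * I) * (1 - (2 : ℂ) ^ (-(((1 / 2 + h : ℝ) : ℂ) + v * I))) *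
      Nf p D (2 * ((1 / 2 + h : ℝ) + v * I)) := by
  have hodd : Odd p := by
    rw [Nat.odd_iff]
    omega
  have hsq : Squarefree p := hp.squarefree
  set lam := X / (p : ℝ) with hlam
  have hz0 : zz lam ≠ 0 := by
    intro h2
    have h3 := congrArg Complex.re h2
    unfold zz at h3
    simp at h3
  have hX0 : (X : ℂ) ≠ 0 := by exact_mod_cast hX.ne'
  set H : ℂ → ℂ := fun z => Gamma (z + κ) * zz lam ^ (-(z + κ)) * (X : ℂ) ^ z * LJ p z *
    (1 - (2 : ℂ) ^ (-z)) * Nf p D (2 * z) with hH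
  obtain ⟨C₀, c, hC₀, hc, hgz⟩ := gz_decay lam (1 / 2 + h + κ) (2 + κ) (by linarith) (by linarith)
  obtain ⟨B, hB, hNf⟩ := Pc_bound p D h hD h0
  obtain ⟨K, hK, hexp⟩ := Pc_exp c hc
  have hv := vline H (1 / 2 + h) 2 (C₀ * (X + 1) ^ 2 * (4 * p) * 2 * B * K) (by linarith)
    (fun z hz1 hz2 => by
      have e1 : DifferentiableAt ℂ (fun z : ℂ => Gamma (z + κ)) z := by
        have e2 : DifferentiableAt ℂ Gamma (z + κ) := by
          refine Complex.differentiableAt_Gamma _ fun m hm => ?_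
          have e3 := congrArg Complex.re hm
          rw [Complex.add_re, Complex.ofReal_re, Complex.neg_re, Complex.natCast_re] at e3
          have e4 : (0 : ℝ) ≤ m := Nat.cast_nonneg m
          linarith
        exact e2.comp z (differentiableAt_id.add_const _)
      have e5 : DifferentiableAt ℂ (fun z : ℂ => zz lam ^ (-(z + κ))) z :=
        ((differentiableAt_id.add_const _).neg).const_cpow (Or.inl hz0)
      have e6 : DifferentiableAt ℂ (fun z : ℂ => (X : ℂ) ^ z) z :=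
        differentiableAt_id.const_cpow (Or.inl hX0)
      have e7 : DifferentiableAt ℂ (LJ p) z := (diff_LJ p hp.one_lt hodd hsq) z
      have e8 : DifferentiableAt ℂ (fun z : ℂ => 1 - (2 : ℂ) ^ (-z)) z :=
        (differentiableAt_id.neg.const_cpow (Or.inl two_ne_zero)).const_sub 1
      have e9 : DifferentiableAt ℂ (fun z : ℂ => Nf p D (2 * z)) z := by
        have e10 : DifferentiableAt ℂ (Nf p D) (2 * z) := by
          refine Pc_diff p D hD _ ?_
          have e11 : (2 * z).re = 2 * z.re := by simp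
          rw [e11]
          linarith
        exact e10.comp z (differentiableAt_id.const_mul 2)
      exact ((((e1.mul e5).mul e6).mul e7).mul e8).mul e9)
    (fun z hz1 hz2 => by
      have b1 : ‖Gamma (z + κ) * zz lam ^ (-(z + κ))‖ ≤ C₀ * Real.exp (-c * |z.im|) := by
        have b2 := hgz (z + κ) (by rw [Complex.add_re, Complex.ofReal_re]; linarith)
          (by rw [Complex.add_re, Complex.ofReal_re]; linarith)
        rw [Complex.add_im, Complex.ofReal_im, add_zero] at b2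
        exact b2
      have b3 : ‖(X : ℂ) ^ z‖ ≤ (X + 1) ^ 2 := by
        rw [Complex.norm_cpow_eq_rpow_re_of_pos hX]
        calc X ^ z.re ≤ (X + 1) ^ z.re := Real.rpow_le_rpow hX.le (by linarith) (by linarith)
          _ ≤ (X + 1) ^ (2 : ℝ) := Real.rpow_le_rpow_of_exponent_le (by linarith) hz2
          _ = (X + 1) ^ 2 := Real.rpow_two _
      have b4 : ‖LJ p z‖ ≤ 4 * p * (|z.im| + 2) :=
        norm_L_le p hp.one_lt hodd hsq z (by linarith)
      have b5 : ‖1 - (2 : ℂ) ^ (-z)‖ ≤ 2 := by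
        have b6 : ‖(2 : ℂ) ^ (-z)‖ ≤ 1 := by
          have b7 := Complex.norm_natCast_cpow_of_pos (n := 2) (by norm_num) (-z)
          rw [Nat.cast_ofNat, Nat.cast_ofNat] at b7
          rw [b7, Complex.neg_re]
          exact Real.rpow_le_one_of_one_le_of_nonpos (by norm_num) (by linarith)
        calc ‖1 - (2 : ℂ) ^ (-z)‖ ≤ ‖(1 : ℂ)‖ + ‖(2 : ℂ) ^ (-z)‖ := norm_sub_le _ _
          _ ≤ 1 + 1 := by
              rw [norm_one]
              linarith
          _ = 2 := by norm_num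
      have b8 : ‖Nf p D (2 * z)‖ ≤ B := by
        refine hNf _ ?_
        have e11 : (2 * z).re = 2 * z.re := by simp
        rw [e11]
        linarith
      have b9 := hexp |z.im| (abs_nonneg _)
      rw [sq_abs] at b9
      have hp0 : (0 : ℝ) ≤ p := Nat.cast_nonneg p
      calc ‖H z‖ = ‖Gamma (z + κ) * zz lam ^ (-(z + κ))‖ * ‖(X : ℂ) ^ z‖ * ‖LJ p z‖ *
            ‖1 - (2 : ℂ) ^ (-z)‖ * ‖Nf p D (2 * z)‖ := by
            rw [hH]
            simp only [norm_mul]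
        _ ≤ (C₀ * Real.exp (-c * |z.im|)) * (X + 1) ^ 2 * (4 * p * (|z.im| + 2)) * 2 * B := by
            gcongr
        _ = C₀ * (X + 1) ^ 2 * (4 * p) * 2 * B * (Real.exp (-c * |z.im|) * (|z.im| + 2)) := by ring
        _ ≤ C₀ * (X + 1) ^ 2 * (4 * p) * 2 * B * (K / (1 + z.im ^ 2)) :=
            mul_le_mul_of_nonneg_left b9 (by positivity)
        _ = C₀ * (X + 1) ^ 2 * (4 * p) * 2 * B * K / (1 + z.im ^ 2) := by ring)
  rw [P2_eq κ X D hκ hX hD p hp h8]
  congr 1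
  have h2 : ((2 : ℝ) : ℂ) = 2 := Complex.ofReal_ofNat 2
  rw [h2] at hv
  exact hv.symm

end Pool.Agent.Lib.MP_d713a4_nt
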