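import Pool.Agent.Lib.MP_d713a4_nt.Pt
import Pool.Agent.Lib.MP_d713a4_nt.Ft

/-!
# LEAF Po: Poisson summation

PROOF.  `∑_(m ≥ 0) ch p m Tf(m q/X) = ∑_(c mod p) chi p c ∑_(j ∈ ℤ) Tf((c.val + p j) q/X)` (`Tf = 0` on `(-∞, 0]`; `chi_apply`).  The inner function
`y ↦ Tf κ λ ((c + p y) q/X)` is continuous, `O(|y|^(-2))`, its Fourier transform at `k` is
`X/(p q) exp(2 π i k c/p) Γ(κ+1) (zz λ + 2 π i k X/(p q))^(-κ-1)` (`Tf_four`), `O(|k|^(-κ-1))`: `Real.tsum_eq_tsum_fourier_of_rpow_decay` (`b = 2`).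
Then `tau_shift`.
-/

set_option autoImplicit false

namespace Pool.Agent.Lib.MP_d713a4_nt

open Complex MeasureTheory

private theorem Po_neg (κ lam : ℝ) {u : ℝ} (hu : u ≤ 0) : Tf κ lam u = 0 := by
  unfold Tf
  rw [if_neg (not_lt.2 hu)]

private theorem Po_cont (κ lam : ℝ) (hκ : 1 ≤ κ) : Continuous (Tf κ lam) := by
  have h : Tf κ lam = fun u : ℝ => (((max u 0) ^ κ : ℝ) : ℂ) * cexp (-zz lam * u) := by
    funext u
    unfold Tf
    split_ifs with h
    · rw [max_eq_left h.le]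
    · rw [max_eq_right (not_lt.1 h), Real.zero_rpow (by linarith), Complex.ofReal_zero, zero_mul]
  rw [h]
  refine Continuous.mul (Complex.continuous_ofReal.comp ?_) ?_
  · exact (continuous_id.max continuous_const).rpow_const fun _ => Or.inr (by linarith)
  · exact Complex.continuous_exp.comp (continuous_const.mul Complex.continuous_ofReal)

/-- The Fourier transform. -/
private theorem Po_four (κ lam s : ℝ) (hκ : 1 ≤ κ) (hs : 0 < s) (w : ℝ) :
    FourierTransform.fourier (fun y : ℝ => Tf κ lam (y * s)) w =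
      (s⁻¹ * Real.Gamma (κ + 1) : ℝ) * (zz lam + 2 * Real.pi * (s⁻¹ : ℝ) * w * I) ^ (-(κ + 1 : ℝ) : ℂ) := by
  rw [Real.fourier_real_eq_integral_exp_smul]
  obtain ⟨G, hG⟩ : ∃ G : ℝ → ℂ, G = fun u : ℝ =>
    Tf κ lam u * cexp (-(2 * Real.pi * ((w / s : ℝ) : ℂ) * u) * I) := ⟨_, rfl⟩
  have h1 : ∀ v : ℝ, cexp (↑(-2 * Real.pi * v * w) * I) • Tf κ lam (v * s) = G (v * s) := by
    intro v
    rw [hG]
    beta_reduce
    rw [smul_eq_mul, mul_comm]
    congr 2
    have hs' : (s : ℂ) ≠ 0 := Complex.ofReal_ne_zero.2 hs.ne'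
    push_cast
    field_simp
  simp only [h1]
  have h3 : ∫ u : ℝ, G u = Real.Gamma (κ + 1) *
      (zz lam + 2 * Real.pi * ((w / s : ℝ) : ℂ) * I) ^ (-(κ + 1 : ℝ) : ℂ) := by
    rw [hG]
    exact Tf_four κ lam (w / s) hκ
  rw [MeasureTheory.Measure.integral_comp_mul_right G s, h3, abs_of_pos (inv_pos.2 hs), Complex.real_smul]
  have h2 : (zz lam + 2 * Real.pi * ((w / s : ℝ) : ℂ) * I : ℂ) =
      zz lam + 2 * Real.pi * (s⁻¹ : ℝ) * w * I := by
    push_cast
    ring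
  rw [h2]
  push_cast
  ring

private theorem Po_norm (lam w t : ℝ) : 1 ≤ ‖(zz lam + 2 * Real.pi * t * w * I : ℂ)‖ ∧
    |6 * Real.pi * lam + 2 * Real.pi * t * w| ≤ ‖(zz lam + 2 * Real.pi * t * w * I : ℂ)‖ := by
  have h1 : (zz lam + 2 * Real.pi * t * w * I : ℂ).re = 1 := by
    unfold zz
    simp
  have h2 : (zz lam + 2 * Real.pi * t * w * I : ℂ).im = 6 * Real.pi * lam + 2 * Real.pi * t * w := by
    unfold zz
    simp
  refine ⟨?_, ?_⟩
  · have h := Complex.abs_re_le_norm (zz lam + 2 * Real.pi * t * w * I : ℂ)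
    rwa [h1, abs_one] at h
  · have h := Complex.abs_im_le_norm (zz lam + 2 * Real.pi * t * w * I : ℂ)
    rwa [h2] at h

/-- The decay of the Fourier transform. -/
private theorem Po_decay (κ lam t : ℝ) (hκ : 1 ≤ κ) (ht : 0 < t) :
    (fun w : ℝ => (zz lam + 2 * Real.pi * t * w * I : ℂ) ^ (-(κ + 1 : ℝ) : ℂ)) =O[Filter.cocompact ℝ]
      fun w : ℝ => |w| ^ (-2 : ℝ) := by
  rw [Asymptotics.isBigO_iff]
  refine ⟨(Real.pi * t) ^ (-2 : ℝ), ?_⟩
  have hpt : 0 < Real.pi * t := mul_pos Real.pi_pos ht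
  have hev : ∀ᶠ w : ℝ in Filter.cocompact ℝ, 6 * |lam| / t + 1 ≤ |w| := by
    have h := (tendsto_norm_cocompact_atTop (E := ℝ)).eventually (Filter.eventually_ge_atTop (6 * |lam| / t + 1))
    exact h
  filter_upwards [hev] with w hw
  have hw0 : 0 < |w| := by
    have : 0 ≤ 6 * |lam| / t := by positivity
    linarith
  obtain ⟨h1, h2⟩ := Po_norm lam w t
  have h3 : Real.pi * t * |w| ≤ ‖(zz lam + 2 * Real.pi * t * w * I : ℂ)‖ := by
    refine le_trans ?_ h2
    have h4 : |2 * Real.pi * t * w| - |6 * Real.pi * lam| ≤ |6 * Real.pi * lam + 2 * Real.pi * t * w| := by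
      have := abs_sub_abs_le_abs_sub (2 * Real.pi * t * w) (-(6 * Real.pi * lam))
      rw [abs_neg, sub_neg_eq_add, add_comm (2 * Real.pi * t * w)] at this
      exact this
    have h5 : |2 * Real.pi * t * w| = 2 * (Real.pi * t * |w|) := by
      rw [abs_mul, abs_of_pos (by positivity)]
      ring
    have h6 : |6 * Real.pi * lam| = Real.pi * t * (6 * |lam| / t) := by
      rw [abs_mul, abs_of_pos (by positivity)]
      field_simp
    have h7 : Real.pi * t * (6 * |lam| / t) ≤ Real.pi * t * |w| :=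
      mul_le_mul_of_nonneg_left (by linarith) hpt.le
    rw [h5, h6] at h4
    linarith
  have h8 : ‖(zz lam + 2 * Real.pi * t * w * I : ℂ) ^ (-(κ + 1 : ℝ) : ℂ)‖ =
      ‖(zz lam + 2 * Real.pi * t * w * I : ℂ)‖ ^ (-(κ + 1) : ℝ) := by
    have h9 := Complex.norm_cpow_real (zz lam + 2 * Real.pi * t * w * I : ℂ) (-(κ + 1))
    rw [← h9]
    push_cast
    rfl
  have h10 : ‖|w| ^ (-2 : ℝ)‖ = |w| ^ (-2 : ℝ) := by
    rw [Real.norm_eq_abs, abs_of_nonneg (by positivity)]
  rw [h8, h10, ← Real.mul_rpow hpt.le hw0.le]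
  calc ‖(zz lam + 2 * Real.pi * t * w * I : ℂ)‖ ^ (-(κ + 1) : ℝ)
      ≤ ‖(zz lam + 2 * Real.pi * t * w * I : ℂ)‖ ^ (-2 : ℝ) :=
        Real.rpow_le_rpow_of_exponent_le h1 (by linarith)
    _ ≤ (Real.pi * t * |w|) ^ (-2 : ℝ) :=
        Real.rpow_le_rpow_of_nonpos (by positivity) h3 (by norm_num)

/-- The decay of the function. -/
private theorem Po_decay' (κ lam s : ℝ) (hκ : 1 ≤ κ) (hs : 0 < s) :
    (fun y : ℝ => Tf κ lam (y * s)) =O[Filter.cocompact ℝ] fun w : ℝ => |w| ^ (-2 : ℝ) := by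
  obtain ⟨A, hA, h⟩ := Tf_small κ hκ
  rw [Asymptotics.isBigO_iff]
  refine ⟨A * s ^ (-2 : ℝ), Filter.Eventually.of_forall fun y => ?_⟩
  have h10 : ‖|y| ^ (-2 : ℝ)‖ = |y| ^ (-2 : ℝ) := by
    rw [Real.norm_eq_abs, abs_of_nonneg (by positivity)]
  rw [h10]
  rcases le_or_gt y 0 with hy | hy
  · rw [Po_neg κ lam (mul_nonpos_of_nonpos_of_nonneg hy hs.le), norm_zero]
    positivity
  · refine ((h lam (y * s) (mul_pos hy hs)).1).trans (le_of_eq ?_)
    rw [abs_of_pos hy, Real.mul_rpow hy.le hs.le]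
    ring

theorem Uf_eq (κ X q : ℝ) (hκ : 1 ≤ κ) (hX : 0 < X) (hq : 0 < q) (p : ℕ) [NeZero p] (hp : p.Prime) (hp2 : 2 < p) :
    Uf κ X p q = tau p * (X / p / q * Real.Gamma (κ + 1) : ℝ) *
      ∑' k : ℤ, chi p k * (zz (X / p) + 2 * Real.pi * (X / p / q) * k * I) ^ (-(κ + 1 : ℝ) : ℂ) := by
  have hp0 : (0 : ℝ) < p := by exact_mod_cast hp.pos
  obtain ⟨s, hs⟩ : ∃ s : ℝ, s = p * q / X := ⟨_, rfl⟩
  have hs0 : 0 < s := by
    rw [hs]
    positivity
  have hsi : s⁻¹ = X / p / q := by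
    rw [hs]
    field_simp
  obtain ⟨lam, hlam⟩ : ∃ lam : ℝ, lam = X / p := ⟨_, rfl⟩
  obtain ⟨F, hF⟩ : ∃ F : ℤ → ℂ, F = fun n : ℤ => (s⁻¹ * Real.Gamma (κ + 1) : ℝ) *
      (zz lam + 2 * Real.pi * (s⁻¹ : ℝ) * (n : ℝ) * I) ^ (-(κ + 1 : ℝ) : ℂ) := ⟨_, rfl⟩
  have hFf : ∀ n : ℤ, FourierTransform.fourier (fun y : ℝ => Tf κ lam (y * s)) (n : ℝ) = F n := by
    intro n
    rw [hF, Po_four κ lam s hκ hs0]
  have hFb : (FourierTransform.fourier fun y : ℝ => Tf κ lam (y * s)) =O[Filter.cocompact ℝ]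
      fun w : ℝ => |w| ^ (-2 : ℝ) := by
    have h1 : (FourierTransform.fourier fun y : ℝ => Tf κ lam (y * s)) = fun w : ℝ =>
        (s⁻¹ * Real.Gamma (κ + 1) : ℝ) *
          (zz lam + 2 * Real.pi * (s⁻¹ : ℝ) * w * I : ℂ) ^ (-(κ + 1 : ℝ) : ℂ) :=
      funext fun w => Po_four κ lam s hκ hs0 w
    rw [h1]
    exact (Po_decay κ lam s⁻¹ hκ (inv_pos.2 hs0)).const_mul_left _
  have hFs : Summable F := by
    have h1 := summable_of_isBigO (Real.summable_abs_int_rpow (b := 2) (by norm_num))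
      (hFb.comp_tendsto Int.tendsto_coe_cofinite)
    refine h1.congr fun n => ?_
    exact hFf n
  -- Poisson
  have hpois : ∀ x : ℝ, ∑' n : ℤ, Tf κ lam ((x + n) * s) = ∑' n : ℤ, F n * fourier n (x : UnitAddCircle) := by
    intro x
    have hc : Continuous fun y : ℝ => Tf κ lam (y * s) :=
      (Po_cont κ lam hκ).comp (continuous_id.mul continuous_const)
    have h1 := Real.tsum_eq_tsum_fourier_of_rpow_decay hc (b := 2) (by norm_num)
      (Po_decay' κ lam s hκ hs0) hFb x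
    rw [h1]
    exact tsum_congr fun n => by rw [hFf]
  -- the residue classes
  have hsum : Summable fun m : ℕ => ch p m * Tf κ (X / p) (m * q / X) := by
    obtain ⟨A, hA, h⟩ := Tf_sum κ hκ
    have h1 := (h lam (X / q) (by positivity)).1
    refine Summable.of_norm_bounded h1 fun m => ?_
    rw [norm_mul, hlam]
    have h2 : (m : ℝ) / (X / q) = m * q / X := by
      field_simp
    rw [h2]
    calc ‖ch p m‖ * ‖Tf κ (X / p) (m * q / X)‖ ≤ 1 * ‖Tf κ (X / p) (m * q / X)‖ :=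
          mul_le_mul_of_nonneg_right (norm_ch_le p m) (norm_nonneg _)
      _ = _ := one_mul _
  have hclass : ∀ c : ZMod p, ∑' m : ℕ, ch p (c.val + p * m) * Tf κ (X / p) ((c.val + p * m : ℕ) * q / X) =
      chi p c * ∑' n : ℤ, F n * fourier n ((c.val / p : ℝ) : UnitAddCircle) := by
    intro c
    rw [← hpois, ← tsum_mul_left]
    have h1 : ∀ m : ℕ, ch p (c.val + p * m) = chi p c := by
      intro m
      have h2 := chi_apply p (c.val + p * m)
      have h2' : ((c.val + p * m : ℕ) : ZMod p) = c := by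
        rw [Nat.cast_add, Nat.cast_mul, ZMod.natCast_self p, zero_mul, add_zero, ZMod.natCast_zmod_val]
      rw [h2'] at h2
      rw [h2]
      rfl
    have h3 : ∀ m : ℕ, ch p (c.val + p * m) * Tf κ (X / p) ((c.val + p * m : ℕ) * q / X) =
        (fun n : ℤ => chi p c * Tf κ lam (((c.val / p : ℝ) + n) * s)) (m : ℤ) := by
      intro m
      beta_reduce
      rw [h1, ← hlam]
      congr 2
      rw [hs]
      push_cast
      field_simp
    rw [tsum_congr h3]
    refine Function.Injective.tsum_eq (g := fun m : ℕ => (m : ℤ)) Nat.cast_injective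
      (f := fun n : ℤ => chi p c * Tf κ lam (((c.val / p : ℝ) + n) * s)) ?_
    intro n hn
    rw [Function.mem_support] at hn
    by_contra hneg
    apply hn
    have h4 : n < 0 := by
      by_contra h5
      push Not at h5
      exact hneg ⟨n.toNat, Int.toNat_of_nonneg h5⟩
    have h6 : (n : ℝ) ≤ -1 := by
      have : n ≤ -1 := by omega
      exact_mod_cast this
    have h7 : ((c.val : ℝ) / p) ≤ 1 := by
      rw [div_le_one hp0]
      exact_mod_cast (ZMod.val_lt c).le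
    rw [Po_neg κ lam (mul_nonpos_of_nonpos_of_nonneg (by linarith) hs0.le), mul_zero]
  have hfour : ∀ (n : ℤ) (c : ZMod p), fourier n ((c.val / p : ℝ) : UnitAddCircle) =
      cexp (2 * Real.pi * I * n * c.val / p) := by
    intro n c
    rw [fourier_coe_apply]
    congr 1
    push_cast
    ring
  unfold Uf
  rw [Nat.sumByResidueClasses hsum p]
  rw [Finset.sum_congr rfl fun c _ => hclass c]
  have h5 : ∀ c : ZMod p, chi p c * ∑' n : ℤ, F n * fourier n ((c.val / p : ℝ) : UnitAddCircle) =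
      ∑' n : ℤ, F n * (chi p c * cexp (2 * Real.pi * I * n * c.val / p)) := by
    intro c
    rw [← tsum_mul_left]
    refine tsum_congr fun n => ?_
    rw [hfour]
    ring
  rw [Finset.sum_congr rfl fun c _ => h5 c]
  rw [← Summable.tsum_finsetSum]
  · have h6 : ∀ n : ℤ, ∑ c : ZMod p, F n * (chi p c * cexp (2 * Real.pi * I * n * c.val / p)) =
        tau p * (X / p / q * Real.Gamma (κ + 1) : ℝ) *
          (chi p n * (zz (X / p) + 2 * Real.pi * (X / p / q) * n * I) ^ (-(κ + 1 : ℝ) : ℂ)) := by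
      intro n
      rw [← Finset.mul_sum, tau_shift p hp hp2 n, hF]
      beta_reduce
      rw [hsi, hlam]
      push_cast
      ring
    rw [tsum_congr h6, tsum_mul_left]
  · intro c _
    refine Summable.of_norm_bounded hFs.norm fun n => ?_
    rw [norm_mul, norm_mul]
    have h7 : ‖cexp (2 * Real.pi * I * n * c.val / p)‖ = 1 := by
      have h8 : (2 * Real.pi * I * n * c.val / p : ℂ) = ((2 * Real.pi * n * c.val / p : ℝ) : ℂ) * I := by
        push_cast
        ring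
      rw [h8, Complex.norm_exp_ofReal_mul_I]
    rw [h7, mul_one]
    calc ‖F n‖ * ‖chi p c‖ ≤ ‖F n‖ * 1 := mul_le_mul_of_nonneg_left (norm_chi_le p c) (norm_nonneg _)
      _ = _ := mul_one _

end Pool.Agent.Lib.MP_d713a4_nt
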