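import Pool.Agent.Lib.MP_d713a4_nt.Defs

/-!
# LEAF Pr: many primes `≡ 1` modulo `8` in dyadic intervals

PROOF.  If `#PP (2^j) < 2^(j(1-h))` for all `j ≥ j₀`, then `∑_(p ≡ 1 mod 8) 1/p ≤ C + ∑_j 2^(-j) 2^(j(1-h)) < ∞`, but the sum diverges:
`ArithmeticFunction.vonMangoldt.not_summable_residueClass_prime_div` (`Mathlib/NumberTheory/LSeries/PrimesInAP.lean`; `Λ`-version: then use
`∑ log p / p` and `log p ≤ 2 j`).
-/

set_option autoImplicit false

namespace Pool.Agent.Lib.MP_d713a4_nt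

theorem many_primes (h : ℝ) (h0 : 0 < h) (P₀ : ℕ) : ∃ P : ℕ, P₀ ≤ P ∧ (P : ℝ) ^ (1 - h) ≤ (PP P).card := by
  by_contra hcon
  push Not at hcon
  set F : ℕ → ℝ := fun n => (if n.Prime then ArithmeticFunction.vonMangoldt.residueClass (1 : ZMod 8) n else 0) / n with hF
  have hns : ¬ Summable F := ArithmeticFunction.vonMangoldt.not_summable_residueClass_prime_div isUnit_one
  apply hns
  have hF0 : ∀ n, 0 ≤ F n := by
    intro n
    simp only [hF]
    refine div_nonneg ?_ (Nat.cast_nonneg n)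
    split_ifs
    · exact ArithmeticFunction.vonMangoldt.residueClass_nonneg 1 n
    · exact le_rfl
  have hFlog : ∀ n, F n ≤ Real.log n / n := by
    intro n
    simp only [hF]
    refine div_le_div_of_nonneg_right ?_ (Nat.cast_nonneg n)
    split_ifs
    · exact (ArithmeticFunction.vonMangoldt.residueClass_le 1 n).trans ArithmeticFunction.vonMangoldt_le_log
    · exact Real.log_natCast_nonneg n
  have hFne : ∀ n, F n ≠ 0 → n.Prime ∧ n % 8 = 1 := by
    intro n hn
    by_cases hp : n.Prime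
    · refine ⟨hp, ?_⟩
      by_contra h8
      apply hn
      simp only [hF, if_pos hp]
      have : ArithmeticFunction.vonMangoldt.residueClass (1 : ZMod 8) n = 0 := by
        unfold ArithmeticFunction.vonMangoldt.residueClass
        apply Set.indicator_of_notMem
        intro hmem
        have h1 : ((n : ℕ) : ZMod 8) = ((1 : ℕ) : ZMod 8) := by simpa using hmem
        rw [ZMod.natCast_eq_natCast_iff] at h1
        exact h8 h1
      rw [this, zero_div]
    · exact absurd (by simp only [hF, if_neg hp, zero_div]) hn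
  set r : ℝ := (2 : ℝ) ^ (-h) with hr
  have hr0 : 0 < r := Real.rpow_pos_of_pos (by norm_num) _
  have hr1 : r < 1 := Real.rpow_lt_one_of_one_lt_of_neg (by norm_num) (by linarith)
  set g : ℕ → ℝ := fun j => ((j : ℝ) + 1) * r ^ j with hg
  have hg0 : ∀ j, 0 ≤ g j := fun j => by positivity
  have hgs : Summable g := by
    have h1 : Summable (fun j : ℕ => (j : ℝ) * r ^ j) := by
      have := summable_pow_mul_geometric_of_norm_lt_one 1 (r := r) (by rw [Real.norm_of_nonneg hr0.le]; exact hr1)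
      simpa using this
    have h2 : Summable (fun j : ℕ => r ^ j) := summable_geometric_of_lt_one hr0.le hr1
    refine (h1.add h2).congr fun j => ?_
    simp only [hg]
    ring
  have block : ∀ j : ℕ, P₀ ≤ 2 ^ j → ∑ n ∈ Finset.Ico (2 ^ j) (2 ^ (j + 1)), F n ≤ g j := by
    intro j hj
    have e1 : ∑ n ∈ Finset.Ico (2 ^ j) (2 ^ (j + 1)), F n = ∑ n ∈ PP (2 ^ j), F n := by
      symm
      have e0 : (2 : ℕ) ^ (j + 1) = 2 * 2 ^ j := by ring
      unfold PP
      rw [e0]
      exact Finset.sum_filter_of_ne (fun n _ hn => hFne n hn)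
    rw [e1]
    have h2j : (0 : ℝ) < (2 : ℝ) ^ j := by positivity
    have e2 : ∀ n ∈ PP (2 ^ j), F n ≤ ((j : ℝ) + 1) / 2 ^ j := by
      intro n hn
      have hn1 := (Finset.mem_Ico.mp (Finset.mem_filter.mp hn).1)
      have hlow : (2 : ℝ) ^ j ≤ n := by exact_mod_cast hn1.1
      have hup : (n : ℝ) ≤ 2 ^ (j + 1) := by
        have : n ≤ 2 ^ (j + 1) := by
          have := hn1.2
          rw [pow_succ]
          omega
        exact_mod_cast this
      have hn0 : (0 : ℝ) < n := lt_of_lt_of_le h2j hlow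
      refine (hFlog n).trans ?_
      have hlog : Real.log n ≤ (j : ℝ) + 1 := by
        have h3 : Real.log n ≤ Real.log (2 ^ (j + 1)) := Real.log_le_log hn0 hup
        rw [Real.log_pow] at h3
        have h4 : Real.log 2 ≤ 1 := by
          have := Real.log_two_lt_d9
          linarith
        have h5 : ((j + 1 : ℕ) : ℝ) * Real.log 2 ≤ ((j + 1 : ℕ) : ℝ) * 1 :=
          mul_le_mul_of_nonneg_left h4 (Nat.cast_nonneg _)
        push_cast at h3 h5
        linarith
      exact div_le_div₀ (by positivity) hlog h2j hlow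
    have e3 : ∑ n ∈ PP (2 ^ j), F n ≤ (PP (2 ^ j)).card • (((j : ℝ) + 1) / 2 ^ j) :=
      Finset.sum_le_card_nsmul _ _ _ e2
    refine e3.trans ?_
    rw [nsmul_eq_mul]
    have h6 := hcon (2 ^ j) hj
    have h7 : (((2 ^ j : ℕ) : ℝ)) ^ (1 - h) = 2 ^ j * r ^ j := by
      push_cast
      rw [Real.rpow_sub h2j, Real.rpow_one, hr, div_eq_mul_inv, ← Real.rpow_neg h2j.le]
      rw [← Real.rpow_natCast 2 j, ← Real.rpow_natCast ((2 : ℝ) ^ (-h)) j, ← Real.rpow_mul (by norm_num), ← Real.rpow_mul (by norm_num),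
        mul_comm (j : ℝ) (-h)]
    rw [h7] at h6
    have h8 : (0 : ℝ) ≤ ((j : ℝ) + 1) / 2 ^ j := by positivity
    refine (mul_le_mul_of_nonneg_right h6.le h8).trans (le_of_eq ?_)
    simp only [hg]
    field_simp
  have hj0 : P₀ ≤ 2 ^ P₀ := Nat.lt_two_pow_self.le
  have main : ∀ k : ℕ, ∑ n ∈ Finset.range (2 ^ (P₀ + k)), F n
      ≤ ∑ n ∈ Finset.range (2 ^ P₀), F n + ∑ j ∈ Finset.range (P₀ + k), g j := by
    intro k
    induction k with
    | zero =>
      have : 0 ≤ ∑ j ∈ Finset.range (P₀ + 0), g j := Finset.sum_nonneg fun j _ => hg0 j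
      simpa using this
    | succ k ih =>
      have e1 : ∑ n ∈ Finset.range (2 ^ (P₀ + k)), F n + ∑ n ∈ Finset.Ico (2 ^ (P₀ + k)) (2 ^ (P₀ + k + 1)), F n
          = ∑ n ∈ Finset.range (2 ^ (P₀ + k + 1)), F n := by
        rw [Finset.range_eq_Ico, Finset.range_eq_Ico]
        exact Finset.sum_Ico_consecutive F (Nat.zero_le _) (Nat.pow_le_pow_right (by norm_num) (by omega))
      have e2 := block (P₀ + k) (hj0.trans (Nat.pow_le_pow_right (by norm_num) (by omega)))
      rw [← add_assoc, ← e1, Finset.sum_range_succ]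
      linarith
  refine summable_of_sum_range_le (c := ∑ n ∈ Finset.range (2 ^ P₀), F n + ∑' j, g j) hF0 ?_
  intro n
  have h1 : n ≤ 2 ^ (P₀ + n) := (Nat.lt_two_pow_self (n := n)).le.trans (Nat.pow_le_pow_right (by norm_num) (by omega))
  have h2 : ∑ i ∈ Finset.range n, F i ≤ ∑ i ∈ Finset.range (2 ^ (P₀ + n)), F i :=
    Finset.sum_le_sum_of_subset_of_nonneg (Finset.range_mono h1) (fun i _ _ => hF0 i)
  have h3 : ∑ j ∈ Finset.range (P₀ + n), g j ≤ ∑' j, g j := hgs.sum_le_tsum _ (fun i _ => hg0 i)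
  linarith [main n]

end Pool.Agent.Lib.MP_d713a4_nt
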