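import Pool.Agent.Lib.MP_d713a4_nt.NfD
import Pool.Agent.Lib.MP_d713a4_nt.Ch
import Pool.Agent.Lib.MP_d713a4_nt.Fa

/-!
# LEAF Pt: Gauss sum and Fourier transform

PROOF.  `Tf_four`: `Complex.integral_cpow_mul_exp_neg_mul_Ioi` with the exponent `κ + 1` and the parameter `zz λ + 2 π i ξ` (real part `1`).
`norm_tau`: `gaussSum_sq` / `gaussSum_mul_gaussSum_eq_card` (`chi p` is a nontrivial quadratic character of the field `ZMod p`; `chi_ne_one`).
`tau_shift`: `gaussSum_mulShift` for units (`chi p` takes the values `0`, `1`, `-1`); for `k ≡ 0` both sides are `0` (`∑ χ = 0`).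
-/

set_option autoImplicit false

namespace Pool.Agent.Lib.MP_d713a4_nt

open Complex MeasureTheory

/-- the Gauss sum -/
noncomputable def tau (p : ℕ) [NeZero p] : ℂ := gaussSum (chi p) ZMod.stdAddChar

private theorem Pt_ne (p : ℕ) [NeZero p] (hp : p.Prime) (hp2 : 2 < p) : chi p ≠ 1 :=
  chi_ne_one p hp.one_lt (hp.odd_of_ne_two (by omega)) hp.prime.squarefree

private theorem Pt_quad (p : ℕ) [NeZero p] : (chi p).IsQuadratic := by
  intro a
  show ((jacobiSym (a.val : ℤ) p : ℤ) : ℂ) = 0 ∨ ((jacobiSym (a.val : ℤ) p : ℤ) : ℂ) = 1 ∨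
    ((jacobiSym (a.val : ℤ) p : ℤ) : ℂ) = -1
  rcases jacobiSym.trichotomy (a.val : ℤ) p with h | h | h
  · left
    rw [h, Int.cast_zero]
  · right
    left
    rw [h, Int.cast_one]
  · right
    right
    rw [h, Int.cast_neg, Int.cast_one]

private theorem Pt_int (κ r : ℝ) (hκ : 0 ≤ κ) (hr : 0 < r) :
    IntegrableOn (fun u : ℝ => u ^ κ * Real.exp (-(r * u))) (Set.Ioi 0) := by
  have h := integrableOn_rpow_mul_exp_neg_mul_rpow (s := κ) (p := 1) (b := r) (by linarith)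
    one_pos hr
  refine h.congr_fun (fun u _ => ?_) measurableSet_Ioi
  simp only [Real.rpow_one, neg_mul]

private theorem Pt_meas (κ : ℝ) (w : ℂ) :
    Measurable (fun u : ℝ => ((u ^ κ : ℝ) : ℂ) * cexp (-(w * u))) := by
  have h1 : Measurable fun u : ℝ => ((u ^ κ : ℝ) : ℂ) :=
    Complex.measurable_ofReal.comp (measurable_id.pow_const κ)
  have h2 : Measurable fun u : ℝ => cexp (-(w * u)) := by fun_prop
  exact h1.mul h2

private theorem Pt_norm (κ u : ℝ) (w : ℂ) (hu : 0 < u) :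
    ‖((u ^ κ : ℝ) : ℂ) * cexp (-(w * u))‖ = u ^ κ * Real.exp (-(w.re * u)) := by
  rw [norm_mul, Complex.norm_real, Real.norm_eq_abs, abs_of_nonneg (Real.rpow_nonneg hu.le κ),
    Complex.norm_exp]
  simp

private theorem Pt_hol (κ : ℝ) (hκ : 0 ≤ κ) (z : ℂ) (hz : 0 < z.re) :
    DifferentiableAt ℂ (fun z : ℂ => ∫ u in Set.Ioi (0 : ℝ), ((u ^ κ : ℝ) : ℂ) * cexp (-(z * u)))
      z := by
  refine (hasDerivAt_integral_of_dominated_loc_of_deriv_le (μ := volume.restrict (Set.Ioi 0))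
    (F := fun (z : ℂ) (u : ℝ) => ((u ^ κ : ℝ) : ℂ) * cexp (-(z * u)))
    (F' := fun (z : ℂ) (u : ℝ) => ((u ^ κ : ℝ) : ℂ) * (cexp (-(z * u)) * (-(1 * (u : ℂ)))))
    (bound := fun u => u ^ (κ + 1) * Real.exp (-(z.re / 2 * u)))
    (Metric.ball_mem_nhds z (half_pos hz)) ?_ ?_ ?_ ?_ ?_ ?_).2.differentiableAt
  · exact Filter.Eventually.of_forall fun w => (Pt_meas κ w).aestronglyMeasurable
  · have h1 : IntegrableOn (fun u : ℝ => ‖((u ^ κ : ℝ) : ℂ) * cexp (-(z * u))‖) (Set.Ioi 0) := by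
      refine (Pt_int κ z.re hκ hz).congr_fun (fun u hu => ?_) measurableSet_Ioi
      exact (Pt_norm κ u z hu).symm
    exact (integrable_norm_iff (Pt_meas κ z).aestronglyMeasurable).1 h1
  · have h1 : Measurable fun u : ℝ =>
        ((u ^ κ : ℝ) : ℂ) * cexp (-(z * u)) * (-(1 * (u : ℂ))) :=
      (Pt_meas κ z).mul (by fun_prop)
    have h2 : (fun u : ℝ => ((u ^ κ : ℝ) : ℂ) * (cexp (-(z * u)) * (-(1 * (u : ℂ))))) =
        fun u : ℝ => ((u ^ κ : ℝ) : ℂ) * cexp (-(z * u)) * (-(1 * (u : ℂ))) := by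
      funext u
      ring
    show AEStronglyMeasurable (fun u : ℝ =>
      ((u ^ κ : ℝ) : ℂ) * (cexp (-(z * u)) * (-(1 * (u : ℂ))))) _
    rw [h2]
    exact h1.aestronglyMeasurable
  · refine (ae_restrict_mem measurableSet_Ioi).mono fun u hu w hw => ?_
    have hu' : 0 < u := hu
    have h1 : ((u ^ κ : ℝ) : ℂ) * (cexp (-(w * u)) * (-(1 * (u : ℂ)))) =
        (((u ^ κ : ℝ) : ℂ) * cexp (-(w * u))) * (-(u : ℂ)) := by ring
    have h2 : ‖(u : ℂ)‖ = u := by
      rw [Complex.norm_real, Real.norm_eq_abs, abs_of_pos hu']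
    have h3 : z.re / 2 ≤ w.re := by
      have h4 : ‖w - z‖ < z.re / 2 := by
        rw [← dist_eq_norm]
        exact hw
      have h5 := (abs_re_le_norm (w - z)).trans h4.le
      rw [Complex.sub_re] at h5
      have h6 := (abs_le.1 h5).1
      linarith
    show ‖((u ^ κ : ℝ) : ℂ) * (cexp (-(w * u)) * (-(1 * (u : ℂ))))‖ ≤
      u ^ (κ + 1) * Real.exp (-(z.re / 2 * u))
    rw [h1, norm_mul, Pt_norm κ u w hu', norm_neg, h2, Real.rpow_add_one hu'.ne']
    have h7 : Real.exp (-(w.re * u)) ≤ Real.exp (-(z.re / 2 * u)) := by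
      refine Real.exp_le_exp.2 ?_
      have := mul_le_mul_of_nonneg_right h3 hu'.le
      linarith
    have h8 : 0 ≤ u ^ κ * u := mul_nonneg (Real.rpow_nonneg hu'.le κ) hu'.le
    calc u ^ κ * Real.exp (-(w.re * u)) * u = u ^ κ * u * Real.exp (-(w.re * u)) := by ring
      _ ≤ u ^ κ * u * Real.exp (-(z.re / 2 * u)) := mul_le_mul_of_nonneg_left h7 h8
  · exact Pt_int (κ + 1) (z.re / 2) (by linarith) (half_pos hz)
  · refine Filter.Eventually.of_forall fun u w _ => ?_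
    have h1 : HasDerivAt (fun w : ℂ => -(w * (u : ℂ))) (-(1 * (u : ℂ))) w :=
      ((hasDerivAt_id w).mul_const (u : ℂ)).neg
    exact (h1.cexp).const_mul _

private theorem Pt_pow (κ r : ℝ) (hr : 0 < r) :
    (1 / (r : ℂ)) ^ ((κ : ℂ) + 1) = (r : ℂ) ^ (-((κ : ℂ) + 1)) := by
  have h1 : ((r : ℝ) : ℂ).arg ≠ Real.pi := by
    rw [Complex.arg_ofReal_of_nonneg hr.le]
    exact Real.pi_pos.ne
  rw [one_div, Complex.inv_cpow _ _ h1, Complex.cpow_neg]

private theorem Pt_gamma (κ : ℝ) (hκ : 0 ≤ κ) (z : ℂ) (hz : 0 < z.re) :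
    ∫ u in Set.Ioi (0 : ℝ), ((u ^ κ : ℝ) : ℂ) * cexp (-(z * u)) =
      (Real.Gamma (κ + 1) : ℂ) * z ^ (-((κ : ℂ) + 1)) := by
  have hopen : IsOpen {w : ℂ | 0 < w.re} := isOpen_lt continuous_const Complex.continuous_re
  have hF : AnalyticOnNhd ℂ
      (fun z : ℂ => ∫ u in Set.Ioi (0 : ℝ), ((u ^ κ : ℝ) : ℂ) * cexp (-(z * u)))
      {w : ℂ | 0 < w.re} :=
    DifferentiableOn.analyticOnNhd (fun w hw => (Pt_hol κ hκ w hw).differentiableWithinAt) hopen
  have hG : AnalyticOnNhd ℂ (fun z : ℂ => (Real.Gamma (κ + 1) : ℂ) * z ^ (-((κ : ℂ) + 1)))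
      {w : ℂ | 0 < w.re} := by
    refine DifferentiableOn.analyticOnNhd (fun w hw => ?_) hopen
    have h1 : DifferentiableAt ℂ (fun z : ℂ => z ^ (-((κ : ℂ) + 1))) w :=
      differentiableAt_id.cpow_const (Or.inl hw)
    exact (h1.const_mul _).differentiableWithinAt
  have hpre : IsPreconnected {w : ℂ | 0 < w.re} := (convex_halfSpace_re_gt 0).isPreconnected
  have h0 : (1 : ℂ) ∈ {w : ℂ | 0 < w.re} := by
    show 0 < (1 : ℂ).re
    rw [Complex.one_re]
    exact one_pos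
  have hreal : ∀ r : ℝ, 0 < r → ∫ u in Set.Ioi (0 : ℝ), ((u ^ κ : ℝ) : ℂ) * cexp (-((r : ℂ) * u)) =
      (Real.Gamma (κ + 1) : ℂ) * (r : ℂ) ^ (-((κ : ℂ) + 1)) := by
    intro r hr
    have h1 : 0 < ((κ : ℂ) + 1).re := by
      rw [Complex.add_re, Complex.ofReal_re, Complex.one_re]
      linarith
    have h2 := Complex.integral_cpow_mul_exp_neg_mul_Ioi h1 hr
    rw [add_sub_cancel_right, Pt_pow κ r hr] at h2
    have h3 : Complex.Gamma ((κ : ℂ) + 1) = (Real.Gamma (κ + 1) : ℂ) := by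
      rw [← Complex.Gamma_ofReal, Complex.ofReal_add, Complex.ofReal_one]
    rw [h3, mul_comm ((r : ℂ) ^ (-((κ : ℂ) + 1)))] at h2
    rw [← h2]
    refine setIntegral_congr_fun measurableSet_Ioi fun u hu => ?_
    have hu' : 0 < u := hu
    show ((u ^ κ : ℝ) : ℂ) * cexp (-((r : ℂ) * u)) = (u : ℂ) ^ (κ : ℂ) * cexp (-((r : ℂ) * u))
    rw [Complex.ofReal_cpow hu'.le]
  have hfreq : ∃ᶠ w in nhdsWithin (1 : ℂ) {(1 : ℂ)}ᶜ,
      (fun z : ℂ => ∫ u in Set.Ioi (0 : ℝ), ((u ^ κ : ℝ) : ℂ) * cexp (-(z * u))) w =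
        (fun z : ℂ => (Real.Gamma (κ + 1) : ℂ) * z ^ (-((κ : ℂ) + 1))) w := by
    have h1 : Filter.Tendsto (fun r : ℝ => (r : ℂ)) (nhdsWithin (1 : ℝ) {(1 : ℝ)}ᶜ)
        (nhdsWithin (1 : ℂ) {(1 : ℂ)}ᶜ) := by
      refine tendsto_nhdsWithin_iff.2 ⟨?_, ?_⟩
      · have h2 : Filter.Tendsto (fun r : ℝ => (r : ℂ)) (nhds (1 : ℝ)) (nhds ((1 : ℝ) : ℂ)) :=
          Complex.continuous_ofReal.tendsto 1
        rw [Complex.ofReal_one] at h2
        exact h2.mono_left nhdsWithin_le_nhds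
      · filter_upwards [self_mem_nhdsWithin] with r hr hr'
        exact hr (Complex.ofReal_injective (show (r : ℂ) = ((1 : ℝ) : ℂ) from by
          rw [Complex.ofReal_one]
          exact hr'))
    refine h1.frequently (Filter.Eventually.frequently ?_)
    have h3 : ∀ᶠ r : ℝ in nhds (1 : ℝ), 0 < r := lt_mem_nhds one_pos
    filter_upwards [h3.filter_mono nhdsWithin_le_nhds] with r hr
    exact hreal r hr
  exact hF.eqOn_of_preconnected_of_frequently_eq hG hpre h0 hfreq hz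

theorem norm_tau (p : ℕ) [NeZero p] (hp : p.Prime) (hp2 : 2 < p) : ‖tau p‖ = Real.sqrt p := by
  have hfp : Fact p.Prime := ⟨hp⟩
  have h1 := Pt_ne p hp hp2
  have h2 := Pt_quad p
  have h3 : tau p ^ 2 = chi p (-1) * (Fintype.card (ZMod p) : ℂ) :=
    gaussSum_sq h1 h2 (ZMod.isPrimitive_stdAddChar p)
  rw [ZMod.card] at h3
  have hu : IsUnit (-1 : ZMod p) := isUnit_one.neg
  have h4 : ‖chi p (-1)‖ = 1 := by
    rcases h2 (-1) with h | h | h
    · exact absurd h (hu.map (chi p)).ne_zero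
    · rw [h, norm_one]
    · rw [h, norm_neg, norm_one]
  have h5 : ‖tau p‖ ^ 2 = p := by
    rw [← norm_pow, h3, norm_mul, h4, one_mul, Complex.norm_natCast]
  rw [← h5, Real.sqrt_sq (norm_nonneg _)]

theorem tau_shift (p : ℕ) [NeZero p] (hp : p.Prime) (hp2 : 2 < p) (k : ℤ) :
    ∑ c : ZMod p, chi p c * cexp (2 * Real.pi * I * k * c.val / p) = chi p k * tau p := by
  have hfp : Fact p.Prime := ⟨hp⟩
  have h1 := Pt_ne p hp hp2
  have hterm : ∀ c : ZMod p, cexp (2 * Real.pi * I * k * c.val / p) =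
      ZMod.stdAddChar ((k : ZMod p) * c) := by
    intro c
    have h2 : (k : ZMod p) * c = ((k * (c.val : ℤ) : ℤ) : ZMod p) := by
      rw [Int.cast_mul, Int.cast_natCast, ZMod.natCast_zmod_val]
    rw [h2, ZMod.stdAddChar_coe]
    refine congrArg cexp ?_
    push_cast
    ring
  simp only [hterm]
  by_cases hk : (k : ZMod p) = 0
  · rw [hk]
    have h3 : ∀ c : ZMod p, (ZMod.stdAddChar ((0 : ZMod p) * c) : ℂ) = 1 := by
      intro c
      rw [zero_mul, AddChar.map_zero_eq_one]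
    simp only [h3, mul_one]
    rw [MulChar.sum_eq_zero_of_ne_one h1, MulChar.map_zero, zero_mul]
  · obtain ⟨a, ha⟩ : IsUnit (k : ZMod p) := isUnit_iff_ne_zero.2 hk
    have h4 := gaussSum_mulShift (chi p) ZMod.stdAddChar a
    have h5 : chi p (k : ZMod p) * chi p (k : ZMod p) = 1 := by
      have hu : IsUnit (k : ZMod p) := ⟨a, ha⟩
      rcases Pt_quad p (k : ZMod p) with h | h | h
      · exact absurd h (hu.map (chi p)).ne_zero
      · rw [h, one_mul]
      · rw [h]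
        norm_num
    have h6 : gaussSum (chi p) (AddChar.mulShift ZMod.stdAddChar (a : ZMod p)) =
        ∑ c : ZMod p, chi p c * (ZMod.stdAddChar ((k : ZMod p) * c) : ℂ) := by
      rw [← ha]
      rfl
    rw [← h6]
    show _ = chi p (k : ZMod p) * gaussSum (chi p) ZMod.stdAddChar
    rw [← h4, ha, ← mul_assoc, h5, one_mul]

theorem Tf_four (κ lam ξ : ℝ) (hκ : 1 ≤ κ) :
    ∫ u : ℝ, Tf κ lam u * cexp (-(2 * Real.pi * ξ * u) * I) =
      Real.Gamma (κ + 1) * (zz lam + 2 * Real.pi * ξ * I) ^ (-(κ + 1 : ℝ) : ℂ) := by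
  have h1 : 0 < (zz lam + 2 * Real.pi * ξ * I).re := by
    have h2 : (zz lam + 2 * Real.pi * ξ * I).re = 1 := by
      simp [zz]
    rw [h2]
    exact one_pos
  have h3 := Pt_gamma κ (by linarith) _ h1
  have h4 : (-(κ + 1 : ℝ) : ℂ) = -((κ : ℂ) + 1) := by
    push_cast
    ring
  rw [h4, ← h3, ← integral_indicator measurableSet_Ioi]
  refine integral_congr_ae (Filter.Eventually.of_forall fun u => ?_)
  show Tf κ lam u * cexp (-(2 * Real.pi * ξ * u) * I) = Set.indicator (Set.Ioi (0 : ℝ))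
    (fun u : ℝ => ((u ^ κ : ℝ) : ℂ) * cexp (-((zz lam + 2 * Real.pi * ξ * I) * u))) u
  by_cases hu : 0 < u
  · rw [Set.indicator_of_mem (show u ∈ Set.Ioi (0 : ℝ) from hu)]
    unfold Tf
    rw [if_pos hu, mul_assoc, ← Complex.exp_add]
    refine congrArg (fun w => ((u ^ κ : ℝ) : ℂ) * cexp w) ?_
    ring
  · rw [Set.indicator_of_notMem (show u ∉ Set.Ioi (0 : ℝ) from hu)]
    unfold Tf
    rw [if_neg hu, zero_mul]

end Pool.Agent.Lib.MP_d713a4_nt
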