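import Pool.Agent.Lib.MP_d713a4_nt.Pa
import Pool.Agent.Lib.MP_d713a4_nt.Pb

/-!
# LEAF Sl: the lower bound of `St`

PROOF.  `D = λ^(1/4)`, `λ = X/p`; `St_split`; `P1_low` with `κ = N - 1/2 - a/200 ≥ 1`; `P2_le` with `h = η = a/200`: with `X = λ p ≤ p²`, `λ ≤ p`
`‖P2‖ ≤ A X^(1/2) λ^(1/2) p^(2h + 2η + η) λ^(-1/8) ≤ A √p λ p^(5a/200) p^(-a/16) = A √p λ p^(-3a/80)`, which is at most half of the lower bound of `P1` for large `p`.
-/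

set_option autoImplicit false

namespace Pool.Agent.Lib.MP_d713a4_nt

open Complex

private theorem Sl_pow (A a p L : ℝ) (hA : 0 < A) (ha : 0 < a) (ha1 : a ≤ 1) (hp : 1 ≤ p) (hL : p ^ (a / 2) ≤ L) :
    A * (L * p) ^ (1 / 2 + a / 200) * L ^ (1 / 2 + 2 * (a / 200)) * p ^ (a / 200) * (L ^ (1 / 4 : ℝ)) ^ (-(1 / 2) : ℝ) ≤
      A * p ^ (-(9 * a / 200)) * L * Real.sqrt p := by
  have hp0 : 0 < p := by linarith
  have hL0 : 0 < L := lt_of_lt_of_le (Real.rpow_pos_of_pos hp0 _) hL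
  have e1 : (L * p) ^ (1 / 2 + a / 200) * L ^ (1 / 2 + 2 * (a / 200)) * p ^ (a / 200) * (L ^ (1 / 4 : ℝ)) ^ (-(1 / 2) : ℝ) =
      L * Real.sqrt p * (L ^ (3 * a / 200 - 1 / 8) * p ^ (2 * a / 200)) := by
    rw [Real.mul_rpow hL0.le hp0.le, ← Real.rpow_mul hL0.le, Real.sqrt_eq_rpow]
    have h1 : L * L ^ (3 * a / 200 - 1 / 8) = L ^ (1 / 2 + a / 200) * L ^ (1 / 2 + 2 * (a / 200)) * L ^ (1 / 4 * (-(1 / 2)) : ℝ) := by
      rw [← Real.rpow_add hL0, ← Real.rpow_add hL0]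
      nth_rewrite 1 [← Real.rpow_one L]
      rw [← Real.rpow_add hL0]
      congr 1
      ring
    have h2 : p ^ (1 / 2 : ℝ) * p ^ (2 * a / 200) = p ^ (1 / 2 + a / 200) * p ^ (a / 200) := by
      rw [← Real.rpow_add hp0, ← Real.rpow_add hp0]
      congr 1
      ring
    calc L ^ (1 / 2 + a / 200) * p ^ (1 / 2 + a / 200) * L ^ (1 / 2 + 2 * (a / 200)) * p ^ (a / 200) * L ^ (1 / 4 * (-(1 / 2)) : ℝ)
        = (L ^ (1 / 2 + a / 200) * L ^ (1 / 2 + 2 * (a / 200)) * L ^ (1 / 4 * (-(1 / 2)) : ℝ)) * (p ^ (1 / 2 + a / 200) * p ^ (a / 200)) := by ring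
      _ = (L * L ^ (3 * a / 200 - 1 / 8)) * (p ^ (1 / 2 : ℝ) * p ^ (2 * a / 200)) := by rw [h1, h2]
      _ = _ := by ring
  have e2 : L ^ (3 * a / 200 - 1 / 8) * p ^ (2 * a / 200) ≤ p ^ (-(9 * a / 200)) := by
    have h1 : L ^ (3 * a / 200 - 1 / 8) ≤ (p ^ (a / 2)) ^ (3 * a / 200 - 1 / 8) :=
      Real.rpow_le_rpow_of_nonpos (Real.rpow_pos_of_pos hp0 _) hL (by linarith)
    rw [← Real.rpow_mul hp0.le] at h1
    calc L ^ (3 * a / 200 - 1 / 8) * p ^ (2 * a / 200)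
        ≤ p ^ (a / 2 * (3 * a / 200 - 1 / 8)) * p ^ (2 * a / 200) :=
          mul_le_mul_of_nonneg_right h1 (Real.rpow_nonneg hp0.le _)
      _ = p ^ (a / 2 * (3 * a / 200 - 1 / 8) + 2 * a / 200) := (Real.rpow_add hp0 _ _).symm
      _ ≤ p ^ (-(9 * a / 200)) := by
          apply Real.rpow_le_rpow_of_exponent_le hp
          nlinarith
  calc A * (L * p) ^ (1 / 2 + a / 200) * L ^ (1 / 2 + 2 * (a / 200)) * p ^ (a / 200) * (L ^ (1 / 4 : ℝ)) ^ (-(1 / 2) : ℝ)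
      = A * ((L * p) ^ (1 / 2 + a / 200) * L ^ (1 / 2 + 2 * (a / 200)) * p ^ (a / 200) * (L ^ (1 / 4 : ℝ)) ^ (-(1 / 2) : ℝ)) := by ring
    _ = A * (L * Real.sqrt p * (L ^ (3 * a / 200 - 1 / 8) * p ^ (2 * a / 200))) := by rw [e1]
    _ ≤ A * (L * Real.sqrt p * p ^ (-(9 * a / 200))) := by
        apply mul_le_mul_of_nonneg_left _ hA.le
        exact mul_le_mul_of_nonneg_left e2 (mul_nonneg hL0.le (Real.sqrt_nonneg _))
    _ = _ := by ring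

theorem St_low (g : GRH) (a : ℝ) (ha : 0 < a) (ha1 : a ≤ 1) (N : ℕ) (hN : 2 ≤ N) : ∃ c : ℝ, 0 < c ∧ ∃ p₀ : ℕ, ∀ p : ℕ, p.Prime →
    p % 8 = 1 → p₀ ≤ p → ∀ X : ℝ, (p : ℝ) ^ (a / 2) ≤ X / p → X / p ≤ (p : ℝ) ^ a →
    c * (X / p) * Real.sqrt p ≤ ‖St (N - 1 / 2 - a / 200) X p‖ := by
  have hN' : (2 : ℝ) ≤ N := by exact_mod_cast hN
  have hκ : (1 : ℝ) ≤ N - 1 / 2 - a / 200 := by linarith
  obtain ⟨c, hc, p₁, h1⟩ := P1_low a (N - 1 / 2 - a / 200) ha ha1 hκ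
  obtain ⟨A, hA, h2⟩ := P2_le g N hN (a / 200) (a / 200) (by linarith) (by linarith) (by linarith) (by linarith)
  have ht : Filter.Tendsto (fun x : ℝ => x ^ (-(9 * a / 200))) Filter.atTop (nhds 0) :=
    tendsto_rpow_neg_atTop (by linarith)
  have hev : ∀ᶠ x : ℝ in Filter.atTop, x ^ (-(9 * a / 200)) < c / (2 * A) :=
    ht.eventually (gt_mem_nhds (by positivity))
  obtain ⟨x₀, hx₀⟩ := Filter.eventually_atTop.1 hev
  refine ⟨c / 2, by linarith, max p₁ (⌈x₀⌉₊), ?_⟩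
  intro p hp hp8 hpp X hX1 hX2
  have hp1 : p₁ ≤ p := le_trans (le_max_left _ _) hpp
  have hp2 : x₀ ≤ (p : ℝ) := le_trans (Nat.le_ceil x₀) (by exact_mod_cast le_trans (le_max_right _ _) hpp)
  have hpR : (1 : ℝ) ≤ (p : ℝ) := by exact_mod_cast hp.one_lt.le
  have hp0 : (0 : ℝ) < (p : ℝ) := by linarith
  have hL1 : (1 : ℝ) ≤ X / p := le_trans (Real.one_le_rpow hpR (by linarith)) hX1
  have hX0 : 0 < X := by
    by_contra hneg
    have : X / p ≤ 0 := div_nonpos_of_nonpos_of_nonneg (not_lt.1 hneg) hp0.le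
    linarith
  have hD : (1 : ℝ) ≤ (X / p) ^ (1 / 4 : ℝ) := Real.one_le_rpow hL1 (by norm_num)
  have hp3 : 2 < p := by
    have h := hp.two_le
    omega
  have hs := St_split (N - 1 / 2 - a / 200) X ((X / p) ^ (1 / 4 : ℝ)) hκ hX0 hD p hp hp3
  have b1 := h1 p hp hp8 hp1 X hX1 hX2
  have b2 := h2 p hp hp8 X ((X / p) ^ (1 / 4 : ℝ)) hL1 hD
  have b3 := Sl_pow A a p (X / p) hA ha ha1 hpR hX1
  rw [div_mul_cancel₀ X hp0.ne'] at b3
  have b4 : A * (p : ℝ) ^ (-(9 * a / 200)) * (X / p) * Real.sqrt p ≤ c / 2 * (X / p) * Real.sqrt p := by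
    have h3 := hx₀ p hp2
    have h4 : A * (p : ℝ) ^ (-(9 * a / 200)) ≤ c / 2 := by
      have h5 := mul_le_mul_of_nonneg_left h3.le hA.le
      have h6 : A * (c / (2 * A)) = c / 2 := by field_simp
      linarith
    exact mul_le_mul_of_nonneg_right (mul_le_mul_of_nonneg_right h4 (by linarith)) (Real.sqrt_nonneg _)
  have b5 : ‖P2 (N - 1 / 2 - a / 200) X p ((X / p) ^ (1 / 4 : ℝ))‖ ≤ c / 2 * (X / p) * Real.sqrt p :=
    le_trans b2 (le_trans b3 b4)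
  have b6 : ‖P1 (N - 1 / 2 - a / 200) X p ((X / p) ^ (1 / 4 : ℝ))‖ ≤
      ‖St (N - 1 / 2 - a / 200) X p‖ + ‖P2 (N - 1 / 2 - a / 200) X p ((X / p) ^ (1 / 4 : ℝ))‖ := by
    have : P1 (N - 1 / 2 - a / 200) X p ((X / p) ^ (1 / 4 : ℝ)) =
      St (N - 1 / 2 - a / 200) X p - P2 (N - 1 / 2 - a / 200) X p ((X / p) ^ (1 / 4 : ℝ)) := by
      rw [hs]
      ring
    rw [this]
    exact norm_sub_le _ _
  have b7 : c * (X / p) * Real.sqrt p = c / 2 * (X / p) * Real.sqrt p + c / 2 * (X / p) * Real.sqrt p := by ring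
  linarith

end Pool.Agent.Lib.MP_d713a4_nt
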