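import Pool.Agent.Lib.MP_d713a4_nt.Po

/-!
# LEAF Um: the main term of `Uf`

PROOF.  `Uf_eq` with `λ = X/p`: `zz λ + 2 π i λ k/q = 1 + 2 π i λ (3 + k/q)`.  The term `k = -3 q` is `chi p (-3 q) = chi p (3 q)` (`p ≡ 1` modulo `4`:
`jacobiSym.neg`, `ZMod.χ₄`), the base is `1`.  The others, `k = -3 q + j`, `j ≠ 0`: `‖1 + 2 π i λ j/q‖^(-κ-1) ≤ (q/(λ |j|))^(κ+1)`, in total at most
`4 (q/λ)^(κ+1)` (`κ + 1 ≥ 2`).  `‖tau p‖ = √p`, `λ/q ≤ λ`.
-/

set_option autoImplicit false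

namespace Pool.Agent.Lib.MP_d713a4_nt

open Complex

private theorem Um_chi (p : ℕ) [NeZero p] (k : ℤ) : chi p (k : ZMod p) = ((jacobiSym k p : ℤ) : ℂ) := by
  change ((jacobiSym ((((k : ZMod p).val : ℕ)) : ℤ) p : ℤ) : ℂ) = _
  rw [ZMod.val_intCast, ← jacobiSym.mod_left]

private theorem Um_neg (p : ℕ) [NeZero p] (h8 : p % 8 = 1) (q : ℕ) :
    chi p (((-(3 * q : ℕ) : ℤ)) : ZMod p) = ch p (3 * q) := by
  rw [Um_chi, jacobiSym.neg _ (Nat.odd_iff.2 (by omega)), ZMod.χ₄_nat_one_mod_four (by omega), one_mul]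
  rfl

private theorem Um_term (κ y : ℝ) (hκ : 1 ≤ κ) (hy : 0 < y) (j : ℤ) (hj : j ≠ 0) :
    ‖(1 + 2 * Real.pi * y * j * I : ℂ) ^ (-(κ + 1 : ℝ) : ℂ)‖ ≤ y⁻¹ ^ (κ + 1) * (1 / (j : ℝ) ^ 2) := by
  rw [← Complex.ofReal_neg, Complex.norm_cpow_real]
  have hj1 : (1 : ℝ) ≤ |(j : ℝ)| := by
    rw [← Int.cast_abs]
    exact_mod_cast Int.one_le_abs hj
  have h0 : 0 < y * |(j : ℝ)| := by positivity
  have h1 : y * |(j : ℝ)| ≤ ‖(1 + 2 * Real.pi * y * j * I : ℂ)‖ := by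
    have h2 := Complex.abs_im_le_norm (1 + 2 * Real.pi * y * j * I : ℂ)
    have h3 : (1 + 2 * Real.pi * y * j * I : ℂ).im = 2 * Real.pi * (y * j) := by
      have : (1 + 2 * Real.pi * y * j * I : ℂ) = ((1 : ℝ) : ℂ) + ((2 * Real.pi * (y * j) : ℝ) : ℂ) * I := by
        push_cast
        ring
      rw [this, Complex.add_im, Complex.ofReal_im, Complex.im_ofReal_mul, Complex.I_im]
      ring
    rw [h3, abs_mul, abs_mul y, abs_of_pos hy, abs_of_pos Real.two_pi_pos] at h2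
    refine le_trans ?_ h2
    have h4 : (1 : ℝ) ≤ 2 * Real.pi := by
      have := Real.pi_gt_three
      linarith
    exact le_mul_of_one_le_left h0.le h4
  calc ‖(1 + 2 * Real.pi * y * j * I : ℂ)‖ ^ (-(κ + 1)) ≤ (y * |(j : ℝ)|) ^ (-(κ + 1)) :=
        Real.rpow_le_rpow_of_nonpos h0 h1 (by linarith)
    _ = y ^ (-(κ + 1)) * |(j : ℝ)| ^ (-(κ + 1)) := Real.mul_rpow hy.le (abs_nonneg _)
    _ ≤ y⁻¹ ^ (κ + 1) * |(j : ℝ)| ^ (-2 : ℝ) := by
        rw [Real.inv_rpow hy.le, ← Real.rpow_neg hy.le]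
        exact mul_le_mul_of_nonneg_left (Real.rpow_le_rpow_of_exponent_le hj1 (by linarith)) (by positivity)
    _ = y⁻¹ ^ (κ + 1) * (1 / (j : ℝ) ^ 2) := by
        rw [Real.rpow_neg (abs_nonneg _), Real.rpow_two, sq_abs, one_div]

theorem Uf_main (κ : ℝ) (hκ : 1 ≤ κ) : ∃ A : ℝ, 0 < A ∧ ∀ (p : ℕ) [NeZero p], p.Prime → p % 8 = 1 → ∀ X : ℝ, 1 ≤ X / p →
    ∀ q : ℕ, 1 ≤ q → (q : ℝ) ≤ X / p →
    ‖Uf κ X p q - tau p * (X / p / q * Real.Gamma (κ + 1) : ℝ) * ch p (3 * q)‖ ≤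
      A * Real.sqrt p * (X / p) * (q / (X / p)) ^ (κ + 1) := by
  have hs : Summable fun j : ℤ => 1 / (j : ℝ) ^ 2 := Real.summable_one_div_int_pow.2 one_lt_two
  have hC : 0 ≤ ∑' j : ℤ, 1 / (j : ℝ) ^ 2 := tsum_nonneg fun j => by positivity
  have hG : 0 < Real.Gamma (κ + 1) := Real.Gamma_pos_of_pos (by linarith)
  refine ⟨Real.Gamma (κ + 1) * (∑' j : ℤ, 1 / (j : ℝ) ^ 2 + 1), by positivity, ?_⟩
  intro p _ hp h8 X h1 q hq hqX
  have hp2 : 2 < p := by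
    have := hp.two_le
    omega
  have hp0 : (0 : ℝ) < p := by exact_mod_cast hp.pos
  have hX : 0 < X := by
    rw [one_le_div hp0] at h1
    linarith
  have hq0 : (0 : ℝ) < q := by exact_mod_cast hq
  have hq1 : (1 : ℝ) ≤ q := by exact_mod_cast hq
  have hcast : (X : ℂ) / (p : ℂ) / ((q : ℝ) : ℂ) = ((X / p : ℝ) : ℂ) / (q : ℂ) := by
    push_cast
    rfl
  rw [Uf_eq κ X q hκ hX hq0 p hp hp2]
  simp only [hcast]
  generalize hL : X / p = L at *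
  have hL0 : 0 < L := by linarith
  set f : ℤ → ℂ := fun k => chi p k * (zz L + 2 * Real.pi * (L / q) * k * I) ^ (-(κ + 1 : ℝ) : ℂ) with hf
  set g : ℤ → ℂ := fun j => f (-(3 * q : ℕ) + j) with hg
  have hfg : ∑' k : ℤ, f k = ∑' j : ℤ, g j := ((Equiv.addLeft (-(3 * q : ℕ) : ℤ)).tsum_eq f).symm
  have hgj : ∀ j : ℤ, g j = chi p ((-(3 * q : ℕ) + j : ℤ) : ZMod p) *
      (1 + 2 * Real.pi * (L / q : ℝ) * j * I) ^ (-(κ + 1 : ℝ) : ℂ) := by
    intro j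
    have h2 : (zz L + 2 * Real.pi * (L / q) * ((-(3 * q : ℕ) + j : ℤ) : ℂ) * I) =
        1 + 2 * Real.pi * (L / q : ℝ) * j * I := by
      have hqc : (q : ℂ) ≠ 0 := by exact_mod_cast hq0.ne'
      rw [zz]
      push_cast
      field_simp
      ring
    show chi p ((-(3 * q : ℕ) + j : ℤ) : ZMod p) * _ = _
    rw [h2]
  have hyq : 0 < L / q := by positivity
  have hbd : ∀ j : ℤ, j ≠ 0 → ‖g j‖ ≤ (q / L) ^ (κ + 1) * (1 / (j : ℝ) ^ 2) := by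
    intro j hj
    rw [hgj, norm_mul]
    have h2 := Um_term κ (L / q) hκ hyq j hj
    rw [inv_div] at h2
    calc _ ≤ 1 * _ := mul_le_mul_of_nonneg_right (norm_chi_le p _) (norm_nonneg _)
      _ ≤ _ := by
        rw [one_mul]
        exact h2
  have h0 : g 0 = ch p (3 * q) := by
    rw [hgj, Int.cast_zero, mul_zero, zero_mul, add_zero, add_zero, Complex.one_cpow, mul_one]
    exact Um_neg p h8 q
  have hB : Summable fun j : ℤ => (q / L) ^ (κ + 1) * (1 / (j : ℝ) ^ 2) := hs.mul_left _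
  classical
  have hbd2 : ∀ j : ℤ, ‖(if j = 0 then 0 else g j)‖ ≤ (q / L) ^ (κ + 1) * (1 / (j : ℝ) ^ 2) := by
    intro j
    split_ifs with hj
    · rw [norm_zero]
      positivity
    · exact hbd j hj
  have hsm : Summable g := by
    have h2 : Summable fun j : ℤ => (if j = 0 then 0 else g j) := Summable.of_norm_bounded hB hbd2
    refine (summable_congr_cofinite ?_).1 h2
    have h3 : ∀ᶠ j : ℤ in Filter.cofinite, j ≠ 0 := by
      rw [Filter.eventually_cofinite]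
      simp
    filter_upwards [h3] with j hj
    rw [if_neg hj]
  have hsplit : ∑' k : ℤ, f k = ch p (3 * q) + ∑' j : ℤ, (if j = 0 then 0 else g j) := by
    rw [hfg, hsm.tsum_eq_add_tsum_ite 0, h0]
  have hE : ‖∑' j : ℤ, (if j = 0 then 0 else g j)‖ ≤ (q / L) ^ (κ + 1) * ∑' j : ℤ, 1 / (j : ℝ) ^ 2 := by
    rw [← tsum_mul_left]
    exact tsum_of_norm_bounded hB.hasSum hbd2
  rw [hsplit]
  have h3 : tau p * ((L / q * Real.Gamma (κ + 1) : ℝ) : ℂ) * (ch p (3 * q) + ∑' j : ℤ, (if j = 0 then 0 else g j)) -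
      tau p * ((L / q * Real.Gamma (κ + 1) : ℝ) : ℂ) * ch p (3 * q) =
      tau p * ((L / q * Real.Gamma (κ + 1) : ℝ) : ℂ) * ∑' j : ℤ, (if j = 0 then 0 else g j) := by ring
  rw [h3, norm_mul, norm_mul, norm_tau p hp hp2, Complex.norm_real, Real.norm_of_nonneg (by positivity)]
  have h4 : L / q * Real.Gamma (κ + 1) ≤ L * Real.Gamma (κ + 1) :=
    mul_le_mul_of_nonneg_right (div_le_self hL0.le hq1) hG.le
  have h5 : (q / L) ^ (κ + 1) * ∑' j : ℤ, 1 / (j : ℝ) ^ 2 ≤ (q / L) ^ (κ + 1) * (∑' j : ℤ, 1 / (j : ℝ) ^ 2 + 1) :=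
    mul_le_mul_of_nonneg_left (by linarith) (by positivity)
  calc Real.sqrt p * (L / q * Real.Gamma (κ + 1)) * ‖∑' j : ℤ, (if j = 0 then 0 else g j)‖
      ≤ Real.sqrt p * (L * Real.Gamma (κ + 1)) * ((q / L) ^ (κ + 1) * (∑' j : ℤ, 1 / (j : ℝ) ^ 2 + 1)) := by
        refine mul_le_mul (mul_le_mul_of_nonneg_left h4 (Real.sqrt_nonneg _)) (hE.trans h5) (norm_nonneg _) ?_
        positivity
    _ = _ := by ring

end Pool.Agent.Lib.MP_d713a4_nt
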