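import Pool.Agent.Lib.MP_d713a4_nt.Defs

/-!
# LEAF Xg: Gaussian integrals

PROOF.  `gau_int`: `∫ exp((c + i t) L + (c + i (t - T₀))²/T²) dt`; substitute `t = T₀ + s`: a Gaussian integral (`integral_cexp_quadratic` or
`fourierIntegral_gaussian`); completing the square, `(c + i s)²/T² + (c + i s) L = ((c + i s)/T + T L/2)² - T² L²/4`, and
`∫ exp(((c + i s)/T + T L/2)²) ds = T √π`.
`norm_gau`: real part of the exponent.  `wg_int`: `√π T exp(σ²/T²)`.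
-/

set_option autoImplicit false

namespace Pool.Agent.Lib.MP_d713a4_nt

open Complex MeasureTheory

theorem norm_gau (σ T₀ T t : ℝ) : ‖gau T₀ T (σ + t * I)‖ = wg σ T₀ T t := by
  unfold gau wg
  have h : ((σ : ℂ) + t * I - T₀ * I) ^ 2 / (T : ℂ) ^ 2 =
      (((σ ^ 2 - (t - T₀) ^ 2) / T ^ 2 : ℝ) : ℂ) + ((2 * σ * (t - T₀) / T ^ 2 : ℝ) : ℂ) * I := by
    push_cast
    linear_combination (((t : ℂ) - T₀) ^ 2 / (T : ℂ) ^ 2) * I_sq
  rw [h, norm_exp, add_re, ofReal_re, re_ofReal_mul, I_re, mul_zero, add_zero]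

theorem gau_int (c T₀ T L : ℝ) (hT : 0 < T) :
    ∫ t : ℝ, cexp (L * (c + t * I)) * gau T₀ T (c + t * I) =
      cexp (L * T₀ * I) * (T * Real.sqrt Real.pi * Real.exp (-(T ^ 2 * L ^ 2 / 4)) : ℝ) := by
  have hT' : (T : ℂ) ≠ 0 := by exact_mod_cast hT.ne'
  have h1 : ∀ t : ℝ, cexp (L * (c + t * I)) * gau T₀ T (c + t * I) =
      cexp ((-(1 / T ^ 2 : ℝ) : ℂ) * (t : ℂ) ^ 2 + (L * I + 2 * I * (c - T₀ * I) / T ^ 2) * t +
        (L * c + (c - T₀ * I) ^ 2 / T ^ 2)) := by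
    intro t
    unfold gau
    rw [← Complex.exp_add]
    congr 1
    push_cast
    linear_combination ((t : ℂ) ^ 2 / (T : ℂ) ^ 2) * I_sq
  simp only [h1]
  have hb : (-(1 / T ^ 2 : ℝ) : ℂ).re < 0 := by
    rw [neg_re, ofReal_re]
    have : 0 < 1 / T ^ 2 := by positivity
    linarith
  rw [integral_cexp_quadratic hb]
  have h2 : (Real.pi : ℂ) / -(-(1 / T ^ 2 : ℝ) : ℂ) = ((Real.pi * T ^ 2 : ℝ) : ℂ) := by
    push_cast
    field_simp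
  have h3 : ((Real.pi * T ^ 2 : ℝ) : ℂ) ^ (1 / 2 : ℂ) = ((T * Real.sqrt Real.pi : ℝ) : ℂ) := by
    have h4 : (1 / 2 : ℂ) = ((1 / 2 : ℝ) : ℂ) := by push_cast; rfl
    rw [h4, ← ofReal_cpow (by positivity), ← Real.sqrt_eq_rpow, Real.sqrt_mul Real.pi_pos.le, Real.sqrt_sq hT.le,
      mul_comm]
  have h5 : ((L : ℂ) * c + (c - T₀ * I) ^ 2 / T ^ 2) -
      (L * I + 2 * I * (c - T₀ * I) / T ^ 2) ^ 2 / (4 * (-(1 / T ^ 2 : ℝ) : ℂ)) =
      L * T₀ * I + ((-(T ^ 2 * L ^ 2 / 4) : ℝ) : ℂ) := by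
    push_cast
    field_simp
    linear_combination ((T : ℂ) ^ 4 * L ^ 2 + 4 * L * (c - T₀ * I) * T ^ 2 + 4 * (c - T₀ * I) ^ 2) * I_sq
  rw [h2, h3, h5, Complex.exp_add]
  push_cast
  ring

private theorem Xg_wg (σ T₀ T t : ℝ) : wg σ T₀ T t =
    Real.exp (σ ^ 2 / T ^ 2) * Real.exp (-(1 / T ^ 2) * (t - T₀) ^ 2) := by
  unfold wg
  rw [← Real.exp_add]
  congr 1
  ring

theorem wg_int (σ T₀ T : ℝ) (hT : 0 < T) : Integrable (wg σ T₀ T) ∧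
    ∫ t : ℝ, wg σ T₀ T t = T * Real.sqrt Real.pi * Real.exp (σ ^ 2 / T ^ 2) := by
  have hb : 0 < 1 / T ^ 2 := by positivity
  have h1 : Integrable fun t : ℝ => Real.exp (-(1 / T ^ 2) * (t - T₀) ^ 2) :=
    (integrable_exp_neg_mul_sq hb).comp_sub_right T₀
  have h2 : wg σ T₀ T = fun t => Real.exp (σ ^ 2 / T ^ 2) * Real.exp (-(1 / T ^ 2) * (t - T₀) ^ 2) :=
    funext fun t => Xg_wg σ T₀ T t
  refine ⟨?_, ?_⟩
  · rw [h2]
    exact h1.const_mul _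
  · rw [h2, integral_const_mul]
    have h3 : ∫ t : ℝ, Real.exp (-(1 / T ^ 2) * (t - T₀) ^ 2) = ∫ t : ℝ, Real.exp (-(1 / T ^ 2) * t ^ 2) :=
      integral_sub_right_eq_self (fun t : ℝ => Real.exp (-(1 / T ^ 2) * t ^ 2)) T₀
    rw [h3, integral_gaussian]
    have h4 : Real.pi / (1 / T ^ 2) = Real.pi * T ^ 2 := by field_simp
    rw [h4, Real.sqrt_mul Real.pi_pos.le, Real.sqrt_sq hT.le]
    ring

theorem wg_four (σ T₀ T L : ℝ) (hT : 0 < T) : ‖∫ t : ℝ, cexp (L * t * I) * wg σ T₀ T t‖ =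
    T * Real.sqrt Real.pi * Real.exp (σ ^ 2 / T ^ 2) * Real.exp (-(T ^ 2 * L ^ 2 / 4)) := by
  have h0 := gau_int 0 T₀ T L hT
  have h1 : ∀ t : ℝ, cexp (L * t * I) * wg σ T₀ T t =
      (Real.exp (σ ^ 2 / T ^ 2) : ℂ) * (cexp (L * ((0 : ℝ) + t * I)) * gau T₀ T ((0 : ℝ) + t * I)) := by
    intro t
    rw [Xg_wg]
    unfold gau
    have h2 : (((0 : ℝ) : ℂ) + t * I - T₀ * I) ^ 2 / (T : ℂ) ^ 2 = ((-(1 / T ^ 2) * (t - T₀) ^ 2 : ℝ) : ℂ) := by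
      push_cast
      linear_combination (((t : ℂ) - T₀) ^ 2 / (T : ℂ) ^ 2) * I_sq
    have h3 : (L : ℂ) * (((0 : ℝ) : ℂ) + t * I) = L * t * I := by
      push_cast
      ring
    rw [h2, h3]
    push_cast
    ring
  simp only [h1]
  rw [integral_const_mul, h0, norm_mul, norm_mul]
  have h4 : ‖cexp (L * T₀ * I)‖ = 1 := by
    have : (L : ℂ) * T₀ * I = ((L * T₀ : ℝ) : ℂ) * I := by push_cast; ring
    rw [this]
    exact norm_exp_ofReal_mul_I _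
  rw [h4, one_mul, norm_real, norm_real, Real.norm_of_nonneg (Real.exp_pos _).le, Real.norm_of_nonneg (by positivity)]
  ring

end Pool.Agent.Lib.MP_d713a4_nt
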