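import Pool.Agent.Lib.MP_d713a4_nt.Dl
import Pool.Agent.Lib.MP_d713a4_nt.Cs
import Pool.Agent.Lib.MP_d713a4_nt.Xg

/-!
# LEAF Xa: the extraction formula

PROOF.  `H r = dl n (1/2 + r) p^r gau T₀ T r` is differentiable for `Re r ≥ σ` (`1/2 + Re r > 1/2`: `diff_LJ`, `LJ_ne`) and
`≤ C / (1 + Im²)` in the strip `σ ≤ Re r ≤ 2` (`dl_le`, Gaussian decay): `vline` with `a = σ`, `b = 2`.  On `Re r = 2` `dl_series`; interchange sum and integral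
(`∑ Λ(m) m^(-5/2)` converges absolutely, the Gaussian is integrable): with `L = log (p/m)` (`m ≥ 1`; `Λ 0 = 0`), `gau_int` with `c = 2`:
`(1/2π) ∫ (p/m)^(2 + i t) gau (2 + i t) dt = (p/m)^(i T₀) (T/(2√π)) exp(-T² L²/4)`.
-/

set_option autoImplicit false

namespace Pool.Agent.Lib.MP_d713a4_nt

open Complex ArithmeticFunction

private theorem Xa_term (m p : ℕ) (hm : 0 < m) (hp : 0 < p) (w : ℂ) :
    (m : ℂ) ^ (-(1 / 2 + w)) * (p : ℂ) ^ w =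
      (((m : ℝ) ^ (-(1 / 2) : ℝ) : ℝ) : ℂ) * cexp (Real.log (p / m) * w) := by
  have hm' : (m : ℂ) ≠ 0 := by exact_mod_cast hm.ne'
  have hp' : (p : ℂ) ≠ 0 := by exact_mod_cast hp.ne'
  have hmr : (0 : ℝ) < m := by exact_mod_cast hm
  have hpr : (0 : ℝ) < p := by exact_mod_cast hp
  rw [Complex.cpow_def_of_ne_zero hm', Complex.cpow_def_of_ne_zero hp', ← Complex.natCast_log,
    ← Complex.natCast_log, Real.rpow_def_of_pos hmr, Real.log_div hpr.ne' hmr.ne', Complex.ofReal_exp,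
    ← Complex.exp_add, ← Complex.exp_add]
  congr 1
  push_cast
  ring

private theorem Xa_dom (T₀ T : ℝ) (hT : 0 < T) (y : ℝ) :
    (|y| + 2) * (1 + y ^ 2) * Real.exp (-((y - T₀) ^ 2 / T ^ 2)) ≤
      16 * Real.exp 1 * (1 + |T₀| + T) ^ 4 := by
  obtain ⟨u, hu⟩ : ∃ u : ℝ, u = (y - T₀) / T := ⟨_, rfl⟩
  have hy : y = T₀ + T * u := by
    rw [hu]
    field_simp
    ring
  have h1 : (y - T₀) ^ 2 / T ^ 2 = u ^ 2 := by rw [hu, div_pow]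
  rw [h1]
  have h2 : (1 + u ^ 2) ^ 2 / 2 ≤ Real.exp (1 + u ^ 2) := by
    have h := Real.quadratic_le_exp_of_nonneg (x := 1 + u ^ 2) (by positivity)
    nlinarith [sq_nonneg u]
  have h3 : Real.exp (-(u ^ 2)) * Real.exp (1 + u ^ 2) = Real.exp 1 := by
    rw [← Real.exp_add]
    congr 1
    ring
  have hE : (1 + u ^ 2) ^ 2 * Real.exp (-(u ^ 2)) ≤ 2 * Real.exp 1 := by
    have h4 := mul_le_mul_of_nonneg_left h2 (Real.exp_pos (-(u ^ 2))).le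
    rw [h3] at h4
    linarith
  have hA : |y| ≤ |T₀| + T * |u| := by
    rw [hy]
    refine (abs_add_le _ _).trans ?_
    rw [abs_mul, abs_of_pos hT]
  have hB : 1 + |y| ≤ (1 + |T₀| + T) * (1 + |u|) := by
    have h5 := mul_nonneg (abs_nonneg T₀) (abs_nonneg u)
    nlinarith [abs_nonneg u, abs_nonneg T₀]
  have hC : (1 + |u|) ^ 2 ≤ 2 * (1 + u ^ 2) := by
    nlinarith [sq_abs u, sq_nonneg (1 - |u|)]
  have hy0 := abs_nonneg y
  have hu0 := abs_nonneg u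
  have hD : (|y| + 2) * (1 + y ^ 2) ≤ 2 * (1 + |y|) ^ 4 := by
    have h6 : 1 + y ^ 2 ≤ (1 + |y|) ^ 2 := by nlinarith [sq_abs y]
    have h7 : |y| + 2 ≤ 2 * (1 + |y|) ^ 2 := by nlinarith
    calc (|y| + 2) * (1 + y ^ 2) ≤ (2 * (1 + |y|) ^ 2) * (1 + |y|) ^ 2 :=
          mul_le_mul h7 h6 (by positivity) (by positivity)
      _ = 2 * (1 + |y|) ^ 4 := by ring
  have hK : 0 < 1 + |T₀| + T := by positivity
  have hF : (1 + |y|) ^ 4 ≤ (1 + |T₀| + T) ^ 4 * (4 * (1 + u ^ 2) ^ 2) := by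
    calc (1 + |y|) ^ 4 ≤ ((1 + |T₀| + T) * (1 + |u|)) ^ 4 :=
          pow_le_pow_left₀ (by positivity) hB 4
      _ = (1 + |T₀| + T) ^ 4 * ((1 + |u|) ^ 2) ^ 2 := by ring
      _ ≤ (1 + |T₀| + T) ^ 4 * (2 * (1 + u ^ 2)) ^ 2 := by
          apply mul_le_mul_of_nonneg_left _ (by positivity)
          exact pow_le_pow_left₀ (by positivity) hC 2
      _ = (1 + |T₀| + T) ^ 4 * (4 * (1 + u ^ 2) ^ 2) := by ring
  calc (|y| + 2) * (1 + y ^ 2) * Real.exp (-(u ^ 2))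
      ≤ (2 * ((1 + |T₀| + T) ^ 4 * (4 * (1 + u ^ 2) ^ 2))) * Real.exp (-(u ^ 2)) := by
        apply mul_le_mul_of_nonneg_right _ (Real.exp_pos _).le
        linarith
    _ = 8 * (1 + |T₀| + T) ^ 4 * ((1 + u ^ 2) ^ 2 * Real.exp (-(u ^ 2))) := by ring
    _ ≤ 8 * (1 + |T₀| + T) ^ 4 * (2 * Real.exp 1) := by
        apply mul_le_mul_of_nonneg_left hE (by positivity)
    _ = 16 * Real.exp 1 * (1 + |T₀| + T) ^ 4 := by ring

private theorem Xa_diff (g : GRH) (n : ℕ) (hn : 1 < n) (ho : Odd n) (hs : Squarefree n)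
    (T₀ T : ℝ) (p : ℕ) (hp : 0 < p) (z : ℂ) (hz : 0 < z.re) :
    DifferentiableAt ℂ (fun r : ℂ => dl n (1 / 2 + r) * (p : ℂ) ^ r * gau T₀ T r) z := by
  have h1 := diff_LJ n hn ho hs
  have h2 : Differentiable ℂ (deriv (LJ n)) := h1.deriv
  have h3 : LJ n (1 / 2 + z) ≠ 0 := by
    refine LJ_ne g n hn ho hs _ ?_
    rw [Complex.add_re]
    norm_num
    exact hz
  have h4 : DifferentiableAt ℂ (fun r : ℂ => (1 / 2 : ℂ) + r) z := by fun_prop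
  have h5 : DifferentiableAt ℂ (fun r : ℂ => dl n (1 / 2 + r)) z := by
    have h6 : DifferentiableAt ℂ (fun r : ℂ => deriv (LJ n) (1 / 2 + r)) z :=
      DifferentiableAt.comp (g := deriv (LJ n)) z (h2 _) h4
    have h7 : DifferentiableAt ℂ (fun r : ℂ => LJ n (1 / 2 + r)) z :=
      DifferentiableAt.comp (g := LJ n) z (h1 _) h4
    exact h6.div h7 h3
  have hp' : (p : ℂ) ≠ 0 := by exact_mod_cast hp.ne'
  have h8 : DifferentiableAt ℂ (fun r : ℂ => (p : ℂ) ^ r) z :=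
    DifferentiableAt.const_cpow differentiableAt_id (Or.inl hp')
  have h9 : DifferentiableAt ℂ (fun r : ℂ => gau T₀ T r) z := by
    unfold gau
    fun_prop
  exact (h5.mul h8).mul h9

private theorem Xa_bound (g : GRH) (σ : ℝ) (h0 : 0 < σ) (h1 : σ < 1 / 2) (n : ℕ) (hn : 1 < n)
    (ho : Odd n) (hs : Squarefree n) (T₀ T : ℝ) (hT : 0 < T) (p : ℕ) (hp : 0 < p) :
    ∃ C : ℝ, ∀ z : ℂ, σ ≤ z.re → z.re ≤ 2 →
      ‖dl n (1 / 2 + z) * (p : ℂ) ^ z * gau T₀ T z‖ ≤ C / (1 + z.im ^ 2) := by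
  obtain ⟨A, hA, hdl⟩ := dl_le g σ h0 h1
  refine ⟨A * n * (p : ℝ) ^ (2 : ℝ) * Real.exp (4 / T ^ 2) *
    (16 * Real.exp 1 * (1 + |T₀| + T) ^ 4), fun z hz1 hz2 => ?_⟩
  have hn0 : (1 : ℝ) ≤ n := by exact_mod_cast hn.le
  have hp1 : (1 : ℝ) ≤ p := by exact_mod_cast hp
  have e1 : ‖dl n (1 / 2 + z)‖ ≤ A * (n * (|z.im| + 2)) := by
    have h2 := (hdl n ho hs).1 hn (1 / 2 + z) (by
      rw [Complex.add_re]
      norm_num
      exact hz1)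
    have h3 : ((1 : ℂ) / 2 + z).im = z.im := by
      rw [Complex.add_im]
      norm_num
    rw [h3] at h2
    refine h2.trans (mul_le_mul_of_nonneg_left ?_ hA.le)
    exact (Real.log_le_sub_one_of_pos (by positivity)).trans (by linarith)
  have e2 : ‖(p : ℂ) ^ z‖ ≤ (p : ℝ) ^ (2 : ℝ) := by
    rw [Complex.norm_natCast_cpow_of_pos hp]
    exact Real.rpow_le_rpow_of_exponent_le hp1 hz2
  have e3 : ‖gau T₀ T z‖ ≤ Real.exp (4 / T ^ 2) * Real.exp (-((z.im - T₀) ^ 2 / T ^ 2)) := by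
    have h2 := norm_gau z.re T₀ T z.im
    rw [Complex.re_add_im] at h2
    rw [h2, wg, ← Real.exp_add, Real.exp_le_exp, sub_div]
    have h3 : z.re ^ 2 / T ^ 2 ≤ 4 / T ^ 2 := by
      apply div_le_div_of_nonneg_right _ (by positivity)
      nlinarith
    linarith
  have e4 := Xa_dom T₀ T hT z.im
  rw [le_div_iff₀ (by positivity), norm_mul, norm_mul]
  calc ‖dl n (1 / 2 + z)‖ * ‖(p : ℂ) ^ z‖ * ‖gau T₀ T z‖ * (1 + z.im ^ 2)
      ≤ (A * (n * (|z.im| + 2))) * (p : ℝ) ^ (2 : ℝ) *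
        (Real.exp (4 / T ^ 2) * Real.exp (-((z.im - T₀) ^ 2 / T ^ 2))) * (1 + z.im ^ 2) := by
        gcongr
    _ = A * n * (p : ℝ) ^ (2 : ℝ) * Real.exp (4 / T ^ 2) *
        ((|z.im| + 2) * (1 + z.im ^ 2) * Real.exp (-((z.im - T₀) ^ 2 / T ^ 2))) := by ring
    _ ≤ _ := mul_le_mul_of_nonneg_left e4 (by positivity)

/-- the terms of the series on the line `Re r = 2` -/
private noncomputable def Xa_F (n : ℕ) (T₀ T : ℝ) (p m : ℕ) (t : ℝ) : ℂ :=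
  (vonMangoldt m : ℂ) * ((jacobiSym (m : ℤ) n : ℤ) : ℂ) * ((m : ℝ) ^ (-(1 / 2) : ℝ) : ℝ) *
    (cexp (Real.log (p / m) * ((2 : ℝ) + t * I)) * gau T₀ T ((2 : ℝ) + t * I))

private theorem Xa_norm (n : ℕ) (T₀ T : ℝ) (p m : ℕ) (t : ℝ) :
    ‖Xa_F n T₀ T p m t‖ = ‖(vonMangoldt m : ℂ) * ((jacobiSym (m : ℤ) n : ℤ) : ℂ) *
      ((m : ℝ) ^ (-(1 / 2) : ℝ) : ℝ)‖ * Real.exp (Real.log (p / m) * 2) * wg 2 T₀ T t := by
  have hre : ((Real.log (p / m) : ℂ) * ((2 : ℝ) + t * I)).re = Real.log (p / m) * 2 := by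
    rw [Complex.re_ofReal_mul]
    congr 1
    simp
  rw [Xa_F, norm_mul, norm_mul (cexp _), norm_gau 2 T₀ T t, Complex.norm_exp, hre]
  ring

private theorem Xa_cont (n : ℕ) (T₀ T : ℝ) (p m : ℕ) : Continuous (Xa_F n T₀ T p m) := by
  unfold Xa_F gau
  fun_prop

private theorem Xa_int (n : ℕ) (T₀ T : ℝ) (hT : 0 < T) (p m : ℕ) :
    MeasureTheory.Integrable (Xa_F n T₀ T p m) := by
  refine MeasureTheory.Integrable.mono' ((wg_int 2 T₀ T hT).1.const_mul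
    (‖(vonMangoldt m : ℂ) * ((jacobiSym (m : ℤ) n : ℤ) : ℂ) *
      ((m : ℝ) ^ (-(1 / 2) : ℝ) : ℝ)‖ * Real.exp (Real.log (p / m) * 2)))
    (Xa_cont n T₀ T p m).aestronglyMeasurable (Filter.Eventually.of_forall fun t => ?_)
  exact (Xa_norm n T₀ T p m t).le

private theorem Xa_coef (n p m : ℕ) (hp : 0 < p) :
    ‖(vonMangoldt m : ℂ) * ((jacobiSym (m : ℤ) n : ℤ) : ℂ) * ((m : ℝ) ^ (-(1 / 2) : ℝ) : ℝ)‖ *
      Real.exp (Real.log (p / m) * 2) ≤ (p : ℝ) ^ 2 * (m : ℝ) ^ (-(3 / 2) : ℝ) := by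
  rcases Nat.eq_zero_or_pos m with rfl | hm
  · simp
  · have hmr : (0 : ℝ) < m := by exact_mod_cast hm
    have hpr : (0 : ℝ) < p := by exact_mod_cast hp
    have hJ : ‖(((jacobiSym (m : ℤ) n : ℤ) : ℂ))‖ ≤ 1 := by
      rcases jacobiSym.trichotomy (m : ℤ) n with h | h | h <;> rw [h] <;> simp
    have hL : ‖((vonMangoldt m : ℝ) : ℂ)‖ ≤ m := by
      rw [Complex.norm_real, Real.norm_of_nonneg vonMangoldt_nonneg]
      exact vonMangoldt_le_log.trans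
        ((Real.log_le_sub_one_of_pos hmr).trans (by linarith))
    have hm2 : ‖((((m : ℝ) ^ (-(1 / 2) : ℝ) : ℝ)) : ℂ)‖ = (m : ℝ) ^ (-(1 / 2) : ℝ) := by
      rw [Complex.norm_real, Real.norm_of_nonneg (by positivity)]
    have he : Real.exp (Real.log (p / m) * 2) = (p : ℝ) ^ 2 * (m : ℝ) ^ (-2 : ℝ) := by
      rw [mul_comm, Real.exp_mul, ← Real.exp_mul, mul_comm, ← Real.rpow_def_of_pos (by positivity),
        Real.div_rpow hpr.le hmr.le, Real.rpow_neg hmr.le, div_eq_mul_inv]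
      norm_num
    rw [norm_mul, norm_mul, hm2, he]
    calc ‖((vonMangoldt m : ℝ) : ℂ)‖ * ‖(((jacobiSym (m : ℤ) n : ℤ) : ℂ))‖ *
          (m : ℝ) ^ (-(1 / 2) : ℝ) * ((p : ℝ) ^ 2 * (m : ℝ) ^ (-2 : ℝ))
        ≤ (m : ℝ) * 1 * (m : ℝ) ^ (-(1 / 2) : ℝ) * ((p : ℝ) ^ 2 * (m : ℝ) ^ (-2 : ℝ)) := by
          gcongr
      _ = (p : ℝ) ^ 2 * ((m : ℝ) ^ (1 : ℝ) * (m : ℝ) ^ (-(1 / 2) : ℝ) * (m : ℝ) ^ (-2 : ℝ)) := by
          rw [Real.rpow_one]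
          ring
      _ = (p : ℝ) ^ 2 * (m : ℝ) ^ (-(3 / 2) : ℝ) := by
          rw [← Real.rpow_add hmr, ← Real.rpow_add hmr]
          norm_num

private theorem Xa_swap (n : ℕ) (T₀ T : ℝ) (hT : 0 < T) (p : ℕ) (hp : 0 < p) :
    ∫ t : ℝ, ∑' m : ℕ, Xa_F n T₀ T p m t = ∑' m : ℕ, ∫ t : ℝ, Xa_F n T₀ T p m t := by
  refine (MeasureTheory.hasSum_integral_of_summable_integral_norm
    (fun m => Xa_int n T₀ T hT p m) ?_).tsum_eq.symm
  have hs : Summable fun m : ℕ => (p : ℝ) ^ 2 * (m : ℝ) ^ (-(3 / 2) : ℝ) *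
      ∫ t : ℝ, wg 2 T₀ T t :=
    ((Real.summable_nat_rpow.2 (by norm_num)).mul_left _).mul_right _
  refine Summable.of_nonneg_of_le
    (fun m => MeasureTheory.integral_nonneg fun t => norm_nonneg _) (fun m => ?_) hs
  have h1 : (fun t : ℝ => ‖Xa_F n T₀ T p m t‖) = fun t : ℝ =>
      ‖(vonMangoldt m : ℂ) * ((jacobiSym (m : ℤ) n : ℤ) : ℂ) *
      ((m : ℝ) ^ (-(1 / 2) : ℝ) : ℝ)‖ * Real.exp (Real.log (p / m) * 2) * wg 2 T₀ T t :=
    funext fun t => Xa_norm n T₀ T p m t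
  rw [h1, MeasureTheory.integral_const_mul]
  exact mul_le_mul_of_nonneg_right (Xa_coef n p m hp)
    (MeasureTheory.integral_nonneg fun t => (Real.exp_pos _).le)

theorem ext_eq (g : GRH) (σ : ℝ) (h0 : 0 < σ) (h1 : σ < 1 / 2) (n : ℕ) (hn : 1 < n) (ho : Odd n) (hs : Squarefree n)
    (T₀ T : ℝ) (hT : 0 < T) (p : ℕ) (hp : 0 < p) :
    ext σ T₀ T p (fun t => dl n (1 / 2 + (σ + t * I))) =
      -∑' m : ℕ, (vonMangoldt m : ℂ) * ((jacobiSym (m : ℤ) n : ℤ) : ℂ) * ((m : ℝ) ^ (-(1 / 2) : ℝ) : ℝ) *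
        cexp (Real.log (p / m) * T₀ * I) *
        (T / (2 * Real.sqrt Real.pi) * Real.exp (-(T ^ 2 * Real.log (p / m) ^ 2 / 4)) : ℝ) := by
  have hline : ext σ T₀ T p (fun t => dl n (1 / 2 + (σ + t * I))) =
      (1 / (2 * Real.pi) : ℝ) * ∫ t : ℝ, dl n (1 / 2 + ((2 : ℝ) + t * I)) *
        (p : ℂ) ^ ((2 : ℝ) + t * I : ℂ) * gau T₀ T ((2 : ℝ) + t * I) := by
    obtain ⟨C, hC⟩ := Xa_bound g σ h0 h1 n hn ho hs T₀ T hT p hp
    have h2 := vline (fun r : ℂ => dl n (1 / 2 + r) * (p : ℂ) ^ r * gau T₀ T r) σ 2 C (by linarith)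
      (fun z hz1 _ => Xa_diff g n hn ho hs T₀ T p hp z (h0.trans_le hz1)) hC
    rw [ext]
    exact congrArg (fun x : ℂ => ((1 / (2 * Real.pi) : ℝ) : ℂ) * x) h2
  have hser : (fun t : ℝ => dl n (1 / 2 + ((2 : ℝ) + t * I)) *
        (p : ℂ) ^ ((2 : ℝ) + t * I : ℂ) * gau T₀ T ((2 : ℝ) + t * I)) =
      fun t : ℝ => -∑' m : ℕ, Xa_F n T₀ T p m t := by
    funext t
    have hre : (1 : ℝ) < ((1 : ℂ) / 2 + ((2 : ℝ) + t * I)).re := by
      simp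
      norm_num
    rw [dl_series n ho _ hre, neg_mul, neg_mul, ← tsum_mul_right, ← tsum_mul_right]
    congr 1
    refine tsum_congr fun m => ?_
    rw [Xa_F]
    rcases Nat.eq_zero_or_pos m with rfl | hm
    · simp
    · have h2 := Xa_term m p hm hp ((2 : ℝ) + t * I)
      rw [mul_assoc (_ * _) ((m : ℂ) ^ _) ((p : ℂ) ^ _), h2]
      ring
  rw [hline, hser, MeasureTheory.integral_neg, Xa_swap n T₀ T hT p hp, mul_neg, ← tsum_mul_left]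
  congr 1
  refine tsum_congr fun m => ?_
  have h2 : ∫ t : ℝ, Xa_F n T₀ T p m t = (vonMangoldt m : ℂ) * ((jacobiSym (m : ℤ) n : ℤ) : ℂ) *
      ((m : ℝ) ^ (-(1 / 2) : ℝ) : ℝ) * (cexp (Real.log (p / m) * T₀ * I) *
        (T * Real.sqrt Real.pi * Real.exp (-(T ^ 2 * Real.log (p / m) ^ 2 / 4)) : ℝ)) := by
    unfold Xa_F
    rw [MeasureTheory.integral_const_mul, gau_int 2 T₀ T (Real.log (p / m)) hT]
  rw [h2]
  have h3 : (1 / (2 * Real.pi)) * (T * Real.sqrt Real.pi *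
      Real.exp (-(T ^ 2 * Real.log (p / m) ^ 2 / 4))) =
      T / (2 * Real.sqrt Real.pi) * Real.exp (-(T ^ 2 * Real.log (p / m) ^ 2 / 4)) := by
    have h4 : Real.sqrt Real.pi * Real.sqrt Real.pi = Real.pi := Real.mul_self_sqrt Real.pi_pos.le
    have h5 : Real.sqrt Real.pi ≠ 0 := (Real.sqrt_pos.2 Real.pi_pos).ne'
    rw [show 1 / (2 * Real.pi) = 1 / (2 * (Real.sqrt Real.pi * Real.sqrt Real.pi)) by rw [h4]]
    field_simp
  rw [← h3]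
  push_cast
  ring

end Pool.Agent.Lib.MP_d713a4_nt
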