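import Pool.Agent.Lib.MP_d713a4_nt.Xa

/-!
# LEAF Xb: only the term `m = p` matters

PROOF.  In `ext_eq` the term `m = p` is the main term (`Λ(p) = log p`, `log 1 = 0`; `recip` is not used here).  For `m ≠ p`, `m ≥ 1`:
`|log (p/m)| ≥ 1/(2p)`, so `exp(-T² L²/4) ≤ exp(-T²/(32 p²)) exp(-T² L²/8)`.  `m ≤ p²`: `Λ(m) m^(-1/2) ≤ m`, at most `p⁴` in total.  `m > p²`:
`L² ≥ log² m / 4`, `T²/32 ≥ 2 p² ≥ 8`, `exp(-8 log² m) ≤ m^(-3)` (`m ≥ 5`), total at most `1`.  `T/(2√π) ≤ T/2`.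
-/

set_option autoImplicit false

namespace Pool.Agent.Lib.MP_d713a4_nt

open Complex ArithmeticFunction

private theorem Xb_log (p m : ℕ) (hp : 2 ≤ p) (hm : 1 ≤ m) (hne : m ≠ p) :
    1 / (2 * (p : ℝ)) ≤ |Real.log ((p : ℝ) / m)| := by
  have hp0 : (2 : ℝ) ≤ p := by exact_mod_cast hp
  have hm0 : (1 : ℝ) ≤ m := by exact_mod_cast hm
  rcases lt_or_gt_of_ne hne with h | h
  · have h' : (m : ℝ) + 1 ≤ p := by exact_mod_cast h
    have h1 : 1 - ((p : ℝ) / m)⁻¹ ≤ Real.log ((p : ℝ) / m) := Real.one_sub_inv_le_log_of_pos (by positivity)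
    rw [inv_div] at h1
    have h2 : 1 / (2 * (p : ℝ)) ≤ 1 - (m : ℝ) / p := by
      rw [div_le_iff₀ (by positivity)]
      have h3 : (m : ℝ) / p * (2 * p) = 2 * m := by field_simp
      nlinarith
    exact (h2.trans h1).trans (le_abs_self _)
  · have h' : (p : ℝ) + 1 ≤ m := by exact_mod_cast h
    have h1 : 1 - ((m : ℝ) / p)⁻¹ ≤ Real.log ((m : ℝ) / p) := Real.one_sub_inv_le_log_of_pos (by positivity)
    rw [inv_div] at h1
    have h0 : Real.log ((p : ℝ) / m) = -Real.log ((m : ℝ) / p) := by rw [← Real.log_inv, inv_div]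
    have h2 : 1 / (2 * (p : ℝ)) ≤ 1 - (p : ℝ) / m := by
      have h4 : (p : ℝ) / m ≤ p / (p + 1) := by
        refine div_le_div_of_nonneg_left (by positivity) (by positivity) h'
      have h5 : 1 / (2 * (p : ℝ)) ≤ 1 - p / (p + 1) := by
        have h6 : 1 - (p : ℝ) / (p + 1) = 1 / (p + 1) := by field_simp; ring
        rw [h6]
        refine one_div_le_one_div_of_le (by positivity) (by linarith)
      linarith
    rw [h0, abs_neg]
    exact (h2.trans h1).trans (le_abs_self _)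

private theorem Xb_wt (p m : ℕ) (hp : 2 ≤ p) (hm : 1 ≤ m) (T : ℝ) (hT : 8 * p ≤ T) :
    (m : ℝ) * Real.exp (-(T ^ 2 * Real.log ((p : ℝ) / m) ^ 2 / 8)) ≤
      (if m < p ^ 2 + 1 then (m : ℝ) else 0) + 1 / (m : ℝ) ^ 2 := by
  have hp0 : (2 : ℝ) ≤ p := by exact_mod_cast hp
  have hm0 : (1 : ℝ) ≤ m := by exact_mod_cast hm
  split_ifs with h
  · have h1 : Real.exp (-(T ^ 2 * Real.log ((p : ℝ) / m) ^ 2 / 8)) ≤ 1 := by
      rw [Real.exp_le_one_iff]
      have : 0 ≤ T ^ 2 * Real.log ((p : ℝ) / m) ^ 2 / 8 := by positivity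
      linarith
    have h2 : 0 ≤ 1 / (m : ℝ) ^ 2 := by positivity
    nlinarith
  · have h' : p ^ 2 + 1 ≤ m := not_lt.1 h
    have h3 : (p : ℝ) ^ 2 ≤ m := by
      have : ((p ^ 2 : ℕ) : ℝ) ≤ (m : ℝ) := by exact_mod_cast (by omega : p ^ 2 ≤ m)
      simpa using this
    have h5 : (5 : ℝ) ≤ m := by
      have : 5 ≤ m := by nlinarith
      exact_mod_cast this
    have hl1 : 1 ≤ Real.log m := by
      rw [Real.le_log_iff_exp_le (by positivity)]
      linarith [Real.exp_one_lt_d9]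
    have hl2 : 2 * Real.log p ≤ Real.log m := by
      have := Real.log_le_log (by positivity) h3
      rwa [Real.log_pow, Nat.cast_ofNat] at this
    have hl3 : Real.log ((p : ℝ) / m) = Real.log p - Real.log m := Real.log_div (by positivity) (by positivity)
    have hl4 : Real.log m ^ 2 / 4 ≤ Real.log ((p : ℝ) / m) ^ 2 := by
      rw [hl3]
      have hlp : 0 ≤ Real.log p := Real.log_nonneg (by linarith)
      nlinarith
    have hT2 : 256 ≤ T ^ 2 := by nlinarith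
    have h6 : 3 * Real.log m ≤ T ^ 2 * Real.log ((p : ℝ) / m) ^ 2 / 8 := by
      have h7 : Real.log m ≤ Real.log m ^ 2 := by nlinarith
      have h8 : 256 * (Real.log m ^ 2 / 4) ≤ T ^ 2 * Real.log ((p : ℝ) / m) ^ 2 :=
        mul_le_mul hT2 hl4 (by positivity) (by positivity)
      nlinarith
    have h9 : Real.exp (-(T ^ 2 * Real.log ((p : ℝ) / m) ^ 2 / 8)) ≤ ((m : ℝ) ^ 3)⁻¹ := by
      calc Real.exp (-(T ^ 2 * Real.log ((p : ℝ) / m) ^ 2 / 8)) ≤ Real.exp (-(3 * Real.log m)) :=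
            Real.exp_le_exp.2 (by linarith)
        _ = ((m : ℝ) ^ 3)⁻¹ := by
            rw [Real.exp_neg]
            congr 1
            have : (3 : ℝ) * Real.log m = Real.log ((m : ℝ) ^ 3) := by
              rw [Real.log_pow]
              norm_num
            rw [this, Real.exp_log (by positivity)]
    rw [zero_add]
    calc (m : ℝ) * Real.exp (-(T ^ 2 * Real.log ((p : ℝ) / m) ^ 2 / 8)) ≤ m * ((m : ℝ) ^ 3)⁻¹ :=
          mul_le_mul_of_nonneg_left h9 (by positivity)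
      _ = 1 / (m : ℝ) ^ 2 := by
          field_simp

private theorem Xb_hasSum (p : ℕ) : HasSum (fun m : ℕ => (if m < p ^ 2 + 1 then (m : ℝ) else 0) + 1 / (m : ℝ) ^ 2)
    ((p : ℝ) ^ 2 * (p ^ 2 + 1) / 2 + Real.pi ^ 2 / 6) := by
  refine HasSum.add ?_ hasSum_zeta_two
  have h1 : HasSum (fun m : ℕ => if m < p ^ 2 + 1 then (m : ℝ) else 0)
      (∑ m ∈ Finset.range (p ^ 2 + 1), if m < p ^ 2 + 1 then (m : ℝ) else 0) :=
    hasSum_sum_of_ne_finset_zero fun m hm => by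
      rw [Finset.mem_range] at hm
      exact if_neg hm
  have h2 : (∑ m ∈ Finset.range (p ^ 2 + 1), if m < p ^ 2 + 1 then (m : ℝ) else 0) = (p : ℝ) ^ 2 * (p ^ 2 + 1) / 2 := by
    have h3 : (∑ m ∈ Finset.range (p ^ 2 + 1), if m < p ^ 2 + 1 then (m : ℝ) else 0) =
        ∑ m ∈ Finset.range (p ^ 2 + 1), (m : ℝ) :=
      Finset.sum_congr rfl fun m hm => if_pos (Finset.mem_range.1 hm)
    rw [h3]
    have h4 := Finset.sum_range_id_mul_two (p ^ 2 + 1)
    have h5 : (((∑ i ∈ Finset.range (p ^ 2 + 1), i) * 2 : ℕ) : ℝ) = (((p ^ 2 + 1) * (p ^ 2 + 1 - 1) : ℕ) : ℝ) := by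
      rw [h4]
    rw [Nat.add_sub_cancel] at h5
    push_cast at h5
    linarith
  rw [h2] at h1
  exact h1

theorem ext_main (g : GRH) (σ : ℝ) (h0 : 0 < σ) (h1 : σ < 1 / 2) (n : ℕ) (hn : 1 < n) (ho : Odd n) (hs : Squarefree n)
    (T₀ T : ℝ) (p : ℕ) (hp : p.Prime) (hT : 8 * p ≤ T) :
    ‖ext σ T₀ T p (fun t => dl n (1 / 2 + (σ + t * I))) +
      (T / (2 * Real.sqrt Real.pi) * Real.log p * (p : ℝ) ^ (-(1 / 2) : ℝ) : ℝ) * ((jacobiSym (p : ℤ) n : ℤ) : ℂ)‖ ≤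
      T * p ^ 4 * Real.exp (-(T ^ 2 / (32 * p ^ 2))) := by
  have hp2 : 2 ≤ p := hp.two_le
  have hp0 : (2 : ℝ) ≤ p := by exact_mod_cast hp2
  have hT0 : 0 < T := by linarith
  obtain ⟨a, ha⟩ : ∃ a : ℕ → ℂ, a = fun m : ℕ =>
      (vonMangoldt m : ℂ) * ((jacobiSym (m : ℤ) n : ℤ) : ℂ) * ((m : ℝ) ^ (-(1 / 2) : ℝ) : ℝ) *
        cexp (Real.log (p / m) * T₀ * I) *
        (T / (2 * Real.sqrt Real.pi) * Real.exp (-(T ^ 2 * Real.log (p / m) ^ 2 / 4)) : ℝ) := ⟨_, rfl⟩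
  obtain ⟨E, hE⟩ : ∃ E : ℝ, E = Real.exp (-(T ^ 2 / (32 * p ^ 2))) := ⟨_, rfl⟩
  have hE0 : 0 < E := by
    rw [hE]
    exact Real.exp_pos _
  -- the constant
  have hC0 : 0 ≤ T / (2 * Real.sqrt Real.pi) := by positivity
  have hC : T / (2 * Real.sqrt Real.pi) ≤ T / 2 := by
    have h1 : 1 ≤ Real.sqrt Real.pi := by
      rw [Real.one_le_sqrt]
      linarith [Real.pi_gt_three]
    refine div_le_div_of_nonneg_left hT0.le (by norm_num) (by linarith)
  have hb : ∀ m : ℕ, ‖(if m = p then 0 else a m)‖ ≤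
      T / 2 * E * ((if m < p ^ 2 + 1 then (m : ℝ) else 0) + 1 / (m : ℝ) ^ 2) := by
    intro m
    have hnn : 0 ≤ T / 2 * E * ((if m < p ^ 2 + 1 then (m : ℝ) else 0) + 1 / (m : ℝ) ^ 2) := by
      have : 0 ≤ (if m < p ^ 2 + 1 then (m : ℝ) else 0) := by
        split_ifs
        · positivity
        · exact le_rfl
      positivity
    by_cases hmp : m = p
    · rw [if_pos hmp, norm_zero]
      exact hnn
    rw [if_neg hmp]
    by_cases hm0 : m = 0
    · rw [ha, hm0]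
      simp only [ArithmeticFunction.map_zero, ofReal_zero, zero_mul, norm_zero]
      rw [hm0] at hnn
      exact hnn
    have hm : 1 ≤ m := Nat.one_le_iff_ne_zero.2 hm0
    have hm1 : (1 : ℝ) ≤ m := by exact_mod_cast hm
    have k1 : ‖(vonMangoldt m : ℂ)‖ ≤ m := by
      rw [norm_real, Real.norm_eq_abs, abs_of_nonneg vonMangoldt_nonneg]
      refine vonMangoldt_le_log.trans ?_
      exact (Real.log_le_sub_one_of_pos (by positivity)).trans (by linarith)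
    have k2 : ‖((jacobiSym (m : ℤ) n : ℤ) : ℂ)‖ ≤ 1 := by
      rcases jacobiSym.trichotomy (m : ℤ) n with h | h | h <;> rw [h] <;> simp
    have k3 : ‖(((m : ℝ) ^ (-(1 / 2) : ℝ) : ℝ) : ℂ)‖ ≤ 1 := by
      rw [norm_real, Real.norm_eq_abs, abs_of_nonneg (by positivity)]
      exact Real.rpow_le_one_of_one_le_of_nonpos hm1 (by norm_num)
    have k4 : ‖cexp (Real.log (p / m) * T₀ * I)‖ = 1 := by
      have : (Real.log (p / m) * T₀ * I : ℂ) = ((Real.log (p / m) * T₀ : ℝ) : ℂ) * I := by push_cast; ring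
      rw [this, norm_exp_ofReal_mul_I]
    have k5 : ‖((T / (2 * Real.sqrt Real.pi) * Real.exp (-(T ^ 2 * Real.log (p / m) ^ 2 / 4)) : ℝ) : ℂ)‖ ≤
        T / 2 * (E * Real.exp (-(T ^ 2 * Real.log ((p : ℝ) / m) ^ 2 / 8))) := by
      rw [norm_real, Real.norm_eq_abs, abs_of_nonneg (by positivity)]
      refine mul_le_mul hC ?_ (Real.exp_pos _).le (by positivity)
      rw [hE, ← Real.exp_add]
      refine Real.exp_le_exp.2 ?_
      have h1 := Xb_log p m hp2 hm hmp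
      have h2 : (1 / (2 * (p : ℝ))) ^ 2 ≤ Real.log ((p : ℝ) / m) ^ 2 := by
        rw [← sq_abs (Real.log ((p : ℝ) / m))]
        exact pow_le_pow_left₀ (by positivity) h1 2
      have h3 : T ^ 2 * (1 / (2 * (p : ℝ))) ^ 2 ≤ T ^ 2 * Real.log ((p : ℝ) / m) ^ 2 :=
        mul_le_mul_of_nonneg_left h2 (by positivity)
      have h4 : T ^ 2 / (32 * (p : ℝ) ^ 2) = T ^ 2 * (1 / (2 * (p : ℝ))) ^ 2 / 8 := by
        field_simp
        norm_num
      rw [h4]
      linarith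
    rw [ha]
    calc _ = ‖(vonMangoldt m : ℂ)‖ * ‖((jacobiSym (m : ℤ) n : ℤ) : ℂ)‖ * ‖(((m : ℝ) ^ (-(1 / 2) : ℝ) : ℝ) : ℂ)‖ *
          ‖cexp (Real.log (p / m) * T₀ * I)‖ *
          ‖((T / (2 * Real.sqrt Real.pi) * Real.exp (-(T ^ 2 * Real.log (p / m) ^ 2 / 4)) : ℝ) : ℂ)‖ := by
          simp only [norm_mul]
      _ ≤ m * 1 * 1 * 1 * (T / 2 * (E * Real.exp (-(T ^ 2 * Real.log ((p : ℝ) / m) ^ 2 / 8)))) := by
          rw [k4]
          gcongr
      _ = T / 2 * E * (m * Real.exp (-(T ^ 2 * Real.log ((p : ℝ) / m) ^ 2 / 8))) := by ring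
      _ ≤ _ := mul_le_mul_of_nonneg_left (Xb_wt p m hp2 hm T hT) (by positivity)
  have hsum := (Xb_hasSum p).mul_left (T / 2 * E)
  have hs' : Summable fun m : ℕ => (if m = p then 0 else a m) := Summable.of_norm_bounded hsum.summable hb
  have hsa : Summable a := by
    have h1 : Summable fun m : ℕ => (if m = p then a p else 0) := (hasSum_ite_eq p (a p)).summable
    refine (hs'.add h1).congr fun m => ?_
    by_cases hmp : m = p
    · rw [if_pos hmp, if_pos hmp, hmp, zero_add]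
    · rw [if_neg hmp, if_neg hmp, add_zero]
  have hap : a p = (T / (2 * Real.sqrt Real.pi) * Real.log p * (p : ℝ) ^ (-(1 / 2) : ℝ) : ℝ) *
      ((jacobiSym (p : ℤ) n : ℤ) : ℂ) := by
    rw [ha]
    simp only
    rw [vonMangoldt_apply_prime hp, div_self (by positivity : (p : ℝ) ≠ 0), Real.log_one]
    simp only [ofReal_zero, zero_mul, Complex.exp_zero, mul_one]
    norm_num
    ring
  have htn := tsum_of_norm_bounded hsum hb
  have hkey : ext σ T₀ T p (fun t => dl n (1 / 2 + (σ + t * I))) +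
      (T / (2 * Real.sqrt Real.pi) * Real.log p * (p : ℝ) ^ (-(1 / 2) : ℝ) : ℝ) * ((jacobiSym (p : ℤ) n : ℤ) : ℂ) =
      -∑' m : ℕ, (if m = p then 0 else a m) := by
    rw [ext_eq g σ h0 h1 n hn ho hs T₀ T hT0 p hp.pos, ← hap]
    have h2 : ∑' m : ℕ, a m = a p + ∑' m : ℕ, (if m = p then 0 else a m) := hsa.tsum_eq_add_tsum_ite p
    have h3 : ∑' m : ℕ, (vonMangoldt m : ℂ) * ((jacobiSym (m : ℤ) n : ℤ) : ℂ) * ((m : ℝ) ^ (-(1 / 2) : ℝ) : ℝ) *
        cexp (Real.log (p / m) * T₀ * I) *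
        (T / (2 * Real.sqrt Real.pi) * Real.exp (-(T ^ 2 * Real.log (p / m) ^ 2 / 4)) : ℝ) = ∑' m : ℕ, a m := by
      rw [ha]
    rw [h3, h2]
    ring
  rw [hkey, norm_neg]
  refine htn.trans ?_
  have hpi : Real.pi ^ 2 / 6 ≤ 2 := by
    have := Real.pi_lt_d2
    have := Real.pi_pos
    nlinarith
  have hp4 : (p : ℝ) ^ 2 * (p ^ 2 + 1) / 2 + Real.pi ^ 2 / 6 ≤ 2 * p ^ 4 := by
    have h2 : (4 : ℝ) ≤ (p : ℝ) ^ 2 := by nlinarith
    have h3 : (p : ℝ) ^ 4 = (p ^ 2) ^ 2 := by ring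
    rw [h3]
    nlinarith
  rw [← hE]
  calc T / 2 * E * ((p : ℝ) ^ 2 * (p ^ 2 + 1) / 2 + Real.pi ^ 2 / 6) ≤ T / 2 * E * (2 * p ^ 4) :=
        mul_le_mul_of_nonneg_left hp4 (by positivity)
    _ = T * p ^ 4 * E := by ring

end Pool.Agent.Lib.MP_d713a4_nt
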