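import Pool.Agent.Lib.MP_d713a4_nt.Defs

/-!
# LEAF Xm: moments and tails of the Gaussian

PROOF.  `wg_mom`: `1 + |t| ≤ (1 + T₀)(1 + |s|)` for `t = T₀ + T s`; `wg = exp(σ²/T²) exp(-s²)`, `exp(σ²/T²) ≤ exp(σ²)`.
`wg_tail`: there `exp(-(t - T₀)²/T²) ≤ exp(-T₀²/(8T²)) exp(-(t - T₀)²/(2T²))`, then as before.
-/

set_option autoImplicit false

namespace Pool.Agent.Lib.MP_d713a4_nt

open MeasureTheory

private theorem Xm_int {c : ℝ} (hc : 0 < c) (k : ℕ) :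
    Integrable fun s : ℝ => (1 + |s|) ^ k * Real.exp (-c * s ^ 2) := by
  have h1 : Integrable fun s : ℝ => Real.exp (-c * s ^ 2) := integrable_exp_neg_mul_sq hc
  have h2 : Integrable fun s : ℝ => s ^ (k : ℝ) * Real.exp (-c * s ^ 2) :=
    integrable_rpow_mul_exp_neg_mul_sq hc (lt_of_lt_of_le (by norm_num) (Nat.cast_nonneg k))
  have h3 := (h1.add h2.norm).const_mul ((2 : ℝ) ^ (k - 1))
  refine h3.mono' ?_ (Filter.Eventually.of_forall fun s => ?_)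
  · have : Continuous fun s : ℝ => (1 + |s|) ^ k * Real.exp (-c * s ^ 2) := by fun_prop
    exact this.aestronglyMeasurable
  · have hn : 0 ≤ (1 + |s|) ^ k * Real.exp (-c * s ^ 2) := by positivity
    rw [Real.norm_of_nonneg hn]
    have h4 : (1 + |s|) ^ k ≤ 2 ^ (k - 1) * (1 ^ k + |s| ^ k) :=
      add_pow_le zero_le_one (abs_nonneg s) k
    have h5 : ‖s ^ (k : ℝ) * Real.exp (-c * s ^ 2)‖ = |s| ^ k * Real.exp (-c * s ^ 2) := by
      rw [Real.rpow_natCast, norm_mul, norm_pow, Real.norm_eq_abs, Real.norm_eq_abs,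
        Real.abs_exp]
    show (1 + |s|) ^ k * Real.exp (-c * s ^ 2) ≤ 2 ^ (k - 1) * (Real.exp (-c * s ^ 2) +
      ‖s ^ (k : ℝ) * Real.exp (-c * s ^ 2)‖)
    rw [h5]
    rw [one_pow] at h4
    have h6 := mul_le_mul_of_nonneg_right h4 (Real.exp_pos (-c * s ^ 2)).le
    linarith

private theorem Xm_key {c : ℝ} (hc : 0 < c) (k : ℕ) : ∃ G : ℝ, 0 < G ∧ ∀ T₀ T : ℝ, 1 ≤ T →
    T ≤ T₀ → Integrable (fun t : ℝ => (1 + |t|) ^ k * Real.exp (-c * ((t - T₀) / T) ^ 2)) ∧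
      ∫ t : ℝ, (1 + |t|) ^ k * Real.exp (-c * ((t - T₀) / T) ^ 2) ≤ G * T₀ ^ (k + 1) := by
  obtain ⟨h, hh⟩ : ∃ h : ℝ → ℝ, h = fun s => (1 + |s|) ^ k * Real.exp (-c * s ^ 2) := ⟨_, rfl⟩
  have hi : Integrable h := by
    rw [hh]
    exact Xm_int hc k
  have hI : 0 ≤ ∫ s, h s := by
    refine integral_nonneg fun s => ?_
    rw [hh]
    show 0 ≤ (1 + |s|) ^ k * Real.exp (-c * s ^ 2)
    positivity
  refine ⟨2 ^ k * (∫ s, h s) + 1, by positivity, fun T₀ T hT hT₀ => ?_⟩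
  have hT0 : 0 < T := by linarith
  have h1 : Integrable fun t => h ((t - T₀) / T) :=
    (hi.comp_div hT0.ne').comp_sub_right T₀
  have h2 : ∫ t, h ((t - T₀) / T) = T * ∫ s, h s := by
    rw [integral_sub_right_eq_self (fun t => h (t / T)) T₀, Measure.integral_comp_div,
      abs_of_pos hT0, smul_eq_mul]
  have hb : ∀ t : ℝ, (1 + |t|) ^ k * Real.exp (-c * ((t - T₀) / T) ^ 2) ≤
      (1 + T₀) ^ k * h ((t - T₀) / T) := by
    intro t
    obtain ⟨s, hs⟩ : ∃ s, s = (t - T₀) / T := ⟨_, rfl⟩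
    have ht : t = T₀ + T * s := by
      rw [hs]
      field_simp
      ring
    have h3 : |t| ≤ T₀ + T₀ * |s| := by
      calc |t| = |T₀ + T * s| := by rw [← ht]
        _ ≤ |T₀| + |T * s| := abs_add_le _ _
        _ = T₀ + T * |s| := by rw [abs_mul, abs_of_pos hT0, abs_of_nonneg (by linarith)]
        _ ≤ T₀ + T₀ * |s| := by
          have := mul_le_mul_of_nonneg_right hT₀ (abs_nonneg s)
          linarith
    have h4 : 1 + |t| ≤ (1 + T₀) * (1 + |s|) := by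
      have := abs_nonneg s
      nlinarith
    have h5 : (1 + |t|) ^ k ≤ ((1 + T₀) * (1 + |s|)) ^ k :=
      pow_le_pow_left₀ (by positivity) h4 k
    rw [← hs, hh]
    show _ ≤ (1 + T₀) ^ k * ((1 + |s|) ^ k * Real.exp (-c * s ^ 2))
    rw [← mul_assoc, ← mul_pow]
    exact mul_le_mul_of_nonneg_right h5 (Real.exp_pos _).le
  have h6 : Integrable fun t : ℝ => (1 + |t|) ^ k * Real.exp (-c * ((t - T₀) / T) ^ 2) := by
    refine (h1.const_mul ((1 + T₀) ^ k)).mono' ?_ (Filter.Eventually.of_forall fun t => ?_)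
    · have : Continuous fun t : ℝ => (1 + |t|) ^ k * Real.exp (-c * ((t - T₀) / T) ^ 2) := by
        fun_prop
      exact this.aestronglyMeasurable
    · have hn : 0 ≤ (1 + |t|) ^ k * Real.exp (-c * ((t - T₀) / T) ^ 2) := by positivity
      rw [Real.norm_of_nonneg hn]
      exact hb t
  refine ⟨h6, ?_⟩
  calc ∫ t : ℝ, (1 + |t|) ^ k * Real.exp (-c * ((t - T₀) / T) ^ 2)
      ≤ ∫ t : ℝ, (1 + T₀) ^ k * h ((t - T₀) / T) :=
        integral_mono h6 (h1.const_mul _) hb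
    _ = (1 + T₀) ^ k * (T * ∫ s, h s) := by rw [integral_const_mul, h2]
    _ ≤ (2 * T₀) ^ k * (T₀ * ∫ s, h s) := by
        refine mul_le_mul (pow_le_pow_left₀ (by linarith) (by linarith) k)
          (mul_le_mul_of_nonneg_right hT₀ hI) (mul_nonneg hT0.le hI) (by
            have : 0 ≤ 2 * T₀ := by linarith
            positivity)
    _ = 2 ^ k * (∫ s, h s) * T₀ ^ (k + 1) := by rw [mul_pow, pow_succ]; ring
    _ ≤ (2 ^ k * (∫ s, h s) + 1) * T₀ ^ (k + 1) := by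
        have : 0 ≤ T₀ ^ (k + 1) := pow_nonneg (by linarith) _
        nlinarith

private theorem Xm_exp (σ : ℝ) {T : ℝ} (hT : 1 ≤ T) : Real.exp (σ ^ 2 / T ^ 2) ≤ Real.exp (σ ^ 2) :=
  Real.exp_le_exp.2 (div_le_self (sq_nonneg σ) (one_le_pow₀ hT))

private theorem Xm_wg (σ T₀ T t : ℝ) : wg σ T₀ T t =
    Real.exp (σ ^ 2 / T ^ 2) * Real.exp (-1 * ((t - T₀) / T) ^ 2) := by
  unfold wg
  rw [← Real.exp_add]
  congr 1
  rw [sub_div, div_pow]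
  ring

/-- `k`-th moments: for `1 ≤ T ≤ T₀` -/
theorem wg_mom (σ : ℝ) (k : ℕ) : ∃ A : ℝ, 0 < A ∧ ∀ T₀ T : ℝ, 1 ≤ T → T ≤ T₀ →
    Integrable (fun t => (1 + |t|) ^ k * wg σ T₀ T t) ∧ ∫ t : ℝ, (1 + |t|) ^ k * wg σ T₀ T t ≤ A * T₀ ^ (k + 1) := by
  obtain ⟨G, hG, h⟩ := Xm_key one_pos k
  refine ⟨Real.exp (σ ^ 2) * G, by positivity, fun T₀ T hT hT₀ => ?_⟩
  obtain ⟨h1, h2⟩ := h T₀ T hT hT₀
  have h3 : (fun t : ℝ => (1 + |t|) ^ k * wg σ T₀ T t) = fun t => Real.exp (σ ^ 2 / T ^ 2) *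
      ((1 + |t|) ^ k * Real.exp (-1 * ((t - T₀) / T) ^ 2)) := by
    funext t
    rw [Xm_wg]
    ring
  rw [h3]
  refine ⟨h1.const_mul _, ?_⟩
  rw [integral_const_mul, mul_assoc (Real.exp (σ ^ 2))]
  have h4 : 0 ≤ ∫ t : ℝ, (1 + |t|) ^ k * Real.exp (-1 * ((t - T₀) / T) ^ 2) :=
    integral_nonneg fun t => by positivity
  exact mul_le_mul (Xm_exp σ hT) h2 h4 (Real.exp_pos _).le

/-- the tails: `|t - T₀| ≥ T₀/2` -/
theorem wg_tail (σ : ℝ) (k : ℕ) : ∃ A : ℝ, 0 < A ∧ ∀ T₀ T : ℝ, 1 ≤ T → T ≤ T₀ →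
    ∫ t in {t : ℝ | T₀ / 2 ≤ |t - T₀|}, (1 + |t|) ^ k * wg σ T₀ T t ≤ A * T₀ ^ (k + 1) * Real.exp (-(T₀ ^ 2 / (8 * T ^ 2))) := by
  obtain ⟨G, hG, h⟩ := Xm_key (c := 1 / 2) (by norm_num) k
  refine ⟨Real.exp (σ ^ 2) * G, by positivity, fun T₀ T hT hT₀ => ?_⟩
  obtain ⟨h1, h2⟩ := h T₀ T hT hT₀
  obtain ⟨A₀, -, h0⟩ := wg_mom σ k
  have h3 := (h0 T₀ T hT hT₀).1
  have hT0 : 0 < T := by linarith
  obtain ⟨e, he⟩ : ∃ e, e = Real.exp (-(T₀ ^ 2 / (8 * T ^ 2))) := ⟨_, rfl⟩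
  have he0 : 0 < e := by
    rw [he]
    exact Real.exp_pos _
  have hS : MeasurableSet {t : ℝ | T₀ / 2 ≤ |t - T₀|} :=
    measurableSet_le measurable_const (by fun_prop)
  have hb : ∀ t ∈ {t : ℝ | T₀ / 2 ≤ |t - T₀|}, (1 + |t|) ^ k * wg σ T₀ T t ≤
      Real.exp (σ ^ 2) * e * ((1 + |t|) ^ k * Real.exp (-(1 / 2) * ((t - T₀) / T) ^ 2)) := by
    intro t ht
    have ht' : T₀ / 2 ≤ |t - T₀| := ht
    have h4 : (T₀ / 2) ^ 2 ≤ (t - T₀) ^ 2 := by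
      rw [← sq_abs (t - T₀)]
      exact pow_le_pow_left₀ (by linarith) ht' 2
    have h5 : Real.exp (-1 * ((t - T₀) / T) ^ 2) ≤
        e * Real.exp (-(1 / 2) * ((t - T₀) / T) ^ 2) := by
      rw [he, ← Real.exp_add]
      refine Real.exp_le_exp.2 ?_
      have h6 : T₀ ^ 2 / (8 * T ^ 2) ≤ 1 / 2 * ((t - T₀) / T) ^ 2 := by
        rw [div_pow]
        calc T₀ ^ 2 / (8 * T ^ 2) = 1 / 2 * ((T₀ / 2) ^ 2 / T ^ 2) := by
              field_simp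
              ring
          _ ≤ 1 / 2 * ((t - T₀) ^ 2 / T ^ 2) := by
              refine mul_le_mul_of_nonneg_left ?_ (by norm_num)
              exact div_le_div_of_nonneg_right h4 (sq_nonneg T)
      linarith
    rw [Xm_wg]
    have h7 : Real.exp (σ ^ 2 / T ^ 2) * Real.exp (-1 * ((t - T₀) / T) ^ 2) ≤
        Real.exp (σ ^ 2) * (e * Real.exp (-(1 / 2) * ((t - T₀) / T) ^ 2)) :=
      mul_le_mul (Xm_exp σ hT) h5 (Real.exp_pos _).le (Real.exp_pos _).le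
    calc (1 + |t|) ^ k * (Real.exp (σ ^ 2 / T ^ 2) * Real.exp (-1 * ((t - T₀) / T) ^ 2))
        ≤ (1 + |t|) ^ k *
          (Real.exp (σ ^ 2) * (e * Real.exp (-(1 / 2) * ((t - T₀) / T) ^ 2))) :=
          mul_le_mul_of_nonneg_left h7 (by positivity)
      _ = _ := by ring
  have h8 : Integrable fun t : ℝ => Real.exp (σ ^ 2) * e *
      ((1 + |t|) ^ k * Real.exp (-(1 / 2) * ((t - T₀) / T) ^ 2)) := h1.const_mul _
  calc ∫ t in {t : ℝ | T₀ / 2 ≤ |t - T₀|}, (1 + |t|) ^ k * wg σ T₀ T t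
      ≤ ∫ t in {t : ℝ | T₀ / 2 ≤ |t - T₀|}, Real.exp (σ ^ 2) * e *
        ((1 + |t|) ^ k * Real.exp (-(1 / 2) * ((t - T₀) / T) ^ 2)) :=
        setIntegral_mono_on h3.integrableOn h8.integrableOn hS hb
    _ ≤ ∫ t, Real.exp (σ ^ 2) * e *
        ((1 + |t|) ^ k * Real.exp (-(1 / 2) * ((t - T₀) / T) ^ 2)) :=
        setIntegral_le_integral h8 (Filter.Eventually.of_forall fun t => by
          show 0 ≤ Real.exp (σ ^ 2) * e *
            ((1 + |t|) ^ k * Real.exp (-(1 / 2) * ((t - T₀) / T) ^ 2))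
          positivity)
    _ = Real.exp (σ ^ 2) * e *
        ∫ t, ((1 + |t|) ^ k * Real.exp (-(1 / 2) * ((t - T₀) / T) ^ 2)) := integral_const_mul _ _
    _ ≤ Real.exp (σ ^ 2) * e * (G * T₀ ^ (k + 1)) :=
        mul_le_mul_of_nonneg_left h2 (by positivity)
    _ = Real.exp (σ ^ 2) * G * T₀ ^ (k + 1) * Real.exp (-(T₀ ^ 2 / (8 * T ^ 2))) := by
        rw [he]
        ring

end Pool.Agent.Lib.MP_d713a4_nt
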