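import Pool.Agent.Lib.MP_d713a4_nt.Xg
import Pool.Agent.Lib.MP_d713a4_nt.Xm

/-!
# LEAF Xe: simple properties of `ext`

PROOF.  `‖p^(σ + i t)‖ = p^σ`, `norm_gau`, `norm_integral_le_integral_norm`, `1/(2π) ≤ 1`; `wg_mom`.  In `ext_integrable` `T₀`, `T > 0` are arbitrary: polynomial times Gaussian.
-/

set_option autoImplicit false

namespace Pool.Agent.Lib.MP_d713a4_nt

open Complex MeasureTheory

private theorem Xe_norm (σ T₀ T : ℝ) (p : ℕ) (hp : 0 < p) (E : ℝ → ℂ) (t : ℝ) :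
    ‖E t * (p : ℂ) ^ (σ + t * I : ℂ) * gau T₀ T (σ + t * I)‖ =
      (p : ℝ) ^ σ * (‖E t‖ * wg σ T₀ T t) := by
  rw [norm_mul, norm_mul, norm_gau, Complex.norm_natCast_cpow_of_pos hp]
  have h : (σ + t * I : ℂ).re = σ := by simp
  rw [h]
  ring

private theorem Xe_wg_nonneg (σ T₀ T t : ℝ) : 0 ≤ wg σ T₀ T t := (Real.exp_pos _).le

private theorem Xe_wg_int (σ T₀ T : ℝ) (hT : 0 < T) (k : ℕ) :
    Integrable fun t : ℝ => (1 + |t|) ^ k * wg σ T₀ T t := by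
  have hb : 0 < 1 / (4 * T ^ 2) := by positivity
  have h1 := (integrable_exp_neg_mul_sq hb).const_mul
    (Real.exp ((σ ^ 2 + T₀ ^ 2) / T ^ 2 + (k : ℝ) ^ 2 * T ^ 2))
  refine h1.mono' ?_ (Filter.Eventually.of_forall fun t => ?_)
  · refine Continuous.aestronglyMeasurable ?_
    unfold wg
    fun_prop
  · rw [Real.norm_eq_abs, abs_of_nonneg (mul_nonneg (by positivity) (Xe_wg_nonneg _ _ _ _))]
    have h2 : (1 + |t|) ^ k ≤ Real.exp (k * |t|) := by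
      rw [Real.exp_nat_mul]
      refine pow_le_pow_left₀ (by positivity) ?_ k
      have := Real.add_one_le_exp |t|
      linarith
    have h3 : (1 + |t|) ^ k * wg σ T₀ T t ≤ Real.exp (k * |t|) * wg σ T₀ T t :=
      mul_le_mul_of_nonneg_right h2 (Xe_wg_nonneg _ _ _ _)
    refine h3.trans ?_
    unfold wg
    rw [← Real.exp_add, ← Real.exp_add]
    refine Real.exp_le_exp.2 ?_
    have hT2 : 0 < T ^ 2 := by positivity
    have e1 : (σ ^ 2 - (t - T₀) ^ 2) / T ^ 2 ≤ (σ ^ 2 + T₀ ^ 2) / T ^ 2 - t ^ 2 / (2 * T ^ 2) := by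
      have e2 : t ^ 2 / (2 * T ^ 2) = (t ^ 2 / 2) / T ^ 2 := by
        field_simp
      rw [e2, ← sub_div]
      refine div_le_div_of_nonneg_right ?_ hT2.le
      nlinarith [sq_nonneg (t - 2 * T₀)]
    have e3 : (k : ℝ) * |t| ≤ (k : ℝ) ^ 2 * T ^ 2 + t ^ 2 / (4 * T ^ 2) := by
      have e4 : t ^ 2 / (4 * T ^ 2) = (|t| / (2 * T)) ^ 2 := by
        rw [div_pow, sq_abs]
        ring
      have e5 : (k : ℝ) * |t| = 2 * (k * T) * (|t| / (2 * T)) := by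
        field_simp
      rw [e4, e5]
      nlinarith [sq_nonneg ((k : ℝ) * T - |t| / (2 * T))]
    have e6 : t ^ 2 / (2 * T ^ 2) = t ^ 2 / (4 * T ^ 2) + t ^ 2 / (4 * T ^ 2) := by
      field_simp
      ring
    have e7 : -(1 / (4 * T ^ 2)) * t ^ 2 = -(t ^ 2 / (4 * T ^ 2)) := by ring
    rw [e7]
    linarith

theorem ext_integrable (σ T₀ T : ℝ) (hT : 0 < T) (p : ℕ) (hp : 0 < p) (E : ℝ → ℂ) (hE : Measurable E) (k : ℕ) (B : ℝ)
    (hB : ∀ t, ‖E t‖ ≤ B * (1 + |t|) ^ k) :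
    Integrable fun t : ℝ => E t * (p : ℂ) ^ (σ + t * I : ℂ) * gau T₀ T (σ + t * I) := by
  refine ((Xe_wg_int σ T₀ T hT k).const_mul ((p : ℝ) ^ σ * B)).mono' ?_
    (Filter.Eventually.of_forall fun t => ?_)
  · have h1 : Continuous fun t : ℝ => (p : ℂ) ^ (σ + t * I : ℂ) := by
      refine Continuous.const_cpow (by fun_prop) (Or.inl ?_)
      exact_mod_cast hp.ne'
    have h2 : Continuous fun t : ℝ => gau T₀ T (σ + t * I) := by
      unfold gau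
      fun_prop
    exact ((hE.aestronglyMeasurable.mul h1.aestronglyMeasurable).mul h2.aestronglyMeasurable)
  · rw [Xe_norm σ T₀ T p hp E t, mul_assoc ((p : ℝ) ^ σ) B]
    refine mul_le_mul_of_nonneg_left ?_ (by positivity)
    rw [← mul_assoc]
    exact mul_le_mul_of_nonneg_right (hB t) (Xe_wg_nonneg _ _ _ _)

theorem ext_le (σ T₀ T : ℝ) (p : ℕ) (hp : 0 < p) (E : ℝ → ℂ) :
    ‖ext σ T₀ T p E‖ ≤ (p : ℝ) ^ σ * ∫ t : ℝ, ‖E t‖ * wg σ T₀ T t := by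
  unfold ext
  have h0 : ‖∫ t : ℝ, E t * (p : ℂ) ^ (σ + t * I : ℂ) * gau T₀ T (σ + t * I)‖ ≤
      (p : ℝ) ^ σ * ∫ t : ℝ, ‖E t‖ * wg σ T₀ T t := by
    refine (norm_integral_le_integral_norm _).trans (le_of_eq ?_)
    rw [← integral_const_mul]
    exact integral_congr_ae (Filter.Eventually.of_forall fun t => Xe_norm σ T₀ T p hp E t)
  have h1 : 0 ≤ (p : ℝ) ^ σ * ∫ t : ℝ, ‖E t‖ * wg σ T₀ T t :=
    mul_nonneg (by positivity)
      (integral_nonneg fun t => mul_nonneg (norm_nonneg _) (Xe_wg_nonneg _ _ _ _))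
  have h2 : ‖(((1 / (2 * Real.pi) : ℝ)) : ℂ)‖ ≤ 1 := by
    rw [Complex.norm_real, Real.norm_eq_abs, abs_of_nonneg (by positivity),
      div_le_one (by positivity)]
    have := Real.pi_gt_three
    linarith
  rw [norm_mul]
  calc ‖(((1 / (2 * Real.pi) : ℝ)) : ℂ)‖ *
        ‖∫ t : ℝ, E t * (p : ℂ) ^ (σ + t * I : ℂ) * gau T₀ T (σ + t * I)‖
      ≤ 1 * ((p : ℝ) ^ σ * ∫ t : ℝ, ‖E t‖ * wg σ T₀ T t) :=
        mul_le_mul h2 h0 (norm_nonneg _) zero_le_one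
    _ = _ := one_mul _

theorem ext_poly (σ : ℝ) (k : ℕ) : ∃ A : ℝ, 0 < A ∧ ∀ (T₀ T B : ℝ), 1 ≤ T → T ≤ T₀ → 0 ≤ B → ∀ p : ℕ, 0 < p → ∀ E : ℝ → ℂ,
    Measurable E → (∀ t, ‖E t‖ ≤ B * (1 + |t|) ^ k) → ‖ext σ T₀ T p E‖ ≤ A * B * (p : ℝ) ^ σ * T₀ ^ (k + 1) := by
  obtain ⟨A, hA, h⟩ := wg_mom σ k
  refine ⟨A, hA, fun T₀ T B hT hT₀ hB p hp E _ hE => ?_⟩
  obtain ⟨h1, h2⟩ := h T₀ T hT hT₀
  refine (ext_le σ T₀ T p hp E).trans ?_
  have h3 : ∫ t : ℝ, ‖E t‖ * wg σ T₀ T t ≤ ∫ t : ℝ, B * ((1 + |t|) ^ k * wg σ T₀ T t) := by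
    refine integral_mono_of_nonneg
      (Filter.Eventually.of_forall fun t => mul_nonneg (norm_nonneg _) (Xe_wg_nonneg _ _ _ _))
      (h1.const_mul B) (Filter.Eventually.of_forall fun t => ?_)
    show ‖E t‖ * wg σ T₀ T t ≤ B * ((1 + |t|) ^ k * wg σ T₀ T t)
    rw [← mul_assoc]
    exact mul_le_mul_of_nonneg_right (hE t) (Xe_wg_nonneg _ _ _ _)
  rw [integral_const_mul] at h3
  have h4 : ∫ t : ℝ, ‖E t‖ * wg σ T₀ T t ≤ B * (A * T₀ ^ (k + 1)) :=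
    h3.trans (mul_le_mul_of_nonneg_left h2 hB)
  calc (p : ℝ) ^ σ * ∫ t : ℝ, ‖E t‖ * wg σ T₀ T t ≤ (p : ℝ) ^ σ * (B * (A * T₀ ^ (k + 1))) :=
        mul_le_mul_of_nonneg_left h4 (by positivity)
    _ = A * B * (p : ℝ) ^ σ * T₀ ^ (k + 1) := by ring

end Pool.Agent.Lib.MP_d713a4_nt
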