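import Pool.Agent.Lib.MP_d713a4_nt.Ee
import Pool.Agent.Lib.MP_d713a4_nt.Xe
import Pool.Agent.Lib.MP_d713a4_nt.Fb
import Pool.Agent.Lib.MP_d713a4_nt.Fc

/-!
# LEAF Za: the formula for `JJ`

PROOF.  `EE σ a b (X u) t = ∑_(n ≤ X u) os n dl n (1/2 + r) - X u a t - X^(1-r) u^(1-r) b t`, `r = σ + i t`, `u > 0`.  `ext` is linear (`ext_integrable`; `dl_le`, `dl_cont` for the
`dl n`).  First part: `ff_sum` with `c n = os n ext(dl n)`; `‖c n‖ ≤ B (n + 1)` by `ext_le`, `dl_le`.  Second part: clear.  Third part: Fubini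
(`integral_integral_swap`): `‖ff u‖ ‖X^(1-r) u^(1-r)‖ ‖b t‖ p^σ wg t` is integrable in `(u, t)` (`ff_le`, `om_int`, `u^(1-σ) ≤ 1 + u`, `wg_mom`-type integrability from
`ext_integrable`).
-/

set_option autoImplicit false

namespace Pool.Agent.Lib.MP_d713a4_nt

open Complex MeasureTheory Set

/-- The kernel of `ext`. -/
private noncomputable def Za_w (σ T₀ T : ℝ) (p : ℕ) (t : ℝ) : ℂ :=
  (p : ℂ) ^ (σ + t * I : ℂ) * gau T₀ T (σ + t * I)

private theorem Za_ext_eq (σ T₀ T : ℝ) (p : ℕ) (E : ℝ → ℂ) :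
    ext σ T₀ T p E = ((1 / (2 * Real.pi) : ℝ) : ℂ) * ∫ t : ℝ, E t * Za_w σ T₀ T p t := by
  have h1 : (fun t : ℝ => E t * (p : ℂ) ^ (σ + t * I : ℂ) * gau T₀ T (σ + t * I)) =
      fun t => E t * Za_w σ T₀ T p t := by
    funext t
    rw [Za_w, mul_assoc]
  rw [ext, h1]

private theorem Za_w_meas (σ T₀ T : ℝ) (p : ℕ) : Measurable (Za_w σ T₀ T p) := by
  have h1 : Measurable fun t : ℝ => (σ + t * I : ℂ) :=
    (continuous_const.add (continuous_ofReal.mul continuous_const)).measurable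
  refine Measurable.mul (h1.const_pow _) ?_
  exact (((h1.sub_const _).pow_const 2).div_const _).cexp

private theorem Za_int {σ T₀ T : ℝ} (hT : 0 < T) {p : ℕ} (hp : 0 < p) {E : ℝ → ℂ} (hE : Measurable E) {k : ℕ} {B : ℝ}
    (hB : ∀ t, ‖E t‖ ≤ B * (1 + |t|) ^ k) : Integrable fun t : ℝ => E t * Za_w σ T₀ T p t := by
  refine (ext_integrable σ T₀ T hT p hp E hE k B hB).congr (ae_of_all _ fun t => ?_)
  show E t * (p : ℂ) ^ (σ + t * I : ℂ) * gau T₀ T (σ + t * I) = E t * Za_w σ T₀ T p t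
  rw [Za_w, mul_assoc]

private theorem Za_maj {σ T₀ T : ℝ} (hT : 0 < T) {p : ℕ} (hp : 0 < p) (k : ℕ) :
    Integrable fun t : ℝ => (1 + |t|) ^ k * ‖Za_w σ T₀ T p t‖ := by
  have h0 : ∀ t : ℝ, ‖(((1 + |t|) ^ k : ℝ) : ℂ)‖ = (1 + |t|) ^ k := fun t => by
    rw [Complex.norm_real, Real.norm_of_nonneg (by positivity)]
  have h1 : Measurable fun t : ℝ => (((1 + |t|) ^ k : ℝ) : ℂ) := by fun_prop
  refine (Za_int (σ := σ) (T₀ := T₀) hT hp h1 (k := k) (B := 1) fun t => ?_).norm.congr (ae_of_all _ fun t => ?_)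
  · rw [h0, one_mul]
  · show ‖(((1 + |t|) ^ k : ℝ) : ℂ) * Za_w σ T₀ T p t‖ = _
    rw [norm_mul, h0]

private theorem Za_ext_le {σ T₀ T : ℝ} (hT : 0 < T) {p : ℕ} (hp : 0 < p) (k : ℕ) {E : ℝ → ℂ} {D : ℝ}
    (hD : ∀ t, ‖E t‖ ≤ D * (1 + |t|) ^ k) :
    ‖ext σ T₀ T p E‖ ≤ D * ∫ t : ℝ, (1 + |t|) ^ k * ‖Za_w σ T₀ T p t‖ := by
  rw [Za_ext_eq, norm_mul, ← integral_const_mul]
  have h1 : ‖∫ t : ℝ, E t * Za_w σ T₀ T p t‖ ≤ ∫ t : ℝ, D * ((1 + |t|) ^ k * ‖Za_w σ T₀ T p t‖) := by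
    refine norm_integral_le_of_norm_le ((Za_maj hT hp k).const_mul D) (ae_of_all _ fun t => ?_)
    rw [norm_mul, ← mul_assoc]
    exact mul_le_mul_of_nonneg_right (hD t) (norm_nonneg _)
  have h2 : ‖((1 / (2 * Real.pi) : ℝ) : ℂ)‖ ≤ 1 := by
    have h3 := Real.pi_gt_three
    rw [Complex.norm_real, Real.norm_of_nonneg (by positivity), div_le_one (by positivity)]
    linarith
  calc _ ≤ 1 * ‖∫ t : ℝ, E t * Za_w σ T₀ T p t‖ := mul_le_mul_of_nonneg_right h2 (norm_nonneg _)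
    _ ≤ _ := by rw [one_mul]; exact h1

private theorem Za_ext_sub {σ T₀ T : ℝ} {p : ℕ} {E₁ E₂ : ℝ → ℂ}
    (h1 : Integrable fun t : ℝ => E₁ t * Za_w σ T₀ T p t) (h2 : Integrable fun t : ℝ => E₂ t * Za_w σ T₀ T p t) :
    ext σ T₀ T p (fun t => E₁ t - E₂ t) = ext σ T₀ T p E₁ - ext σ T₀ T p E₂ := by
  rw [Za_ext_eq, Za_ext_eq, Za_ext_eq, ← mul_sub, ← integral_sub h1 h2]
  simp only [sub_mul]

private theorem Za_ff_int {κ lam : ℝ} (hκ : 1 ≤ κ) (hl : 1 ≤ lam) {G : ℝ → ℂ} (hG : Measurable G) {D k : ℝ}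
    (hk : 0 ≤ k) (hGb : ∀ u, 0 < u → ‖G u‖ ≤ D * (1 + u) ^ k) :
    IntegrableOn (fun u => ff κ lam u * G u) (Ioi 0) := by
  obtain ⟨A, hA, hff⟩ := ff_le κ hκ
  refine Integrable.mono' ((om_int κ k hκ hk).const_mul (A * lam * D)) ((ff_meas κ lam).mul hG).aestronglyMeasurable ?_
  refine (ae_restrict_iff' measurableSet_Ioi).2 (ae_of_all _ fun u hu => ?_)
  rw [norm_mul]
  calc _ ≤ (A * lam * om κ u) * (D * (1 + u) ^ k) :=
        mul_le_mul (hff lam u hl hu) (hGb u hu) (norm_nonneg _) ((norm_nonneg _).trans (hff lam u hl hu))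
    _ = _ := by ring

/-- The sum over `n`. -/
private theorem Za_sum (g : GRH) {σ T₀ T : ℝ} (h0 : 0 < σ) (h1 : σ < 1 / 2) (hT : 0 < T) {p : ℕ} (hp : 0 < p) (x : ℝ) :
    ext σ T₀ T p (fun t => FF x (σ + t * I)) =
      ∑ n ∈ Finset.Icc 1 ⌊x⌋₊, os n * ext σ T₀ T p (fun t => dl n (1 / 2 + (σ + t * I))) := by
  classical
  obtain ⟨A, hA, hdl⟩ := dl_le g σ h0 h1
  have hint : ∀ n ∈ OS x, Integrable fun t : ℝ => dl n (1 / 2 + (σ + t * I)) * Za_w σ T₀ T p t := by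
    intro n hn
    have h2 : Odd n ∧ Squarefree n := by
      rw [OS] at hn
      exact (Finset.mem_filter.1 hn).2
    refine Za_int hT hp (dl_cont g σ h0 h1 n h2.1 h2.2).measurable (k := 1) (B := A * (n * 2)) fun t => ?_
    refine ((hdl n h2.1 h2.2).2 t).trans ?_
    have h3 : (0 : ℝ) < n := Nat.cast_pos.2 h2.1.pos
    have h4 : Real.log (n * (|t| + 2)) ≤ n * (|t| + 2) := Real.log_le_self (by positivity)
    have h5 : (n : ℝ) * (|t| + 2) ≤ n * 2 * (1 + |t|) := by nlinarith [abs_nonneg t]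
    rw [pow_one, mul_assoc A]
    exact mul_le_mul_of_nonneg_left (h4.trans h5) hA.le
  have h2 : ∀ n ∈ OS x, ext σ T₀ T p (fun t => dl n (1 / 2 + (σ + t * I))) =
      ((1 / (2 * Real.pi) : ℝ) : ℂ) * ∫ t : ℝ, dl n (1 / 2 + (σ + t * I)) * Za_w σ T₀ T p t := fun n _ =>
    Za_ext_eq _ _ _ _ _
  have h3 : ext σ T₀ T p (fun t => FF x (σ + t * I)) =
      ∑ n ∈ OS x, ext σ T₀ T p (fun t => dl n (1 / 2 + (σ + t * I))) := by
    rw [Finset.sum_congr rfl h2, ← Finset.mul_sum, Za_ext_eq, ← integral_finsetSum _ hint]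
    congr 1
    refine integral_congr_ae (ae_of_all _ fun t => ?_)
    show FF x (σ + t * I) * Za_w σ T₀ T p t = _
    rw [FF, Finset.sum_mul]
  rw [h3, OS, Finset.sum_filter]
  refine Finset.sum_congr rfl fun n _ => ?_
  unfold os
  by_cases hn : Odd n ∧ Squarefree n
  · rw [if_pos hn, if_pos hn, one_mul]
  · rw [if_neg hn, if_neg hn, zero_mul]

private theorem Za_c_le (g : GRH) {σ T₀ T : ℝ} (h0 : 0 < σ) (h1 : σ < 1 / 2) (hT : 0 < T) {p : ℕ} (hp : 0 < p) :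
    ∃ D : ℝ, 0 ≤ D ∧ ∀ n : ℕ, ‖os n * ext σ T₀ T p (fun t => dl n (1 / 2 + (σ + t * I)))‖ ≤ D * (n + 1) ^ 2 := by
  obtain ⟨A, hA, hdl⟩ := dl_le g σ h0 h1
  set M : ℝ := ∫ t : ℝ, (1 + |t|) ^ 1 * ‖Za_w σ T₀ T p t‖ with hM
  have hM0 : 0 ≤ M := integral_nonneg fun t => by positivity
  refine ⟨2 * A * M, by positivity, fun n => ?_⟩
  unfold os
  by_cases hn : Odd n ∧ Squarefree n
  · rw [if_pos hn, one_mul]
    have h3 : (0 : ℝ) < n := Nat.cast_pos.2 hn.1.pos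
    have h4 : ‖ext σ T₀ T p (fun t => dl n (1 / 2 + (σ + t * I)))‖ ≤ A * (n * 2) * M := by
      refine Za_ext_le hT hp 1 fun t => ?_
      refine ((hdl n hn.1 hn.2).2 t).trans ?_
      have h4 : Real.log (n * (|t| + 2)) ≤ n * (|t| + 2) := Real.log_le_self (by positivity)
      have h5 : (n : ℝ) * (|t| + 2) ≤ n * 2 * (1 + |t|) := by nlinarith [abs_nonneg t]
      rw [pow_one, mul_assoc A]
      exact mul_le_mul_of_nonneg_left (h4.trans h5) hA.le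
    refine h4.trans ?_
    have h5 : (n : ℝ) ≤ (n + 1) ^ 2 := by nlinarith
    have h6 : 0 ≤ 2 * A * M := by positivity
    calc A * (n * 2) * M = 2 * A * M * n := by ring
      _ ≤ _ := mul_le_mul_of_nonneg_left h5 h6
  · rw [if_neg hn, zero_mul, norm_zero]
    positivity

private theorem Za_partial {c : ℕ → ℂ} {D X : ℝ} (hD : 0 ≤ D) (hX : 0 < X) (hc : ∀ n, ‖c n‖ ≤ D * (n + 1) ^ 2) (u : ℝ)
    (hu : 0 < u) : ‖∑ n ∈ Finset.Icc 1 ⌊X * u⌋₊, c n‖ ≤ D * (1 + X) ^ 3 * (1 + u) ^ (3 : ℝ) := by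
  have hXu : 0 ≤ X * u := by positivity
  have h1 : (⌊X * u⌋₊ : ℝ) ≤ X * u := Nat.floor_le hXu
  have h2 : ∀ n ∈ Finset.Icc 1 ⌊X * u⌋₊, ‖c n‖ ≤ D * (1 + X * u) ^ 2 := by
    intro n hn
    refine (hc n).trans (mul_le_mul_of_nonneg_left (pow_le_pow_left₀ (by positivity) ?_ 2) hD)
    have h3 : (n : ℝ) ≤ ⌊X * u⌋₊ := Nat.cast_le.2 (Finset.mem_Icc.1 hn).2
    linarith
  have h3 := (norm_sum_le _ _).trans (Finset.sum_le_card_nsmul _ _ _ h2)
  rw [Nat.card_Icc, Nat.add_sub_cancel, nsmul_eq_mul] at h3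
  refine h3.trans ?_
  have h4 : 0 ≤ D * (1 + X * u) ^ 2 := by positivity
  have h5 : (⌊X * u⌋₊ : ℝ) * (D * (1 + X * u) ^ 2) ≤ (1 + X * u) * (D * (1 + X * u) ^ 2) :=
    mul_le_mul_of_nonneg_right (by linarith) h4
  refine h5.trans ?_
  have h6 : 1 + X * u ≤ (1 + X) * (1 + u) := by nlinarith
  have h7 : (1 + X * u) ^ 3 ≤ ((1 + X) * (1 + u)) ^ 3 := pow_le_pow_left₀ (by positivity) h6 3
  rw [show (3 : ℝ) = ((3 : ℕ) : ℝ) by norm_num, Real.rpow_natCast]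
  calc (1 + X * u) * (D * (1 + X * u) ^ 2) = D * (1 + X * u) ^ 3 := by ring
    _ ≤ D * ((1 + X) * (1 + u)) ^ 3 := mul_le_mul_of_nonneg_left h7 hD
    _ = _ := by ring

private theorem Za_cpow_norm {σ x t : ℝ} (hx : 0 < x) : ‖(x : ℂ) ^ (1 - (σ + t * I) : ℂ)‖ = x ^ (1 - σ) := by
  rw [Complex.norm_cpow_eq_rpow_re_of_pos hx]
  congr 1
  simp

private theorem Za_rpow_le {σ u : ℝ} (h0 : 0 < σ) (h1 : σ < 1 / 2) (hu : 0 < u) : u ^ (1 - σ) ≤ (1 + u) ^ (1 : ℝ) := by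
  calc u ^ (1 - σ) ≤ (1 + u) ^ (1 - σ) := Real.rpow_le_rpow hu.le (by linarith) (by linarith)
    _ ≤ _ := Real.rpow_le_rpow_of_exponent_le (by linarith) (by linarith)

/-- The integrand of the third part. -/
private theorem Za_prod {σ T₀ T κ X : ℝ} (h0 : 0 < σ) (h1 : σ < 1 / 2) (hT : 0 < T) (hκ : 1 ≤ κ) (hX : 0 < X) {p : ℕ}
    (hp : 0 < p) (hl : 1 ≤ X / p) {b : ℝ → ℂ} (hb : Measurable b) {k : ℕ} {B : ℝ}
    (hbb : ∀ t, ‖b t‖ ≤ B * (1 + |t|) ^ k) :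
    Integrable (fun z : ℝ × ℝ => ff κ (X / p) z.1 *
      (((X * z.1 : ℝ) : ℂ) ^ (1 - (σ + z.2 * I) : ℂ) * b z.2 * Za_w σ T₀ T p z.2))
      ((volume.restrict (Ioi 0)).prod volume) := by
  obtain ⟨A, hA, hff⟩ := ff_le κ hκ
  have h2 : Integrable (fun u : ℝ => A * (X / p) * X ^ (1 - σ) * (om κ u * (1 + u) ^ (1 : ℝ)))
      (volume.restrict (Ioi 0)) := (om_int κ 1 hκ zero_le_one).const_mul _
  have h3 : Integrable (fun t : ℝ => B * ((1 + |t|) ^ k * ‖Za_w σ T₀ T p t‖)) := (Za_maj hT hp k).const_mul B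
  refine (h2.mul_prod h3).mono' ?_ ?_
  · refine Measurable.aestronglyMeasurable ?_
    have m1 : Measurable fun z : ℝ × ℝ => ff κ (X / p) z.1 := (ff_meas _ _).comp measurable_fst
    have m2 : Measurable fun z : ℝ × ℝ => b z.2 := hb.comp measurable_snd
    have m3 : Measurable fun z : ℝ × ℝ => Za_w σ T₀ T p z.2 := (Za_w_meas σ T₀ T p).comp measurable_snd
    have m4 : Measurable fun z : ℝ × ℝ => ((X * z.1 : ℝ) : ℂ) := by fun_prop
    have m5 : Measurable fun z : ℝ × ℝ => (1 - (σ + z.2 * I) : ℂ) := by fun_prop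
    exact m1.mul (((m4.pow m5).mul m2).mul m3)
  · have h4 : ∀ᵐ u ∂(volume.restrict (Ioi (0 : ℝ))), 0 < u :=
      (ae_restrict_iff' measurableSet_Ioi).2 (ae_of_all _ fun u hu => hu)
    have h5 : ∀ᵐ z ∂((volume.restrict (Ioi (0 : ℝ))).prod (volume : Measure ℝ)), 0 < z.1 :=
      Measure.quasiMeasurePreserving_fst.ae h4
    filter_upwards [h5] with z hz
    have h6 := hff (X / p) z.1 hl hz
    have h7 : ‖((X * z.1 : ℝ) : ℂ) ^ (1 - (σ + z.2 * I) : ℂ)‖ ≤ X ^ (1 - σ) * (1 + z.1) ^ (1 : ℝ) := by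
      rw [Za_cpow_norm (mul_pos hX hz), Real.mul_rpow hX.le hz.le]
      exact mul_le_mul_of_nonneg_left (Za_rpow_le h0 h1 hz) (Real.rpow_nonneg hX.le _)
    have h7' : 0 ≤ X ^ (1 - σ) * (1 + z.1) ^ (1 : ℝ) := (norm_nonneg _).trans h7
    have h6' := (norm_nonneg _).trans h6
    rw [norm_mul, norm_mul, norm_mul]
    calc ‖ff κ (X / p) z.1‖ * (‖((X * z.1 : ℝ) : ℂ) ^ (1 - (σ + z.2 * I) : ℂ)‖ * ‖b z.2‖ * ‖Za_w σ T₀ T p z.2‖)
        ≤ (A * (X / p) * om κ z.1) * (X ^ (1 - σ) * (1 + z.1) ^ (1 : ℝ) * (B * (1 + |z.2|) ^ k) *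
          ‖Za_w σ T₀ T p z.2‖) := by
          refine mul_le_mul h6 ?_ (by positivity) h6'
          refine mul_le_mul_of_nonneg_right ?_ (norm_nonneg _)
          exact mul_le_mul h7 (hbb z.2) (norm_nonneg _) h7'
      _ = _ := by ring

theorem JJ_eq (g : GRH) (σ T₀ T κ X : ℝ) (h0 : 0 < σ) (h1 : σ < 1 / 2) (hT : 0 < T) (hκ : 1 ≤ κ) (hX : 0 < X) (p : ℕ) (hp : 0 < p)
    (hl : 1 ≤ X / p) (a b : ℝ → ℂ) (ha : Measurable a) (hb : Measurable b) (k : ℕ) (B : ℝ)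
    (hab : ∀ t, ‖a t‖ ≤ B * (1 + |t|) ^ k ∧ ‖b t‖ ≤ B * (1 + |t|) ^ k) :
    JJ σ T₀ T κ X a b p =
      (∑' n : ℕ, os n * ext σ T₀ T p (fun t => dl n (1 / 2 + (σ + t * I))) * Tf κ (X / p) (n / X)) -
      X * ext σ T₀ T p a * (∫ u in Ioi (0 : ℝ), ff κ (X / p) u * u) -
      ext σ T₀ T p (fun t => (X : ℂ) ^ (1 - (σ + t * I)) * b t *
        ∫ u in Ioi (0 : ℝ), ff κ (X / p) u * (u : ℂ) ^ (1 - (σ + t * I))) := by
  have hB0 : 0 ≤ B := by
    have h2 := (norm_nonneg _).trans (hab 0).1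
    simpa using h2
  obtain ⟨D, hD0, hD⟩ := Za_c_le g (T₀ := T₀) h0 h1 hT hp
  obtain ⟨A₁, hA₁, hFF⟩ := FF_le g σ h0 h1
  have hbb := fun t => (hab t).2
  have hprod := Za_prod (T₀ := T₀) h0 h1 hT hκ hX hp hl hb hbb
  -- the three parts of the integrand
  have hpoint : ∀ u ∈ Ioi (0 : ℝ), ff κ (X / p) u * ext σ T₀ T p (EE σ a b (X * u)) =
      ff κ (X / p) u * (∑ n ∈ Finset.Icc 1 ⌊X * u⌋₊, os n * ext σ T₀ T p (fun t => dl n (1 / 2 + (σ + t * I)))) -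
      ff κ (X / p) u * (((X * u : ℝ) : ℂ) * ext σ T₀ T p a) -
      ff κ (X / p) u * ext σ T₀ T p (fun t => ((X * u : ℝ) : ℂ) ^ (1 - (σ + t * I) : ℂ) * b t) := by
    intro u hu
    have hXu : 0 < X * u := mul_pos hX hu
    have i1 : Integrable fun t : ℝ => FF (X * u) (σ + t * I) * Za_w σ T₀ T p t :=
      Za_int hT hp (FF_cont g σ h0 h1 (X * u)).measurable (k := 1) (B := A₁ * (1 + X * u) ^ 2) fun t => by
        rw [pow_one]
        exact hFF (X * u) t hXu.le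
    have i2 : Integrable fun t : ℝ => ((X * u : ℝ) : ℂ) * a t * Za_w σ T₀ T p t :=
      Za_int hT hp (ha.const_mul _) (k := k) (B := X * u * B) fun t => by
        rw [norm_mul, Complex.norm_real, Real.norm_of_nonneg hXu.le, mul_assoc (X * u) B]
        exact mul_le_mul_of_nonneg_left (hab t).1 hXu.le
    have m3 : Measurable fun t : ℝ => ((X * u : ℝ) : ℂ) ^ (1 - (σ + t * I) : ℂ) * b t := by
      have m5 : Measurable fun t : ℝ => (1 - (σ + t * I) : ℂ) := by fun_prop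
      exact (m5.const_pow _).mul hb
    have i3 : Integrable fun t : ℝ => ((X * u : ℝ) : ℂ) ^ (1 - (σ + t * I) : ℂ) * b t * Za_w σ T₀ T p t :=
      Za_int hT hp m3 (k := k) (B := (X * u) ^ (1 - σ) * B) fun t => by
        rw [norm_mul, Za_cpow_norm hXu, mul_assoc]
        exact mul_le_mul_of_nonneg_left (hab t).2 (Real.rpow_nonneg hXu.le _)
    have i12 : Integrable fun t : ℝ => (FF (X * u) (σ + t * I) - ((X * u : ℝ) : ℂ) * a t) * Za_w σ T₀ T p t := by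
      exact (i1.sub i2).congr (ae_of_all _ fun t => (sub_mul _ _ _).symm)
    have e1 : ext σ T₀ T p (EE σ a b (X * u)) =
        ext σ T₀ T p (fun t => FF (X * u) (σ + t * I)) - ext σ T₀ T p (fun t => ((X * u : ℝ) : ℂ) * a t) -
        ext σ T₀ T p (fun t => ((X * u : ℝ) : ℂ) ^ (1 - (σ + t * I) : ℂ) * b t) := by
      rw [← Za_ext_sub i1 i2, ← Za_ext_sub i12 i3]
      rfl
    have e2 : ext σ T₀ T p (fun t => ((X * u : ℝ) : ℂ) * a t) = ((X * u : ℝ) : ℂ) * ext σ T₀ T p a := by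
      have h2 : (fun t : ℝ => ((X * u : ℝ) : ℂ) * a t * Za_w σ T₀ T p t) =
          fun t => ((X * u : ℝ) : ℂ) * (a t * Za_w σ T₀ T p t) := by
        funext t
        ring
      rw [Za_ext_eq, Za_ext_eq, h2, integral_const_mul, mul_left_comm]
    rw [e1, e2, Za_sum g h0 h1 hT hp, mul_sub, mul_sub]
  have j1 : IntegrableOn (fun u => ff κ (X / p) u * (∑ n ∈ Finset.Icc 1 ⌊X * u⌋₊,
      os n * ext σ T₀ T p (fun t => dl n (1 / 2 + (σ + t * I))))) (Ioi 0) := by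
    refine Za_ff_int hκ hl ?_ (D := D * (1 + X) ^ 3) (k := 3) (by norm_num) (Za_partial hD0 hX hD)
    have m1 : Measurable fun N : ℕ => ∑ n ∈ Finset.Icc 1 N, os n * ext σ T₀ T p (fun t => dl n (1 / 2 + (σ + t * I))) :=
      measurable_from_nat
    exact m1.comp (Nat.measurable_floor.comp (measurable_id.const_mul X))
  have j2 : IntegrableOn (fun u => ff κ (X / p) u * (((X * u : ℝ) : ℂ) * ext σ T₀ T p a)) (Ioi 0) := by
    refine Za_ff_int hκ hl (by fun_prop) (D := X * ‖ext σ T₀ T p a‖) (k := 1) zero_le_one fun u hu => ?_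
    rw [norm_mul, Complex.norm_real, Real.norm_of_nonneg (mul_pos hX hu).le, Real.rpow_one]
    have h2 : 0 ≤ X * ‖ext σ T₀ T p a‖ := by positivity
    nlinarith
  have j12 : IntegrableOn (fun u => ff κ (X / p) u * (∑ n ∈ Finset.Icc 1 ⌊X * u⌋₊,
      os n * ext σ T₀ T p (fun t => dl n (1 / 2 + (σ + t * I)))) -
      ff κ (X / p) u * (((X * u : ℝ) : ℂ) * ext σ T₀ T p a)) (Ioi 0) := j1.sub j2
  have hFub : ∀ u : ℝ, ff κ (X / p) u * ext σ T₀ T p (fun t => ((X * u : ℝ) : ℂ) ^ (1 - (σ + t * I) : ℂ) * b t) =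
      ((1 / (2 * Real.pi) : ℝ) : ℂ) * ∫ t : ℝ, ff κ (X / p) u *
        (((X * u : ℝ) : ℂ) ^ (1 - (σ + t * I) : ℂ) * b t * Za_w σ T₀ T p t) := by
    intro u
    rw [Za_ext_eq, integral_const_mul]
    ring
  have j3 : IntegrableOn (fun u => ff κ (X / p) u *
      ext σ T₀ T p (fun t => ((X * u : ℝ) : ℂ) ^ (1 - (σ + t * I) : ℂ) * b t)) (Ioi 0) := by
    simp only [hFub]
    exact (hprod.integral_prod_left).const_mul _
  have e3 : ∫ u in Ioi (0 : ℝ), ff κ (X / p) u * (((X * u : ℝ) : ℂ) * ext σ T₀ T p a) =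
      X * ext σ T₀ T p a * (∫ u in Ioi (0 : ℝ), ff κ (X / p) u * u) := by
    rw [← integral_const_mul]
    refine integral_congr_ae (ae_of_all _ fun u => ?_)
    show ff κ (X / p) u * (((X * u : ℝ) : ℂ) * ext σ T₀ T p a) = X * ext σ T₀ T p a * (ff κ (X / p) u * u)
    push_cast
    ring
  have e4 : ∫ u in Ioi (0 : ℝ), ff κ (X / p) u *
      ext σ T₀ T p (fun t => ((X * u : ℝ) : ℂ) ^ (1 - (σ + t * I) : ℂ) * b t) =
      ext σ T₀ T p (fun t => (X : ℂ) ^ (1 - (σ + t * I)) * b t *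
        ∫ u in Ioi (0 : ℝ), ff κ (X / p) u * (u : ℂ) ^ (1 - (σ + t * I))) := by
    simp only [hFub]
    rw [integral_const_mul, integral_integral_swap hprod, Za_ext_eq]
    congr 1
    refine integral_congr_ae (ae_of_all _ fun t => ?_)
    show ∫ u in Ioi (0 : ℝ), ff κ (X / p) u * (((X * u : ℝ) : ℂ) ^ (1 - (σ + t * I) : ℂ) * b t * Za_w σ T₀ T p t) =
      (X : ℂ) ^ (1 - (σ + t * I)) * b t * (∫ u in Ioi (0 : ℝ), ff κ (X / p) u * (u : ℂ) ^ (1 - (σ + t * I))) *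
        Za_w σ T₀ T p t
    rw [mul_right_comm, ← integral_const_mul]
    refine setIntegral_congr_fun measurableSet_Ioi fun u hu => ?_
    have hu' : (0 : ℝ) ≤ u := (mem_Ioi.1 hu).le
    show ff κ (X / p) u * (((X * u : ℝ) : ℂ) ^ (1 - (σ + t * I) : ℂ) * b t * Za_w σ T₀ T p t) =
      (X : ℂ) ^ (1 - (σ + t * I)) * b t * Za_w σ T₀ T p t * (ff κ (X / p) u * (u : ℂ) ^ (1 - (σ + t * I)))
    rw [Complex.ofReal_mul, Complex.mul_cpow_ofReal_nonneg hX.le hu']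
    ring
  rw [JJ, setIntegral_congr_fun measurableSet_Ioi hpoint, integral_sub j12 j3, integral_sub j1 j2, e3, e4,
    ff_sum κ (X / p) X D hκ hl hX _ hD]

end Pool.Agent.Lib.MP_d713a4_nt
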