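import Pool.Agent.Lib.MP_d713a4_nt.Xe
import Pool.Agent.Lib.MP_d713a4_nt.Xm
import Pool.Agent.Lib.MP_d713a4_nt.Fb

/-!
# LEAF Zm: the main terms in `JJ` are negligible

PROOF.  `T₀ = P^(1+ε/5)`, `T = P^(1+ε/10)`, `X = P^(1+3ε)`, `κ = N - 1/2 - 3ε/200`, `p ∈ [P, 2P)`, `λ = X/p ∈ [P^(3ε)/2, P^(3ε)]`, `λ ≥ 1`.
`main_a`: `X A λ^(-κ-1) ‖ext a‖ ≤ X A (P^(3ε)/2)^(-κ-1) A' B (2P)^σ T₀^(k+1) ≤ 1` for large `P` if `3 ε (κ + 1) > 2 + 1 + 2 (k + 1)`, i.e. `N ≥ N₀` (`ff_one`, `ext_poly`).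
`main_b` (every `κ ≥ 1`): `ext_le`, `ff_pow`: at most `p^σ X^(1-σ) A B ∫ (1 + |t|)^(k+1) exp(-max t 0) wg dt`; on `|t - T₀| < T₀/2` the exponential is at most `exp(-T₀/2)` and `wg_mom`;
elsewhere `exp ≤ 1` and `wg_tail`, `T₀²/T² = P^(ε/5)`: at most `1` for large `P`.
-/

set_option autoImplicit false

namespace Pool.Agent.Lib.MP_d713a4_nt

open Complex MeasureTheory Set

/-- simple facts on the parameters -/
private theorem Zm_par (σ ε : ℝ) (h1 : σ < 1 / 4) (hε : 0 < ε) (hε1 : ε ≤ 1 / 12) (P p : ℕ) (hP : 1 ≤ P)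
    (hP2 : 2 ≤ (P : ℝ) ^ ε) (hp : p ∈ PP P) :
    0 < p ∧ (p : ℝ) ^ σ ≤ 2 * P ∧ (P : ℝ) ^ (1 + 3 * ε) ≤ P ^ 2 ∧ 1 ≤ (P : ℝ) ^ (1 + 3 * ε) ∧ (P : ℝ) ^ (1 + ε / 5) ≤ P ^ 2 ∧
      (P : ℝ) ≤ (P : ℝ) ^ (1 + ε / 5) ∧ 1 ≤ (P : ℝ) ^ (1 + ε / 10) ∧ (P : ℝ) ^ (1 + ε / 10) ≤ (P : ℝ) ^ (1 + ε / 5) ∧
      (P : ℝ) ^ (2 * ε) ≤ (P : ℝ) ^ (1 + 3 * ε) / p ∧ 1 ≤ (P : ℝ) ^ (1 + 3 * ε) / p := by
  have hP1 : (1 : ℝ) ≤ P := by exact_mod_cast hP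
  have hP0 : (0 : ℝ) < P := by linarith
  unfold PP at hp
  rw [Finset.mem_filter, Finset.mem_Ico] at hp
  obtain ⟨⟨hp1, hp2⟩, hp3, -⟩ := hp
  have hp0 : 0 < p := hp3.pos
  have hp0' : (0 : ℝ) < p := by exact_mod_cast hp0
  have hp1' : (1 : ℝ) ≤ p := by exact_mod_cast hp3.one_le
  have hp2' : (p : ℝ) ≤ 2 * P := by exact_mod_cast hp2.le
  have hm : ∀ {a b : ℝ}, a ≤ b → (P : ℝ) ^ a ≤ (P : ℝ) ^ b := fun h => Real.rpow_le_rpow_of_exponent_le hP1 h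
  have e2 : (P : ℝ) ^ (2 : ℝ) = (P : ℝ) ^ 2 := Real.rpow_ofNat _ 2
  have e1 : (P : ℝ) ^ (1 : ℝ) = P := Real.rpow_one _
  have h3 : (P : ℝ) ^ (2 * ε) ≤ (P : ℝ) ^ (1 + 3 * ε) / p := by
    rw [le_div_iff₀ hp0']
    have h4 : (P : ℝ) ^ (1 + 3 * ε) = (P : ℝ) ^ (2 * ε) * ((P : ℝ) ^ ε * P) := by
      rw [← Real.rpow_add_one hP0.ne', ← Real.rpow_add hP0]
      congr 1
      ring
    rw [h4]
    refine mul_le_mul_of_nonneg_left ?_ (by positivity)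
    nlinarith
  refine ⟨hp0, ?_, ?_, Real.one_le_rpow hP1 (by linarith), ?_, ?_, Real.one_le_rpow hP1 (by linarith), hm (by linarith), h3,
    (Real.one_le_rpow hP1 (by linarith)).trans h3⟩
  · have h4 : (p : ℝ) ^ σ ≤ (p : ℝ) ^ (1 : ℝ) := Real.rpow_le_rpow_of_exponent_le hp1' (by linarith)
    rw [Real.rpow_one] at h4
    exact h4.trans hp2'
  · rw [← e2]
    exact hm (by linarith)
  · rw [← e2]
    exact hm (by linarith)
  · conv_lhs => rw [← e1]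
    exact hm (by linarith)

theorem main_a (σ ε : ℝ) (h0 : 0 < σ) (h1 : σ < 1 / 4) (hε : 0 < ε) (hε1 : ε ≤ 1 / 12) (a : ℝ → ℂ) (ha : Measurable a)
    (k : ℕ) (B : ℝ) (hB : 0 < B) (hab : ∀ t, ‖a t‖ ≤ B * (1 + |t|) ^ k) :
    ∃ N₀ : ℕ, ∀ N : ℕ, N₀ ≤ N → ∃ P₀ : ℕ, ∀ P : ℕ, P₀ ≤ P → ∀ p ∈ PP P,
      ‖(((P : ℝ) ^ (1 + 3 * ε) : ℝ) : ℂ) * ext σ ((P : ℝ) ^ (1 + ε / 5)) ((P : ℝ) ^ (1 + ε / 10)) p a *
        (∫ u in Ioi (0 : ℝ), ff (N - 1 / 2 - 3 * ε / 200) ((P : ℝ) ^ (1 + 3 * ε) / p) u * u)‖ ≤ 1 := by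
  obtain ⟨A', hA', hext⟩ := ext_poly σ k
  refine ⟨max 2 ⌈((k : ℝ) + 3) / ε⌉₊, fun N hN => ?_⟩
  have hN2 : (2 : ℝ) ≤ N := by exact_mod_cast (le_max_left _ _).trans hN
  have hNk : ((k : ℝ) + 3) / ε ≤ N := Nat.ceil_le.1 ((le_max_right _ _).trans hN)
  have hκ : (1 : ℝ) ≤ N - 1 / 2 - 3 * ε / 200 := by linarith
  obtain ⟨A, hA, hff⟩ := ff_one (N - 1 / 2 - 3 * ε / 200) hκ
  obtain ⟨P₁, hP₁⟩ := Filter.eventually_atTop.1
    (((tendsto_rpow_atTop hε).comp tendsto_natCast_atTop_atTop).eventually_ge_atTop 2)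
  refine ⟨max P₁ (max 1 ⌈2 * A * A' * B⌉₊), fun P hP p hp => ?_⟩
  have hPa : P₁ ≤ P := (le_max_left _ _).trans hP
  have hPb : 1 ≤ P := (le_max_left 1 _).trans ((le_max_right _ _).trans hP)
  have hPc : 2 * A * A' * B ≤ (P : ℝ) := Nat.ceil_le.1 ((le_max_right 1 _).trans ((le_max_right _ _).trans hP))
  have hP1 : (1 : ℝ) ≤ P := by exact_mod_cast hPb
  have hP0 : (0 : ℝ) < P := by linarith
  obtain ⟨hp0, h2, h3, h3', h4, h5, h6, h7, h8, h9⟩ := Zm_par σ ε h1 hε hε1 P p hPb (hP₁ P hPa) hp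
  have e1 := hext ((P : ℝ) ^ (1 + ε / 5)) ((P : ℝ) ^ (1 + ε / 10)) B h6 h7 hB.le p hp0 a ha hab
  have e2 := hff ((P : ℝ) ^ (1 + 3 * ε) / p) h9
  have hX0 : 0 ≤ (P : ℝ) ^ (1 + 3 * ε) := by linarith
  rw [norm_mul, norm_mul, Complex.norm_real, Real.norm_of_nonneg hX0]
  have e3 : ((P : ℝ) ^ (1 + 3 * ε) / p) ^ (-((N : ℝ) - 1 / 2 - 3 * ε / 200 + 1)) ≤ 1 / (P : ℝ) ^ (2 * k + 6) := by
    have f0 : (0 : ℝ) < (P : ℝ) ^ (1 + 3 * ε) / p := by linarith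
    rw [Real.rpow_neg f0.le, ← one_div]
    refine one_div_le_one_div_of_le (by positivity) ?_
    have f1 : ((P : ℝ) ^ (2 * ε)) ^ ((N : ℝ) - 1 / 2 - 3 * ε / 200 + 1) ≤
        ((P : ℝ) ^ (1 + 3 * ε) / p) ^ ((N : ℝ) - 1 / 2 - 3 * ε / 200 + 1) :=
      Real.rpow_le_rpow (by positivity) h8 (by linarith)
    refine le_trans ?_ f1
    rw [← Real.rpow_mul hP0.le, ← Real.rpow_natCast]
    refine Real.rpow_le_rpow_of_exponent_le hP1 ?_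
    push_cast
    rw [div_le_iff₀ hε] at hNk
    have f2 : (N : ℝ) ≤ (N : ℝ) - 1 / 2 - 3 * ε / 200 + 1 := by linarith
    have f3 : (N : ℝ) * ε ≤ ((N : ℝ) - 1 / 2 - 3 * ε / 200 + 1) * ε := mul_le_mul_of_nonneg_right f2 hε.le
    nlinarith
  have e4 : ((P : ℝ) ^ (1 + ε / 5)) ^ (k + 1) ≤ (P : ℝ) ^ (2 * k + 2) := by
    have f1 : ((P : ℝ) ^ (1 + ε / 5)) ^ (k + 1) ≤ ((P : ℝ) ^ 2) ^ (k + 1) :=
      pow_le_pow_left₀ (by positivity) h4 _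
    refine f1.trans (le_of_eq ?_)
    rw [← pow_mul]
    congr 1
  have hps : (0 : ℝ) ≤ (p : ℝ) ^ σ := by positivity
  calc (P : ℝ) ^ (1 + 3 * ε) * ‖ext σ ((P : ℝ) ^ (1 + ε / 5)) ((P : ℝ) ^ (1 + ε / 10)) p a‖ *
        ‖∫ u in Ioi (0 : ℝ), ff (N - 1 / 2 - 3 * ε / 200) ((P : ℝ) ^ (1 + 3 * ε) / p) u * u‖ ≤
        (P : ℝ) ^ 2 * (A' * B * (2 * P) * (P : ℝ) ^ (2 * k + 2)) * (A * (1 / (P : ℝ) ^ (2 * k + 6))) := by
        refine mul_le_mul (mul_le_mul h3 (e1.trans ?_) (norm_nonneg _) (by positivity)) (e2.trans ?_) (norm_nonneg _)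
          (by positivity)
        · exact mul_le_mul (mul_le_mul_of_nonneg_left h2 (by positivity)) e4 (by positivity) (by positivity)
        · exact mul_le_mul_of_nonneg_left e3 hA.le
    _ = 2 * A * A' * B / P := by
        field_simp
        ring
    _ ≤ 1 := by
        rw [div_le_one hP0]
        exact hPc

theorem main_b (σ ε κ : ℝ) (h0 : 0 < σ) (h1 : σ < 1 / 4) (hε : 0 < ε) (hε1 : ε ≤ 1 / 12) (hκ : 1 ≤ κ) (b : ℝ → ℂ) (hb : Measurable b)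
    (k : ℕ) (B : ℝ) (hB : 0 < B) (hab : ∀ t, ‖b t‖ ≤ B * (1 + |t|) ^ k) :
    ∃ P₀ : ℕ, ∀ P : ℕ, P₀ ≤ P → ∀ p ∈ PP P,
      ‖ext σ ((P : ℝ) ^ (1 + ε / 5)) ((P : ℝ) ^ (1 + ε / 10)) p (fun t => (((P : ℝ) ^ (1 + 3 * ε) : ℝ) : ℂ) ^ (1 - (σ + t * I)) * b t *
        ∫ u in Ioi (0 : ℝ), ff κ ((P : ℝ) ^ (1 + 3 * ε) / p) u * (u : ℂ) ^ (1 - (σ + t * I)))‖ ≤ 1 := by
  obtain ⟨A, hA, hff⟩ := ff_pow κ σ hκ h0 (by linarith)
  obtain ⟨A₁, hA₁, hmom⟩ := wg_mom σ (k + 1)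
  obtain ⟨A₂, hA₂, htail⟩ := wg_tail σ (k + 1)
  obtain ⟨P₁, hP₁⟩ := Filter.eventually_atTop.1
    (((tendsto_rpow_atTop hε).comp tendsto_natCast_atTop_atTop).eventually_ge_atTop 2)
  have hlim : Filter.Tendsto (fun P : ℕ => ((P : ℝ) ^ (ε / 5)) ^ (5 * (2 * (k : ℝ) + 7) / ε) *
      Real.exp (-(1 / 8) * (P : ℝ) ^ (ε / 5))) Filter.atTop (nhds 0) :=
    (tendsto_rpow_mul_exp_neg_mul_atTop_nhds_zero (5 * (2 * (k : ℝ) + 7) / ε) (1 / 8) (by norm_num)).comp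
      ((tendsto_rpow_atTop (by positivity : (0 : ℝ) < ε / 5)).comp tendsto_natCast_atTop_atTop)
  obtain ⟨P₂, hP₂⟩ := Filter.eventually_atTop.1
    (hlim.eventually (ge_mem_nhds (show (0 : ℝ) < 1 / (2 * (A * B * (A₁ + A₂))) by positivity)))
  refine ⟨max (max P₁ P₂) 1, fun P hP p hp => ?_⟩
  have hPa : P₁ ≤ P := (le_max_left P₁ P₂).trans ((le_max_left _ _).trans hP)
  have hPb : P₂ ≤ P := (le_max_right P₁ P₂).trans ((le_max_left _ _).trans hP)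
  have hPc : 1 ≤ P := (le_max_right _ _).trans hP
  have hP1 : (1 : ℝ) ≤ P := by exact_mod_cast hPc
  have hP0 : (0 : ℝ) < P := by linarith
  obtain ⟨hp0, h2, h3, h3', h4, h5, h6, h7, h8, h9⟩ := Zm_par σ ε h1 hε hε1 P p hPc (hP₁ P hPa) hp
  set X : ℝ := (P : ℝ) ^ (1 + 3 * ε) with hX
  set T₀ : ℝ := (P : ℝ) ^ (1 + ε / 5) with hT₀
  set T : ℝ := (P : ℝ) ^ (1 + ε / 10) with hT
  have hX0 : 0 < X := by linarith
  have hT0 : 0 < T := by linarith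
  have hT₀0 : 0 < T₀ := by linarith
  obtain ⟨hint, hmomb⟩ := hmom T₀ T h6 h7
  have htb := htail T₀ T h6 h7
  have hw : ∀ t, 0 ≤ wg σ T₀ T t := fun t => (Real.exp_pos _).le
  -- the integrand
  set S : Set ℝ := {t : ℝ | T₀ / 2 ≤ |t - T₀|} with hS
  have hSm : MeasurableSet S := measurableSet_le measurable_const (by fun_prop)
  have hpt : ∀ t : ℝ, ‖(X : ℂ) ^ (1 - (σ + t * I)) * b t *
      ∫ u in Ioi (0 : ℝ), ff κ (X / p) u * (u : ℂ) ^ (1 - (σ + t * I))‖ * wg σ T₀ T t ≤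
      X ^ (1 - σ) * B * A * (Real.exp (-(T₀ / 2)) * ((1 + |t|) ^ (k + 1) * wg σ T₀ T t) +
        S.indicator (fun t => (1 + |t|) ^ (k + 1) * wg σ T₀ T t) t) := by
    intro t
    have f1 : ‖(X : ℂ) ^ (1 - (σ + t * I))‖ = X ^ (1 - σ) := by
      rw [Complex.norm_cpow_eq_rpow_re_of_pos hX0]
      congr 1
      simp
    have f2 : Real.exp (-max t 0) * ((1 + |t|) ^ (k + 1) * wg σ T₀ T t) ≤
        Real.exp (-(T₀ / 2)) * ((1 + |t|) ^ (k + 1) * wg σ T₀ T t) +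
        S.indicator (fun t => (1 + |t|) ^ (k + 1) * wg σ T₀ T t) t := by
      have g0 : 0 ≤ (1 + |t|) ^ (k + 1) * wg σ T₀ T t := mul_nonneg (by positivity) (hw t)
      by_cases ht : t ∈ S
      · rw [Set.indicator_of_mem ht]
        have g1 : Real.exp (-max t 0) ≤ 1 := by
          rw [Real.exp_le_one_iff]
          linarith [le_max_right t 0]
        have g2 : Real.exp (-max t 0) * ((1 + |t|) ^ (k + 1) * wg σ T₀ T t) ≤
            1 * ((1 + |t|) ^ (k + 1) * wg σ T₀ T t) := mul_le_mul_of_nonneg_right g1 g0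
        have g3 : 0 ≤ Real.exp (-(T₀ / 2)) * ((1 + |t|) ^ (k + 1) * wg σ T₀ T t) :=
          mul_nonneg (Real.exp_pos _).le g0
        linarith
      · rw [Set.indicator_of_notMem ht, add_zero]
        refine mul_le_mul_of_nonneg_right (Real.exp_le_exp.2 ?_) g0
        have g1 : |t - T₀| < T₀ / 2 := not_le.1 ht
        have g2 := (abs_lt.1 g1).1
        have g3 := le_max_left t 0
        linarith
    rw [norm_mul, norm_mul, f1]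
    calc X ^ (1 - σ) * ‖b t‖ * ‖∫ u in Ioi (0 : ℝ), ff κ (X / p) u * (u : ℂ) ^ (1 - (σ + t * I))‖ * wg σ T₀ T t ≤
          X ^ (1 - σ) * (B * (1 + |t|) ^ k) * (A * (1 + |t|) * Real.exp (-max t 0)) * wg σ T₀ T t := by
          refine mul_le_mul_of_nonneg_right ?_ (hw t)
          refine mul_le_mul (mul_le_mul_of_nonneg_left (hab t) (by positivity)) (hff (X / p) h9 t) (norm_nonneg _)
            (by positivity)
      _ = X ^ (1 - σ) * B * A * (Real.exp (-max t 0) * ((1 + |t|) ^ (k + 1) * wg σ T₀ T t)) := by ring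
      _ ≤ _ := mul_le_mul_of_nonneg_left f2 (by positivity)
  have hintr : Integrable (fun t : ℝ => X ^ (1 - σ) * B * A * (Real.exp (-(T₀ / 2)) * ((1 + |t|) ^ (k + 1) * wg σ T₀ T t) +
        S.indicator (fun t => (1 + |t|) ^ (k + 1) * wg σ T₀ T t) t)) :=
    ((hint.const_mul _).add (hint.indicator hSm)).const_mul _
  have hI : ∫ t : ℝ, ‖(X : ℂ) ^ (1 - (σ + t * I)) * b t *
      ∫ u in Ioi (0 : ℝ), ff κ (X / p) u * (u : ℂ) ^ (1 - (σ + t * I))‖ * wg σ T₀ T t ≤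
      X ^ (1 - σ) * B * A * (Real.exp (-(T₀ / 2)) * (A₁ * T₀ ^ (k + 1 + 1)) +
        A₂ * T₀ ^ (k + 1 + 1) * Real.exp (-(T₀ ^ 2 / (8 * T ^ 2)))) := by
    refine (integral_mono_of_nonneg (Filter.Eventually.of_forall fun t => mul_nonneg (norm_nonneg _) (hw t)) hintr
      (Filter.Eventually.of_forall hpt)).trans ?_
    rw [integral_const_mul, integral_add (hint.const_mul _) (hint.indicator hSm), integral_const_mul,
      integral_indicator hSm]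
    refine mul_le_mul_of_nonneg_left (add_le_add (mul_le_mul_of_nonneg_left hmomb (Real.exp_pos _).le) htb)
      (by positivity)
  have hq : T₀ ^ 2 / (8 * T ^ 2) = 1 / 8 * (P : ℝ) ^ (ε / 5) := by
    have f1 : T₀ = T * (P : ℝ) ^ (ε / 10) := by
      rw [hT₀, hT, ← Real.rpow_add hP0]
      congr 1
      ring
    have f2 : ((P : ℝ) ^ (ε / 10)) ^ 2 = (P : ℝ) ^ (ε / 5) := by
      rw [← Real.rpow_natCast, ← Real.rpow_mul hP0.le]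
      congr 1
      push_cast
      ring
    rw [f1, mul_pow, f2]
    field_simp
  have hexp : Real.exp (-(T₀ / 2)) ≤ Real.exp (-(1 / 8) * (P : ℝ) ^ (ε / 5)) := by
    refine Real.exp_le_exp.2 ?_
    have f1 : (P : ℝ) ^ (ε / 5) ≤ (P : ℝ) ^ (1 : ℝ) := Real.rpow_le_rpow_of_exponent_le hP1 (by linarith)
    rw [Real.rpow_one] at f1
    linarith
  have hlast := hP₂ P hPb
  have hpow : ((P : ℝ) ^ (ε / 5)) ^ (5 * (2 * (k : ℝ) + 7) / ε) = (P : ℝ) ^ (2 * k + 7) := by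
    rw [← Real.rpow_mul hP0.le, ← Real.rpow_natCast]
    congr 1
    push_cast
    field_simp
  rw [hpow] at hlast
  set E : ℝ := Real.exp (-(1 / 8) * (P : ℝ) ^ (ε / 5)) with hE
  have hE0 : 0 < E := Real.exp_pos _
  have hX1 : X ^ (1 - σ) ≤ (P : ℝ) ^ 2 := by
    have f1 : X ^ (1 - σ) ≤ X ^ (1 : ℝ) := Real.rpow_le_rpow_of_exponent_le h3' (by linarith)
    rw [Real.rpow_one] at f1
    exact f1.trans h3
  have hTk : T₀ ^ (k + 1 + 1) ≤ (P : ℝ) ^ (2 * k + 4) := by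
    have f1 : T₀ ^ (k + 1 + 1) ≤ ((P : ℝ) ^ 2) ^ (k + 1 + 1) := pow_le_pow_left₀ (by positivity) h4 _
    refine f1.trans (le_of_eq ?_)
    rw [← pow_mul]
    congr 1
  have hq' : Real.exp (-(T₀ ^ 2 / (8 * T ^ 2))) = E := by
    rw [hq, hE, neg_mul]
  refine (ext_le σ T₀ T p hp0 _).trans ?_
  calc (p : ℝ) ^ σ * ∫ t : ℝ, ‖(X : ℂ) ^ (1 - (σ + t * I)) * b t *
        ∫ u in Ioi (0 : ℝ), ff κ (X / p) u * (u : ℂ) ^ (1 - (σ + t * I))‖ * wg σ T₀ T t ≤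
        (2 * P) * ((P : ℝ) ^ 2 * B * A * (E * (A₁ * (P : ℝ) ^ (2 * k + 4)) + A₂ * (P : ℝ) ^ (2 * k + 4) * E)) := by
        refine mul_le_mul h2 (hI.trans ?_) (integral_nonneg fun t => mul_nonneg (norm_nonneg _) (hw t)) (by positivity)
        rw [hq']
        refine mul_le_mul (mul_le_mul_of_nonneg_right (mul_le_mul_of_nonneg_right hX1 hB.le) hA.le) ?_ (by positivity)
          (by positivity)
        refine add_le_add ?_ ?_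
        · exact mul_le_mul hexp (mul_le_mul_of_nonneg_left hTk hA₁.le) (by positivity) hE0.le
        · exact mul_le_mul_of_nonneg_right (mul_le_mul_of_nonneg_left hTk hA₂.le) hE0.le
    _ = (2 * (A * B * (A₁ + A₂))) * ((P : ℝ) ^ (2 * k + 7) * E) := by ring
    _ ≤ (2 * (A * B * (A₁ + A₂))) * (1 / (2 * (A * B * (A₁ + A₂)))) :=
        mul_le_mul_of_nonneg_left hlast (by positivity)
    _ = 1 := mul_one_div_cancel (by positivity)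

end Pool.Agent.Lib.MP_d713a4_nt
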