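import Pool.Agent.Lib.MP_d713a4_nt.Xb
import Pool.Agent.Lib.MP_d713a4_nt.Xe
import Pool.Agent.Lib.MP_d713a4_nt.Ft
import Pool.Agent.Lib.MP_d713a4_nt.Sl

/-!
# LEAF Zs: the sum in `JJ`

PROOF.  `T₀ = P^(1+ε/5)`, `T = P^(1+ε/10)`, `X = P^(1+3ε)`, `κ = N - 1/2 - 3ε/200` (`≥ 3` for `N ≥ 4`), `p ∈ [P, 2P)`, `λ = X/p ∈ [P^(3ε)/2, P^(3ε)]`, so
`p^(3ε/2) ≤ λ ≤ p^(3ε)` for large `P` (`St_low` with `a = 3 ε`; `3 * ε / 200` is `a / 200`).
(1) the term `n = 1`: `‖Tf κ λ (1/X)‖ ≤ X^(-κ)` (`norm_Tf`), `‖ext (dl 1)‖ ≤ A p^σ T₀^2` (`dl_le`, `dl_cont`, `ext_poly`, `log (|t| + 2) ≤ 2 (1 + |t|)`): at most `A (2P) P^4 P^(-3) · ...`; take `N₀` so large that it is at most `1` for large `P`.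
(2) `n > 1`: `ext_main` (`8 p ≤ T` for large `P`) and `recip`: `ext (dl n) = -(T/(2√π)) log p p^(-1/2) ch p n + err`, `‖err‖ ≤ T p⁴ exp(-T²/(32 p²))`, `T²/p² ≥ P^(ε/5)/4`,
`∑ ‖Tf(n/X)‖ ≤ A (1 + X)` (`Tf_sum`): the errors are at most `1` in total for large `P`.  The main terms give `-(T/(2√π)) log p p^(-1/2) (St κ X p - Tf(1/X))`,
`‖St‖ ≥ c λ √p`, `log p ≥ 1`, `1/(2√π) ≥ 1/4`, `T p^(-1/2) ‖Tf(1/X)‖ log p ≤ 1`.
-/

set_option autoImplicit false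

namespace Pool.Agent.Lib.MP_d713a4_nt

open Complex MeasureTheory Set

private theorem Zs_ev (ε A c : ℝ) (hε : 0 < ε) (p₀ : ℕ) : ∃ P₀ : ℕ, ∀ P : ℕ, P₀ ≤ P → 1 ≤ (P : ℝ) ∧ p₀ ≤ P ∧
    3 ≤ P ∧ A ≤ P ∧ 32 / c ≤ P ∧ (4 : ℝ) ≤ (P : ℝ) ^ (3 * ε / 2) ∧ (16 : ℝ) ≤ (P : ℝ) ^ (ε / 10) ∧
    32 * A * ((P : ℝ) ^ 8 * Real.exp (-((P : ℝ) ^ (ε / 5) / 128))) ≤ 1 := by
  have hN : Filter.Tendsto (fun P : ℕ => (P : ℝ)) Filter.atTop Filter.atTop := tendsto_natCast_atTop_atTop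
  have e1 := hN.eventually_ge_atTop (1 : ℝ)
  have e2 := hN.eventually_ge_atTop A
  have e3 := hN.eventually_ge_atTop (32 / c)
  have e4 := ((tendsto_rpow_atTop (y := 3 * ε / 2) (by positivity)).comp hN).eventually_ge_atTop 4
  have e5 := ((tendsto_rpow_atTop (y := ε / 10) (by positivity)).comp hN).eventually_ge_atTop 16
  have e6 : Filter.Tendsto (fun P : ℕ => 32 * A * (((P : ℝ) ^ (ε / 5)) ^ (40 / ε) * Real.exp (-(1 / 128) * (P : ℝ) ^ (ε / 5))))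
      Filter.atTop (nhds (32 * A * 0)) :=
    ((tendsto_rpow_mul_exp_neg_mul_atTop_nhds_zero (40 / ε) (1 / 128) (by norm_num)).comp
      ((tendsto_rpow_atTop (y := ε / 5) (by positivity)).comp hN)).const_mul _
  rw [mul_zero] at e6
  have e7 := e6.eventually_le_const (zero_lt_one)
  obtain ⟨P₁, h⟩ := Filter.eventually_atTop.1 (e1.and (e2.and (e3.and (e4.and (e5.and e7)))))
  refine ⟨max P₁ (max p₀ 3), fun P hP => ?_⟩
  obtain ⟨h1, h2, h3, h4, h5, h6⟩ := h P ((le_max_left _ _).trans hP)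
  refine ⟨h1, (le_max_left p₀ 3).trans ((le_max_right _ _).trans hP), (le_max_right p₀ 3).trans ((le_max_right _ _).trans hP),
    h2, h3, h4, h5, ?_⟩
  have h7 : ((P : ℝ) ^ (ε / 5)) ^ (40 / ε) = (P : ℝ) ^ 8 := by
    rw [← Real.rpow_mul (by linarith), ← Real.rpow_natCast]
    congr 1
    field_simp
    norm_num
  rw [h7] at h6
  have h8 : -(1 / 128) * (P : ℝ) ^ (ε / 5) = -((P : ℝ) ^ (ε / 5) / 128) := by ring
  rwa [h8] at h6

private theorem Zs_one (g : GRH) (σ : ℝ) (h0 : 0 < σ) (h1 : σ < 1 / 2) : ∃ A : ℝ, 0 < A ∧ ∀ T₀ T : ℝ, 1 ≤ T → T ≤ T₀ → ∀ p : ℕ, 0 < p →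
    ‖ext σ T₀ T p (fun t => dl 1 (1 / 2 + (σ + t * I)))‖ ≤ A * (p : ℝ) ^ σ * T₀ ^ 2 := by
  obtain ⟨A₀, hA₀, h2⟩ := dl_le g σ h0 h1
  obtain ⟨A₁, hA₁, h3⟩ := ext_poly σ 1
  refine ⟨A₁ * (2 * A₀), by positivity, fun T₀ T hT hTT p hp => ?_⟩
  refine h3 T₀ T (2 * A₀) hT hTT (by positivity) p hp _ (dl_cont g σ h0 h1 1 odd_one squarefree_one).measurable ?_
  intro t
  refine ((h2 1 odd_one squarefree_one).2 t).trans ?_
  have h4 : 0 ≤ |t| := abs_nonneg t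
  have h5 : Real.log ((1 : ℕ) * (|t| + 2)) ≤ (1 : ℕ) * (|t| + 2) :=
    (Real.log_le_sub_one_of_pos (by positivity)).trans (by linarith)
  rw [Nat.cast_one, one_mul] at h5 ⊢
  rw [pow_one]
  nlinarith

private theorem Zs_core (g : GRH) (σ : ℝ) (h0 : 0 < σ) (h1 : σ < 1 / 2) (κ : ℝ) (hκ : 1 ≤ κ) : ∃ A : ℝ, 0 < A ∧ ∀ T₀ T X : ℝ, 0 < X → ∀ p : ℕ,
    p.Prime → p % 8 = 1 → 8 * p ≤ T →
    T / (2 * Real.sqrt Real.pi) * Real.log p * (p : ℝ) ^ (-(1 / 2) : ℝ) * ‖St κ X p‖ -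
      (‖ext σ T₀ T p (fun t => dl 1 (1 / 2 + (σ + t * I)))‖ + T / (2 * Real.sqrt Real.pi) * Real.log p * (p : ℝ) ^ (-(1 / 2) : ℝ)) *
        ‖Tf κ (X / p) (1 / X)‖ - T * p ^ 4 * Real.exp (-(T ^ 2 / (32 * p ^ 2))) * (A * (1 + X)) ≤
    ‖∑' n : ℕ, os n * ext σ T₀ T p (fun t => dl n (1 / 2 + (σ + t * I))) * Tf κ (X / p) (n / X)‖ := by
  obtain ⟨A, hA, h2⟩ := Tf_sum κ hκ
  refine ⟨A, hA, fun T₀ T X hX p hp h8 hT => ?_⟩
  have hp0 : (0 : ℝ) < p := by exact_mod_cast hp.pos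
  have hT0 : 0 < T := by linarith
  obtain ⟨hs, hs2⟩ := h2 (X / p) X hX
  set m : ℝ := T / (2 * Real.sqrt Real.pi) * Real.log p * (p : ℝ) ^ (-(1 / 2) : ℝ) with hm
  have hlog : 0 ≤ Real.log p := Real.log_natCast_nonneg p
  have hm0 : 0 ≤ m := by positivity
  set err : ℝ := T * p ^ 4 * Real.exp (-(T ^ 2 / (32 * p ^ 2))) with herr
  have herr0 : 0 ≤ err := by positivity
  have hos : ∀ n, ‖os n‖ ≤ 1 := by
    intro n
    unfold os
    split_ifs <;> simp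
  set W : ℕ → ℂ := fun n => Tf κ (X / p) (n / X) with hW
  set H : ℕ → ℂ := fun n => -(m : ℂ) * (os n * ch p n * W n) with hH
  set R : ℕ → ℂ := fun n => os n * (ext σ T₀ T p (fun t => dl n (1 / 2 + (σ + t * I))) + m * ch p n) * W n with hR
  have hHs : Summable H := by
    refine Summable.mul_left _ (Summable.of_norm_bounded hs fun n => ?_)
    rw [norm_mul, norm_mul]
    have h3 := hos n
    have h4 := norm_ch_le p n
    have h5 : ‖os n‖ * ‖ch p n‖ ≤ 1 := mul_le_one₀ h3 (norm_nonneg _) h4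
    exact mul_le_of_le_one_left (norm_nonneg _) h5
  set bd : ℕ → ℝ := fun n => (if n = 1 then (‖ext σ T₀ T p (fun t => dl 1 (1 / 2 + (σ + t * I)))‖ + m) * ‖W 1‖ else 0) + err * ‖W n‖ with hbd
  have hRb : ∀ n, ‖R n‖ ≤ bd n := by
    intro n
    simp only [hR, hbd]
    by_cases h3 : Odd n ∧ Squarefree n
    · by_cases h4 : n = 1
      · subst h4
        rw [if_pos rfl, norm_mul, norm_mul]
        have h5 : ‖ext σ T₀ T p (fun t => dl 1 (1 / 2 + (σ + t * I))) + m * ch p 1‖ ≤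
            ‖ext σ T₀ T p (fun t => dl 1 (1 / 2 + (σ + t * I)))‖ + m := by
          refine (norm_add_le _ _).trans (add_le_add_right ?_ _)
          rw [norm_mul, Complex.norm_real, Real.norm_of_nonneg hm0]
          exact mul_le_of_le_one_right hm0 (norm_ch_le p 1)
        have h6 : ‖os 1‖ * ‖ext σ T₀ T p (fun t => dl 1 (1 / 2 + (σ + t * I))) + m * ch p 1‖ ≤
            ‖ext σ T₀ T p (fun t => dl 1 (1 / 2 + (σ + t * I)))‖ + m :=
          (mul_le_of_le_one_left (norm_nonneg _) (hos 1)).trans h5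
        have h7 := mul_le_mul_of_nonneg_right h6 (norm_nonneg (W 1))
        have h8' : 0 ≤ err * ‖W 1‖ := by positivity
        linarith
      · have h5 : 1 < n := by
          rcases Nat.lt_or_ge 1 n with h | h
          · exact h
          · interval_cases n
            · exact absurd h3.2 not_squarefree_zero
            · exact absurd rfl h4
        rw [if_neg h4, zero_add, norm_mul, norm_mul]
        have h6 := ext_main g σ h0 h1 n h5 h3.1 h3.2 T₀ T p hp hT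
        rw [recip p n h8 h3.1] at h6
        have h7 : ‖os n‖ * ‖ext σ T₀ T p (fun t => dl n (1 / 2 + (σ + t * I))) + m * ch p n‖ ≤ err :=
          (mul_le_of_le_one_left (norm_nonneg _) (hos n)).trans h6
        exact mul_le_mul_of_nonneg_right h7 (norm_nonneg _)
    · have h4 : os n = 0 := by
        unfold os
        rw [if_neg h3]
      rw [h4, zero_mul, zero_mul, norm_zero]
      positivity
  have hbs : HasSum bd ((‖ext σ T₀ T p (fun t => dl 1 (1 / 2 + (σ + t * I)))‖ + m) * ‖W 1‖ + err * ∑' n, ‖W n‖) := by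
    refine HasSum.add ?_ (hs.hasSum.mul_left _)
    exact hasSum_ite_eq 1 _
  have hRs : Summable R := Summable.of_norm_bounded hbs.summable hRb
  have hR1 : ‖∑' n, R n‖ ≤ (‖ext σ T₀ T p (fun t => dl 1 (1 / 2 + (σ + t * I)))‖ + m) * ‖W 1‖ + err * ∑' n, ‖W n‖ :=
    tsum_of_norm_bounded hbs hRb
  have hG : ∑' n : ℕ, os n * ext σ T₀ T p (fun t => dl n (1 / 2 + (σ + t * I))) * W n = (∑' n, H n) + ∑' n, R n := by
    rw [← hHs.tsum_add hRs]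
    refine tsum_congr fun n => ?_
    simp only [hH, hR]
    ring
  have hH1 : ‖∑' n, H n‖ = m * ‖St κ X p‖ := by
    simp only [hH]
    rw [tsum_mul_left, norm_mul, norm_neg, Complex.norm_real, Real.norm_of_nonneg hm0]
    rfl
  have h9 : ‖∑' n : ℕ, os n * ext σ T₀ T p (fun t => dl n (1 / 2 + (σ + t * I))) * W n‖ ≥ ‖∑' n, H n‖ - ‖∑' n, R n‖ := by
    rw [hG]
    exact norm_sub_le_norm_add _ _
  have h10 : W 1 = Tf κ (X / p) (1 / X) := by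
    simp only [hW, Nat.cast_one]
  have h11 : err * ∑' n, ‖W n‖ ≤ err * (A * (1 + X)) := mul_le_mul_of_nonneg_left hs2 herr0
  rw [h10] at hR1
  rw [hH1] at h9
  linarith

theorem sum_low (g : GRH) (σ ε : ℝ) (h0 : 0 < σ) (h1 : σ < 1 / 4) (hε : 0 < ε) (hε1 : ε ≤ 1 / 12) :
    ∃ N₀ : ℕ, ∀ N : ℕ, N₀ ≤ N → ∃ c : ℝ, 0 < c ∧ ∃ P₀ : ℕ, ∀ P : ℕ, P₀ ≤ P → ∀ p ∈ PP P,
      c * (P : ℝ) ^ (1 + ε / 10) * (P : ℝ) ^ (3 * ε) ≤
        ‖∑' n : ℕ, os n * ext σ ((P : ℝ) ^ (1 + ε / 5)) ((P : ℝ) ^ (1 + ε / 10)) p (fun t => dl n (1 / 2 + (σ + t * I))) *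
          Tf (N - 1 / 2 - 3 * ε / 200) ((P : ℝ) ^ (1 + 3 * ε) / p) (n / (P : ℝ) ^ (1 + 3 * ε))‖ := by
  refine ⟨6, fun N hN => ?_⟩
  have hNr : (6 : ℝ) ≤ N := by exact_mod_cast hN
  have hκ5 : (5 : ℝ) ≤ N - 1 / 2 - 3 * ε / 200 := by linarith
  obtain ⟨c, hc, p₀, hS⟩ := St_low g (3 * ε) (by positivity) (by linarith) N (by omega)
  obtain ⟨A₁, hA₁, hcore⟩ := Zs_core g σ h0 (by linarith) (N - 1 / 2 - 3 * ε / 200) (by linarith)
  obtain ⟨A₂, hA₂, hone⟩ := Zs_one g σ h0 (by linarith)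
  obtain ⟨P₀, hP₀⟩ := Zs_ev ε (A₁ + (2 * A₂ + 2)) c hε p₀
  refine ⟨c / 16, by positivity, P₀, fun P hP p hp => ?_⟩
  obtain ⟨hP1, hPp, hP3, hPA, hPc, hP4, hP16, hPe⟩ := hP₀ P hP
  unfold PP at hp
  rw [Finset.mem_filter, Finset.mem_Ico] at hp
  obtain ⟨⟨hp1, hp2⟩, hpp, hp8⟩ := hp
  have hP0 : (0 : ℝ) < P := by linarith
  have hp1r : (P : ℝ) ≤ p := by exact_mod_cast hp1
  have hp2r : (p : ℝ) ≤ 2 * P := by exact_mod_cast hp2.le
  have hp0 : (0 : ℝ) < p := by linarith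
  set T₀ : ℝ := (P : ℝ) ^ (1 + ε / 5) with hT₀
  set T : ℝ := (P : ℝ) ^ (1 + ε / 10) with hT
  set X : ℝ := (P : ℝ) ^ (1 + 3 * ε) with hX
  have hTe : T = P * (P : ℝ) ^ (ε / 10) := by rw [hT, Real.rpow_add hP0, Real.rpow_one]
  have hXe : X = P * (P : ℝ) ^ (3 * ε) := by rw [hX, Real.rpow_add hP0, Real.rpow_one]
  have hT8 : 8 * (p : ℝ) ≤ T := by
    rw [hTe]
    exact (by linarith : 8 * (p : ℝ) ≤ P * 16).trans (mul_le_mul_of_nonneg_left hP16 hP0.le)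
  have hTP : (P : ℝ) ≤ T := by
    rw [hTe]
    exact le_mul_of_one_le_right hP0.le (by linarith)
  have hT1 : 1 ≤ T := hP1.trans hTP
  have hTT : T ≤ T₀ := Real.rpow_le_rpow_of_exponent_le hP1 (by linarith)
  have hT2 : T ≤ (P : ℝ) ^ 2 := by
    rw [hT, ← Real.rpow_natCast]
    exact Real.rpow_le_rpow_of_exponent_le hP1 (by push_cast; linarith)
  have hT₀2 : T₀ ^ 2 ≤ (P : ℝ) ^ 3 := by
    rw [hT₀, ← Real.rpow_natCast, ← Real.rpow_mul hP0.le, ← Real.rpow_natCast (P : ℝ) 3]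
    exact Real.rpow_le_rpow_of_exponent_le hP1 (by push_cast; linarith)
  have hX2 : X ≤ (P : ℝ) ^ 2 := by
    rw [hX, ← Real.rpow_natCast]
    exact Real.rpow_le_rpow_of_exponent_le hP1 (by push_cast; linarith)
  have hX0 : 0 < X := Real.rpow_pos_of_pos hP0 _
  have hXP : (P : ℝ) ≤ X := by
    have h3 : (P : ℝ) ^ (1 : ℝ) ≤ X := Real.rpow_le_rpow_of_exponent_le hP1 (by linarith)
    rwa [Real.rpow_one] at h3
  -- the range of `X / p`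
  have hl1 : X / p ≤ (p : ℝ) ^ (3 * ε) := by
    rw [div_le_iff₀ hp0, hXe, mul_comm]
    exact mul_le_mul (Real.rpow_le_rpow hP0.le hp1r (by positivity)) hp1r hP0.le (Real.rpow_nonneg hp0.le _)
  have hl2 : (p : ℝ) ^ (3 * ε / 2) ≤ X / p := by
    rw [le_div_iff₀ hp0, hXe]
    have h3 : (p : ℝ) ^ (3 * ε / 2) ≤ (2 * P) ^ (3 * ε / 2) := Real.rpow_le_rpow hp0.le hp2r (by positivity)
    have h4 : ((2 : ℝ) * P) ^ (3 * ε / 2) = 2 ^ (3 * ε / 2) * (P : ℝ) ^ (3 * ε / 2) := Real.mul_rpow (by norm_num) hP0.le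
    have h5 : (2 : ℝ) ^ (3 * ε / 2) ≤ 2 := by
      have h6 : (2 : ℝ) ^ (3 * ε / 2) ≤ 2 ^ (1 : ℝ) := Real.rpow_le_rpow_of_exponent_le (by norm_num) (by linarith)
      rwa [Real.rpow_one] at h6
    have h6 : (P : ℝ) ^ (3 * ε) = (P : ℝ) ^ (3 * ε / 2) * (P : ℝ) ^ (3 * ε / 2) := by
      rw [← Real.rpow_add hP0]
      congr 1
      ring
    have h7 : 0 < (P : ℝ) ^ (3 * ε / 2) := Real.rpow_pos_of_pos hP0 _
    have h8 : (p : ℝ) ^ (3 * ε / 2) ≤ 2 * (P : ℝ) ^ (3 * ε / 2) :=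
      (h3.trans h4.le).trans (mul_le_mul_of_nonneg_right h5 h7.le)
    calc (p : ℝ) ^ (3 * ε / 2) * p ≤ (2 * (P : ℝ) ^ (3 * ε / 2)) * (2 * P) :=
          mul_le_mul h8 hp2r hp0.le (by positivity)
      _ = P * (4 * (P : ℝ) ^ (3 * ε / 2)) := by ring
      _ ≤ P * (P : ℝ) ^ (3 * ε) := by
          rw [h6]
          exact mul_le_mul_of_nonneg_left (mul_le_mul_of_nonneg_right hP4 h7.le) hP0.le
  have hSt := hS p hpp hp8 (hPp.trans hp1) X hl2 hl1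
  have hC := hcore T₀ T X hX0 p hpp hp8 hT8
  have hE := hone T₀ T hT1 hTT p hpp.pos
  refine le_trans ?_ hC
  set m : ℝ := T / (2 * Real.sqrt Real.pi) * Real.log p * (p : ℝ) ^ (-(1 / 2) : ℝ) with hm
  have hlog0 : 0 ≤ Real.log p := Real.log_natCast_nonneg p
  have hlog1 : 1 ≤ Real.log p := by
    rw [Real.le_log_iff_exp_le hp0]
    have h3 : (3 : ℝ) ≤ P := by exact_mod_cast hP3
    have h4 := Real.exp_one_lt_d9
    linarith
  have hsp0 : 0 < Real.sqrt Real.pi := Real.sqrt_pos.2 Real.pi_pos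
  have hsp : Real.sqrt Real.pi ≤ 2 := by
    rw [show (2 : ℝ) = Real.sqrt (2 ^ 2) by rw [Real.sqrt_sq (by norm_num)]]
    exact Real.sqrt_le_sqrt (by have := Real.pi_lt_four; linarith)
  have hsp1 : 1 ≤ Real.sqrt Real.pi := by
    rw [show (1 : ℝ) = Real.sqrt 1 by rw [Real.sqrt_one]]
    exact Real.sqrt_le_sqrt (by have := Real.pi_gt_three; linarith)
  have hT0 : 0 < T := by linarith
  have hm0 : 0 ≤ m := by positivity
  -- main term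
  have hmain : c / 8 * T * (P : ℝ) ^ (3 * ε) ≤ m * ‖St (N - 1 / 2 - 3 * ε / 200) X p‖ := by
    have h3 : m * (c * (X / p) * Real.sqrt p) ≤ m * ‖St (N - 1 / 2 - 3 * ε / 200) X p‖ := mul_le_mul_of_nonneg_left hSt hm0
    refine le_trans ?_ h3
    have h4 : (p : ℝ) ^ (-(1 / 2) : ℝ) * Real.sqrt p = 1 := by
      rw [Real.sqrt_eq_rpow, ← Real.rpow_add hp0]
      norm_num
    have h5 : m * (c * (X / p) * Real.sqrt p) = T / (2 * Real.sqrt Real.pi) * Real.log p * (c * (X / p)) *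
        ((p : ℝ) ^ (-(1 / 2) : ℝ) * Real.sqrt p) := by
      rw [hm]
      ring
    rw [h5, h4, mul_one]
    have h6 : T / 4 ≤ T / (2 * Real.sqrt Real.pi) := div_le_div_of_nonneg_left hT0.le (by positivity) (by linarith)
    have h7 : (P : ℝ) ^ (3 * ε) / 2 ≤ X / p := by
      rw [le_div_iff₀ hp0, hXe]
      have h8 : 0 ≤ (P : ℝ) ^ (3 * ε) := Real.rpow_nonneg hP0.le _
      have h9 := mul_le_mul_of_nonneg_left hp2r (by positivity : 0 ≤ (P : ℝ) ^ (3 * ε) / 2)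
      linarith
    have h8 : 0 ≤ (P : ℝ) ^ (3 * ε) := Real.rpow_nonneg hP0.le _
    calc c / 8 * T * (P : ℝ) ^ (3 * ε) = T / 4 * 1 * (c * ((P : ℝ) ^ (3 * ε) / 2)) := by ring
      _ ≤ T / (2 * Real.sqrt Real.pi) * Real.log p * (c * (X / p)) :=
          mul_le_mul (mul_le_mul h6 hlog1 zero_le_one (by positivity)) (mul_le_mul_of_nonneg_left h7 hc.le)
            (by positivity) (by positivity)
  -- the term `n = 1`
  have hmle : m ≤ 2 * (P : ℝ) ^ 4 := by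
    have h3 : T / (2 * Real.sqrt Real.pi) ≤ T := div_le_self hT0.le (by linarith)
    have h4 : Real.log p ≤ 2 * P := ((Real.log_le_sub_one_of_pos hp0).trans (by linarith)).trans hp2r
    have h5 : (p : ℝ) ^ (-(1 / 2) : ℝ) ≤ 1 := Real.rpow_le_one_of_one_le_of_nonpos (hP1.trans hp1r) (by norm_num)
    calc m ≤ T * (2 * P) * 1 := mul_le_mul (mul_le_mul h3 h4 hlog0 hT0.le) h5 (Real.rpow_nonneg hp0.le _) (by positivity)
      _ ≤ (P : ℝ) ^ 2 * (2 * P) * 1 := by gcongr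
      _ = 2 * (P : ℝ) ^ 3 := by ring
      _ ≤ 2 * (P : ℝ) ^ 4 := by
          have := pow_le_pow_right₀ hP1 (show 3 ≤ 4 by norm_num)
          linarith
  have hEle : ‖ext σ T₀ T p (fun t => dl 1 (1 / 2 + (σ + t * I)))‖ ≤ 2 * A₂ * (P : ℝ) ^ 4 := by
    refine hE.trans ?_
    have h3 : (p : ℝ) ^ σ ≤ 2 * P := by
      have h4 : (p : ℝ) ^ σ ≤ (p : ℝ) ^ (1 : ℝ) := Real.rpow_le_rpow_of_exponent_le (hP1.trans hp1r) (by linarith)
      rw [Real.rpow_one] at h4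
      exact h4.trans hp2r
    calc A₂ * (p : ℝ) ^ σ * T₀ ^ 2 ≤ A₂ * (2 * P) * (P : ℝ) ^ 3 :=
          mul_le_mul (mul_le_mul_of_nonneg_left h3 hA₂.le) hT₀2 (by positivity) (by positivity)
      _ = 2 * A₂ * (P : ℝ) ^ 4 := by ring
  have hTf : ‖Tf (N - 1 / 2 - 3 * ε / 200) (X / p) (1 / X)‖ ≤ ((P : ℝ) ^ 5)⁻¹ := by
    rw [norm_Tf _ _ _ (by positivity)]
    have h3 : Real.exp (-(1 / X)) ≤ 1 := Real.exp_le_one_iff.2 (by
      have : 0 ≤ 1 / X := by positivity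
      linarith)
    have h4 : (1 / X) ^ ((N : ℝ) - 1 / 2 - 3 * ε / 200) ≤ (1 / X) ^ (5 : ℝ) :=
      Real.rpow_le_rpow_of_exponent_ge (by positivity) ((div_le_one hX0).2 (hP1.trans hXP)) hκ5
    have h5 : (1 / X) ^ (5 : ℝ) ≤ ((P : ℝ) ^ 5)⁻¹ := by
      rw [show (5 : ℝ) = ((5 : ℕ) : ℝ) by norm_num, Real.rpow_natCast, one_div, inv_pow]
      exact inv_anti₀ (by positivity) (pow_le_pow_left₀ hP0.le hXP 5)
    calc (1 / X) ^ ((N : ℝ) - 1 / 2 - 3 * ε / 200) * Real.exp (-(1 / X)) ≤ ((P : ℝ) ^ 5)⁻¹ * 1 :=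
          mul_le_mul (h4.trans h5) h3 (Real.exp_pos _).le (by positivity)
      _ = ((P : ℝ) ^ 5)⁻¹ := mul_one _
  have hone' : (‖ext σ T₀ T p (fun t => dl 1 (1 / 2 + (σ + t * I)))‖ + m) * ‖Tf (N - 1 / 2 - 3 * ε / 200) (X / p) (1 / X)‖ ≤ 1 := by
    calc (‖ext σ T₀ T p (fun t => dl 1 (1 / 2 + (σ + t * I)))‖ + m) * ‖Tf (N - 1 / 2 - 3 * ε / 200) (X / p) (1 / X)‖
        ≤ (2 * A₂ * (P : ℝ) ^ 4 + 2 * (P : ℝ) ^ 4) * ((P : ℝ) ^ 5)⁻¹ :=
          mul_le_mul (add_le_add hEle hmle) hTf (norm_nonneg _) (by positivity)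
      _ = (2 * A₂ + 2) / P := by
          field_simp
      _ ≤ 1 := by
          rw [div_le_one hP0]
          linarith
  -- the error terms
  have herr : T * p ^ 4 * Real.exp (-(T ^ 2 / (32 * p ^ 2))) * (A₁ * (1 + X)) ≤ 1 := by
    have h3 : (P : ℝ) ^ (ε / 5) / 128 ≤ T ^ 2 / (32 * p ^ 2) := by
      have h4 : T ^ 2 = (P : ℝ) ^ 2 * (P : ℝ) ^ (ε / 5) := by
        rw [hTe, mul_pow]
        congr 1
        rw [← Real.rpow_natCast, ← Real.rpow_mul hP0.le]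
        congr 1
        push_cast
        ring
      rw [h4, div_le_div_iff₀ (by norm_num) (by positivity)]
      have h5 : (p : ℝ) ^ 2 ≤ 4 * (P : ℝ) ^ 2 := by
        have := pow_le_pow_left₀ hp0.le hp2r 2
        linarith [show ((2 : ℝ) * P) ^ 2 = 4 * (P : ℝ) ^ 2 by ring]
      have h6 : 0 ≤ (P : ℝ) ^ (ε / 5) := Real.rpow_nonneg hP0.le _
      have h7 := mul_le_mul_of_nonneg_left h5 h6
      linarith
    have h4 : Real.exp (-(T ^ 2 / (32 * p ^ 2))) ≤ Real.exp (-((P : ℝ) ^ (ε / 5) / 128)) := Real.exp_le_exp.2 (by linarith)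
    have h5 : (p : ℝ) ^ 4 ≤ 16 * (P : ℝ) ^ 4 := by
      have := pow_le_pow_left₀ hp0.le hp2r 4
      linarith [show ((2 : ℝ) * P) ^ 4 = 16 * (P : ℝ) ^ 4 by ring]
    have h6 : 1 + X ≤ 2 * (P : ℝ) ^ 2 := by
      have := one_le_pow₀ hP1 (n := 2)
      linarith
    calc T * p ^ 4 * Real.exp (-(T ^ 2 / (32 * p ^ 2))) * (A₁ * (1 + X))
        ≤ (P : ℝ) ^ 2 * (16 * (P : ℝ) ^ 4) * Real.exp (-((P : ℝ) ^ (ε / 5) / 128)) * (A₁ * (2 * (P : ℝ) ^ 2)) := by gcongr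
      _ = 32 * A₁ * ((P : ℝ) ^ 8 * Real.exp (-((P : ℝ) ^ (ε / 5) / 128))) := by ring
      _ ≤ 32 * (A₁ + (2 * A₂ + 2)) * ((P : ℝ) ^ 8 * Real.exp (-((P : ℝ) ^ (ε / 5) / 128))) := by
          apply mul_le_mul_of_nonneg_right _ (by positivity)
          linarith
      _ ≤ 1 := hPe
  have h32 : 32 / c ≤ T * (P : ℝ) ^ (3 * ε) := by
    have h3 : 1 ≤ (P : ℝ) ^ (3 * ε) := Real.one_le_rpow hP1 (by positivity)
    exact (hPc.trans hTP).trans (le_mul_of_one_le_right hT0.le h3)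
  rw [div_le_iff₀ hc] at h32
  have h33 : c / 8 * T * (P : ℝ) ^ (3 * ε) - 1 - 1 ≤ m * ‖St (N - 1 / 2 - 3 * ε / 200) X p‖ -
      (‖ext σ T₀ T p (fun t => dl 1 (1 / 2 + (σ + t * I)))‖ + m) * ‖Tf (N - 1 / 2 - 3 * ε / 200) (X / p) (1 / X)‖ -
      T * p ^ 4 * Real.exp (-(T ^ 2 / (32 * p ^ 2))) * (A₁ * (1 + X)) := by linarith
  refine le_trans ?_ h33
  linarith

end Pool.Agent.Lib.MP_d713a4_nt
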