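import Pool.Agent.Lib.MP_d713a4_nt.Za
import Pool.Agent.Lib.MP_d713a4_nt.Zs
import Pool.Agent.Lib.MP_d713a4_nt.Zm

/-!
# LEAF Zb: the lower bound of `JJ`

PROOF.  `JJ_eq` (with `X = P^(1+3ε)`, `X/p ≥ P^(3ε)/2 ≥ 1` for large `P`), `sum_low`, `main_a`, `main_b`: `‖JJ‖ ≥ c P^(1+ε/10) P^(3ε) - 2 ≥ (c/2) P^(1+ε/10) P^(3ε)` for large `P`.
-/

set_option autoImplicit false

namespace Pool.Agent.Lib.MP_d713a4_nt

open Complex MeasureTheory Set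

theorem JJ_low (g : GRH) (σ ε : ℝ) (h0 : 0 < σ) (h1 : σ < 1 / 4) (hε : 0 < ε) (hε1 : ε ≤ 1 / 12) (a b : ℝ → ℂ) (ha : Measurable a)
    (hb : Measurable b) (k : ℕ) (B : ℝ) (hB : 0 < B) (hab : ∀ t, ‖a t‖ ≤ B * (1 + |t|) ^ k ∧ ‖b t‖ ≤ B * (1 + |t|) ^ k) :
    ∃ N₀ : ℕ, ∀ N : ℕ, N₀ ≤ N → ∃ c : ℝ, 0 < c ∧ ∃ P₀ : ℕ, ∀ P : ℕ, P₀ ≤ P → ∀ p ∈ PP P,
      c * (P : ℝ) ^ (1 + ε / 10) * (P : ℝ) ^ (3 * ε) ≤
        ‖JJ σ ((P : ℝ) ^ (1 + ε / 5)) ((P : ℝ) ^ (1 + ε / 10)) (N - 1 / 2 - 3 * ε / 200) ((P : ℝ) ^ (1 + 3 * ε)) a b p‖ := by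
  obtain ⟨N₁, hN₁⟩ := sum_low g σ ε h0 h1 hε hε1
  obtain ⟨N₂, hN₂⟩ := main_a σ ε h0 h1 hε hε1 a ha k B hB (fun t => (hab t).1)
  refine ⟨max (max N₁ N₂) 2, fun N hN => ?_⟩
  have hNa : N₁ ≤ N := (le_max_left N₁ N₂).trans ((le_max_left _ _).trans hN)
  have hNb : N₂ ≤ N := (le_max_right N₁ N₂).trans ((le_max_left _ _).trans hN)
  have hNc : (2 : ℝ) ≤ N := by exact_mod_cast (le_max_right _ _).trans hN
  have hκ : (1 : ℝ) ≤ N - 1 / 2 - 3 * ε / 200 := by linarith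
  obtain ⟨c, hc, P₁, hP₁⟩ := hN₁ N hNa
  obtain ⟨P₂, hP₂⟩ := hN₂ N hNb
  obtain ⟨P₃, hP₃⟩ := main_b σ ε (N - 1 / 2 - 3 * ε / 200) h0 h1 hε hε1 hκ b hb k B hB (fun t => (hab t).2)
  have ht : Filter.Tendsto (fun P : ℕ => (P : ℝ) ^ (3 * ε)) Filter.atTop Filter.atTop :=
    (tendsto_rpow_atTop (by positivity)).comp tendsto_natCast_atTop_atTop
  obtain ⟨P₄, hP₄⟩ := Filter.eventually_atTop.1 (ht.eventually_ge_atTop 2)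
  refine ⟨c / 2, by positivity, max (max (max P₁ P₂) (max P₃ P₄)) (max 1 ⌈4 / c⌉₊), fun P hP p hp => ?_⟩
  have hPa : P₁ ≤ P := (le_max_left P₁ P₂).trans ((le_max_left _ _).trans ((le_max_left _ _).trans hP))
  have hPb : P₂ ≤ P := (le_max_right P₁ P₂).trans ((le_max_left _ _).trans ((le_max_left _ _).trans hP))
  have hPc : P₃ ≤ P := (le_max_left P₃ P₄).trans ((le_max_right _ _).trans ((le_max_left _ _).trans hP))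
  have hPd : P₄ ≤ P := (le_max_right P₃ P₄).trans ((le_max_right _ _).trans ((le_max_left _ _).trans hP))
  have hPe : 1 ≤ P := (le_max_left 1 _).trans ((le_max_right _ _).trans hP)
  have hPf : ⌈4 / c⌉₊ ≤ P := (le_max_right 1 _).trans ((le_max_right _ _).trans hP)
  have hP1 : (1 : ℝ) ≤ P := by exact_mod_cast hPe
  have hP0 : (0 : ℝ) < P := by linarith
  have hP4 : 4 / c ≤ (P : ℝ) := Nat.ceil_le.1 hPf
  have hpm := hp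
  unfold PP at hpm
  rw [Finset.mem_filter, Finset.mem_Ico] at hpm
  obtain ⟨⟨hp1, hp2⟩, hp3, -⟩ := hpm
  have hp0 : 0 < p := hp3.pos
  have hp0' : (0 : ℝ) < p := by exact_mod_cast hp0
  have hp2' : (p : ℝ) < 2 * P := by exact_mod_cast hp2
  have hX0 : (0 : ℝ) < (P : ℝ) ^ (1 + 3 * ε) := Real.rpow_pos_of_pos hP0 _
  have hXe : (P : ℝ) ^ (1 + 3 * ε) = P * (P : ℝ) ^ (3 * ε) := by
    rw [Real.rpow_add hP0, Real.rpow_one]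
  have hl : 1 ≤ (P : ℝ) ^ (1 + 3 * ε) / p := by
    rw [le_div_iff₀ hp0', one_mul, hXe]
    have h2 := hP₄ P hPd
    nlinarith
  have hT : (0 : ℝ) < (P : ℝ) ^ (1 + ε / 10) := Real.rpow_pos_of_pos hP0 _
  have hJ := JJ_eq g σ ((P : ℝ) ^ (1 + ε / 5)) ((P : ℝ) ^ (1 + ε / 10)) (N - 1 / 2 - 3 * ε / 200)
    ((P : ℝ) ^ (1 + 3 * ε)) h0 (by linarith) hT hκ hX0 p hp0 hl a b ha hb k B hab
  have hS := hP₁ P hPa p hp
  have hA := hP₂ P hPb p hp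
  have hB' := hP₃ P hPc p hp
  rw [hJ]
  have h2 : (P : ℝ) ≤ (P : ℝ) ^ (1 + ε / 10) := by
    have h3 : (P : ℝ) ^ (1 : ℝ) ≤ (P : ℝ) ^ (1 + ε / 10) := Real.rpow_le_rpow_of_exponent_le hP1 (by linarith)
    rwa [Real.rpow_one] at h3
  have h3 : (2 : ℝ) ≤ (P : ℝ) ^ (3 * ε) := hP₄ P hPd
  have h4 : 2 ≤ c / 2 * (P : ℝ) ^ (1 + ε / 10) * (P : ℝ) ^ (3 * ε) := by
    have h5 : 2 ≤ c / 2 * (P : ℝ) := by
      rw [div_le_iff₀ hc] at hP4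
      linarith
    have h6 : 2 ≤ c / 2 * (P : ℝ) ^ (1 + ε / 10) :=
      h5.trans (mul_le_mul_of_nonneg_left h2 (by positivity))
    nlinarith
  have h5 : c * (P : ℝ) ^ (1 + ε / 10) * (P : ℝ) ^ (3 * ε) =
      c / 2 * (P : ℝ) ^ (1 + ε / 10) * (P : ℝ) ^ (3 * ε) + c / 2 * (P : ℝ) ^ (1 + ε / 10) * (P : ℝ) ^ (3 * ε) := by
    ring
  refine le_trans ?_ (norm_sub_norm_le _ _)
  refine le_trans ?_ (sub_le_sub_left hB' _)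
  refine le_trans ?_ (sub_le_sub_right (norm_sub_norm_le _ _) _)
  refine le_trans ?_ (sub_le_sub_right (sub_le_sub_left hA _) _)
  linarith

end Pool.Agent.Lib.MP_d713a4_nt
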