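import Pool.Agent.Lib.MP_d713a4_nt.Ee
import Pool.Agent.Lib.MP_d713a4_nt.Xe
import Pool.Agent.Lib.MP_d713a4_nt.Be
import Pool.Agent.Lib.MP_d713a4_nt.Fa

/-!
# LEAF Zc: the upper bound of the sum of the `|JJ|²` by the mean square of the error term

PROOF.  `E u = EE σ a b (X u)`.  `‖JJ‖ ≤ ∫ ‖ff‖ ‖ext_p (E u)‖ ≤ A₁ Λ ∫ om u ‖ext_p (E u)‖ du` (`ff_le`), Cauchy-Schwarz: `‖JJ‖² ≤ A₁² Λ² (∫ om) ∫ om u ‖ext_p (E u)‖² du`; sum over `p`, interchange (finite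
sum), `bessel` for every `u`.  Measurability of `u ↦ ext_p (E u)` and of `u ↦ ∫ ‖E u t‖² wg`: `EE_meas` and `Measurable`-`integral` lemmas
(`StronglyMeasurable.integral_prod_right`); integrability: `EE_le`, `om_int`, `ext_poly`-type bounds.
-/

set_option autoImplicit false

namespace Pool.Agent.Lib.MP_d713a4_nt

open Complex MeasureTheory Set

private theorem Zc_cs {μ : Measure ℝ} (w f : ℝ → ℝ) (hw : ∀ᵐ u ∂μ, 0 ≤ w u) (i0 : Integrable w μ)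
    (i1 : Integrable (fun u => w u * f u) μ) (i2 : Integrable (fun u => w u * f u ^ 2) μ) :
    (∫ u, w u * f u ∂μ) ^ 2 ≤ ((∫ u, w u ∂μ) + 1) * ∫ u, w u * f u ^ 2 ∂μ := by
  have hD : 0 ≤ ∫ u, w u ∂μ := integral_nonneg_of_ae hw
  set D := ∫ u, w u ∂μ with hDd
  set N := ∫ u, w u * f u ∂μ with hN
  set S := ∫ u, w u * f u ^ 2 ∂μ with hS
  have key : ∀ l : ℝ, 0 ≤ S - 2 * l * N + l ^ 2 * D := by
    intro l
    have h1 : ∫ u, (w u * f u ^ 2 - 2 * l * (w u * f u) + l ^ 2 * w u) ∂μ = S - 2 * l * N + l ^ 2 * D := by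
      have e1 : Integrable (fun u => w u * f u ^ 2 - 2 * l * (w u * f u)) μ := i2.sub (i1.const_mul (2 * l))
      rw [integral_add e1 (i0.const_mul (l ^ 2)), integral_sub i2 (i1.const_mul (2 * l)),
        integral_const_mul, integral_const_mul]
    rw [← h1]
    refine integral_nonneg_of_ae ?_
    filter_upwards [hw] with u hu
    have h2 : w u * f u ^ 2 - 2 * l * (w u * f u) + l ^ 2 * w u = w u * (f u - l) ^ 2 := by ring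
    show 0 ≤ w u * f u ^ 2 - 2 * l * (w u * f u) + l ^ 2 * w u
    rw [h2]
    exact mul_nonneg hu (sq_nonneg _)
  have h3 := key (N / (D + 1))
  have hD1 : 0 < D + 1 := by linarith
  have h4 : (S - 2 * (N / (D + 1)) * N + (N / (D + 1)) ^ 2 * D) * (D + 1) ^ 2 =
      S * (D + 1) ^ 2 - 2 * N ^ 2 * (D + 1) + N ^ 2 * D := by
    field_simp
  have h5 : 0 ≤ S * (D + 1) ^ 2 - 2 * N ^ 2 * (D + 1) + N ^ 2 * D := by
    rw [← h4]
    exact mul_nonneg h3 (sq_nonneg _)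
  have h6 : N ^ 2 * (D + 1) ≤ ((D + 1) * S) * (D + 1) := by nlinarith [sq_nonneg N]
  exact le_of_mul_le_mul_right h6 hD1

private theorem Zc_om_meas (κ : ℝ) : Measurable (om κ) := by
  unfold om
  fun_prop

private theorem Zc_wg_meas (σ T₀ T : ℝ) : Measurable (wg σ T₀ T) := by
  unfold wg
  fun_prop

private theorem Zc_om_nonneg (κ u : ℝ) (hu : 0 < u) : 0 ≤ om κ u := by
  unfold om
  positivity

private theorem Zc_wg_nonneg (σ T₀ T t : ℝ) : 0 ≤ wg σ T₀ T t := (Real.exp_pos _).le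

private theorem Zc_om_int_mul (κ : ℝ) (hκ : 1 ≤ κ) (F : ℝ → ℝ) (hF : Measurable F) (G : ℝ) (k : ℕ)
    (hb : ∀ u, 0 < u → |F u| ≤ G * (1 + u) ^ k) : IntegrableOn (fun u => om κ u * F u) (Ioi 0) := by
  have h1 : IntegrableOn (fun u => G * (om κ u * (1 + u) ^ (k : ℝ))) (Ioi 0) :=
    (om_int κ k hκ (Nat.cast_nonneg _)).const_mul G
  refine Integrable.mono' h1 ((Zc_om_meas κ).mul hF).aestronglyMeasurable ?_
  rw [ae_restrict_iff' measurableSet_Ioi]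
  refine Filter.Eventually.of_forall fun u hu => ?_
  rw [norm_mul, Real.norm_eq_abs, Real.norm_eq_abs, abs_of_nonneg (Zc_om_nonneg κ u hu), Real.rpow_natCast]
  calc om κ u * |F u| ≤ om κ u * (G * (1 + u) ^ k) :=
        mul_le_mul_of_nonneg_left (hb u hu) (Zc_om_nonneg κ u hu)
    _ = G * (om κ u * (1 + u) ^ k) := by ring

private theorem Zc_ext_meas (σ T₀ T : ℝ) (p : ℕ) (hp : 0 < p) (E : ℝ → ℝ → ℂ)
    (hE : Measurable fun z : ℝ × ℝ => E z.1 z.2) : Measurable fun u => ext σ T₀ T p (E u) := by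
  have hp' : (p : ℂ) ≠ 0 := Nat.cast_ne_zero.2 hp.ne'
  have h1 : Continuous fun t : ℝ => (p : ℂ) ^ (σ + t * I : ℂ) := by
    refine Continuous.const_cpow ?_ (Or.inl hp')
    fun_prop
  have h2 : Continuous fun t : ℝ => gau T₀ T (σ + t * I) := by
    unfold gau
    fun_prop
  have h3 : Measurable fun z : ℝ × ℝ => E z.1 z.2 * (p : ℂ) ^ (σ + z.2 * I : ℂ) * gau T₀ T (σ + z.2 * I) :=
    (hE.mul (h1.measurable.comp measurable_snd)).mul (h2.measurable.comp measurable_snd)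
  have h4 : StronglyMeasurable fun u : ℝ =>
      ∫ t : ℝ, E u t * (p : ℂ) ^ (σ + t * I : ℂ) * gau T₀ T (σ + t * I) :=
    StronglyMeasurable.integral_prod_right' (ν := volume) h3.stronglyMeasurable
  unfold ext
  exact measurable_const.mul h4.measurable

private theorem Zc_main (σ κ : ℝ) (h0 : 0 < σ) (h1 : σ < 1 / 2) (hκ : 1 ≤ κ) (A₁ : ℝ) (hA₁ : 0 < A₁)
    (hff : ∀ lam u : ℝ, 1 ≤ lam → 0 < u → ‖ff κ lam u‖ ≤ A₁ * lam * om κ u)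
    (E : ℝ → ℝ → ℂ) (hE : Measurable fun z : ℝ × ℝ => E z.1 z.2) (k : ℕ) (C : ℝ) (hC : 0 ≤ C)
    (hB : ∀ u, 0 < u → ∀ t, ‖E u t‖ ≤ C * (1 + u) ^ 2 * (1 + |t|) ^ k)
    (T₀ T X Λ : ℝ) (P : ℕ) (hP : 1 ≤ P) (hT : 1 ≤ T) (hT0 : T ≤ T₀)
    (hT2 : P * Real.exp (-(T ^ 2 / (16 * P ^ 2))) ≤ 1)
    (hX : ∀ p ∈ PP P, 1 ≤ X / p ∧ X / p ≤ Λ) :
    ∑ p ∈ PP P, (p : ℝ) ^ (-(2 * σ)) *
        ‖∫ u in Ioi (0 : ℝ), ff κ (X / p) u * ext σ T₀ T p (E u)‖ ^ 2 ≤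
      A₁ ^ 2 * ((∫ u in Ioi (0 : ℝ), om κ u) + 1) * Λ ^ 2 * T *
        ∫ u in Ioi (0 : ℝ), om κ u * ∫ t : ℝ, ‖E u t‖ ^ 2 * wg σ T₀ T t := by
  have hom : IntegrableOn (om κ) (Ioi 0) := by
    have := Zc_om_int_mul κ hκ (fun _ => 1) measurable_const 1 0 (by intro u _; simp)
    simpa using this
  have hompos : ∀ᵐ u ∂(volume.restrict (Ioi (0 : ℝ))), 0 ≤ om κ u := by
    rw [ae_restrict_iff' measurableSet_Ioi]
    exact Filter.Eventually.of_forall fun u hu => Zc_om_nonneg κ u hu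
  have hD : 0 ≤ ∫ u in Ioi (0 : ℝ), om κ u := integral_nonneg_of_ae hompos
  set D := ∫ u in Ioi (0 : ℝ), om κ u with hDd
  have hEu : ∀ u, Measurable (E u) := fun u => hE.comp measurable_prodMk_left
  obtain ⟨A₂, hA₂, hA₂'⟩ := ext_poly σ k
  obtain ⟨A₄, hA₄, hA₄'⟩ := wg_mom σ (2 * k)
  have hT₀ : 0 < T₀ := by linarith
  have hpp : ∀ p ∈ PP P, 0 < p := by
    intro p hp
    unfold PP at hp
    exact (Finset.mem_filter.1 hp).2.1.pos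
  have hfm : ∀ p ∈ PP P, Measurable fun u => ‖ext σ T₀ T p (E u)‖ := fun p hp =>
    (Zc_ext_meas σ T₀ T p (hpp p hp) E hE).norm
  have hfb : ∀ p ∈ PP P, ∀ u, 0 < u →
      ‖ext σ T₀ T p (E u)‖ ≤ A₂ * C * (p : ℝ) ^ σ * T₀ ^ (k + 1) * (1 + u) ^ 2 := by
    intro p hp u hu
    have := hA₂' T₀ T (C * (1 + u) ^ 2) hT hT0 (by positivity) p (hpp p hp) (E u) (hEu u) (hB u hu)
    refine this.trans (le_of_eq ?_)
    ring
  -- the integrability statements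
  have i1 : ∀ p ∈ PP P, IntegrableOn (fun u => om κ u * ‖ext σ T₀ T p (E u)‖) (Ioi 0) := by
    intro p hp
    refine Zc_om_int_mul κ hκ _ (hfm p hp) (A₂ * C * (p : ℝ) ^ σ * T₀ ^ (k + 1)) 2 ?_
    intro u hu
    rw [abs_of_nonneg (norm_nonneg _)]
    exact hfb p hp u hu
  have i2 : ∀ p ∈ PP P, IntegrableOn (fun u => om κ u * ‖ext σ T₀ T p (E u)‖ ^ 2) (Ioi 0) := by
    intro p hp
    refine Zc_om_int_mul κ hκ _ ((hfm p hp).pow_const 2) ((A₂ * C * (p : ℝ) ^ σ * T₀ ^ (k + 1)) ^ 2) 4 ?_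
    intro u hu
    rw [abs_of_nonneg (sq_nonneg _)]
    calc ‖ext σ T₀ T p (E u)‖ ^ 2 ≤ (A₂ * C * (p : ℝ) ^ σ * T₀ ^ (k + 1) * (1 + u) ^ 2) ^ 2 :=
          pow_le_pow_left₀ (norm_nonneg _) (hfb p hp u hu) 2
      _ = (A₂ * C * (p : ℝ) ^ σ * T₀ ^ (k + 1)) ^ 2 * (1 + u) ^ 4 := by ring
  have hEwb : ∀ u, 0 < u → ∀ t, ‖E u t‖ ^ 2 * wg σ T₀ T t ≤
      (C * (1 + u) ^ 2) ^ 2 * ((1 + |t|) ^ (2 * k) * wg σ T₀ T t) := by
    intro u hu t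
    have h2 : ‖E u t‖ ^ 2 ≤ (C * (1 + u) ^ 2 * (1 + |t|) ^ k) ^ 2 :=
      pow_le_pow_left₀ (norm_nonneg _) (hB u hu t) 2
    calc ‖E u t‖ ^ 2 * wg σ T₀ T t ≤ (C * (1 + u) ^ 2 * (1 + |t|) ^ k) ^ 2 * wg σ T₀ T t :=
          mul_le_mul_of_nonneg_right h2 (Zc_wg_nonneg _ _ _ _)
      _ = (C * (1 + u) ^ 2) ^ 2 * ((1 + |t|) ^ (2 * k) * wg σ T₀ T t) := by ring
  have hEw : ∀ u, 0 < u → Integrable fun t => ‖E u t‖ ^ 2 * wg σ T₀ T t := by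
    intro u hu
    refine Integrable.mono' (((hA₄' T₀ T hT hT0).1).const_mul ((C * (1 + u) ^ 2) ^ 2)) ?_ ?_
    · exact (((hEu u).norm.pow_const 2).mul (Zc_wg_meas σ T₀ T)).aestronglyMeasurable
    · refine Filter.Eventually.of_forall fun t => ?_
      rw [Real.norm_of_nonneg (mul_nonneg (sq_nonneg _) (Zc_wg_nonneg _ _ _ _))]
      exact hEwb u hu t
  have hint_nonneg : ∀ u, 0 ≤ ∫ t : ℝ, ‖E u t‖ ^ 2 * wg σ T₀ T t := fun u =>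
    integral_nonneg fun t => mul_nonneg (sq_nonneg _) (Zc_wg_nonneg _ _ _ _)
  have hmI : Measurable fun u => ∫ t : ℝ, ‖E u t‖ ^ 2 * wg σ T₀ T t := by
    have h3 : Measurable fun z : ℝ × ℝ => ‖E z.1 z.2‖ ^ 2 * wg σ T₀ T z.2 :=
      (hE.norm.pow_const 2).mul ((Zc_wg_meas σ T₀ T).comp measurable_snd)
    exact (StronglyMeasurable.integral_prod_right' (ν := volume) h3.stronglyMeasurable).measurable
  have iE : IntegrableOn (fun u => om κ u * ∫ t : ℝ, ‖E u t‖ ^ 2 * wg σ T₀ T t) (Ioi 0) := by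
    refine Zc_om_int_mul κ hκ _ hmI (C ^ 2 * (A₄ * T₀ ^ (2 * k + 1))) 4 ?_
    intro u hu
    rw [abs_of_nonneg (hint_nonneg u)]
    calc ∫ t : ℝ, ‖E u t‖ ^ 2 * wg σ T₀ T t
        ≤ ∫ t : ℝ, (C * (1 + u) ^ 2) ^ 2 * ((1 + |t|) ^ (2 * k) * wg σ T₀ T t) :=
          integral_mono (hEw u hu) (((hA₄' T₀ T hT hT0).1).const_mul _) (hEwb u hu)
      _ = (C * (1 + u) ^ 2) ^ 2 * ∫ t : ℝ, (1 + |t|) ^ (2 * k) * wg σ T₀ T t := integral_const_mul _ _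
      _ ≤ (C * (1 + u) ^ 2) ^ 2 * (A₄ * T₀ ^ (2 * k + 1)) :=
          mul_le_mul_of_nonneg_left (hA₄' T₀ T hT hT0).2 (sq_nonneg _)
      _ = C ^ 2 * (A₄ * T₀ ^ (2 * k + 1)) * (1 + u) ^ 4 := by ring
  -- one prime
  have hone : ∀ p ∈ PP P, (p : ℝ) ^ (-(2 * σ)) *
        ‖∫ u in Ioi (0 : ℝ), ff κ (X / p) u * ext σ T₀ T p (E u)‖ ^ 2 ≤
      A₁ ^ 2 * (D + 1) * Λ ^ 2 * ∫ u in Ioi (0 : ℝ), (p : ℝ) ^ (-(2 * σ)) * (om κ u * ‖ext σ T₀ T p (E u)‖ ^ 2) := by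
    intro p hp
    obtain ⟨hX1, hX2⟩ := hX p hp
    have hΛ : 1 ≤ Λ := hX1.trans hX2
    have h2 : ‖∫ u in Ioi (0 : ℝ), ff κ (X / p) u * ext σ T₀ T p (E u)‖ ≤
        (A₁ * Λ) * ∫ u in Ioi (0 : ℝ), om κ u * ‖ext σ T₀ T p (E u)‖ := by
      refine (norm_integral_le_integral_norm _).trans ?_
      rw [← integral_const_mul]
      refine integral_mono_of_nonneg (Filter.Eventually.of_forall fun u => norm_nonneg _)
        ((i1 p hp).const_mul _) ?_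
      rw [Filter.EventuallyLE, ae_restrict_iff' measurableSet_Ioi]
      refine Filter.Eventually.of_forall fun u hu => ?_
      rw [norm_mul]
      have hu' : 0 < u := hu
      calc ‖ff κ (X / p) u‖ * ‖ext σ T₀ T p (E u)‖
          ≤ (A₁ * (X / p) * om κ u) * ‖ext σ T₀ T p (E u)‖ :=
            mul_le_mul_of_nonneg_right (hff _ _ hX1 hu') (norm_nonneg _)
        _ ≤ (A₁ * Λ * om κ u) * ‖ext σ T₀ T p (E u)‖ := by
            refine mul_le_mul_of_nonneg_right ?_ (norm_nonneg _)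
            refine mul_le_mul_of_nonneg_right ?_ (Zc_om_nonneg κ u hu')
            exact mul_le_mul_of_nonneg_left hX2 hA₁.le
        _ = A₁ * Λ * (om κ u * ‖ext σ T₀ T p (E u)‖) := by ring
    have h3 := Zc_cs (μ := volume.restrict (Ioi (0 : ℝ))) (om κ) (fun u => ‖ext σ T₀ T p (E u)‖)
      hompos hom (i1 p hp) (i2 p hp)
    rw [integral_const_mul]
    have hp0 : 0 ≤ (p : ℝ) ^ (-(2 * σ)) := Real.rpow_nonneg (Nat.cast_nonneg _) _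
    calc (p : ℝ) ^ (-(2 * σ)) * ‖∫ u in Ioi (0 : ℝ), ff κ (X / p) u * ext σ T₀ T p (E u)‖ ^ 2
        ≤ (p : ℝ) ^ (-(2 * σ)) * ((A₁ * Λ) * ∫ u in Ioi (0 : ℝ), om κ u * ‖ext σ T₀ T p (E u)‖) ^ 2 :=
          mul_le_mul_of_nonneg_left (pow_le_pow_left₀ (norm_nonneg _) h2 2) hp0
      _ = (p : ℝ) ^ (-(2 * σ)) * ((A₁ * Λ) ^ 2 * (∫ u in Ioi (0 : ℝ), om κ u * ‖ext σ T₀ T p (E u)‖) ^ 2) := by
          rw [mul_pow]
      _ ≤ (p : ℝ) ^ (-(2 * σ)) * ((A₁ * Λ) ^ 2 * ((D + 1) *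
            ∫ u in Ioi (0 : ℝ), om κ u * ‖ext σ T₀ T p (E u)‖ ^ 2)) :=
          mul_le_mul_of_nonneg_left (mul_le_mul_of_nonneg_left h3 (sq_nonneg _)) hp0
      _ = A₁ ^ 2 * (D + 1) * Λ ^ 2 *
            ((p : ℝ) ^ (-(2 * σ)) * ∫ u in Ioi (0 : ℝ), om κ u * ‖ext σ T₀ T p (E u)‖ ^ 2) := by ring
  refine (Finset.sum_le_sum hone).trans ?_
  rw [← Finset.mul_sum, ← integral_finsetSum _ (fun p hp => (i2 p hp).const_mul _),
    mul_assoc (A₁ ^ 2 * (D + 1) * Λ ^ 2) T]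
  have hK : 0 ≤ A₁ ^ 2 * (D + 1) * Λ ^ 2 := by positivity
  refine mul_le_mul_of_nonneg_left ?_ hK
  rw [← integral_const_mul]
  refine integral_mono_of_nonneg ?_ (iE.const_mul T) ?_
  · rw [Filter.EventuallyLE, ae_restrict_iff' measurableSet_Ioi]
    refine Filter.Eventually.of_forall fun u hu => ?_
    refine Finset.sum_nonneg fun p _ => ?_
    exact mul_nonneg (Real.rpow_nonneg (Nat.cast_nonneg _) _)
      (mul_nonneg (Zc_om_nonneg κ u hu) (sq_nonneg _))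
  · rw [Filter.EventuallyLE, ae_restrict_iff' measurableSet_Ioi]
    refine Filter.Eventually.of_forall fun u hu => ?_
    have hb := bessel σ T₀ T h0 (by linarith) P hP hT hT2 (E u) (hEu u) (hEw u hu)
    show ∑ p ∈ PP P, (p : ℝ) ^ (-(2 * σ)) * (om κ u * ‖ext σ T₀ T p (E u)‖ ^ 2) ≤
      T * (om κ u * ∫ t : ℝ, ‖E u t‖ ^ 2 * wg σ T₀ T t)
    calc ∑ p ∈ PP P, (p : ℝ) ^ (-(2 * σ)) * (om κ u * ‖ext σ T₀ T p (E u)‖ ^ 2)
        = om κ u * ∑ p ∈ PP P, (p : ℝ) ^ (-(2 * σ)) * ‖ext σ T₀ T p (E u)‖ ^ 2 := by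
          rw [Finset.mul_sum]
          exact Finset.sum_congr rfl fun p _ => by ring
      _ ≤ om κ u * (T * ∫ t : ℝ, ‖E u t‖ ^ 2 * wg σ T₀ T t) :=
          mul_le_mul_of_nonneg_left hb (Zc_om_nonneg κ u hu)
      _ = T * (om κ u * ∫ t : ℝ, ‖E u t‖ ^ 2 * wg σ T₀ T t) := by ring

theorem JJ_cs (g : GRH) (σ κ : ℝ) (h0 : 0 < σ) (h1 : σ < 1 / 2) (hκ : 1 ≤ κ) : ∃ A : ℝ, 0 < A ∧ ∀ (a b : ℝ → ℂ), Measurable a →
    Measurable b → ∀ (k : ℕ) (B : ℝ), (∀ t, ‖a t‖ ≤ B * (1 + |t|) ^ k ∧ ‖b t‖ ≤ B * (1 + |t|) ^ k) →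
    ∀ (T₀ T X Λ : ℝ) (P : ℕ), 1 ≤ P → 1 ≤ T → T ≤ T₀ → P * Real.exp (-(T ^ 2 / (16 * P ^ 2))) ≤ 1 → 0 < X →
    (∀ p ∈ PP P, 1 ≤ X / p ∧ X / p ≤ Λ) →
    ∑ p ∈ PP P, (p : ℝ) ^ (-(2 * σ)) * ‖JJ σ T₀ T κ X a b p‖ ^ 2 ≤
      A * Λ ^ 2 * T * ∫ u in Ioi (0 : ℝ), om κ u * ∫ t : ℝ, ‖EE σ a b (X * u) t‖ ^ 2 * wg σ T₀ T t := by
  obtain ⟨A₁, hA₁, hff⟩ := ff_le κ hκ
  have hD : 0 ≤ ∫ u in Ioi (0 : ℝ), om κ u := by
    refine integral_nonneg_of_ae ?_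
    rw [Filter.EventuallyLE, ae_restrict_iff' measurableSet_Ioi]
    exact Filter.Eventually.of_forall fun u hu => Zc_om_nonneg κ u hu
  refine ⟨A₁ ^ 2 * ((∫ u in Ioi (0 : ℝ), om κ u) + 1), by positivity, ?_⟩
  intro a b ha hb k B hab T₀ T X Λ P hP hT hT0 hT2 hX0 hX
  obtain ⟨A₃, hA₃, hA₃'⟩ := EE_le g σ h0 h1 a b k B hab
  have hm : Measurable fun z : ℝ × ℝ => EE σ a b (X * z.1) z.2 := by
    have h2 : Measurable fun z : ℝ × ℝ => ((X * z.1, z.2) : ℝ × ℝ) :=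
      (measurable_fst.const_mul X).prodMk measurable_snd
    have h3 := (EE_meas g σ h0 h1 a b ha hb).comp h2
    exact h3
  have hbd : ∀ u, 0 < u → ∀ t, ‖EE σ a b (X * u) t‖ ≤ A₃ * (1 + X) ^ 2 * (1 + u) ^ 2 * (1 + |t|) ^ (k + 1) := by
    intro u hu t
    refine (hA₃' (X * u) t (by positivity)).trans ?_
    refine mul_le_mul_of_nonneg_right ?_ (by positivity)
    rw [mul_assoc A₃ ((1 + X) ^ 2), ← mul_pow]
    refine mul_le_mul_of_nonneg_left ?_ hA₃.le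
    refine pow_le_pow_left₀ (by positivity) ?_ 2
    nlinarith
  have h4 := Zc_main σ κ h0 h1 hκ A₁ hA₁ hff (fun u t => EE σ a b (X * u) t) hm (k + 1)
    (A₃ * (1 + X) ^ 2) (by positivity) hbd T₀ T X Λ P hP hT hT0 hT2 hX
  exact h4

end Pool.Agent.Lib.MP_d713a4_nt
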