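import Pool.Agent.Lib.MP_d713a4_nt.Ee
import Pool.Agent.Lib.MP_d713a4_nt.Xm
import Pool.Agent.Lib.MP_d713a4_nt.Xg
import Pool.Agent.Lib.MP_d713a4_nt.Fa

/-!
# LEAF Zg: the mean square of the error term under the assumption

PROOF.  `T₀ = P^(1+ε/5)`, `T = P^(1+ε/10)`, `X = P^(1+3ε)`, `κ = N - 1/2 - 3ε/200`; `G x = ∫ ‖EE x t‖² wg dt`.  `EE_le`: `‖EE‖ ≤ A (1+x)² (1+|t|)^(k+1)`.
(1) always `G x ≤ A² (1+x)⁴ A' T₀^(2k+3)` (`wg_mom`).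
(2) `x ≥ X^(1-ε/10)` (so `x ≥ X₀`, `x ≥ 1` for large `P`): if `|t - T₀| < T₀/2` then `|t| ≤ 3 T₀/2 ≤ x^(1-ε)` (`(1+3ε)(1-ε/10)(1-ε) > 1 + ε/5` for `0 < ε ≤ 1/12`), so
`‖EE‖ ≤ C x^θ` there (if there is such a `t` then `C ≥ 0`); elsewhere `wg_tail` with `exp(-T₀²/(8T²)) = exp(-P^(ε/5)/8)`:
`G x ≤ C² x^(2θ) 6 T + A² (1+x)⁴ A' T₀^(2k+3) exp(-P^(ε/5)/8)`.
Integrate against `om`: `∫ om(u) (X u)^(2θ) du ≤ X^(2θ) ∫ om(u)(1+u)`; `u < X^(-ε/10)`: `om u ≤ 2 u^(κ-1)`, `∫ ≤ 2 X^(-ε κ/10)`, times (1) at most `1` if `κ` is large (`N ≥ N₀`); the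
other part is at most `1` for large `P`.
-/

set_option autoImplicit false

namespace Pool.Agent.Lib.MP_d713a4_nt

open Complex MeasureTheory Set

private theorem Zg_wg_nonneg (σ T₀ T t : ℝ) : 0 ≤ wg σ T₀ T t := (Real.exp_pos _).le

private theorem Zg_sq {E A x t : ℝ} {k : ℕ} (hE0 : 0 ≤ E) (hE : E ≤ A * (1 + x) ^ 2 * (1 + |t|) ^ (k + 1)) :
    E ^ 2 ≤ A ^ 2 * (1 + x) ^ 4 * (1 + |t|) ^ (2 * (k + 1)) := by
  have h := pow_le_pow_left₀ hE0 hE 2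
  have e : (A * (1 + x) ^ 2 * (1 + |t|) ^ (k + 1)) ^ 2 = A ^ 2 * (1 + x) ^ 4 * (1 + |t|) ^ (2 * (k + 1)) := by
    ring
  rwa [e] at h

/-- the trivial bound -/
private theorem Zg_G1 {σ : ℝ} {a b : ℝ → ℂ} {k : ℕ} {A A' : ℝ}
    (hE : ∀ x t : ℝ, 0 ≤ x → ‖EE σ a b x t‖ ≤ A * (1 + x) ^ 2 * (1 + |t|) ^ (k + 1))
    (hW : ∀ T₀ T : ℝ, 1 ≤ T → T ≤ T₀ → Integrable (fun t => (1 + |t|) ^ (2 * (k + 1)) * wg σ T₀ T t) ∧
      ∫ t : ℝ, (1 + |t|) ^ (2 * (k + 1)) * wg σ T₀ T t ≤ A' * T₀ ^ (2 * (k + 1) + 1))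
    {x T₀ T : ℝ} (hx : 0 ≤ x) (hT : 1 ≤ T) (hTT : T ≤ T₀) :
    ∫ t : ℝ, ‖EE σ a b x t‖ ^ 2 * wg σ T₀ T t ≤ A ^ 2 * (1 + x) ^ 4 * (A' * T₀ ^ (2 * (k + 1) + 1)) := by
  obtain ⟨hi, hm⟩ := hW T₀ T hT hTT
  have h1 : ∫ t : ℝ, ‖EE σ a b x t‖ ^ 2 * wg σ T₀ T t ≤
      ∫ t : ℝ, A ^ 2 * (1 + x) ^ 4 * ((1 + |t|) ^ (2 * (k + 1)) * wg σ T₀ T t) := by
    refine integral_mono_of_nonneg (Filter.Eventually.of_forall fun t => ?_) (hi.const_mul _)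
      (Filter.Eventually.of_forall fun t => ?_)
    · exact mul_nonneg (sq_nonneg _) (Zg_wg_nonneg _ _ _ _)
    · have h2 := mul_le_mul_of_nonneg_right (Zg_sq (norm_nonneg _) (hE x t hx)) (Zg_wg_nonneg σ T₀ T t)
      calc ‖EE σ a b x t‖ ^ 2 * wg σ T₀ T t ≤ _ := h2
        _ = A ^ 2 * (1 + x) ^ 4 * ((1 + |t|) ^ (2 * (k + 1)) * wg σ T₀ T t) := by ring
  rw [integral_const_mul] at h1
  exact h1.trans (mul_le_mul_of_nonneg_left hm (by positivity))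

/-- the bound under the assumption -/
private theorem Zg_G2 {σ : ℝ} {a b : ℝ → ℂ} {k : ℕ} {A A' A'' D W : ℝ}
    (hE : ∀ x t : ℝ, 0 ≤ x → ‖EE σ a b x t‖ ≤ A * (1 + x) ^ 2 * (1 + |t|) ^ (k + 1))
    (hW : ∀ T₀ T : ℝ, 1 ≤ T → T ≤ T₀ → Integrable (fun t => (1 + |t|) ^ (2 * (k + 1)) * wg σ T₀ T t) ∧
      ∫ t : ℝ, (1 + |t|) ^ (2 * (k + 1)) * wg σ T₀ T t ≤ A' * T₀ ^ (2 * (k + 1) + 1))
    (hV : ∀ T₀ T : ℝ, 1 ≤ T → T ≤ T₀ →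
      ∫ t in {t : ℝ | T₀ / 2 ≤ |t - T₀|}, (1 + |t|) ^ (2 * (k + 1)) * wg σ T₀ T t ≤
        A'' * T₀ ^ (2 * (k + 1) + 1) * Real.exp (-(T₀ ^ 2 / (8 * T ^ 2))))
    {x T₀ T : ℝ} (hx : 0 ≤ x) (hT : 1 ≤ T) (hTT : T ≤ T₀)
    (hD : ∀ t : ℝ, |t - T₀| < T₀ / 2 → ‖EE σ a b x t‖ ^ 2 ≤ D) (hD0 : 0 ≤ D)
    (hI : Integrable (wg σ T₀ T)) (hIW : ∫ t : ℝ, wg σ T₀ T t ≤ W) :
    ∫ t : ℝ, ‖EE σ a b x t‖ ^ 2 * wg σ T₀ T t ≤ D * W +
      A ^ 2 * (1 + x) ^ 4 * (A'' * T₀ ^ (2 * (k + 1) + 1) * Real.exp (-(T₀ ^ 2 / (8 * T ^ 2)))) := by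
  obtain ⟨hi, -⟩ := hW T₀ T hT hTT
  have hS : MeasurableSet {t : ℝ | T₀ / 2 ≤ |t - T₀|} :=
    (isClosed_le continuous_const (by fun_prop)).measurableSet
  have h1 : ∫ t : ℝ, ‖EE σ a b x t‖ ^ 2 * wg σ T₀ T t ≤
      ∫ t : ℝ, (D * wg σ T₀ T t + {t : ℝ | T₀ / 2 ≤ |t - T₀|}.indicator
        (fun t => A ^ 2 * (1 + x) ^ 4 * ((1 + |t|) ^ (2 * (k + 1)) * wg σ T₀ T t)) t) := by
    refine integral_mono_of_nonneg (Filter.Eventually.of_forall fun t => ?_)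
      ((hI.const_mul _).add ((hi.const_mul _).indicator hS)) (Filter.Eventually.of_forall fun t => ?_)
    · exact mul_nonneg (sq_nonneg _) (Zg_wg_nonneg _ _ _ _)
    · have hw := Zg_wg_nonneg σ T₀ T t
      by_cases ht : T₀ / 2 ≤ |t - T₀|
      · have h2 := mul_le_mul_of_nonneg_right (Zg_sq (norm_nonneg _) (hE x t hx)) hw
        have h3 : {t : ℝ | T₀ / 2 ≤ |t - T₀|}.indicator
            (fun t => A ^ 2 * (1 + x) ^ 4 * ((1 + |t|) ^ (2 * (k + 1)) * wg σ T₀ T t)) t =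
            A ^ 2 * (1 + x) ^ 4 * ((1 + |t|) ^ (2 * (k + 1)) * wg σ T₀ T t) :=
          indicator_of_mem (show t ∈ {t : ℝ | T₀ / 2 ≤ |t - T₀|} from ht) _
        refine le_trans ?_ (le_of_eq (congrArg (fun y => D * wg σ T₀ T t + y) h3.symm))
        have h4 := mul_nonneg hD0 hw
        calc ‖EE σ a b x t‖ ^ 2 * wg σ T₀ T t ≤ _ := h2
          _ = A ^ 2 * (1 + x) ^ 4 * ((1 + |t|) ^ (2 * (k + 1)) * wg σ T₀ T t) := by ring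
          _ ≤ D * wg σ T₀ T t + A ^ 2 * (1 + x) ^ 4 * ((1 + |t|) ^ (2 * (k + 1)) * wg σ T₀ T t) := by linarith
      · have h3 : {t : ℝ | T₀ / 2 ≤ |t - T₀|}.indicator
            (fun t => A ^ 2 * (1 + x) ^ 4 * ((1 + |t|) ^ (2 * (k + 1)) * wg σ T₀ T t)) t = 0 :=
          indicator_of_notMem (show t ∉ {t : ℝ | T₀ / 2 ≤ |t - T₀|} from ht) _
        refine le_trans ?_ (le_of_eq (congrArg (fun y => D * wg σ T₀ T t + y) h3.symm))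
        exact (mul_le_mul_of_nonneg_right (hD t (not_le.1 ht)) hw).trans (le_of_eq (add_zero _).symm)
  rw [integral_add (hI.const_mul _) ((hi.const_mul _).indicator hS), integral_const_mul,
    integral_indicator hS, integral_const_mul] at h1
  refine h1.trans (add_le_add (mul_le_mul_of_nonneg_left hIW hD0) ?_)
  exact mul_le_mul_of_nonneg_left (hV T₀ T hT hTT) (by positivity)

private theorem Zg_om_nonneg (κ : ℝ) {u : ℝ} (hu : 0 < u) : 0 ≤ om κ u := by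
  unfold om
  positivity

private theorem Zg_om_small {κ u u₁ : ℝ} (hκ : 1 ≤ κ) (hu : 0 < u) (h1 : u < u₁) (h2 : u₁ ≤ 1) :
    om κ u ≤ 2 * u₁ ^ (κ - 1) := by
  unfold om
  have h3 : u ^ κ ≤ u ^ (κ - 1) := Real.rpow_le_rpow_of_exponent_ge hu (by linarith) (by linarith)
  have h4 : u ^ (κ - 1) ≤ u₁ ^ (κ - 1) := Real.rpow_le_rpow hu.le h1.le (by linarith)
  have h5 : Real.exp (-u) ≤ 1 := Real.exp_le_one_iff.2 (by linarith)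
  have h6 : 0 ≤ u ^ κ := (Real.rpow_pos_of_pos hu _).le
  have h7 : 0 ≤ u ^ (κ - 1) := (Real.rpow_pos_of_pos hu _).le
  calc (u ^ κ + u ^ (κ - 1)) * Real.exp (-u) ≤ (u ^ κ + u ^ (κ - 1)) * 1 :=
        mul_le_mul_of_nonneg_left h5 (by linarith)
    _ ≤ 2 * u₁ ^ (κ - 1) := by linarith

/-- integration over `u` -/
private theorem Zg_int {κ c₁ c₂ c₃ : ℝ} (hκ : 1 ≤ κ) {G : ℝ → ℝ} (hG0 : ∀ u, 0 < u → 0 ≤ G u)
    (hc₁ : 0 ≤ c₁) (hc₂ : 0 ≤ c₂) (hc₃ : 0 ≤ c₃)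
    (hG : ∀ u, 0 < u → om κ u * G u ≤ c₁ * (om κ u * (1 + u) ^ (1 : ℝ)) +
      (c₂ * (Ioo (0 : ℝ) 1).indicator (fun _ => (1 : ℝ)) u + c₃ * (om κ u * (1 + u) ^ (4 : ℝ)))) :
    ∫ u in Ioi (0 : ℝ), om κ u * G u ≤ c₁ * (∫ u in Ioi (0 : ℝ), om κ u * (1 + u) ^ (1 : ℝ)) +
      (c₂ + c₃ * ∫ u in Ioi (0 : ℝ), om κ u * (1 + u) ^ (4 : ℝ)) := by
  have i1 := om_int κ 1 hκ (by norm_num)
  have i4 := om_int κ 4 hκ (by norm_num)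
  have i2 : IntegrableOn (fun u => (Ioo (0 : ℝ) 1).indicator (fun _ => (1 : ℝ)) u) (Ioi 0) := by
    have h : Integrable ((Ioo (0 : ℝ) 1).indicator (fun _ => (1 : ℝ))) := by
      rw [integrable_indicator_iff measurableSet_Ioo]
      exact integrableOn_const (by rw [Real.volume_Ioo]; exact ENNReal.ofReal_ne_top)
    exact h.integrableOn
  have v2 : ∫ u in Ioi (0 : ℝ), (Ioo (0 : ℝ) 1).indicator (fun _ => (1 : ℝ)) u = 1 := by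
    rw [setIntegral_indicator measurableSet_Ioo]
    have h : Ioi (0 : ℝ) ∩ Ioo 0 1 = Ioo 0 1 := inter_eq_right.2 fun x hx => hx.1
    rw [h, setIntegral_const, smul_eq_mul, mul_one, Measure.real, Real.volume_Ioo]
    rw [sub_zero, ENNReal.toReal_ofReal zero_le_one]
  have i24 : IntegrableOn (fun u => c₂ * (Ioo (0 : ℝ) 1).indicator (fun _ => (1 : ℝ)) u +
      c₃ * (om κ u * (1 + u) ^ (4 : ℝ))) (Ioi 0) := (i2.const_mul _).add (i4.const_mul _)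
  have h1 : ∫ u in Ioi (0 : ℝ), om κ u * G u ≤ ∫ u in Ioi (0 : ℝ), (c₁ * (om κ u * (1 + u) ^ (1 : ℝ)) +
      (c₂ * (Ioo (0 : ℝ) 1).indicator (fun _ => (1 : ℝ)) u + c₃ * (om κ u * (1 + u) ^ (4 : ℝ)))) := by
    refine integral_mono_of_nonneg ?_ ((i1.const_mul _).add i24) ?_
    · exact ae_restrict_of_forall_mem measurableSet_Ioi fun u hu =>
        mul_nonneg (Zg_om_nonneg κ hu) (hG0 u hu)
    · exact ae_restrict_of_forall_mem measurableSet_Ioi fun u hu => hG u hu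
  rw [integral_add (i1.const_mul _) i24, integral_const_mul,
    integral_add (i2.const_mul _) (i4.const_mul _), integral_const_mul, integral_const_mul, v2, mul_one] at h1
  exact h1

/-- the powers of `P` -/
private theorem Zg_P {ε : ℝ} (hε : 0 < ε) (hε1 : ε ≤ 1 / 12) {P : ℝ} (hP : 1 ≤ P) (k : ℕ) :
    1 ≤ P ^ (1 + ε / 10) ∧ P ^ (1 + ε / 10) ≤ P ^ (1 + ε / 5) ∧ 1 ≤ P ^ (1 + 3 * ε) ∧
    (P ^ (1 + ε / 5)) ^ (2 * (k + 1) + 1) * (P ^ (1 + 3 * ε)) ^ 4 ≤ P ^ ((4 * k + 14 : ℕ) : ℝ) ∧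
    (P ^ (1 + ε / 5)) ^ 2 / (8 * (P ^ (1 + ε / 10)) ^ 2) = 1 / 8 * P ^ (ε / 5) := by
  have hP0 : 0 < P := by linarith
  refine ⟨Real.one_le_rpow hP (by positivity), Real.rpow_le_rpow_of_exponent_le hP (by linarith),
    Real.one_le_rpow hP (by positivity), ?_, ?_⟩
  · have h1 : P ^ (1 + ε / 5) ≤ P ^ 2 := by
      rw [← Real.rpow_natCast]
      exact Real.rpow_le_rpow_of_exponent_le hP (by push_cast; linarith)
    have h2 : P ^ (1 + 3 * ε) ≤ P ^ 2 := by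
      rw [← Real.rpow_natCast]
      exact Real.rpow_le_rpow_of_exponent_le hP (by push_cast; linarith)
    have h3 := pow_le_pow_left₀ (Real.rpow_pos_of_pos hP0 _).le h1 (2 * (k + 1) + 1)
    have h4 := pow_le_pow_left₀ (Real.rpow_pos_of_pos hP0 _).le h2 4
    calc (P ^ (1 + ε / 5)) ^ (2 * (k + 1) + 1) * (P ^ (1 + 3 * ε)) ^ 4
        ≤ (P ^ 2) ^ (2 * (k + 1) + 1) * (P ^ 2) ^ 4 := mul_le_mul h3 h4 (by positivity) (by positivity)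
      _ = P ^ (4 * k + 14) := by ring
      _ = P ^ ((4 * k + 14 : ℕ) : ℝ) := (Real.rpow_natCast _ _).symm
  · have h1 : (P ^ (1 + ε / 5)) ^ 2 = P ^ (ε / 5) * (P ^ (1 + ε / 10)) ^ 2 := by
      rw [← Real.rpow_natCast, ← Real.rpow_natCast, ← Real.rpow_mul hP0.le, ← Real.rpow_mul hP0.le,
        ← Real.rpow_add hP0]
      congr 1
      push_cast
      ring
    have h2 : 0 < (P ^ (1 + ε / 10)) ^ 2 := by positivity
    rw [h1]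
    field_simp

theorem G_le (g : GRH) (σ ε θ C X₀ : ℝ) (h0 : 0 < σ) (h1 : σ < 1 / 4) (hε : 0 < ε) (hε1 : ε ≤ 1 / 12) (hθ : 0 ≤ θ) (hθ1 : θ ≤ 1 / 2)
    (a b : ℝ → ℂ) (hBd : Bd σ ε θ C X₀ a b) (ha : Measurable a)
    (hb : Measurable b) (k : ℕ) (B : ℝ) (hB : 0 < B) (hab : ∀ t, ‖a t‖ ≤ B * (1 + |t|) ^ k ∧ ‖b t‖ ≤ B * (1 + |t|) ^ k) :
    ∃ N₀ : ℕ, ∀ N : ℕ, N₀ ≤ N → ∃ A : ℝ, 0 < A ∧ ∃ P₀ : ℕ, ∀ P : ℕ, P₀ ≤ P →
      ∫ u in Ioi (0 : ℝ), om (N - 1 / 2 - 3 * ε / 200) u *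
        ∫ t : ℝ, ‖EE σ a b ((P : ℝ) ^ (1 + 3 * ε) * u) t‖ ^ 2 * wg σ ((P : ℝ) ^ (1 + ε / 5)) ((P : ℝ) ^ (1 + ε / 10)) t ≤
      A * (P : ℝ) ^ (1 + ε / 10) * ((P : ℝ) ^ (1 + 3 * ε)) ^ (2 * θ) := by
  obtain ⟨A₀, hA₀, hE⟩ := EE_le g σ h0 (by linarith) a b k B hab
  obtain ⟨A', hA', hW⟩ := wg_mom σ (2 * (k + 1))
  obtain ⟨A'', hA'', hV⟩ := wg_tail σ (2 * (k + 1))
  refine ⟨⌈10 * ((4 * k + 14 : ℕ) : ℝ) / ε⌉₊ + 3, fun N hN => ?_⟩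
  have hNr : 10 * ((4 * k + 14 : ℕ) : ℝ) / ε + 3 ≤ N := by
    have h2 : ((⌈10 * ((4 * k + 14 : ℕ) : ℝ) / ε⌉₊ + 3 : ℕ) : ℝ) ≤ N := by exact_mod_cast hN
    have h3 := Nat.le_ceil (10 * ((4 * k + 14 : ℕ) : ℝ) / ε)
    push_cast at h2 h3 ⊢
    linarith
  set κ : ℝ := N - 1 / 2 - 3 * ε / 200 with hκdef
  have hpos : 0 ≤ 10 * ((4 * k + 14 : ℕ) : ℝ) / ε := by positivity
  have hκ : 1 ≤ κ := by
    rw [hκdef]
    linarith
  have hκ2 : ((4 * k + 14 : ℕ) : ℝ) ≤ ε / 10 * (κ - 1) := by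
    have h2 : 10 * ((4 * k + 14 : ℕ) : ℝ) / ε ≤ κ - 1 := by
      rw [hκdef]
      linarith
    have h3 := mul_le_mul_of_nonneg_left h2 (show (0 : ℝ) ≤ ε / 10 by positivity)
    have h4 : ε / 10 * (10 * ((4 * k + 14 : ℕ) : ℝ) / ε) = ((4 * k + 14 : ℕ) : ℝ) := by
      field_simp
    rwa [h4] at h3
  set I₁ : ℝ := ∫ u in Ioi (0 : ℝ), om κ u * (1 + u) ^ (1 : ℝ) with hI₁
  set I₄ : ℝ := ∫ u in Ioi (0 : ℝ), om κ u * (1 + u) ^ (4 : ℝ) with hI₄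
  have hI₁0 : 0 ≤ I₁ := setIntegral_nonneg measurableSet_Ioi fun u hu =>
    mul_nonneg (Zg_om_nonneg κ hu) (Real.rpow_nonneg (by linarith [show (0 : ℝ) < u from hu]) _)
  have hI₄0 : 0 ≤ I₄ := setIntegral_nonneg measurableSet_Ioi fun u hu =>
    mul_nonneg (Zg_om_nonneg κ hu) (Real.rpow_nonneg (by linarith [show (0 : ℝ) < u from hu]) _)
  -- the large `P`
  have e1 : ∀ᶠ P : ℕ in Filter.atTop, 1 ≤ P := Filter.eventually_ge_atTop 1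
  have e2 : ∀ᶠ P : ℕ in Filter.atTop, X₀ ≤ (P : ℝ) :=
    tendsto_natCast_atTop_atTop.eventually_ge_atTop X₀
  have e3 : ∀ᶠ P : ℕ in Filter.atTop, (3 / 2 : ℝ) ≤ (P : ℝ) ^ ε :=
    ((tendsto_rpow_atTop hε).comp tendsto_natCast_atTop_atTop).eventually_ge_atTop (3 / 2)
  have e4 : ∀ᶠ P : ℕ in Filter.atTop, ((P : ℝ) ^ (ε / 5)) ^ (((4 * k + 14 : ℕ) : ℝ) * 5 / ε) *
      Real.exp (-(1 / 8) * (P : ℝ) ^ (ε / 5)) ≤ 1 := by
    have h2 := tendsto_rpow_mul_exp_neg_mul_atTop_nhds_zero (((4 * k + 14 : ℕ) : ℝ) * 5 / ε) (1 / 8)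
      (by norm_num)
    have h3 : Filter.Tendsto (fun P : ℕ => (P : ℝ) ^ (ε / 5)) Filter.atTop Filter.atTop :=
      (tendsto_rpow_atTop (by positivity)).comp tendsto_natCast_atTop_atTop
    have h4 := h2.comp h3
    exact h4.eventually_le_const one_pos
  obtain ⟨P₀, hP₀⟩ := Filter.eventually_atTop.1 (e1.and (e2.and (e3.and e4)))
  refine ⟨6 * C ^ 2 * I₁ + (32 * A₀ ^ 2 * A' + A₀ ^ 2 * A'' * I₄) + 1, by positivity, P₀, fun P hPP => ?_⟩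
  obtain ⟨f1, f2, f3, f4⟩ := hP₀ P hPP
  have hP1 : (1 : ℝ) ≤ P := by exact_mod_cast f1
  have hP0 : (0 : ℝ) < P := by linarith
  obtain ⟨g1, g2, g3, g4, g5⟩ := Zg_P hε hε1 hP1 k
  set T₀ : ℝ := (P : ℝ) ^ (1 + ε / 5) with hT₀
  set T : ℝ := (P : ℝ) ^ (1 + ε / 10) with hT
  set X : ℝ := (P : ℝ) ^ (1 + 3 * ε) with hX
  have hX0 : 0 < X := by linarith
  have hT₀0 : 0 < T₀ := by linarith
  set u₁ : ℝ := X ^ (-(ε / 10)) with hu₁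
  have hu₁0 : 0 < u₁ := Real.rpow_pos_of_pos hX0 _
  have hu₁1 : u₁ ≤ 1 := Real.rpow_le_one_of_one_le_of_nonpos g3 (by linarith)
  -- the tail factor
  have hexp : (P : ℝ) ^ ((4 * k + 14 : ℕ) : ℝ) * Real.exp (-(T₀ ^ 2 / (8 * T ^ 2))) ≤ 1 := by
    rw [g5]
    have h2 : ((P : ℝ) ^ (ε / 5)) ^ (((4 * k + 14 : ℕ) : ℝ) * 5 / ε) = (P : ℝ) ^ ((4 * k + 14 : ℕ) : ℝ) := by
      rw [← Real.rpow_mul hP0.le]
      congr 1
      field_simp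
    rw [h2] at f4
    have h3 : -(1 / 8 * (P : ℝ) ^ (ε / 5)) = -(1 / 8) * (P : ℝ) ^ (ε / 5) := by ring
    rw [h3]
    exact f4
  have hsm : (P : ℝ) ^ ((4 * k + 14 : ℕ) : ℝ) * u₁ ^ (κ - 1) ≤ 1 := by
    have h2 : u₁ ^ (κ - 1) = (P : ℝ) ^ ((1 + 3 * ε) * (-(ε / 10)) * (κ - 1)) := by
      rw [hu₁, hX, ← Real.rpow_mul hP0.le, ← Real.rpow_mul hP0.le]
    rw [h2, ← Real.rpow_add hP0]
    refine Real.rpow_le_one_of_one_le_of_nonpos hP1 ?_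
    have h3 : 0 ≤ ε * (ε / 10 * (κ - 1)) := mul_nonneg hε.le (mul_nonneg (by positivity) (by linarith))
    nlinarith
  -- the range of `t`
  have hrange : ∀ u : ℝ, u₁ ≤ u → ∀ t : ℝ, |t - T₀| < T₀ / 2 → ‖EE σ a b (X * u) t‖ ^ 2 ≤ C ^ 2 * (X * u) ^ (2 * θ) := by
    intro u hu t ht
    have hu0 : 0 < u := lt_of_lt_of_le hu₁0 hu
    have hx1 : X ^ (1 - ε / 10) ≤ X * u := by
      have h2 : X ^ (1 - ε / 10) = X * u₁ := by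
        rw [hu₁, sub_eq_add_neg, Real.rpow_add hX0, Real.rpow_one]
      rw [h2]
      exact mul_le_mul_of_nonneg_left hu hX0.le
    have hx2 : (P : ℝ) ≤ X ^ (1 - ε / 10) := by
      rw [hX, ← Real.rpow_mul hP0.le]
      have h2 : (1 : ℝ) ≤ (1 + 3 * ε) * (1 - ε / 10) := by nlinarith
      calc (P : ℝ) = (P : ℝ) ^ (1 : ℝ) := (Real.rpow_one _).symm
        _ ≤ _ := Real.rpow_le_rpow_of_exponent_le hP1 h2
    have hx3 : X₀ ≤ X * u := f2.trans (hx2.trans hx1)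
    have ht1 : |t| ≤ 3 / 2 * T₀ := by
      have h2 : |t| ≤ |t - T₀| + |T₀| := by
        have h3 := abs_add_le (t - T₀) T₀
        rwa [sub_add_cancel] at h3
      rw [abs_of_pos hT₀0] at h2
      linarith
    have ht2 : 3 / 2 * T₀ ≤ (X * u) ^ (1 - ε) := by
      calc 3 / 2 * T₀ ≤ (P : ℝ) ^ ε * T₀ := mul_le_mul_of_nonneg_right f3 hT₀0.le
        _ = (P : ℝ) ^ (ε + (1 + ε / 5)) := by rw [Real.rpow_add hP0]
        _ ≤ (P : ℝ) ^ ((1 + 3 * ε) * (1 - ε / 10) * (1 - ε)) := by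
            refine Real.rpow_le_rpow_of_exponent_le hP1 ?_
            nlinarith [mul_pos hε hε, mul_pos hε (mul_pos hε hε)]
        _ = (X ^ (1 - ε / 10)) ^ (1 - ε) := by
            rw [hX, ← Real.rpow_mul hP0.le, ← Real.rpow_mul hP0.le]
        _ ≤ (X * u) ^ (1 - ε) := Real.rpow_le_rpow (Real.rpow_pos_of_pos hX0 _).le hx1 (by linarith)
    have h2 := pow_le_pow_left₀ (norm_nonneg _) (hBd (X * u) hx3 t (ht1.trans ht2)) 2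
    have hxu : 0 < X * u := mul_pos hX0 hu0
    have h3 : (C * (X * u) ^ θ) ^ 2 = C ^ 2 * (X * u) ^ (2 * θ) := by
      rw [mul_pow, ← Real.rpow_natCast ((X * u) ^ θ), ← Real.rpow_mul hxu.le]
      congr 2
      push_cast
      ring
    rwa [h3] at h2
  have hwI := wg_int σ T₀ T (by linarith)
  have hwW : ∫ t : ℝ, wg σ T₀ T t ≤ 6 * T := by
    rw [hwI.2]
    have h2 : Real.sqrt Real.pi ≤ 2 := by
      rw [show (2 : ℝ) = Real.sqrt 4 by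
        rw [show (4 : ℝ) = 2 ^ 2 by norm_num]; exact (Real.sqrt_sq (by norm_num)).symm]
      exact Real.sqrt_le_sqrt Real.pi_le_four
    have h3 : Real.exp (σ ^ 2 / T ^ 2) ≤ 3 := by
      have h4 : σ ^ 2 / T ^ 2 ≤ 1 := by
        rw [div_le_one (by positivity)]
        nlinarith
      calc Real.exp (σ ^ 2 / T ^ 2) ≤ Real.exp 1 := Real.exp_le_exp.2 h4
        _ ≤ 3 := by linarith [Real.exp_one_lt_d9]
    calc T * Real.sqrt Real.pi * Real.exp (σ ^ 2 / T ^ 2) ≤ T * 2 * 3 := by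
          refine mul_le_mul (mul_le_mul_of_nonneg_left h2 (by linarith)) h3 (Real.exp_pos _).le ?_
          linarith
      _ = 6 * T := by ring
  have hmain := Zg_int (κ := κ) (G := fun u => ∫ t : ℝ, ‖EE σ a b (X * u) t‖ ^ 2 * wg σ T₀ T t)
    (c₁ := 6 * C ^ 2 * T * X ^ (2 * θ))
    (c₂ := A₀ ^ 2 * (16 * X ^ 4) * (A' * T₀ ^ (2 * (k + 1) + 1)) * (2 * u₁ ^ (κ - 1)))
    (c₃ := A₀ ^ 2 * X ^ 4 * (A'' * T₀ ^ (2 * (k + 1) + 1) * Real.exp (-(T₀ ^ 2 / (8 * T ^ 2)))))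
    hκ (fun u _ => integral_nonneg fun t => mul_nonneg (sq_nonneg _) (Zg_wg_nonneg _ _ _ _))
    (by positivity) (by positivity) (by positivity)
    (by
      intro u hu
      have hom := Zg_om_nonneg κ hu
      have hxu : 0 ≤ X * u := by positivity
      have hind : 0 ≤ (Ioo (0 : ℝ) 1).indicator (fun _ => (1 : ℝ)) u :=
        indicator_nonneg (fun _ _ => zero_le_one) u
      rcases lt_or_ge u u₁ with hlt | hge
      · have hi1 : (Ioo (0 : ℝ) 1).indicator (fun _ => (1 : ℝ)) u = 1 :=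
          indicator_of_mem (show u ∈ Ioo (0 : ℝ) 1 from ⟨hu, lt_of_lt_of_le hlt hu₁1⟩) _
        rw [hi1]
        have h2 := Zg_G1 hE hW hxu g1 g2
        have h3 := Zg_om_small hκ hu hlt hu₁1
        have h4 : (1 + X * u) ^ 4 ≤ 16 * X ^ 4 := by
          have h5 : 1 + X * u ≤ 2 * X := by
            have : X * u ≤ X * 1 := mul_le_mul_of_nonneg_left (by linarith) hX0.le
            linarith
          calc (1 + X * u) ^ 4 ≤ (2 * X) ^ 4 := pow_le_pow_left₀ (by positivity) h5 4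
            _ = 16 * X ^ 4 := by ring
        have h6 : A₀ ^ 2 * (1 + X * u) ^ 4 * (A' * T₀ ^ (2 * (k + 1) + 1)) ≤
            A₀ ^ 2 * (16 * X ^ 4) * (A' * T₀ ^ (2 * (k + 1) + 1)) :=
          mul_le_mul_of_nonneg_right (mul_le_mul_of_nonneg_left h4 (by positivity)) (by positivity)
        have h7 : om κ u * (∫ t : ℝ, ‖EE σ a b (X * u) t‖ ^ 2 * wg σ T₀ T t) ≤
            (2 * u₁ ^ (κ - 1)) * (A₀ ^ 2 * (16 * X ^ 4) * (A' * T₀ ^ (2 * (k + 1) + 1))) :=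
          mul_le_mul h3 (h2.trans h6)
            (integral_nonneg fun t => mul_nonneg (sq_nonneg _) (Zg_wg_nonneg _ _ _ _)) (by positivity)
        have h8 : 0 ≤ 6 * C ^ 2 * T * X ^ (2 * θ) * (om κ u * (1 + u) ^ (1 : ℝ)) := by positivity
        have h9 : 0 ≤ A₀ ^ 2 * X ^ 4 * (A'' * T₀ ^ (2 * (k + 1) + 1) * Real.exp (-(T₀ ^ 2 / (8 * T ^ 2)))) *
            (om κ u * (1 + u) ^ (4 : ℝ)) := by positivity
        show om κ u * (∫ t : ℝ, ‖EE σ a b (X * u) t‖ ^ 2 * wg σ T₀ T t) ≤ _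
        linarith
      · have h2 := Zg_G2 hE hW hV hxu g1 g2 (hrange u hge) (by positivity) hwI.1 hwW
        have h3 : (X * u) ^ (2 * θ) ≤ X ^ (2 * θ) * (1 + u) ^ (1 : ℝ) := by
          rw [Real.mul_rpow hX0.le hu.le]
          refine mul_le_mul_of_nonneg_left ?_ (by positivity)
          calc u ^ (2 * θ) ≤ (1 + u) ^ (2 * θ) := Real.rpow_le_rpow hu.le (by linarith) (by linarith)
            _ ≤ (1 + u) ^ (1 : ℝ) := Real.rpow_le_rpow_of_exponent_le (by linarith) (by linarith)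
        have h4 : (1 + X * u) ^ 4 ≤ X ^ 4 * (1 + u) ^ (4 : ℝ) := by
          have h5 : 1 + X * u ≤ X * (1 + u) := by nlinarith
          have h6 : (1 + u) ^ (4 : ℝ) = (1 + u) ^ 4 := by
            rw [show (4 : ℝ) = ((4 : ℕ) : ℝ) by norm_num, Real.rpow_natCast]
          rw [h6, ← mul_pow]
          exact pow_le_pow_left₀ (by positivity) h5 4
        have h7 := mul_le_mul_of_nonneg_left h2 hom
        have h8 : om κ u * (C ^ 2 * (X * u) ^ (2 * θ) * (6 * T)) ≤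
            6 * C ^ 2 * T * X ^ (2 * θ) * (om κ u * (1 + u) ^ (1 : ℝ)) := by
          calc om κ u * (C ^ 2 * (X * u) ^ (2 * θ) * (6 * T)) =
              (6 * C ^ 2 * T * om κ u) * (X * u) ^ (2 * θ) := by ring
            _ ≤ (6 * C ^ 2 * T * om κ u) * (X ^ (2 * θ) * (1 + u) ^ (1 : ℝ)) :=
                mul_le_mul_of_nonneg_left h3 (by positivity)
            _ = _ := by ring
        have h9 : om κ u * (A₀ ^ 2 * (1 + X * u) ^ 4 *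
            (A'' * T₀ ^ (2 * (k + 1) + 1) * Real.exp (-(T₀ ^ 2 / (8 * T ^ 2))))) ≤
            A₀ ^ 2 * X ^ 4 * (A'' * T₀ ^ (2 * (k + 1) + 1) * Real.exp (-(T₀ ^ 2 / (8 * T ^ 2)))) *
              (om κ u * (1 + u) ^ (4 : ℝ)) := by
          calc _ = (A₀ ^ 2 * (A'' * T₀ ^ (2 * (k + 1) + 1) * Real.exp (-(T₀ ^ 2 / (8 * T ^ 2)))) * om κ u) *
                (1 + X * u) ^ 4 := by ring
            _ ≤ (A₀ ^ 2 * (A'' * T₀ ^ (2 * (k + 1) + 1) * Real.exp (-(T₀ ^ 2 / (8 * T ^ 2)))) * om κ u) *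
                (X ^ 4 * (1 + u) ^ (4 : ℝ)) := mul_le_mul_of_nonneg_left h4 (by positivity)
            _ = _ := by ring
        have h10 : 0 ≤ A₀ ^ 2 * (16 * X ^ 4) * (A' * T₀ ^ (2 * (k + 1) + 1)) * (2 * u₁ ^ (κ - 1)) *
            (Ioo (0 : ℝ) 1).indicator (fun _ => (1 : ℝ)) u := by positivity
        rw [mul_add] at h7
        show om κ u * (∫ t : ℝ, ‖EE σ a b (X * u) t‖ ^ 2 * wg σ T₀ T t) ≤ _
        linarith)
  refine hmain.trans ?_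
  have hTX : 1 ≤ T * X ^ (2 * θ) := by
    have h2 : 1 ≤ X ^ (2 * θ) := Real.one_le_rpow g3 (by linarith)
    nlinarith
  have k2 : A₀ ^ 2 * (16 * X ^ 4) * (A' * T₀ ^ (2 * (k + 1) + 1)) * (2 * u₁ ^ (κ - 1)) ≤ 32 * A₀ ^ 2 * A' := by
    calc A₀ ^ 2 * (16 * X ^ 4) * (A' * T₀ ^ (2 * (k + 1) + 1)) * (2 * u₁ ^ (κ - 1)) =
        32 * A₀ ^ 2 * A' * ((T₀ ^ (2 * (k + 1) + 1) * X ^ 4) * u₁ ^ (κ - 1)) := by ring
      _ ≤ 32 * A₀ ^ 2 * A' * ((P : ℝ) ^ ((4 * k + 14 : ℕ) : ℝ) * u₁ ^ (κ - 1)) :=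
          mul_le_mul_of_nonneg_left (mul_le_mul_of_nonneg_right g4 (by positivity)) (by positivity)
      _ ≤ 32 * A₀ ^ 2 * A' * 1 := mul_le_mul_of_nonneg_left hsm (by positivity)
      _ = 32 * A₀ ^ 2 * A' := mul_one _
  have k3 : A₀ ^ 2 * X ^ 4 * (A'' * T₀ ^ (2 * (k + 1) + 1) * Real.exp (-(T₀ ^ 2 / (8 * T ^ 2)))) ≤ A₀ ^ 2 * A'' := by
    calc A₀ ^ 2 * X ^ 4 * (A'' * T₀ ^ (2 * (k + 1) + 1) * Real.exp (-(T₀ ^ 2 / (8 * T ^ 2)))) =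
        A₀ ^ 2 * A'' * ((T₀ ^ (2 * (k + 1) + 1) * X ^ 4) * Real.exp (-(T₀ ^ 2 / (8 * T ^ 2)))) := by ring
      _ ≤ A₀ ^ 2 * A'' * ((P : ℝ) ^ ((4 * k + 14 : ℕ) : ℝ) * Real.exp (-(T₀ ^ 2 / (8 * T ^ 2)))) :=
          mul_le_mul_of_nonneg_left (mul_le_mul_of_nonneg_right g4 (by positivity)) (by positivity)
      _ ≤ A₀ ^ 2 * A'' * 1 := mul_le_mul_of_nonneg_left hexp (by positivity)
      _ = A₀ ^ 2 * A'' := mul_one _
  have k4 := mul_le_mul_of_nonneg_right k3 hI₄0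
  have k5 : 32 * A₀ ^ 2 * A' + A₀ ^ 2 * A'' * I₄ + 1 ≤
      (32 * A₀ ^ 2 * A' + A₀ ^ 2 * A'' * I₄ + 1) * (T * X ^ (2 * θ)) :=
    le_mul_of_one_le_right (by positivity) hTX
  calc 6 * C ^ 2 * T * X ^ (2 * θ) * I₁ + (A₀ ^ 2 * (16 * X ^ 4) * (A' * T₀ ^ (2 * (k + 1) + 1)) *
        (2 * u₁ ^ (κ - 1)) + A₀ ^ 2 * X ^ 4 * (A'' * T₀ ^ (2 * (k + 1) + 1) *
          Real.exp (-(T₀ ^ 2 / (8 * T ^ 2)))) * I₄)
      ≤ 6 * C ^ 2 * I₁ * (T * X ^ (2 * θ)) + (32 * A₀ ^ 2 * A' + A₀ ^ 2 * A'' * I₄ + 1) := by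
        have e : 6 * C ^ 2 * T * X ^ (2 * θ) * I₁ = 6 * C ^ 2 * I₁ * (T * X ^ (2 * θ)) := by ring
        rw [e]
        linarith
    _ ≤ 6 * C ^ 2 * I₁ * (T * X ^ (2 * θ)) +
        (32 * A₀ ^ 2 * A' + A₀ ^ 2 * A'' * I₄ + 1) * (T * X ^ (2 * θ)) := by linarith
    _ = (6 * C ^ 2 * I₁ + (32 * A₀ ^ 2 * A' + A₀ ^ 2 * A'' * I₄) + 1) * T * X ^ (2 * θ) := by ring

end Pool.Agent.Lib.MP_d713a4_nt
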