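import Pool.Agent.Lib.MP_d713a4_nt.Mb
import Pool.Agent.Lib.MP_d713a4_nt.Zb
import Pool.Agent.Lib.MP_d713a4_nt.Zc
import Pool.Agent.Lib.MP_d713a4_nt.Zg
import Pool.Agent.Lib.MP_d713a4_nt.Pr

/-!
# LEAF Zd: the contradiction

PROOF.  `ε = δ/3`, `θ = 1/2 - σ - δ ≥ 0`; `ab_growth` (`θ < 1 - σ`).  `N` the maximum of the `N₀` of `JJ_low`, `G_le` and `2`, `κ = N - 1/2 - 3ε/200 ≥ 1`.  For large `P` the hypotheses of `JJ_cs` hold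
with `Λ = P^(3ε)` (`X/p ≥ P^(3ε)/2 ≥ 1`; `T²/(16P²) = P^(ε/5)/16`, `P exp(-P^(ε/5)/16) ≤ 1`).  So for every large `P` (`p^(-2σ) ≥ (2P)^(-2σ)`)
`#PP (2P)^(-2σ) (c P^(1+ε/10) P^(3ε))² ≤ A P^(6ε) P^(1+ε/10) A' P^(1+ε/10) P^((1+3ε) 2θ)`, so `#PP ≤ A'' P^(2σ + (1+δ)(1-2σ-2δ)) ≤ A'' P^(1-δ)`.
`many_primes (δ/2)` gives arbitrarily large `P` with `#PP ≥ P^(1-δ/2)`: contradiction.
-/

set_option autoImplicit false

namespace Pool.Agent.Lib.MP_d713a4_nt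

open Complex MeasureTheory Set

private theorem Zd_ar {P : ℕ} {S : Finset ℕ} {f : ℕ → ℝ} {σ T L c A₁ A₂ Y : ℝ} (hP : 1 ≤ P) (hσ : 0 < σ)
    (hT : 0 < T) (hL : 0 < L) (hc : 0 < c) (hS : ∀ p ∈ S, P ≤ p ∧ p < 2 * P)
    (hlow : ∀ p ∈ S, c * T * L ≤ f p)
    (hup : ∑ p ∈ S, (p : ℝ) ^ (-(2 * σ)) * f p ^ 2 ≤ A₁ * L ^ 2 * T * (A₂ * T * Y)) :
    (S.card : ℝ) * c ^ 2 ≤ A₁ * A₂ * Y * (2 * P : ℝ) ^ (2 * σ) := by
  have hP0 : (0 : ℝ) < P := by exact_mod_cast hP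
  have h2P : (0 : ℝ) < 2 * P := by positivity
  have hq : (0 : ℝ) < (2 * P : ℝ) ^ (2 * σ) := Real.rpow_pos_of_pos h2P _
  have hterm : ∀ p ∈ S, (2 * P : ℝ) ^ (-(2 * σ)) * (c * T * L) ^ 2 ≤ (p : ℝ) ^ (-(2 * σ)) * f p ^ 2 := by
    intro p hp
    obtain ⟨h1, h2⟩ := hS p hp
    have hp0 : (0 : ℝ) < p := lt_of_lt_of_le hP0 (by exact_mod_cast h1)
    have hp1 : (p : ℝ) ≤ 2 * P := by exact_mod_cast h2.le
    have h3 : (2 * P : ℝ) ^ (-(2 * σ)) ≤ (p : ℝ) ^ (-(2 * σ)) :=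
      Real.rpow_le_rpow_of_nonpos hp0 hp1 (by linarith)
    have h4 : (c * T * L) ^ 2 ≤ f p ^ 2 := pow_le_pow_left₀ (by positivity) (hlow p hp) 2
    exact mul_le_mul h3 h4 (by positivity) (Real.rpow_nonneg hp0.le _)
  have hsum := Finset.card_nsmul_le_sum S _ _ hterm
  rw [nsmul_eq_mul] at hsum
  have h5 := hsum.trans hup
  rw [Real.rpow_neg h2P.le] at h5
  have h6 : (S.card : ℝ) * c ^ 2 * ((T * L) ^ 2) ≤
      A₁ * A₂ * Y * (2 * P : ℝ) ^ (2 * σ) * ((T * L) ^ 2) := by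
    have h7 : (S.card : ℝ) * (((2 * P : ℝ) ^ (2 * σ))⁻¹ * (c * T * L) ^ 2) * (2 * P : ℝ) ^ (2 * σ) ≤
        A₁ * L ^ 2 * T * (A₂ * T * Y) * (2 * P : ℝ) ^ (2 * σ) := mul_le_mul_of_nonneg_right h5 hq.le
    have h8 : (S.card : ℝ) * (((2 * P : ℝ) ^ (2 * σ))⁻¹ * (c * T * L) ^ 2) * (2 * P : ℝ) ^ (2 * σ) =
        (S.card : ℝ) * c ^ 2 * ((T * L) ^ 2) := by
      field_simp
    rw [h8] at h7
    refine h7.trans (le_of_eq ?_)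
    ring
  exact le_of_mul_le_mul_right h6 (by positivity)

private theorem Zd_log {s : ℝ} (hs : 0 < s) : ∀ᶠ P : ℕ in Filter.atTop, (P : ℝ) * Real.exp (-((P : ℝ) ^ s / 16)) ≤ 1 := by
  have h1 := (isLittleO_log_rpow_atTop hs).def (show (0 : ℝ) < 1 / 16 by norm_num)
  have h2 := tendsto_natCast_atTop_atTop (R := ℝ) |>.eventually h1
  filter_upwards [h2, Filter.eventually_ge_atTop 1] with P hP hP1
  have hP0 : (0 : ℝ) < P := by exact_mod_cast hP1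
  have h3 : 0 ≤ (P : ℝ) ^ s := Real.rpow_nonneg hP0.le _
  rw [Real.norm_eq_abs, Real.norm_eq_abs, abs_of_nonneg h3] at hP
  have h4 : Real.log P ≤ (P : ℝ) ^ s / 16 := by
    have := (le_abs_self _).trans hP
    linarith
  have h5 : (P : ℝ) = Real.exp (Real.log P) := (Real.exp_log hP0).symm
  calc (P : ℝ) * Real.exp (-((P : ℝ) ^ s / 16)) = Real.exp (Real.log P) * Real.exp (-((P : ℝ) ^ s / 16)) := by rw [← h5]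
    _ = Real.exp (Real.log P + -((P : ℝ) ^ s / 16)) := (Real.exp_add _ _).symm
    _ ≤ 1 := by
        rw [Real.exp_le_one_iff]
        linarith

private theorem Zd_big {s : ℝ} (hs : 0 < s) (K : ℝ) : ∀ᶠ P : ℕ in Filter.atTop, K < (P : ℝ) ^ s :=
  ((tendsto_rpow_atTop hs).comp (tendsto_natCast_atTop_atTop (R := ℝ))).eventually_gt_atTop K

theorem contra (g : GRH) (σ δ : ℝ) (h0 : 0 < σ) (h1 : σ < 1 / 4) (hδ : 0 < δ) (hδ1 : δ ≤ 1 / 4) (a b : ℝ → ℂ) (C X₀ : ℝ) :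
    ¬ Bd σ (δ / 3) (1 / 2 - σ - δ) C X₀ a b := by
  intro hBd
  obtain ⟨ε, hε⟩ : ∃ ε : ℝ, ε = δ / 3 := ⟨_, rfl⟩
  rw [← hε] at hBd
  have hε0 : 0 < ε := by rw [hε]; positivity
  have hε1 : ε ≤ 1 / 12 := by rw [hε]; linarith
  obtain ⟨ha, hb, k, B, hB, hab⟩ := ab_growth g σ ε (1 / 2 - σ - δ) C X₀ h0 (by linarith) hε0 (by linarith) (by linarith) a b hBd
  obtain ⟨N₁, hN₁⟩ := JJ_low g σ ε h0 h1 hε0 hε1 a b ha hb k B hB hab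
  obtain ⟨N₂, hN₂⟩ := G_le g σ ε (1 / 2 - σ - δ) C X₀ h0 h1 hε0 hε1 (by linarith) (by linarith) a b hBd ha hb k B hB hab
  obtain ⟨N, hNa, hNb, hNc⟩ : ∃ N : ℕ, N₁ ≤ N ∧ N₂ ≤ N ∧ 2 ≤ N :=
    ⟨max (max N₁ N₂) 2, (le_max_left _ _).trans (le_max_left _ _), (le_max_right _ _).trans (le_max_left _ _), le_max_right _ _⟩
  obtain ⟨c, hc, P₁, hP₁⟩ := hN₁ N hNa
  obtain ⟨A₂, hA₂, P₂, hP₂⟩ := hN₂ N hNb
  have hκ : 1 ≤ (N : ℝ) - 1 / 2 - 3 * ε / 200 := by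
    have : (2 : ℝ) ≤ N := by exact_mod_cast hNc
    linarith
  obtain ⟨A₁, hA₁, hcs⟩ := JJ_cs g σ _ h0 (by linarith) hκ
  have hev : ∀ᶠ P : ℕ in Filter.atTop, P₁ ≤ P ∧ P₂ ≤ P ∧ 1 ≤ P ∧ (2 : ℝ) < (P : ℝ) ^ (3 * ε) ∧
      (P : ℝ) * Real.exp (-((P : ℝ) ^ (ε / 5) / 16)) ≤ 1 ∧
      A₁ * A₂ * (2 : ℝ) ^ (2 * σ) / c ^ 2 < (P : ℝ) ^ (δ / 2) := by
    filter_upwards [Filter.eventually_ge_atTop P₁, Filter.eventually_ge_atTop P₂, Filter.eventually_ge_atTop 1,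
      Zd_big (show 0 < 3 * ε by positivity) 2, Zd_log (show 0 < ε / 5 by positivity),
      Zd_big (show 0 < δ / 2 by positivity) (A₁ * A₂ * (2 : ℝ) ^ (2 * σ) / c ^ 2)] with P e1 e2 e3 e4 e5 e6
    exact ⟨e1, e2, e3, e4, e5, e6⟩
  obtain ⟨P₀, hP₀⟩ := Filter.eventually_atTop.1 hev
  obtain ⟨P, hPP, hcard⟩ := many_primes (δ / 2) (by positivity) P₀
  obtain ⟨e1, e2, e3, e4, e5, e6⟩ := hP₀ P hPP
  have hP1 : (1 : ℝ) ≤ P := by exact_mod_cast e3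
  have hP0 : (0 : ℝ) < P := by linarith
  have hT : 0 < (P : ℝ) ^ (1 + ε / 10) := Real.rpow_pos_of_pos hP0 _
  have hL : 0 < (P : ℝ) ^ (3 * ε) := Real.rpow_pos_of_pos hP0 _
  have hX : (P : ℝ) ^ (1 + 3 * ε) = P * (P : ℝ) ^ (3 * ε) := by
    rw [Real.rpow_add hP0, Real.rpow_one]
  have hmem : ∀ p ∈ PP P, P ≤ p ∧ p < 2 * P := by
    intro p hp
    exact Finset.mem_Ico.1 (Finset.mem_filter.1 hp).1
  have hexp : (P : ℝ) * Real.exp (-(((P : ℝ) ^ (1 + ε / 10)) ^ 2 / (16 * (P : ℝ) ^ 2))) ≤ 1 := by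
    have h2 : ((P : ℝ) ^ (1 + ε / 10)) ^ 2 / (16 * (P : ℝ) ^ 2) = (P : ℝ) ^ (ε / 5) / 16 := by
      have h3 : ((P : ℝ) ^ (1 + ε / 10)) ^ 2 = (P : ℝ) ^ 2 * (P : ℝ) ^ (ε / 5) := by
        rw [← Real.rpow_natCast ((P : ℝ) ^ (1 + ε / 10)) 2, ← Real.rpow_mul hP0.le, ← Real.rpow_natCast (P : ℝ) 2,
          ← Real.rpow_add hP0]
        congr 1
        push_cast
        ring
      rw [h3]
      field_simp
    rw [h2]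
    exact e5
  have hup := hcs a b ha hb k B hab ((P : ℝ) ^ (1 + ε / 5)) ((P : ℝ) ^ (1 + ε / 10)) ((P : ℝ) ^ (1 + 3 * ε))
    ((P : ℝ) ^ (3 * ε)) P e3 (Real.one_le_rpow hP1 (by positivity))
    (Real.rpow_le_rpow_of_exponent_le hP1 (by linarith)) hexp (Real.rpow_pos_of_pos hP0 _) (by
      intro p hp
      obtain ⟨q1, q2⟩ := hmem p hp
      have q3 : (P : ℝ) ≤ p := by exact_mod_cast q1
      have q4 : (p : ℝ) ≤ 2 * P := by exact_mod_cast q2.le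
      have q5 : (0 : ℝ) < p := by linarith
      rw [hX]
      constructor
      · rw [le_div_iff₀ q5]
        nlinarith
      · rw [div_le_iff₀ q5]
        nlinarith)
  have hup2 := hup.trans (mul_le_mul_of_nonneg_left (hP₂ P e2) (by positivity))
  have hkey := Zd_ar (f := fun p => ‖JJ σ ((P : ℝ) ^ (1 + ε / 5)) ((P : ℝ) ^ (1 + ε / 10)) (N - 1 / 2 - 3 * ε / 200)
    ((P : ℝ) ^ (1 + 3 * ε)) a b p‖) e3 h0 hT hL hc hmem (hP₁ P e1) hup2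
  -- the powers of `P`
  have hpow : ((P : ℝ) ^ (1 + 3 * ε)) ^ (2 * (1 / 2 - σ - δ)) * (2 * P : ℝ) ^ (2 * σ) ≤ (2 : ℝ) ^ (2 * σ) * (P : ℝ) ^ (1 - δ) := by
    rw [Real.mul_rpow (by norm_num) hP0.le, ← Real.rpow_mul hP0.le]
    have h2 : (P : ℝ) ^ ((1 + 3 * ε) * (2 * (1 / 2 - σ - δ))) * ((2 : ℝ) ^ (2 * σ) * (P : ℝ) ^ (2 * σ)) =
        (2 : ℝ) ^ (2 * σ) * (P : ℝ) ^ ((1 + 3 * ε) * (2 * (1 / 2 - σ - δ)) + 2 * σ) := by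
      rw [Real.rpow_add hP0]
      ring
    rw [h2]
    refine mul_le_mul_of_nonneg_left (Real.rpow_le_rpow_of_exponent_le hP1 ?_) (by positivity)
    have h3 : 3 * ε = δ := by rw [hε]; ring
    rw [h3]
    nlinarith [mul_pos h0 hδ, mul_pos hδ hδ]
  have hlast : (P : ℝ) ^ (1 - δ / 2) * c ^ 2 ≤ A₁ * A₂ * (2 : ℝ) ^ (2 * σ) * (P : ℝ) ^ (1 - δ) := by
    calc (P : ℝ) ^ (1 - δ / 2) * c ^ 2 ≤ ((PP P).card : ℝ) * c ^ 2 :=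
          mul_le_mul_of_nonneg_right hcard (by positivity)
      _ ≤ A₁ * A₂ * ((P : ℝ) ^ (1 + 3 * ε)) ^ (2 * (1 / 2 - σ - δ)) * (2 * P : ℝ) ^ (2 * σ) := hkey
      _ = A₁ * A₂ * (((P : ℝ) ^ (1 + 3 * ε)) ^ (2 * (1 / 2 - σ - δ)) * (2 * P : ℝ) ^ (2 * σ)) := by ring
      _ ≤ A₁ * A₂ * ((2 : ℝ) ^ (2 * σ) * (P : ℝ) ^ (1 - δ)) := mul_le_mul_of_nonneg_left hpow (by positivity)
      _ = A₁ * A₂ * (2 : ℝ) ^ (2 * σ) * (P : ℝ) ^ (1 - δ) := by ring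
  have hsplit : (P : ℝ) ^ (1 - δ / 2) = (P : ℝ) ^ (δ / 2) * (P : ℝ) ^ (1 - δ) := by
    rw [← Real.rpow_add hP0]
    congr 1
    ring
  rw [div_lt_iff₀ (by positivity)] at e6
  rw [hsplit] at hlast
  have hR : 0 < (P : ℝ) ^ (1 - δ) := Real.rpow_pos_of_pos hP0 _
  nlinarith [mul_lt_mul_of_pos_right e6 hR]

end Pool.Agent.Lib.MP_d713a4_nt
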